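import Pool.Agent.Lib.MP_86319c_co.CaseLA

set_option autoImplicit false

namespace Pool.Agent.Lib.MP_86319c_co

open Finset

noncomputable section

variable {F : Type} [Field F] [LinearOrder F] [IsStrictOrderedRing F] {ι : Type} [DecidableEq ι]
variable {Γ : Type} [Field Γ] [LinearOrder Γ] [IsStrictOrderedRing Γ]
variable {lv : F → Γ}

theorem casel_lt_of_lt {β : ℕ → Γ} {S : ℕ} (hβ : ∀ j < S, β j < β (j + 1)) {i j : ℕ}
    (hi : i ≤ S) (h : β i < β j) : i < j := by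
  by_contra hc
  exact absurd h (not_lt.2 (le_of_step hβ (not_lt.1 hc) hi))

theorem casel_le_of_le {β : ℕ → Γ} {S : ℕ} (hβ : ∀ j < S, β j < β (j + 1)) {i j : ℕ}
    (hi : i ≤ S) (h : β i ≤ β j) : i ≤ j := by
  by_contra hc
  exact absurd h (not_le.2 (lt_of_step hβ (not_le.1 hc) hi))

omit [Field F] [LinearOrder F] [IsStrictOrderedRing F] [DecidableEq ι] in
/-- A strip of `k` consecutive levels has `k` early points. -/
theorem casel_early {A : Finset ι} {x y : ι → F} {S : ℕ} {β : ℕ → Γ} {t0 t : Γ}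
    (hβ : ∀ j < S, β j < β (j + 1))
    (hearly : ∀ j, 1 ≤ j → j ≤ S → ∃ i ∈ A, lv (y i) = β j ∧ lv (x i) ≤ t0) (ht : t0 ≤ t)
    {u w k : ℕ} (hw : w = u + k) (hu : w ≤ S) :
    k ≤ np A (fun i => β u < lv (y i) ∧ lv (y i) ≤ β w ∧ lv (x i) ≤ t) := by
  classical
  subst hw
  refine le_trans ?_ (nv_le_np A _ fun i => lv (y i))
  have hc : ((Finset.Ioc u (u + k)).image β).card = k := by
    rw [card_image_of_injOn, Nat.card_Ioc, Nat.add_sub_cancel_left]
    intro i hi j hj e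
    have hi' := (mem_Ioc.1 (mem_coe.1 hi)).2
    have hj' := (mem_Ioc.1 (mem_coe.1 hj)).2
    exact le_antisymm (casel_le_of_le hβ (by omega) e.le) (casel_le_of_le hβ (by omega) e.ge)
  refine hc.ge.trans (card_le_nv_of_vals fun v hv => ?_)
  obtain ⟨j, hj, rfl⟩ := mem_image.1 hv
  obtain ⟨h1, h2⟩ := mem_Ioc.1 hj
  obtain ⟨i, hi, e, hs⟩ := hearly j (by omega) (by omega)
  exact ⟨i, hi, ⟨e ▸ lt_of_step hβ h1 (by omega), e ▸ le_of_step hβ h2 hu, hs.trans ht⟩, e⟩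

theorem casel_arith {k B kap sg ph n1 n2 : ℕ} (hk : 1 ≤ k) (hkap : kap = 2 * ((B + 1) * k))
    (hsg : sg = kap ^ 2 * (1 + 2 * k * (2 * B + 3)) + 1) (hph : ph = 2 * (sg * k) * (B + 1))
    (h0 : ph ≤ n1) (h1 : sg * ph ≤ (B + 1) * k * n1 + sg * B)
    (h2 : sg * n1 ≤ (B + 1) * k * n2 + sg * B)
    (h3 : n2 ≤ ph + 2 * (sg * k) * ((B + 1) * (2 * ph) + B)) : False := by
  have hsg1 : 1 ≤ sg := by omega
  have hsk : 1 ≤ sg * k := Nat.mul_le_mul hsg1 hk
  have hB : 2 * (B + 1) ≤ ph := by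
    rw [hph]
    exact Nat.mul_le_mul_right _ (by omega)
  have a1 : sg * (2 * B) ≤ sg * ph := Nat.mul_le_mul_left _ (by omega)
  have a2 : sg * (2 * B) ≤ sg * n1 := Nat.mul_le_mul_left _ (by omega)
  have b1 : sg * ph ≤ kap * n1 := by
    rw [hkap]
    linarith
  have b2 : sg * n1 ≤ kap * n2 := by
    rw [hkap]
    linarith
  have c1 : (B + 1) * (2 * ph) + B ≤ (2 * B + 3) * ph := by
    have : B ≤ ph := by omega
    linarith
  have c2 : n2 ≤ sg * ph * (1 + 2 * k * (2 * B + 3)) := by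
    have d1 : 2 * (sg * k) * ((B + 1) * (2 * ph) + B) ≤ 2 * (sg * k) * ((2 * B + 3) * ph) :=
      Nat.mul_le_mul_left _ c1
    have d2 : ph ≤ sg * ph := Nat.le_mul_of_pos_left _ hsg1
    linarith
  have e1 : sg * (sg * ph) ≤ kap * (kap * n2) :=
    calc sg * (sg * ph) ≤ sg * (kap * n1) := Nat.mul_le_mul_left _ b1
      _ = kap * (sg * n1) := by ring
      _ ≤ kap * (kap * n2) := Nat.mul_le_mul_left _ b2
  have e2 : kap * (kap * n2) ≤ kap * (kap * (sg * ph * (1 + 2 * k * (2 * B + 3)))) :=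
    Nat.mul_le_mul_left _ (Nat.mul_le_mul_left _ c2)
  have e3 : sg * (sg * ph) = kap * (kap * (sg * ph * (1 + 2 * k * (2 * B + 3)))) + sg * ph := by
    calc sg * (sg * ph) = (kap ^ 2 * (1 + 2 * k * (2 * B + 3)) + 1) * (sg * ph) := by rw [← hsg]
      _ = _ := by ring
  have e4 : 1 ≤ sg * ph := Nat.mul_le_mul hsg1 (show 1 ≤ ph by omega)
  omega

/-- Consecutive levels of a stretch are closer than the length of any block. -/
theorem gap_lt_block (hv : IsVal lv) {k B : ℕ} (hk : 1 ≤ k) {A : Finset ι} {x y : ι → F}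
    (hT : Tri k B A x y) (SL S : ℕ) (hS : SL + k * k ≤ S) (β : ℕ → Γ) (t0 t1 t t' : Γ)
    (hβ : ∀ j < S, β j < β (j + 1))
    (hearly : ∀ j, 1 ≤ j → j ≤ S → ∃ i ∈ A, lv (y i) = β j ∧ lv (x i) ≤ t0)
    (hold : ∀ i ∈ A, lv (x i) ≤ t1 → β 0 < lv (y i) → lv (y i) ≤ β S →
      ∃ j, 1 ≤ j ∧ j ≤ S ∧ lv (y i) = β j)
    (ht : t0 ≤ t) (ht' : t' ≤ t1)
    (hblock : B + 1 ≤ nv A (fun i => lv (y i) ≤ β 0 ∧ t < lv (x i) ∧ lv (x i) ≤ t')
      (fun i => lv (x i))) (j : ℕ) (hj : j < SL) : β (j + 1) - β j < t' - t := by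
  classical
  by_contra hc
  rw [not_lt] at hc
  have hSL : SL ≤ S := by omega
  have hstrip : ∀ a : Fin k, ∃ i ∈ A, β (SL + a * k) < lv (y i) ∧
      lv (y i) ≤ β (SL + (a + 1) * k) ∧ t < lv (x i) ∧ lv (x i) ≤ t' := by
    intro a
    by_contra hno
    have ha : ((a : ℕ) + 1) * k ≤ k * k := Nat.mul_le_mul_right _ a.2
    have h1 := L1 hv hk hT (β (SL + a * k)) (β (SL + (a + 1) * k)) t t'
      (casel_early hβ hearly ht (by ring) (by omega)) (fun i hi h1 h2 h3 => by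
        by_contra h4
        exact hno ⟨i, hi, h1, h2, h3, not_lt.1 h4⟩)
    have h0 : β 0 ≤ β (SL + a * k) := le_of_step hβ (Nat.zero_le _) (by nlinarith)
    have h2 := nv_le_nv (A := A) (f := fun i => lv (x i))
      (Φ := fun i => lv (y i) ≤ β 0 ∧ t < lv (x i) ∧ lv (x i) ≤ t')
      (Ψ := fun i => lv (y i) ≤ β (SL + a * k) ∧ t < lv (x i) ∧ lv (x i) ≤ t')
      fun i _ h => ⟨h.1.trans h0, h.2⟩
    omega
  choose p hpA hp1 hp2 hp3 hp4 using hstrip
  have hlt : ∀ a a' : Fin k, a < a' → lv (y (p a)) < lv (y (p a')) := by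
    intro a a' h
    have ha : ((a : ℕ) + 1) * k ≤ a' * k := Nat.mul_le_mul_right _ h
    have ha' : (a' : ℕ) * k ≤ k * k := Nat.mul_le_mul_right _ a'.2.le
    exact ((hp2 a).trans (le_of_step hβ (by omega) (by omega))).trans_lt (hp1 a')
  have hinj : Function.Injective p := by
    intro a a' e
    rcases lt_trichotomy a a' with h | h | h
    · exact absurd (hlt a a' h) (by rw [e]; exact lt_irrefl _)
    · exact h
    · exact absurd (hlt a' a h) (by rw [e]; exact lt_irrefl _)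
  have h3 := L3 hv hk hT t t' (β j) (β (j + 1) - β j) hc (by
    have hc' : (univ.image p).card = k := by
      rw [card_image_of_injective _ hinj, card_univ, Fintype.card_fin]
    refine hc'.ge.trans (card_le_np fun i hi => ?_)
    obtain ⟨a, -, rfl⟩ := mem_image.1 hi
    have ha' : (a : ℕ) * k ≤ k * k := Nat.mul_le_mul_right _ a.2.le
    refine ⟨hpA a, hp3 a, hp4 a, ?_⟩
    rw [add_sub_cancel]
    exact (le_of_step hβ (by omega) (by omega)).trans (hp1 a).le) (by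
    intro i hi _ h2 h3
    rw [add_sub_cancel]
    rcases le_or_gt (lv (y i)) (β S) with h4 | h4
    · obtain ⟨j', _, hj', e⟩ := hold i hi (h2.trans ht')
        ((le_of_step hβ (Nat.zero_le j) (by omega)).trans_lt h3) h4
      rw [e] at h3 ⊢
      exact le_of_step hβ (casel_lt_of_lt hβ (by omega) h3) hj'
    · exact (le_of_step hβ (by omega) le_rfl).trans h4.le)
  have h0 : β 0 ≤ β j := le_of_step hβ (Nat.zero_le _) (by omega)
  have h2 := nv_le_nv (A := A) (f := fun i => lv (x i))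
    (Φ := fun i => lv (y i) ≤ β 0 ∧ t < lv (x i) ∧ lv (x i) ≤ t')
    (Ψ := fun i => t < lv (x i) ∧ lv (x i) ≤ t' ∧ lv (y i) ≤ β j)
    fun i _ h => ⟨h.2.1, h.2.2, h.1.trans h0⟩
  omega

theorem caseL (hv : IsVal lv) (k B : ℕ) (hk : 1 ≤ k) : ∃ SL M1 : ℕ,
    ∀ (A : Finset ι) (x y : ι → F), Tri k B A x y → ∀ (S : ℕ) (β : ℕ → Γ) (t0 t1 : Γ),
    SL + k * k ≤ S → (∀ j < S, β j < β (j + 1)) →
    (∀ j, 1 ≤ j → j ≤ S → ∃ i ∈ A, lv (y i) = β j ∧ lv (x i) ≤ t0) →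
    M1 ≤ nv A (fun i => lv (y i) ≤ β 0 ∧ t0 < lv (x i) ∧ lv (x i) ≤ t1) (fun i => lv (x i)) →
    (∀ i ∈ A, lv (x i) ≤ t1 → β 0 < lv (y i) → lv (y i) ≤ β S →
      ∃ j, 1 ≤ j ∧ j ≤ S ∧ lv (y i) = β j) →
    (∀ s : Γ, t0 < s → s ≤ t1 → np A (fun i => lv (x i) = s ∧ lv (y i) ≤ β SL) ≤ k) → False := by
  obtain ⟨kap, hkap⟩ : ∃ kap, kap = 2 * ((B + 1) * k) := ⟨_, rfl⟩
  obtain ⟨sg, hsg⟩ : ∃ sg, sg = kap ^ 2 * (1 + 2 * k * (2 * B + 3)) + 1 := ⟨_, rfl⟩
  obtain ⟨SL, hSL⟩ : ∃ SL, SL = 2 * (sg * k) := ⟨_, rfl⟩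
  obtain ⟨ph, hph⟩ : ∃ ph, ph = SL * (B + 1) := ⟨_, rfl⟩
  refine ⟨SL, 3 * ph, fun A x y hT S β t0 t1 hS hβ hearly hM hold hnar => ?_⟩
  have hsg1 : 1 ≤ sg := by omega
  have hksk : k ≤ sg * k := Nat.le_mul_of_pos_left _ hsg1
  have hSLph : SL ≤ ph := hph ▸ Nat.le_mul_of_pos_right _ (Nat.succ_pos B)
  have hSLS : SL ≤ S := by omega
  obtain ⟨θ, θ0, θlt, θV, -, θcnt, -⟩ := exists_enum
    (vals A (fun i => lv (y i) ≤ β 0 ∧ t0 < lv (x i) ∧ lv (x i) ≤ t1) (fun i => lv (x i))) t0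
    (fun v hv => by
      obtain ⟨i, _, h, rfl⟩ := mem_vals.1 hv
      exact h.2.1) (3 * ph) hM
  have θlo : ∀ a, a ≤ 3 * ph → t0 ≤ θ a := fun a ha => θ0 ▸ le_of_step θlt (Nat.zero_le a) ha
  have θhi : ∀ a, 1 ≤ a → a ≤ 3 * ph → θ a ≤ t1 := fun a h1 h2 => by
    obtain ⟨i, _, h, e⟩ := mem_vals.1 (θV a h1 h2)
    exact e ▸ h.2.2
  have hcnt : ∀ a b n, b = a + n → 1 ≤ b → b ≤ 3 * ph →
      nv A (fun i => lv (y i) ≤ β 0 ∧ θ a < lv (x i) ∧ lv (x i) ≤ θ b) (fun i => lv (x i)) = n := by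
    intro a b n e h1 h2
    have h3 := θcnt a b (by omega) h2
    have h4 : fl (vals A (fun i => lv (y i) ≤ β 0 ∧ t0 < lv (x i) ∧ lv (x i) ≤ t1)
        (fun i => lv (x i))) (fun v => θ a < v ∧ v ≤ θ b) =
        vals A (fun i => lv (y i) ≤ β 0 ∧ θ a < lv (x i) ∧ lv (x i) ≤ θ b)
          (fun i => lv (x i)) := by
      ext v
      rw [mem_fl, mem_vals, mem_vals]
      constructor
      · rintro ⟨⟨i, hi, h, rfl⟩, h'⟩
        exact ⟨i, hi, ⟨h.1, h'⟩, rfl⟩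
      · rintro ⟨i, hi, h, rfl⟩
        exact ⟨⟨i, hi, ⟨h.1, (θlo a (by omega)).trans_lt h.2.1, h.2.2.trans (θhi b h1 h2)⟩, rfl⟩,
          h.2⟩
    unfold np at h3
    rw [h4] at h3
    unfold nv
    omega
  have htel : ∀ n, n ≤ SL → β n - β 0 ≤ θ (ph + n * (B + 1)) - θ ph := by
    intro n
    induction n with
    | zero => intro _; simp
    | succ n ih =>
      intro hn
      have h1 := ih (by omega)
      have h2 : (n + 1) * (B + 1) ≤ ph := hph ▸ Nat.mul_le_mul_right _ hn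
      have h2' : (n + 1) * (B + 1) = n * (B + 1) + (B + 1) := by ring
      have h3 := gap_lt_block hv hk hT SL S hS β t0 t1 (θ (ph + n * (B + 1)))
        (θ (ph + (n + 1) * (B + 1))) hβ hearly hold (θlo _ (by omega))
        (θhi _ (by omega) (by omega)) (hcnt _ _ (B + 1) (by omega) (by omega) (by omega)).ge n hn
      linarith
  have hlen : ∀ n, n ≤ SL → β n - β 0 ≤ θ (2 * ph) - θ ph := fun n hn => by
    have h1 := htel n hn
    have h2 : n * (B + 1) ≤ ph := hph ▸ Nat.mul_le_mul_right _ hn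
    have h3 : θ (ph + n * (B + 1)) ≤ θ (2 * ph) := le_of_step θlt (by omega) (by omega)
    linarith
  have hnar' : ∀ n, n ≤ SL → ∀ s : Γ, θ (2 * ph) < s → s ≤ θ (3 * ph) →
      np A (fun i => lv (x i) = s ∧ lv (y i) ≤ β n) ≤ k := fun n hn s h1 h2 =>
    (np_le_np fun i _ h => ⟨h.1, h.2.trans (le_of_step hβ hn hSLS)⟩).trans
      (hnar s ((θlo _ (by omega)).trans_lt h1) (h2.trans (θhi _ (by omega) le_rfl)))
  have hgrow : ∀ u, u + sg * k ≤ SL →
      sg * nv A (fun i => lv (y i) ≤ β u ∧ θ (2 * ph) < lv (x i) ∧ lv (x i) ≤ θ (3 * ph))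
        (fun i => lv (x i)) ≤
      (B + 1) * k * nv A (fun i => lv (y i) ≤ β (u + sg * k) ∧ θ (2 * ph) < lv (x i) ∧
        lv (x i) ≤ θ (3 * ph)) (fun i => lv (x i)) + sg * B := by
    intro u hu
    have hstep : ∀ a < sg, u + (a + 1) * k = u + a * k + k ∧ u + (a + 1) * k ≤ S := fun a ha => by
      have : (a + 1) * k ≤ sg * k := Nat.mul_le_mul_right _ ha
      exact ⟨by ring, by omega⟩
    have := growth_count hv hk hT sg (fun a => β (u + a * k)) (θ (2 * ph)) (θ (3 * ph))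
      (fun a ha => lt_of_step hβ (by have := (hstep a ha).1; omega) (hstep a ha).2)
      (fun a ha => casel_early hβ hearly (θlo _ (by omega)) (hstep a ha).1 (hstep a ha).2)
      (hnar' _ hu)
    simpa only [zero_mul, add_zero] using this
  have hn0 := hcnt (2 * ph) (3 * ph) ph (by ring) (by omega) le_rfl
  have hup : ∀ n, n ≤ SL →
      nv A (fun i => lv (y i) ≤ β n ∧ θ (2 * ph) < lv (x i) ∧ lv (x i) ≤ θ (3 * ph))
        (fun i => lv (x i)) ≤ ph + n * ((B + 1) * (2 * ph) + B) := by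
    intro n
    induction n with
    | zero => intro _; rw [hn0]; simp
    | succ n ih =>
      intro hn
      have h1 := ih (by omega)
      have h2 := row_count hv hk hT (β 0) (β (n + 1)) (θ ph) (θ (2 * ph)) (θ (3 * ph))
        (lt_of_step hβ (Nat.succ_pos n) (by omega)) (hlen _ hn) (by
          have h5 := hcnt 0 ph ph (by ring) (by omega) (by omega)
          have h6 := nv_le_np A
            (fun i => lv (y i) ≤ β 0 ∧ θ 0 < lv (x i) ∧ lv (x i) ≤ θ ph) (fun i => lv (x i))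
          have h7 := np_le_np (A := A)
            (Φ := fun i => lv (y i) ≤ β 0 ∧ θ 0 < lv (x i) ∧ lv (x i) ≤ θ ph)
            (Ψ := fun i => lv (y i) ≤ β 0 ∧ lv (x i) ≤ θ ph) fun i _ h => ⟨h.1, h.2.2⟩
          omega)
      rw [hcnt ph (3 * ph) (2 * ph) (by ring) (by omega) le_rfl] at h2
      have h3 := nv_le_add (A := A) (f := fun i => lv (x i))
        (Θ := fun i => lv (y i) ≤ β (n + 1) ∧ θ (2 * ph) < lv (x i) ∧ lv (x i) ≤ θ (3 * ph))
        (Φ := fun i => lv (y i) ≤ β n ∧ θ (2 * ph) < lv (x i) ∧ lv (x i) ≤ θ (3 * ph))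
        (Ψ := fun i => lv (y i) = β (n + 1) ∧ θ (2 * ph) < lv (x i) ∧ lv (x i) ≤ θ (3 * ph))
        (fun i hi h => by
          rcases le_or_gt (lv (y i)) (β n) with h4 | h4
          · exact Or.inl ⟨h4, h.2⟩
          · obtain ⟨j, _, hj, e⟩ := hold i hi (h.2.2.trans (θhi _ (by omega) le_rfl))
              ((le_of_step hβ (Nat.zero_le n) (by omega)).trans_lt h4)
              (h.1.trans (le_of_step hβ (by omega) le_rfl))
            have h5 : n < j := casel_lt_of_lt hβ (by omega) (e ▸ h4)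
            have h6 : j ≤ n + 1 := casel_le_of_le hβ hj (e ▸ h.1)
            exact Or.inr ⟨by rw [e, le_antisymm h6 h5], h.2⟩)
      rw [add_mul, one_mul]
      omega
  have g1 := hgrow 0 (by omega)
  have g2 := hgrow (sg * k) (by omega)
  rw [hn0, zero_add] at g1
  have g3 := hup (sg * k + sg * k) (by omega)
  refine casel_arith hk hkap hsg (by rw [hph, hSL]) ?_ g1 g2 (by rwa [two_mul (sg * k)])
  exact hn0.ge.trans
    (nv_le_nv fun i _ h => ⟨h.1.trans (le_of_step hβ (Nat.zero_le _) (by omega)), h.2⟩)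

end

end Pool.Agent.Lib.MP_86319c_co
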