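import Pool.Agent.Lib.MP_86319c_co.Defs

set_option autoImplicit false

namespace Pool.Agent.Lib.MP_86319c_co

open Finset

noncomputable section

variable {ι : Type} [DecidableEq ι]
variable {Γ : Type} [Field Γ] [LinearOrder Γ] [IsStrictOrderedRing Γ]

theorem le_of_step {b : ℕ → Γ} {J : ℕ} (hb : ∀ j < J, b j < b (j + 1)) {i j : ℕ} (hij : i ≤ j)
    (hj : j ≤ J) : b i ≤ b j := by
  induction j, hij using Nat.le_induction with
  | base => exact le_rfl
  | succ j _ ih => exact le_trans (ih (by omega)) (hb j (by omega)).le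

theorem lt_of_step {b : ℕ → Γ} {J : ℕ} (hb : ∀ j < J, b j < b (j + 1)) {i j : ℕ} (hij : i < j)
    (hj : j ≤ J) : b i < b j :=
  lt_of_lt_of_le (hb i (by omega)) (le_of_step hb hij hj)

theorem cover (X Y : Finset Γ) (a b : Γ) (B : ℕ) (hX : ∀ v ∈ X, a < v ∧ v ≤ b)
    (h : ∀ t t' : Γ, a ≤ t → t' ≤ b → (∀ v ∈ Y, t < v → t' < v) →
      np X (fun v => t < v ∧ v ≤ t') ≤ B) :
    X.card ≤ (B + 1) * Y.card + B := by
  induction Y using Finset.induction_on_max generalizing X b with
  | empty =>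
    have k := h a b le_rfl le_rfl (by simp)
    simpa using (card_le_np fun v hv => ⟨hv, hX v hv⟩).trans k
  | insert m Y hm ih =>
    have hmY : m ∉ Y := fun k => lt_irrefl _ (hm m k)
    have k1 : np X (fun v => m < v) ≤ B := by
      refine le_trans (np_le_np fun v hv k => ⟨max_lt (hX v hv).1 k, (hX v hv).2⟩)
        (h (max a m) b (le_max_left _ _) le_rfl fun v hv k => ?_)
      rcases mem_insert.1 hv with rfl | hv
      · exact absurd (le_max_right a v) (not_le.2 k)
      · exact absurd ((hm v hv).le.trans (le_max_right a m)) (not_le.2 k)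
    have k2 : np X (fun v => v = m) ≤ 1 :=
      (np_le_of_subset (S := {m}) fun v _ k => mem_singleton.2 k).trans (card_singleton m).le
    have k3 : np X (fun v => v < m) ≤ (B + 1) * Y.card + B := by
      rcases (fl X fun v => v < m).eq_empty_or_nonempty with he | hne
      · rw [np, he]
        simp
      · have hb := mem_fl.1 (max'_mem _ hne)
        refine ih (fl X fun v => v < m) ((fl X fun v => v < m).max' hne)
          (fun v hv => ⟨(hX v (mem_fl.1 hv).1).1, le_max' _ v hv⟩) fun t t' ht ht' hY => ?_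
        refine le_trans (np_mono fun v hv k => ⟨(mem_fl.1 hv).1, k⟩)
          (h t t' ht (ht'.trans (hX _ hb.1).2) fun v hv k => ?_)
        rcases mem_insert.1 hv with rfl | hv
        · exact ht'.trans_lt hb.2
        · exact hY v hv k
    have k4 : X.card ≤ np X (fun v => v < m) + np X (fun v => m ≤ v) := by
      rw [← np_true]
      exact np_le_add fun v _ _ => lt_or_ge v m
    have k5 : np X (fun v => m ≤ v) ≤ np X (fun v => v = m) + np X (fun v => m < v) :=
      np_le_add fun v _ k => k.eq_or_lt.imp Eq.symm id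
    rw [card_insert_of_notMem hmY, Nat.mul_succ]
    omega

/-- A gap of length `(b' - b) / (C + 1)` free of at most `C` given values. -/
theorem exists_gap (V : Finset Γ) (C : ℕ) (hV : V.card ≤ C) (b b' : Γ) (hb : b < b') :
    ∃ β g : Γ, ((C : Γ) + 1) * g = b' - b ∧ b ≤ β ∧ β + g ≤ b' ∧ ∀ v ∈ V, β < v → β + g ≤ v := by
  have hC : (0 : Γ) < (C : Γ) + 1 := by positivity
  obtain ⟨g, hg⟩ : ∃ g : Γ, ((C : Γ) + 1) * g = b' - b :=
    ⟨(b' - b) / (C + 1), mul_div_cancel₀ _ hC.ne'⟩
  have hg0 : 0 < g := pos_of_mul_pos_left (by rw [mul_comm, hg]; exact sub_pos.2 hb) hC.le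
  by_contra hn
  push Not at hn
  have key : ∀ i : ℕ, ∃ v, i ∈ range (C + 1) → v ∈ V ∧ b + i * g < v ∧ v < b + i * g + g := by
    intro i
    by_cases hi : i ∈ range (C + 1)
    · have hi' : (i : Γ) ≤ C := by exact_mod_cast Nat.lt_succ_iff.1 (mem_range.1 hi)
      obtain ⟨v, hv, k⟩ := hn (b + i * g) g hg (le_add_of_nonneg_right (by positivity))
        (by nlinarith)
      exact ⟨v, fun _ => ⟨hv, k⟩⟩
    · exact ⟨b, fun k => absurd k hi⟩
  choose f hf using key
  have hlt : ∀ i ∈ range (C + 1), ∀ j ∈ range (C + 1), i < j → f i < f j := by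
    intro i hi j hj hij
    have k : (i : Γ) + 1 ≤ j := by exact_mod_cast hij
    nlinarith [(hf i hi).2.2, (hf j hj).2.1]
  have k := card_le_card_of_injOn (s := range (C + 1)) (t := V) f (fun i hi => (hf i hi).1)
    fun i hi j hj hij => by
      rcases lt_trichotomy i j with k | k | k
      · exact absurd hij (hlt i hi j hj k).ne
      · exact k
      · exact absurd hij (hlt j hj i hi k).ne'
  rw [card_range] at k
  omega

omit [Field Γ] [IsStrictOrderedRing Γ] in
theorem combB_np (V : Finset Γ) (i : Fin V.card) :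
    np V (fun v => v ≤ V.orderEmbOfFin rfl i) = i + 1 := by
  have k : fl V (fun v => v ≤ V.orderEmbOfFin rfl i) =
      (Iic i).map (V.orderEmbOfFin rfl).toEmbedding := by
    ext v
    rw [mem_fl, mem_map]
    constructor
    · rintro ⟨hv, hle⟩
      have hv' : v ∈ Set.range (V.orderEmbOfFin rfl) := by
        rw [range_orderEmbOfFin]
        exact hv
      obtain ⟨j, rfl⟩ := hv'
      exact ⟨j, mem_Iic.2 ((V.orderEmbOfFin rfl).le_iff_le.1 hle), rfl⟩
    · rintro ⟨j, hj, rfl⟩
      exact ⟨orderEmbOfFin_mem _ _ _, (V.orderEmbOfFin rfl).monotone (mem_Iic.1 hj)⟩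
  rw [np, k, card_map, Fin.card_Iic]

omit [Field Γ] [IsStrictOrderedRing Γ] in
theorem combB_split (V : Finset Γ) (t : Γ) :
    np V (fun v => t < v) + np V (fun v => v ≤ t) = V.card := by
  rw [← np_true]
  exact le_antisymm
    (add_le_np (fun _ _ _ => trivial) (fun _ _ _ => trivial) fun v _ k k' => absurd k' (not_le.2 k))
    (np_le_add fun v _ _ => lt_or_ge t v)

/-- A threshold with exactly `m` values below or at it. -/
theorem exists_threshold (V : Finset Γ) (m : ℕ) (h1 : 1 ≤ m) (h2 : m ≤ V.card) :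
    ∃ t ∈ V, np V (fun v => v ≤ t) = m ∧ np V (fun v => t < v) + m = V.card := by
  have k := combB_np V ⟨m - 1, by omega⟩
  have k2 := combB_split V (V.orderEmbOfFin rfl ⟨m - 1, by omega⟩)
  refine ⟨V.orderEmbOfFin rfl ⟨m - 1, by omega⟩, orderEmbOfFin_mem _ _ _, ?_, ?_⟩
  · rw [k]
    simp only
    omega
  · rw [k] at k2
    simp only at k2
    omega

/-- Increasing enumeration of the first `m` elements of `V`, started at `t0`. -/
theorem exists_enum (V : Finset Γ) (t0 : Γ) (hV : ∀ v ∈ V, t0 < v) (m : ℕ) (hm : m ≤ V.card) :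
    ∃ θ : ℕ → Γ, θ 0 = t0 ∧ (∀ a < m, θ a < θ (a + 1)) ∧ (∀ a, 1 ≤ a → a ≤ m → θ a ∈ V) ∧
      (∀ v ∈ V, v ≤ θ m → ∃ a, 1 ≤ a ∧ a ≤ m ∧ v = θ a) ∧
      (∀ a b, a ≤ b → b ≤ m → np V (fun v => θ a < v ∧ v ≤ θ b) + a = b) ∧
      np V (fun v => θ m < v) + m = V.card := by
  obtain ⟨θ, h0, h1⟩ : ∃ θ : ℕ → Γ, θ 0 = t0 ∧ ∀ a (ha : a < V.card),
      θ (a + 1) = V.orderEmbOfFin rfl ⟨a, ha⟩ :=
    ⟨fun a => if k : 1 ≤ a ∧ a ≤ V.card then V.orderEmbOfFin rfl ⟨a - 1, by omega⟩ else t0,
      by simp, fun a ha => by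
        simp only
        rw [dif_pos ⟨by omega, by omega⟩]
        rfl⟩
  have hstep : ∀ a < m, θ a < θ (a + 1) := by
    intro a ha
    rw [h1 a (by omega)]
    rcases a with _ | a
    · rw [h0]
      exact hV _ (orderEmbOfFin_mem _ _ _)
    · rw [h1 a (by omega)]
      exact (V.orderEmbOfFin rfl).strictMono (by simp)
  have hnp : ∀ a ≤ m, np V (fun v => v ≤ θ a) = a := by
    intro a ha
    rcases a with _ | a
    · rw [h0]
      exact np_eq_zero fun v hv => not_le.2 (hV v hv)
    · rw [h1 a (by omega), combB_np]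
  refine ⟨θ, h0, hstep, fun a k1 k2 => ?_, fun v hv k => ?_, fun a b hab hb => ?_, ?_⟩
  · obtain ⟨a, rfl⟩ : ∃ a', a = a' + 1 := ⟨a - 1, by omega⟩
    rw [h1 a (by omega)]
    exact orderEmbOfFin_mem _ _ _
  · have hv' : v ∈ Set.range (V.orderEmbOfFin rfl) := by
      rw [range_orderEmbOfFin]
      exact hv
    obtain ⟨i, rfl⟩ := hv'
    have k1 := combB_np V i
    have k2 : np V (fun v => v ≤ V.orderEmbOfFin rfl i) ≤ np V (fun v => v ≤ θ m) :=
      np_le_np fun v _ k' => k'.trans k
    rw [k1, hnp m le_rfl] at k2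
    exact ⟨i + 1, by omega, k2, (h1 i i.2).symm⟩
  · have hle : θ a ≤ θ b := le_of_step hstep hab hb
    have k1 : np V (fun v => v ≤ θ b) ≤
        np V (fun v => θ a < v ∧ v ≤ θ b) + np V (fun v => v ≤ θ a) :=
      np_le_add fun v _ k => (lt_or_ge (θ a) v).imp (fun k' => ⟨k', k⟩) id
    have k2 : np V (fun v => θ a < v ∧ v ≤ θ b) + np V (fun v => v ≤ θ a) ≤
        np V (fun v => v ≤ θ b) :=
      add_le_np (fun v _ k => k.2) (fun v _ k => k.trans hle) fun v _ k k' =>
        absurd k' (not_le.2 k.1)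
    rw [hnp a (by omega), hnp b hb] at k1 k2
    omega
  · rw [← combB_split V (θ m), hnp m le_rfl]

theorem mirsky (r : ι → ι → Prop) (htr : ∀ a b c, r a b → r b c → r a c) (hirr : ∀ a, ¬ r a a)
    (Λ : ℕ) (R : Finset ι)
    (hno : ∀ C : Finset ι, C ⊆ R → (∀ p ∈ C, ∀ q ∈ C, p ≠ q → r p q ∨ r q p) → C.card ≤ Λ) :
    ∃ R' : Finset ι, R' ⊆ R ∧ R.card ≤ Λ * R'.card ∧ ∀ p ∈ R', ∀ q ∈ R', ¬ r p q := by
  induction Λ generalizing R with
  | zero =>
    refine ⟨∅, empty_subset _, ?_, by simp⟩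
    rcases R.eq_empty_or_nonempty with rfl | ⟨p, hp⟩
    · simp
    · have := hno {p} (singleton_subset_iff.2 hp) (by simp)
      simp at this
  | succ Λ ih =>
    obtain ⟨Mx, hMx⟩ : ∃ Mx : Finset ι, ∀ p, p ∈ Mx ↔ p ∈ R ∧ ∀ q ∈ R, ¬ r p q :=
      ⟨fl R fun p => ∀ q ∈ R, ¬ r p q, fun _ => mem_fl⟩
    have hsub : Mx ⊆ R := fun p hp => ((hMx p).1 hp).1
    have hanti : ∀ p ∈ Mx, ∀ q ∈ Mx, ¬ r p q := fun p hp q hq => ((hMx p).1 hp).2 q (hsub hq)
    obtain ⟨R', h1, h2, h3⟩ := ih (R \ Mx) fun C hC hch => by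
      rcases C.eq_empty_or_nonempty with rfl | hne
      · simp
      obtain ⟨p, hp, hmax⟩ := exists_max_image C (fun p => np C fun q => r q p) hne
      have htop : ∀ q ∈ C, ¬ r p q := by
        intro q hq hr
        have k1 : (insert p (fl C fun z => r z p)).card ≤ np C fun z => r z q := by
          refine card_le_np fun z hz => ?_
          rcases mem_insert.1 hz with rfl | hz
          · exact ⟨hp, hr⟩
          · exact ⟨(mem_fl.1 hz).1, htr _ _ _ (mem_fl.1 hz).2 hr⟩
        have k0 : p ∉ fl C fun z => r z p := fun k => hirr p (mem_fl.1 k).2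
        rw [card_insert_of_notMem k0] at k1
        have k2 := hmax q hq
        unfold np at k1 k2
        omega
      obtain ⟨hpR, hpM⟩ := mem_sdiff.1 (hC hp)
      obtain ⟨z, hz, hr⟩ : ∃ z ∈ R, r p z := by
        by_contra hn
        push Not at hn
        exact hpM ((hMx p).2 ⟨hpR, hn⟩)
      have hzC : z ∉ C := fun k => htop z k hr
      have hall : ∀ q ∈ C, r q z := by
        intro q hq
        by_cases k : q = p
        · exact k ▸ hr
        · exact htr _ _ _ ((hch q hq p hp k).resolve_right (htop q hq)) hr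
      have k := hno (insert z C) (insert_subset hz (hC.trans sdiff_subset)) (by
        intro a ha b hb hab
        rcases mem_insert.1 ha with k1 | k1 <;> rcases mem_insert.1 hb with k2 | k2
        · exact absurd (k1.trans k2.symm) hab
        · exact Or.inr (k1 ▸ hall b k2)
        · exact Or.inl (k2 ▸ hall a k1)
        · exact hch a k1 b k2 hab)
      rw [card_insert_of_notMem hzC] at k
      omega
    have k := card_sdiff_add_card_eq_card hsub
    rcases le_total R'.card Mx.card with hle | hle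
    · refine ⟨Mx, hsub, ?_, hanti⟩
      have := Nat.mul_le_mul_left Λ hle
      rw [Nat.succ_mul]
      omega
    · refine ⟨R', h1.trans sdiff_subset, ?_, h3⟩
      rw [Nat.succ_mul]
      omega

end

end Pool.Agent.Lib.MP_86319c_co
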