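import Pool.Agent.Lib.MP_86319c_co.LA
import Pool.Agent.Lib.MP_86319c_co.CombB

set_option autoImplicit false

namespace Pool.Agent.Lib.MP_86319c_co

open Finset

noncomputable section

variable {F : Type} [Field F] [LinearOrder F] [IsStrictOrderedRing F] {ι : Type} [DecidableEq ι]
variable {Γ : Type} [Field Γ] [LinearOrder Γ] [IsStrictOrderedRing Γ]
variable {lv : F → Γ}

/-- A strip with `k` early points meets a positive share of the times of the lower points. -/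
theorem strip_count (hv : IsVal lv) {k B : ℕ} (hk : 1 ≤ k) {A : Finset ι} {x y : ι → F}
    (hT : Tri k B A x y) (b0 b b' t t' : Γ) (hb0 : b0 ≤ b)
    (hearly : k ≤ np A (fun i => b < lv (y i) ∧ lv (y i) ≤ b' ∧ lv (x i) ≤ t)) :
    nv A (fun i => lv (y i) ≤ b0 ∧ t < lv (x i) ∧ lv (x i) ≤ t') (fun i => lv (x i)) ≤
      (B + 1) * nv A (fun i => b < lv (y i) ∧ lv (y i) ≤ b' ∧ t < lv (x i) ∧ lv (x i) ≤ t')
        (fun i => lv (x i)) + B := by
  refine cover _ _ t t' B (fun v hv' => ?_) (fun τ τ' h1 h2 h3 => ?_)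
  · obtain ⟨i, -, hi, rfl⟩ := mem_vals.1 hv'
    exact hi.2
  · refine le_trans (card_le_nv_of_vals fun v hv' => ?_) (L1 hv hk hT b b' τ τ'
      (hearly.trans (np_le_np fun i _ hi => ⟨hi.1, hi.2.1, hi.2.2.trans h1⟩))
      fun i hi a1 a2 a3 => ?_)
    · obtain ⟨hv1, hv2⟩ := mem_fl.1 hv'
      obtain ⟨i, hi, hp, rfl⟩ := mem_vals.1 hv1
      exact ⟨i, hi, ⟨hp.1.trans hb0, hv2⟩, rfl⟩
    · rcases le_or_gt (lv (x i)) t' with h4 | h4
      · exact h3 _ (mem_vals.2 ⟨i, hi, ⟨a1, a2, h1.trans_lt a3, h4⟩, rfl⟩) a3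
      · exact h2.trans_lt h4

/-- The points of one level whose diagonals land in a window meet few times. -/
theorem row_count (hv : IsVal lv) {k B : ℕ} (hk : 1 ≤ k) {A : Finset ι} {x y : ι → F}
    (hT : Tri k B A x y) (E h t1 t2 t3 : Γ) (hE : E < h) (hlen : h - E ≤ t2 - t1)
    (hearly : k ≤ np A (fun i => lv (y i) ≤ E ∧ lv (x i) ≤ t1)) :
    nv A (fun i => lv (y i) = h ∧ t2 < lv (x i) ∧ lv (x i) ≤ t3) (fun i => lv (x i)) ≤
      (B + 1) * nv A (fun i => lv (y i) ≤ E ∧ t1 < lv (x i) ∧ lv (x i) ≤ t3)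
        (fun i => lv (x i)) + B := by
  refine le_trans (nv_le_of_determined (g := fun i => lv (x i) - lv (y i) + E)
    fun i _ j _ hi hj hij => ?_) ?_
  · have h1 := hi.1
    have h2 := hj.1
    have h3 : lv (x i) - lv (y i) + E = lv (x j) - lv (y j) + E := hij
    show lv (x i) = lv (x j)
    linarith
  refine cover _ _ t1 t3 B (fun v hv' => ?_) (fun τ τ' h1 h2 h3 => ?_)
  · obtain ⟨i, -, ⟨a1, a2, a3⟩, rfl⟩ := mem_vals.1 hv'
    constructor
    · show t1 < lv (x i) - lv (y i) + E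
      linarith
    · show lv (x i) - lv (y i) + E ≤ t3
      linarith
  · refine le_trans (card_le_nv_of_vals fun v hv' => ?_) (L2 hv hk hT E τ τ'
      (hearly.trans (np_le_np fun i _ hi => ⟨hi.1, hi.2.trans h1⟩))
      fun i hi a1 a3 => ?_)
    · obtain ⟨hv1, hv2⟩ := mem_fl.1 hv'
      obtain ⟨i, hi, hp, rfl⟩ := mem_vals.1 hv1
      exact ⟨i, hi, ⟨hE.trans_eq hp.1.symm, hv2⟩, rfl⟩
    · rcases le_or_gt (lv (x i)) t3 with h4 | h4
      · exact h3 _ (mem_vals.2 ⟨i, hi, ⟨a1, h1.trans_lt a3, h4⟩, rfl⟩) a3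
      · exact h2.trans_lt h4

/-- `σ` strips between two levels force more times below the upper level. -/
theorem growth_count (hv : IsVal lv) {k B : ℕ} (hk : 1 ≤ k) {A : Finset ι} {x y : ι → F}
    (hT : Tri k B A x y) (σ : ℕ) (c : ℕ → Γ) (t t' : Γ) (hc : ∀ a < σ, c a < c (a + 1))
    (hearly : ∀ a < σ, k ≤ np A (fun i => c a < lv (y i) ∧ lv (y i) ≤ c (a + 1) ∧ lv (x i) ≤ t))
    (hnarrow : ∀ s : Γ, t < s → s ≤ t' → np A (fun i => lv (x i) = s ∧ lv (y i) ≤ c σ) ≤ k) :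
    σ * nv A (fun i => lv (y i) ≤ c 0 ∧ t < lv (x i) ∧ lv (x i) ≤ t') (fun i => lv (x i)) ≤
      (B + 1) * k * nv A (fun i => lv (y i) ≤ c σ ∧ t < lv (x i) ∧ lv (x i) ≤ t')
        (fun i => lv (x i)) + σ * B := by
  classical
  have h1 : ∀ m ≤ σ, ∑ a ∈ range m, nv A (fun i => c a < lv (y i) ∧ lv (y i) ≤ c (a + 1) ∧
      t < lv (x i) ∧ lv (x i) ≤ t') (fun i => lv (x i)) ≤
      np A (fun i => lv (y i) ≤ c m ∧ t < lv (x i) ∧ lv (x i) ≤ t') := by
    intro m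
    induction m with
    | zero => intro _; simp
    | succ m ih =>
      intro hm
      rw [sum_range_succ]
      refine le_trans (add_le_add (ih (by omega)) (nv_le_np _ _ _)) (add_le_np ?_ ?_ ?_)
      · exact fun i _ hi => ⟨hi.1.trans (hc m (by omega)).le, hi.2⟩
      · exact fun i _ hi => hi.2
      · exact fun i _ hi hj => absurd hi.1 (not_le.2 hj.1)
  have h2 : np A (fun i => lv (y i) ≤ c σ ∧ t < lv (x i) ∧ lv (x i) ≤ t') ≤
      k * nv A (fun i => lv (y i) ≤ c σ ∧ t < lv (x i) ∧ lv (x i) ≤ t') (fun i => lv (x i)) := by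
    have a1 := card_le_mul_card_image (f := fun i => lv (x i))
      (fl A (fun i => lv (y i) ≤ c σ ∧ t < lv (x i) ∧ lv (x i) ≤ t')) k (fun v hv' => by
        obtain ⟨j, hj, rfl⟩ := mem_image.1 hv'
        have hj' := (mem_fl.1 hj).2
        refine le_trans (card_le_np fun i hi => ?_) (hnarrow _ hj'.2.1 hj'.2.2)
        obtain ⟨b1, b2⟩ := mem_filter.1 hi
        exact ⟨(mem_fl.1 b1).1, b2, (mem_fl.1 b1).2.1⟩)
    refine a1.trans (Nat.mul_le_mul_left k (card_le_nv_of_vals fun v hv' => ?_))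
    obtain ⟨j, hj, rfl⟩ := mem_image.1 hv'
    exact ⟨j, (mem_fl.1 hj).1, (mem_fl.1 hj).2, rfl⟩
  have h3 : ∑ _a ∈ range σ, nv A (fun i => lv (y i) ≤ c 0 ∧ t < lv (x i) ∧ lv (x i) ≤ t')
      (fun i => lv (x i)) ≤ ∑ a ∈ range σ, ((B + 1) * nv A (fun i => c a < lv (y i) ∧
        lv (y i) ≤ c (a + 1) ∧ t < lv (x i) ∧ lv (x i) ≤ t') (fun i => lv (x i)) + B) :=
    sum_le_sum fun a ha => strip_count hv hk hT (c 0) (c a) (c (a + 1)) t t'
      (le_of_step hc (Nat.zero_le a) (mem_range.1 ha).le) (hearly a (mem_range.1 ha))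
  rw [sum_const, card_range, smul_eq_mul, sum_add_distrib, ← mul_sum, sum_const, card_range,
    smul_eq_mul] at h3
  refine h3.trans (Nat.add_le_add_right ?_ _)
  rw [mul_assoc]
  exact Nat.mul_le_mul_left _ ((h1 σ le_rfl).trans h2)

end

end Pool.Agent.Lib.MP_86319c_co
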