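import Pool.Agent.Lib.MP_86319c_co.Hull

set_option autoImplicit false
set_option linter.unusedSectionVars false
set_option linter.unusedVariables false

namespace Pool.Agent.Lib.MP_86319c_co

open Finset

noncomputable section

variable {F : Type} [Field F] [LinearOrder F] [IsStrictOrderedRing F] {ι : Type} [DecidableEq ι]
variable {Γ : Type} [Field Γ] [LinearOrder Γ] [IsStrictOrderedRing Γ]
variable {lv : F → Γ}

theorem lv_mul (hv : IsVal lv) {a b : F} (ha : 0 < a) (hb : 0 < b) :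
    lv (a * b) = lv a + lv b := hv.1 a b ha hb

theorem lv_add (hv : IsVal lv) {a b : F} (ha : 0 < a) (hb : 0 < b) :
    lv (a + b) = max (lv a) (lv b) := hv.2 a b ha hb

theorem lv_one (hv : IsVal lv) : lv 1 = 0 := by
  have h := lv_mul hv (one_pos (α := F)) one_pos
  rw [mul_one] at h
  linarith

theorem lv_div (hv : IsVal lv) {a b : F} (ha : 0 < a) (hb : 0 < b) :
    lv (a / b) = lv a - lv b := by
  have h := lv_mul hv (div_pos ha hb) hb
  rw [div_mul_cancel₀ _ hb.ne'] at h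
  linarith

theorem lv_one_div (hv : IsVal lv) {a : F} (ha : 0 < a) : lv (1 / a) = - lv a := by
  rw [lv_div hv one_pos ha, lv_one hv, zero_sub]

theorem lv_mono (hv : IsVal lv) {a b : F} (ha : 0 < a) (hab : a ≤ b) : lv a ≤ lv b := by
  rcases hab.eq_or_lt with rfl | h
  · exact le_rfl
  · have h1 := lv_add hv ha (sub_pos.2 h)
    rw [add_sub_cancel] at h1
    rw [h1]
    exact le_max_left _ _

theorem lt_of_lv_lt (hv : IsVal lv) {a b : F} (hb : 0 < b) (h : lv a < lv b) (ha : 0 < a) :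
    a < b := by
  by_contra hc
  exact absurd (lv_mono hv hb (not_lt.1 hc)) (not_le.2 h)

theorem lv_sub (hv : IsVal lv) {a b : F} (ha : 0 < a) (hb : 0 < b) (h : lv a < lv b) :
    0 < b - a ∧ lv (b - a) = lv b := by
  have h0 : 0 < b - a := sub_pos.2 (lt_of_lv_lt hv hb h ha)
  refine ⟨h0, ?_⟩
  have h1 := lv_add hv ha h0
  rw [add_sub_cancel] at h1
  rcases max_cases (lv a) (lv (b - a)) with h2 | h2
  · rw [h2.1] at h1
    exact absurd h1 h.ne'
  · rw [h1, h2.1]

theorem smLe_zero (r : Γ) : SmLe lv r 0 := Or.inl rfl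

theorem smLt_zero (r : Γ) : SmLt lv r 0 := Or.inl rfl

theorem smLe_self (v : F) : SmLe lv (lv |v|) v := Or.inr le_rfl

theorem smLe_of_pos {r : Γ} {v : F} (h0 : 0 < v) (h : lv v ≤ r) : SmLe lv r v :=
  Or.inr (by rwa [abs_of_pos h0])

theorem smLt_of_pos {r : Γ} {v : F} (h0 : 0 < v) (h : lv v < r) : SmLt lv r v :=
  Or.inr (by rwa [abs_of_pos h0])

theorem SmLe.le_of_pos {r : Γ} {v : F} (h : SmLe lv r v) (h0 : 0 < v) : lv v ≤ r := by
  rcases h with h | h
  · exact absurd h h0.ne'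
  · rwa [abs_of_pos h0] at h

theorem SmLt.lt_of_pos {r : Γ} {v : F} (h : SmLt lv r v) (h0 : 0 < v) : lv v < r := by
  rcases h with h | h
  · exact absurd h h0.ne'
  · rwa [abs_of_pos h0] at h

theorem SmLt.smLe {r : Γ} {v : F} (h : SmLt lv r v) : SmLe lv r v := by
  exact h.imp id le_of_lt

theorem SmLe.mono {r r' : Γ} {v : F} (h : SmLe lv r v) (hr : r ≤ r') : SmLe lv r' v := by
  exact h.imp id fun h1 => h1.trans hr

theorem SmLt.mono {r r' : Γ} {v : F} (h : SmLt lv r v) (hr : r ≤ r') : SmLt lv r' v := by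
  exact h.imp id fun h1 => h1.trans_le hr

theorem SmLe.smLt {r r' : Γ} {v : F} (h : SmLe lv r v) (hr : r < r') : SmLt lv r' v := by
  exact h.imp id fun h1 => h1.trans_lt hr

theorem SmLe.neg {r : Γ} {v : F} (h : SmLe lv r v) : SmLe lv r (-v) := by
  rcases h with h | h
  · exact Or.inl (by rw [h, neg_zero])
  · exact Or.inr (by rwa [abs_neg])

theorem SmLt.neg {r : Γ} {v : F} (h : SmLt lv r v) : SmLt lv r (-v) := by
  rcases h with h | h
  · exact Or.inl (by rw [h, neg_zero])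
  · exact Or.inr (by rwa [abs_neg])

theorem SmLe.of_abs_le (hv : IsVal lv) {r : Γ} {u v : F} (h : SmLe lv r v) (huv : |u| ≤ |v|) :
    SmLe lv r u := by
  by_cases hu : u = 0
  · exact Or.inl hu
  rcases h with h | h
  · rw [h, abs_zero] at huv
    exact Or.inl (abs_nonpos_iff.1 huv)
  · exact Or.inr ((lv_mono hv (abs_pos.2 hu) huv).trans h)

theorem SmLt.of_abs_le (hv : IsVal lv) {r : Γ} {u v : F} (h : SmLt lv r v) (huv : |u| ≤ |v|) :
    SmLt lv r u := by
  by_cases hu : u = 0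
  · exact Or.inl hu
  rcases h with h | h
  · rw [h, abs_zero] at huv
    exact Or.inl (abs_nonpos_iff.1 huv)
  · exact Or.inr ((lv_mono hv (abs_pos.2 hu) huv).trans_lt h)

theorem SmLe.add (hv : IsVal lv) {r : Γ} {u v : F} (hu : SmLe lv r u) (h : SmLe lv r v) :
    SmLe lv r (u + v) := by
  by_cases hu0 : u = 0
  · rwa [hu0, zero_add]
  by_cases hv0 : v = 0
  · rwa [hv0, add_zero]
  have h1 := hu.resolve_left hu0
  have h2 := h.resolve_left hv0
  have h3 : SmLe lv r (|u| + |v|) := by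
    refine smLe_of_pos (add_pos (abs_pos.2 hu0) (abs_pos.2 hv0)) ?_
    rw [lv_add hv (abs_pos.2 hu0) (abs_pos.2 hv0)]
    exact max_le h1 h2
  exact h3.of_abs_le hv ((abs_add_le u v).trans (le_abs_self _))

theorem SmLt.add (hv : IsVal lv) {r : Γ} {u v : F} (hu : SmLt lv r u) (h : SmLt lv r v) :
    SmLt lv r (u + v) := by
  by_cases hu0 : u = 0
  · rwa [hu0, zero_add]
  by_cases hv0 : v = 0
  · rwa [hv0, add_zero]
  have h1 := hu.resolve_left hu0
  have h2 := h.resolve_left hv0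
  have h3 : SmLt lv r (|u| + |v|) := by
    refine smLt_of_pos (add_pos (abs_pos.2 hu0) (abs_pos.2 hv0)) ?_
    rw [lv_add hv (abs_pos.2 hu0) (abs_pos.2 hv0)]
    exact max_lt h1 h2
  exact h3.of_abs_le hv ((abs_add_le u v).trans (le_abs_self _))

theorem SmLe.sub (hv : IsVal lv) {r : Γ} {u v : F} (hu : SmLe lv r u) (h : SmLe lv r v) :
    SmLe lv r (u - v) := by
  rw [sub_eq_add_neg]
  exact hu.add hv h.neg

theorem SmLt.sub (hv : IsVal lv) {r : Γ} {u v : F} (hu : SmLt lv r u) (h : SmLt lv r v) :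
    SmLt lv r (u - v) := by
  rw [sub_eq_add_neg]
  exact hu.add hv h.neg

theorem SmLe.mul (hv : IsVal lv) {r r' : Γ} {u v : F} (hu : SmLe lv r u) (h : SmLe lv r' v) :
    SmLe lv (r + r') (u * v) := by
  by_cases hu0 : u = 0
  · exact Or.inl (by rw [hu0, zero_mul])
  by_cases hv0 : v = 0
  · exact Or.inl (by rw [hv0, mul_zero])
  refine Or.inr ?_
  rw [abs_mul, lv_mul hv (abs_pos.2 hu0) (abs_pos.2 hv0)]
  exact add_le_add (hu.resolve_left hu0) (h.resolve_left hv0)

theorem SmLt.mul_le (hv : IsVal lv) {r r' : Γ} {u v : F} (hu : SmLt lv r u)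
    (h : SmLe lv r' v) : SmLt lv (r + r') (u * v) := by
  by_cases hu0 : u = 0
  · exact Or.inl (by rw [hu0, zero_mul])
  by_cases hv0 : v = 0
  · exact Or.inl (by rw [hv0, mul_zero])
  refine Or.inr ?_
  rw [abs_mul, lv_mul hv (abs_pos.2 hu0) (abs_pos.2 hv0)]
  exact add_lt_add_of_lt_of_le (hu.resolve_left hu0) (h.resolve_left hv0)

theorem SmLe.div (hv : IsVal lv) {r : Γ} {u v : F} (hu : SmLe lv r u) (h0 : 0 < v) :
    SmLe lv (r - lv v) (u / v) := by
  by_cases hu0 : u = 0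
  · exact Or.inl (by rw [hu0, zero_div])
  refine Or.inr ?_
  rw [abs_div, abs_of_pos h0, lv_div hv (abs_pos.2 hu0) h0]
  exact sub_le_sub_right (hu.resolve_left hu0) _

theorem SmLt.div (hv : IsVal lv) {r : Γ} {u v : F} (hu : SmLt lv r u) (h0 : 0 < v) :
    SmLt lv (r - lv v) (u / v) := by
  by_cases hu0 : u = 0
  · exact Or.inl (by rw [hu0, zero_div])
  refine Or.inr ?_
  rw [abs_div, abs_of_pos h0, lv_div hv (abs_pos.2 hu0) h0]
  exact sub_lt_sub_right (hu.resolve_left hu0) _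

/-- The difference of two positive elements is not larger than the larger one. -/
theorem smLe_sub_of_pos (hv : IsVal lv) {r : Γ} {a b : F} (ha : 0 < a) (hb : 0 < b)
    (h1 : lv a ≤ r) (h2 : lv b ≤ r) : SmLe lv r (a - b) := by
  exact (smLe_of_pos ha h1).sub hv (smLe_of_pos hb h2)

/-- A smaller order of magnitude means a smaller absolute value. -/
theorem abs_lt_of_smLt (hv : IsVal lv) {u v : F} (hv0 : v ≠ 0) (h : SmLt lv (lv |v|) u) :
    |u| < |v| := by
  by_cases hu0 : u = 0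
  · rw [hu0, abs_zero]
    exact abs_pos.2 hv0
  exact lt_of_lv_lt hv (abs_pos.2 hv0) (h.resolve_left hu0) (abs_pos.2 hu0)

/-- Adding a smaller term keeps the order of magnitude. -/
theorem lv_abs_add (hv : IsVal lv) {u v : F} (hv0 : v ≠ 0) (h : SmLt lv (lv |v|) u) :
    v + u ≠ 0 ∧ lv |v + u| = lv |v| := by
  have hlt := abs_lt_of_smLt hv hv0 h
  have hne : v + u ≠ 0 := by
    intro h0
    have : u = -v := by linarith
    rw [this, abs_neg] at hlt
    exact lt_irrefl _ hlt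
  refine ⟨hne, le_antisymm ?_ ?_⟩
  · exact ((smLe_self v).add hv h.smLe).resolve_left hne
  · by_contra hc
    have h1 : SmLt lv (lv |v|) (v + u) := Or.inr (not_le.1 hc)
    have h2 := h1.sub hv h
    rw [add_sub_cancel_right] at h2
    exact lt_irrefl _ (h2.resolve_left hv0)

theorem lv_add_small (hv : IsVal lv) {u v : F} (hv0 : 0 < v) (h : SmLt lv (lv v) u) :
    0 < v + u ∧ lv (v + u) = lv v := by
  have h' : SmLt lv (lv |v|) u := by rwa [abs_of_pos hv0]
  have hlt := abs_lt_of_smLt hv hv0.ne' h'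
  rw [abs_of_pos hv0] at hlt
  have hpos : 0 < v + u := by
    have := neg_abs_le u
    linarith
  refine ⟨hpos, ?_⟩
  have h2 := (lv_abs_add hv hv0.ne' h').2
  rwa [abs_of_pos hpos, abs_of_pos hv0] at h2

/-- A point of a segment, seen through orders of magnitude. -/
theorem tseg (hv : IsVal lv) {a b p q μ : F} (ha : 0 < a) (hb : 0 < b) (hp : 0 < p) (hq : 0 < q)
    (h0 : 0 < μ) (h1 : μ ≤ 1) :
    ∃ α : Γ, max α (lv μ) = 0 ∧
      lv ((1 - μ) * a + μ * p) = max (α + lv a) (lv μ + lv p) ∧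
      lv ((1 - μ) * b + μ * q) = max (α + lv b) (lv μ + lv q) ∧ SmLe lv α (1 - μ) := by
  rcases h1.eq_or_lt with rfl | hlt
  · refine ⟨min 0 (min (lv p - lv a) (lv q - lv b)), ?_, ?_, ?_, ?_⟩
    · rw [lv_one hv]
      exact max_eq_right (min_le_left _ _)
    · rw [sub_self, zero_mul, zero_add, one_mul, lv_one hv, zero_add]
      refine (max_eq_right ?_).symm
      have := (min_le_right 0 (min (lv p - lv a) (lv q - lv b))).trans (min_le_left _ _)
      linarith
    · rw [sub_self, zero_mul, zero_add, one_mul, lv_one hv, zero_add]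
      refine (max_eq_right ?_).symm
      have := (min_le_right 0 (min (lv p - lv a) (lv q - lv b))).trans (min_le_right _ _)
      linarith
    · rw [sub_self]
      exact smLe_zero _
  · have hm : 0 < 1 - μ := sub_pos.2 hlt
    refine ⟨lv (1 - μ), ?_, ?_, ?_, smLe_of_pos hm le_rfl⟩
    · rw [← lv_add hv hm h0, sub_add_cancel, lv_one hv]
    · rw [lv_add hv (mul_pos hm ha) (mul_pos h0 hp), lv_mul hv hm ha, lv_mul hv h0 hp]
    · rw [lv_add hv (mul_pos hm hb) (mul_pos h0 hq), lv_mul hv hm hb, lv_mul hv h0 hq]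

/-- `J` describes an interval. -/
def Itv (J : F → Prop) : Prop := ∀ a c b : F, a ≤ c → c ≤ b → J a → J b → J c

theorem Itv.and {J J' : F → Prop} (h : Itv J) (h' : Itv J') : Itv (fun a => J a ∧ J' a) := by
  exact fun a c b h1 h2 ha hb => ⟨h a c b h1 h2 ha.1 hb.1, h' a c b h1 h2 ha.2 hb.2⟩

theorem itv_le (c : F) : Itv (fun a => a ≤ c) := by
  exact fun _ _ _ _ h2 _ hb => h2.trans hb

theorem itv_pos_le (hv : IsVal lv) (t : Γ) : Itv (fun a => 0 < a ∧ lv a ≤ t) := by
  exact fun _ _ _ h1 h2 ha hb =>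
    ⟨ha.1.trans_le h1, (lv_mono hv (ha.1.trans_le h1) h2).trans hb.2⟩

theorem itv_pos_lt (hv : IsVal lv) (t : Γ) : Itv (fun a => 0 < a ∧ lv a < t) := by
  exact fun _ _ _ h1 h2 ha hb =>
    ⟨ha.1.trans_le h1, (lv_mono hv (ha.1.trans_le h1) h2).trans_lt hb.2⟩

theorem itv_pos_ge (hv : IsVal lv) (t : Γ) : Itv (fun a => 0 < a ∧ t ≤ lv a) := by
  exact fun _ _ _ h1 _ ha _ => ⟨ha.1.trans_le h1, ha.2.trans (lv_mono hv ha.1 h1)⟩

theorem itv_pos_gt (hv : IsVal lv) (t : Γ) : Itv (fun a => 0 < a ∧ t < lv a) := by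
  exact fun _ _ _ h1 _ ha _ => ⟨ha.1.trans_le h1, ha.2.trans_le (lv_mono hv ha.1 h1)⟩

theorem itv_pos_eq (hv : IsVal lv) (t : Γ) : Itv (fun a => 0 < a ∧ lv a = t) := by
  exact fun _ _ _ h1 h2 ha hb =>
    ⟨ha.1.trans_le h1, le_antisymm ((lv_mono hv (ha.1.trans_le h1) h2).trans hb.2.le)
      (ha.2.ge.trans (lv_mono hv ha.1 h1))⟩

theorem itv_smLe (hv : IsVal lv) (r : Γ) (c : F) : Itv (fun a => SmLe lv r (a - c)) := by
  intro a d b h1 h2 ha hb
  rcases le_total c d with h | h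
  · refine SmLe.of_abs_le hv hb ?_
    rw [abs_of_nonneg (sub_nonneg.2 h)]
    exact (sub_le_sub_right h2 c).trans (le_abs_self _)
  · refine SmLe.of_abs_le hv ha ?_
    rw [abs_of_nonpos (sub_nonpos.2 h)]
    have := neg_abs_le (a - c)
    linarith

theorem itv_smLt (hv : IsVal lv) (r : Γ) (c : F) : Itv (fun a => SmLt lv r (a - c)) := by
  intro a d b h1 h2 ha hb
  rcases le_total c d with h | h
  · refine SmLt.of_abs_le hv hb ?_
    rw [abs_of_nonneg (sub_nonneg.2 h)]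
    exact (sub_le_sub_right h2 c).trans (le_abs_self _)
  · refine SmLt.of_abs_le hv ha ?_
    rw [abs_of_nonpos (sub_nonpos.2 h)]
    have := neg_abs_le (a - c)
    linarith

theorem ValApi_seg {J : F → Prop} (h : Itv J) {r r' μ : F} (h1 : J r) (h2 : J r') (h0 : 0 ≤ μ)
    (hμ : μ ≤ 1) : J ((1 - μ) * r + μ * r') := by
  rcases le_total r r' with h3 | h3
  · exact h r _ r' (by nlinarith) (by nlinarith) h1 h2
  · exact h r' _ r (by nlinarith) (by nlinarith) h2 h1

theorem Itv.cvx_aff {J : F → Prop} (h : Itv J) (α β γ : F) :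
    Cvx (fun a b => J (α * a + β * b + γ)) := by
  intro a b a' b' μ h1 h2 h0 hμ
  have e : α * ((1 - μ) * a + μ * a') + β * ((1 - μ) * b + μ * b') + γ =
      (1 - μ) * (α * a + β * b + γ) + μ * (α * a' + β * b' + γ) := by ring
  show J _
  rw [e]
  exact ValApi_seg h h1 h2 h0 hμ

theorem Itv.cvx_fst {J : F → Prop} (h : Itv J) : Cvx (fun a _ => J a) := by
  exact fun _ _ _ _ _ h1 h2 h0 hμ => ValApi_seg h h1 h2 h0 hμ

theorem Itv.cvx_snd {J : F → Prop} (h : Itv J) : Cvx (fun _ b => J b) := by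
  exact fun _ _ _ _ _ h1 h2 h0 hμ => ValApi_seg h h1 h2 h0 hμ

theorem Itv.cvx_ratio {J : F → Prop} (h : Itv J) (α β γ : F) :
    Cvx (fun a b => 0 < a ∧ J ((α * a + β * b + γ) / a)) := by
  rintro a b a' b' μ ⟨ha, h1⟩ ⟨ha', h2⟩ h0 hμ
  have hm : 0 ≤ 1 - μ := sub_nonneg.2 hμ
  have hpos : 0 < (1 - μ) * a + μ * a' := by
    rcases h0.eq_or_lt with rfl | h3
    · simpa using ha
    · exact add_pos_of_nonneg_of_pos (mul_nonneg hm ha.le) (mul_pos h3 ha')
  refine ⟨hpos, ?_⟩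
  have e : (α * ((1 - μ) * a + μ * a') + β * ((1 - μ) * b + μ * b') + γ) /
      ((1 - μ) * a + μ * a') =
      (1 - μ * a' / ((1 - μ) * a + μ * a')) * ((α * a + β * b + γ) / a) +
        μ * a' / ((1 - μ) * a + μ * a') * ((α * a' + β * b' + γ) / a') := by
    have := ha.ne'
    have := ha'.ne'
    have := hpos.ne'
    field_simp
    ring
  rw [e]
  refine ValApi_seg h h1 h2 (div_nonneg (mul_nonneg h0 ha'.le) hpos.le) ?_
  rw [div_le_one hpos]
  exact le_add_of_nonneg_left (mul_nonneg hm ha.le)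

end

end Pool.Agent.Lib.MP_86319c_co
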