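import Pool.Agent.Lib.MP_86319c_co.Transp
import Pool.Agent.Lib.MP_86319c_co.ValApi
import Pool.Agent.Lib.MP_86319c_co.CombB

set_option autoImplicit false

namespace Pool.Agent.Lib.MP_86319c_co

open Finset

noncomputable section

variable {F : Type} [Field F] [LinearOrder F] [IsStrictOrderedRing F] {ι : Type} [DecidableEq ι]
variable {Γ : Type} [Field Γ] [LinearOrder Γ] [IsStrictOrderedRing Γ]
variable {lv : F → Γ}
variable {k B n S M : ℕ} {A : Finset ι} {x y : ι → F}

theorem nochainZ (hS : 1 ≤ S) (hM : 1 ≤ M) (hZ : ZFree lv ι k B n S M) (hT : Tri k B A x y)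
    (hn : A.card ≤ n) (C : Finset ι) (hC : C ⊆ A)
    (hch : ∀ p ∈ C, ∀ q ∈ C, p ≠ q → (lv (x p) < lv (x q) ∧ lv (y q) < lv (y p)) ∨
      (lv (x q) < lv (x p) ∧ lv (y p) < lv (y q))) : C.card ≤ S + M := by
  by_contra hlt
  rw [not_le] at hlt
  have hsinj : Set.InjOn (fun i => lv (x i)) (C : Set ι) := by
    intro p hp q hq e
    by_contra hne
    rcases hch p hp q hq hne with h | h
    · exact h.1.ne e
    · exact h.1.ne' e
  have hhinj : Set.InjOn (fun i => lv (y i)) (C : Set ι) := by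
    intro p hp q hq e
    by_contra hne
    rcases hch p hp q hq hne with h | h
    · exact h.2.ne' e
    · exact h.2.ne e
  have hV : C.card ≤ (vals C (fun _ => True) (fun i => lv (x i))).card :=
    card_le_nv (fun i hi => ⟨hi, trivial⟩) hsinj
  obtain ⟨t, -, h1, h2⟩ := exists_threshold (vals C (fun _ => True) (fun i => lv (x i))) S hS
    (by omega)
  have hne : (fl C (fun i => t < lv (x i))).Nonempty := by
    obtain ⟨v, hv, hv'⟩ := exists_of_np_pos (A := vals C (fun _ => True) (fun i => lv (x i)))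
      (Φ := fun v => t < v) (by omega)
    obtain ⟨i, hi, -, rfl⟩ := mem_vals.1 hv
    exact ⟨i, mem_fl.2 ⟨hi, hv'⟩⟩
  obtain ⟨j, hj, hmax⟩ := exists_max_image _ (fun i => lv (y i)) hne
  obtain ⟨hjC, hjt⟩ := mem_fl.1 hj
  refine hZ A x y hT hn (lv (y j)) t ?_ ?_
  · have e1 : S ≤ np C (fun i => lv (x i) ≤ t) := by
      rw [← h1]
      refine le_trans (card_le_nv_of_vals fun v hv => ?_) (nv_le_np C _ (fun i => lv (x i)))
      obtain ⟨hv1, hv2⟩ := mem_fl.1 hv
      obtain ⟨i, hi, -, rfl⟩ := mem_vals.1 hv1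
      exact ⟨i, hi, hv2, rfl⟩
    refine le_trans e1 (card_le_nv (fun i hi => ?_) (hhinj.mono (fl_subset _ _)))
    obtain ⟨hi1, hi2⟩ := mem_fl.1 hi
    refine ⟨hC hi1, ?_, hi2⟩
    have hlt' : lv (x i) < lv (x j) := lt_of_le_of_lt hi2 hjt
    rcases hch i hi1 j hjC (fun e => hlt'.ne (by rw [e])) with h | h
    · exact h.2
    · exact absurd h.1 (not_lt.2 hlt'.le)
  · have e1 : M ≤ np (vals C (fun _ => True) (fun i => lv (x i))) (fun v => t < v) := by omega
    refine le_trans e1 (card_le_nv_of_vals fun v hv => ?_)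
    obtain ⟨hv1, hv2⟩ := mem_fl.1 hv
    obtain ⟨i, hi, -, rfl⟩ := mem_vals.1 hv1
    exact ⟨i, hC hi, ⟨hmax i (mem_fl.2 ⟨hi, hv2⟩), hv2⟩, rfl⟩

/-- Some level class or slope class meets a large share of the times. -/
theorem rowray (hv : IsVal lv) (hS : 1 ≤ S) (hM : 1 ≤ M) (hZ : ZFree lv ι k B n S M)
    (hT : Tri k B A x y) (hn : A.card ≤ n) :
    (∃ h : Γ, nv A (fun _ => True) (fun i => lv (x i)) ≤
      (S + M) ^ 3 * nv A (fun i => lv (y i) = h) (fun i => lv (x i))) ∨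
    (∃ h : Γ, nv A (fun _ => True) (fun i => lv (x i)) ≤
      (S + M) ^ 3 * nv A (fun i => lv (y i / x i) = h) (fun i => lv (x i))) := by
  obtain ⟨R, hRA, hRc, -, hRinj⟩ :=
    exists_of_le_nv (le_refl (nv A (fun _ => True) (fun i => lv (x i))))
  obtain ⟨R1, hR1, hc1, hn1⟩ := mirsky (fun p q => lv (x p) < lv (x q) ∧ lv (y q) < lv (y p))
    (fun a b c h h' => ⟨h.1.trans h'.1, h'.2.trans h.2⟩) (fun a h => lt_irrefl _ h.1) (S + M) R
    (fun C hC hch => nochainZ hS hM hZ hT hn C (hC.trans hRA) hch)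
  obtain ⟨R2, hR2, hc2, hn2⟩ := mirsky
    (fun p q => lv (x p) < lv (x q) ∧ lv (y p / x p) < lv (y q / x q))
    (fun a b c h h' => ⟨h.1.trans h'.1, h.2.trans h'.2⟩) (fun a h => lt_irrefl _ h.1) (S + M) R1
    (fun C hC hch => nochainZ hS hM hZ hT.inv hn C ((hC.trans hR1).trans hRA) (by
      intro p hp q hq hne
      have hp' := hT.2 p (hRA (hR1 (hC hp)))
      have hq' := hT.2 q (hRA (hR1 (hC hq)))
      simp only [lv_one_div hv hp'.1, lv_one_div hv hq'.1, neg_lt_neg_iff]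
      exact (hch p hp q hq hne).symm))
  obtain ⟨R3, hR3, hc3, hn3⟩ := mirsky
    (fun p q => lv (x p) < lv (x q) ∧ lv (y p) < lv (y q) ∧ lv (y q / x q) < lv (y p / x p))
    (fun a b c h h' => ⟨h.1.trans h'.1, h.2.1.trans h'.2.1, h'.2.2.trans h.2.2⟩)
    (fun a h => lt_irrefl _ h.1) (S + M) R2
    (fun C hC hch => nochainZ hS hM hZ hT.swap.inv.swap hn C
      (((hC.trans hR2).trans hR1).trans hRA) (by
      intro p hp q hq hne
      have hp' := hT.2 p (hRA (hR1 (hR2 (hC hp))))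
      have hq' := hT.2 q (hRA (hR1 (hR2 (hC hq))))
      have := hch p hp q hq hne
      simp only [lv_div hv hp'.2 hp'.1, lv_div hv hq'.2 hq'.1] at this
      simp only [lv_one_div hv hp'.2, lv_one_div hv hq'.2, lv_div hv hp'.1 hp'.2,
        lv_div hv hq'.1 hq'.2, neg_lt_neg_iff]
      rcases this with h | h
      · exact Or.inl ⟨by linarith [h.2.2], h.2.1⟩
      · exact Or.inr ⟨by linarith [h.2.2], h.2.1⟩))
  have hcard : nv A (fun _ => True) (fun i => lv (x i)) ≤ (S + M) ^ 3 * R3.card := by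
    rw [← hRc]
    calc R.card ≤ (S + M) * R1.card := hc1
      _ ≤ (S + M) * ((S + M) * R2.card) := Nat.mul_le_mul_left _ hc2
      _ ≤ (S + M) * ((S + M) * ((S + M) * R3.card)) :=
        Nat.mul_le_mul_left _ (Nat.mul_le_mul_left _ hc3)
      _ = (S + M) ^ 3 * R3.card := by ring
  have hsub : R3 ⊆ R := (hR3.trans hR2).trans hR1
  have hinj3 : Set.InjOn (fun i => lv (x i)) (R3 : Set ι) := hRinj.mono hsub
  have key0 : ∀ p ∈ R3, ∀ q ∈ R3, lv (x p) < lv (x q) →
      lv (y p) = lv (y q) ∨ lv (y p / x p) = lv (y q / x q) := by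
    intro p hp q hq hlt
    have a1 : lv (y p) ≤ lv (y q) := not_lt.1 fun h => hn1 p (hR2 (hR3 hp)) q (hR2 (hR3 hq)) ⟨hlt, h⟩
    have a2 : lv (y q / x q) ≤ lv (y p / x p) := not_lt.1 fun h => hn2 p (hR3 hp) q (hR3 hq) ⟨hlt, h⟩
    rcases a1.lt_or_eq with b1 | b1
    · rcases a2.lt_or_eq with b2 | b2
      · exact absurd ⟨hlt, b1, b2⟩ (hn3 p hp q hq)
      · exact Or.inr b2.symm
    · exact Or.inl b1
  have key : ∀ p ∈ R3, ∀ q ∈ R3, lv (y p) = lv (y q) ∨ lv (y p / x p) = lv (y q / x q) := by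
    intro p hp q hq
    rcases lt_trichotomy (lv (x p)) (lv (x q)) with h | h | h
    · exact key0 p hp q hq h
    · rw [hinj3 hp hq h]
      exact Or.inl rfl
    · exact (key0 q hq p hp h).imp Eq.symm Eq.symm
  by_cases hall : ∀ p ∈ R3, ∀ q ∈ R3, lv (y p) = lv (y q)
  · left
    rcases R3.eq_empty_or_nonempty with he | ⟨p, hp⟩
    · refine ⟨0, le_trans hcard ?_⟩
      rw [he, card_empty, mul_zero]
      exact Nat.zero_le _
    · exact ⟨lv (y p), le_trans hcard (Nat.mul_le_mul_left _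
        (card_le_nv (fun i hi => ⟨hRA (hsub hi), hall i hi p hp⟩) hinj3))⟩
  · right
    push Not at hall
    obtain ⟨p, hp, q, hq, hpq⟩ := hall
    have e := (key p hp q hq).resolve_left hpq
    refine ⟨lv (y p / x p), le_trans hcard (Nat.mul_le_mul_left _
      (card_le_nv (fun i hi => ⟨hRA (hsub hi), ?_⟩) hinj3))⟩
    rcases key i hi p hp with h1 | h1
    · rcases key i hi q hq with h2 | h2
      · exact absurd (h1.symm.trans h2) hpq
      · exact h2.trans e.symm
    · exact h1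

end

end Pool.Agent.Lib.MP_86319c_co
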