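import Pool.Agent.Lib.MP_86319c_co.CombB

set_option autoImplicit false

namespace Pool.Agent.Lib.MP_86319c_co

open Finset

noncomputable section

variable {ι : Type} [DecidableEq ι]
variable {Γ : Type} [Field Γ] [LinearOrder Γ] [IsStrictOrderedRing Γ]

theorem comba_argmax (b : ℕ → Γ) (a n : ℕ) : ∃ p, a ≤ p ∧ p < a + (n + 1) ∧
    b (a + (n + 1)) - b a ≤ ((n + 1 : ℕ) : Γ) * (b (p + 1) - b p) := by
  induction n with
  | zero => exact ⟨a, le_rfl, by omega, by simp⟩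
  | succ n ih =>
    obtain ⟨p, h1, h2, h3⟩ := ih
    have e : a + (n + 1 + 1) = a + (n + 1) + 1 := by omega
    have h0 : (0 : Γ) ≤ ((n + 1 : ℕ) : Γ) := Nat.cast_nonneg _
    rw [e, Nat.cast_succ (n + 1)]
    rcases le_total (b (p + 1) - b p) (b (a + (n + 1) + 1) - b (a + (n + 1))) with h | h
    · refine ⟨a + (n + 1), by omega, by omega, ?_⟩
      have := mul_le_mul_of_nonneg_left h h0
      linarith
    · exact ⟨p, h1, by omega, by linarith⟩

omit [Field Γ] [IsStrictOrderedRing Γ] in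
theorem comba_mono {b : ℕ → Γ} {J : ℕ} (hb : ∀ j < J, b j < b (j + 1)) {i i' : ℕ} (h : i ≤ i')
    (h' : i' ≤ J) : b i ≤ b i' := by
  induction h with
  | refl => exact le_rfl
  | step h ih => exact (ih (by omega)).trans (hb _ (by omega)).le

/-- Among many consecutive groups of `n` stages, some stage is much longer than a later group. -/
theorem comba_groups {L : ℕ → ℕ} {C J : ℕ} {b : ℕ → Γ}
    (ha : ∀ (D : ℕ) (S : Finset ℕ), S ⊆ range J → L D ≤ S.card →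
      ∃ j' ∈ S, ∃ j ∈ S, j' < j ∧ (D : Γ) * (b (j + 1) - b j) < (C : Γ) * (b (j' + 1) - b j'))
    {a n : ℕ} (hn : 1 ≤ n) (hJ : a + L (n * C ^ 2) * n ≤ J) :
    ∃ r p, r < L (n * C ^ 2) ∧ a ≤ p ∧ p < a + r * n ∧
      (C : Γ) * (b (a + r * n + n) - b (a + r * n)) < b (p + 1) - b p := by
  obtain ⟨n, rfl⟩ : ∃ m, n = m + 1 := ⟨n - 1, by omega⟩
  choose p hp1 hp2 hp3 using fun r => comba_argmax b (a + r * (n + 1)) n
  have hmono : StrictMono p := strictMono_nat_of_lt_succ fun r => by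
    have h1 := hp1 (r + 1)
    have h2 := hp2 r
    rw [add_mul] at h1
    omega
  obtain ⟨j', hj', j, hj, hlt, h⟩ := ha ((n + 1) * C ^ 2) ((range (L ((n + 1) * C ^ 2))).image p)
    (by
      intro x hx
      obtain ⟨r, hr, rfl⟩ := mem_image.1 hx
      have h2 := hp2 r
      have h3 := Nat.mul_le_mul_right (n + 1) (Nat.succ_le_of_lt (mem_range.1 hr))
      rw [Nat.succ_mul] at h3
      exact mem_range.2 (by omega))
    (by rw [card_image_of_injective _ hmono.injective, card_range])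
  obtain ⟨r', -, rfl⟩ := mem_image.1 hj'
  obtain ⟨r, hr, rfl⟩ := mem_image.1 hj
  have hrr : r' < r := hmono.lt_iff_lt.1 hlt
  have h3 := Nat.mul_le_mul_right (n + 1) (Nat.succ_le_of_lt hrr)
  rw [Nat.succ_mul] at h3
  have h1 := hp1 r'
  have h2 := hp2 r'
  refine ⟨r, p r', mem_range.1 hr, by omega, by omega, ?_⟩
  have hC : (0 : Γ) ≤ C := Nat.cast_nonneg _
  have h4 := mul_le_mul_of_nonneg_left (hp3 r) (mul_nonneg hC hC)
  rw [Nat.cast_mul, Nat.cast_pow] at h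
  refine lt_of_mul_lt_mul_left ?_ hC
  linarith

theorem seq_lemma (L : ℕ → ℕ) (C c j0 k : ℕ) (hc : 1 ≤ c) : ∃ J : ℕ, ∀ b : ℕ → Γ,
    (∀ j < J, b j < b (j + 1)) →
    (∀ (D : ℕ) (S : Finset ℕ), S ⊆ range J → L D ≤ S.card →
      ∃ j' ∈ S, ∃ j ∈ S, j' < j ∧ (D : Γ) * (b (j + 1) - b j) < (C : Γ) * (b (j' + 1) - b j')) →
    (∀ j π i : ℕ, j0 ≤ j → j ≤ π → π < i → j + k < J → i + c ≤ J →
      (C : Γ) * (b i - b π) ≤ b (j + 1) - b j → b (π + 1) - b π ≤ (C : Γ) * (b (i + c) - b i)) →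
    False := by
  obtain ⟨n, hn⟩ : ∃ n, n = L (c * C ^ 2) * c + 1 := ⟨_, rfl⟩
  refine ⟨j0 + L (n * C ^ 2) * n + k + 1, fun b hb ha hbc => ?_⟩
  obtain ⟨u, j, hu, hj1, hj2, h1⟩ := comba_groups ha (a := j0) (n := n) (by omega) (by omega)
  have h2 := Nat.mul_le_mul_right n (Nat.succ_le_of_lt hu)
  rw [Nat.succ_mul] at h2
  obtain ⟨r, π, hr, hπ1, hπ2, h3⟩ := comba_groups ha (a := j0 + u * n) hc (by omega)
  have h4 := Nat.mul_le_mul_right c (Nat.succ_le_of_lt hr)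
  rw [Nat.succ_mul] at h4
  refine absurd (hbc j π (j0 + u * n + r * c) hj1 (by omega) hπ2 (by omega) (by omega) ?_)
    (not_le.2 h3)
  have h5 : b (j0 + u * n + r * c) ≤ b (j0 + u * n + n) := comba_mono hb (by omega) (by omega)
  have h6 : b (j0 + u * n) ≤ b π := comba_mono hb hπ1 (by omega)
  have hC : (0 : Γ) ≤ C := Nat.cast_nonneg _
  exact (mul_le_mul_of_nonneg_left (by linarith) hC).trans h1.le

/-- The size needed to run `j` more thinning steps. -/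
def need (k B Λ M : ℕ) : ℕ → ℕ
  | 0 => M + 2
  | j + 1 => 2 * Λ ^ 3 * (B * need k B Λ M j + k) + 3

theorem comba_poly (k B α j : ℕ) : ∃ c d : ℕ, ∀ Λ M t : ℕ, 1 ≤ t → Λ ≤ α * t → M ≤ α * t →
    need k B Λ M j ≤ c * t ^ d := by
  induction j with
  | zero =>
    refine ⟨α + 2, 1, fun Λ M t ht _ hM => ?_⟩
    rw [need, pow_one, add_mul]
    omega
  | succ j ih =>
    obtain ⟨c, d, h⟩ := ih
    refine ⟨2 * α ^ 3 * (B * c + k) + 3, 3 + d, fun Λ M t ht hΛ hM => ?_⟩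
    have h1 : 1 ≤ t ^ d := Nat.one_le_pow _ _ ht
    have h2 : 1 ≤ t ^ (3 + d) := Nat.one_le_pow _ _ ht
    have h3 : B * need k B Λ M j + k ≤ (B * c + k) * t ^ d := by
      rw [add_mul, mul_assoc]
      exact add_le_add (Nat.mul_le_mul_left _ (h Λ M t ht hΛ hM)) (Nat.le_mul_of_pos_right _ h1)
    have h4 : 2 * Λ ^ 3 * (B * need k B Λ M j + k) ≤ 2 * (α * t) ^ 3 * ((B * c + k) * t ^ d) :=
      Nat.mul_le_mul (Nat.mul_le_mul_left _ (Nat.pow_le_pow_left hΛ 3)) h3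
    have e : 2 * (α * t) ^ 3 * ((B * c + k) * t ^ d) = 2 * α ^ 3 * (B * c + k) * t ^ (3 + d) := by
      ring
    rw [need, add_mul, ← e]
    omega

theorem comba_exp (c d : ℕ) : ∃ τ0 : ℕ, ∀ τ, τ0 ≤ τ → c * (τ + 1) ^ d ≤ 2 ^ τ := by
  have h := tendsto_pow_const_div_const_pow_of_one_lt d (r := 2) one_lt_two
  have h0 : (0 : ℝ) < 1 / (2 * c + 1) := by positivity
  obtain ⟨τ0, h1⟩ := Filter.eventually_atTop.1 (h.eventually (gt_mem_nhds h0))
  refine ⟨τ0, fun τ hτ => ?_⟩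
  have h2 := h1 (τ + 1) (by omega)
  rw [div_lt_div_iff₀ (by positivity) (by positivity), one_mul, pow_succ] at h2
  have h3 : (0 : ℝ) ≤ ((τ + 1 : ℕ) : ℝ) ^ d := by positivity
  have h4 : (c : ℝ) * ((τ + 1 : ℕ) : ℝ) ^ d ≤ 2 ^ τ := by linarith
  exact_mod_cast h4

theorem need_le_pow (k B S M1 j : ℕ) :
    ∃ τ0 : ℕ, ∀ τ, τ0 ≤ τ → need k B (S + (τ + 1) * S * M1) ((τ + 1) * S * M1) j ≤ 2 ^ τ := by
  obtain ⟨c, d, h⟩ := comba_poly k B (S + S * M1) j
  obtain ⟨τ0, h0⟩ := comba_exp c d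
  refine ⟨τ0, fun τ hτ => (h _ _ (τ + 1) (by omega) ?_ ?_).trans (h0 τ hτ)⟩
  · have e : (S + S * M1) * (τ + 1) = S + (τ + 1) * S * M1 + S * τ := by ring
    omega
  · have e : (S + S * M1) * (τ + 1) = (τ + 1) * S * M1 + S * (τ + 1) := by ring
    omega

end

end Pool.Agent.Lib.MP_86319c_co
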