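import Pool.Agent.Lib.MP_86319c_co.Hull

set_option autoImplicit false

namespace Pool.Agent.Lib.MP_86319c_co

open Finset

noncomputable section

theorem conv_ext {a b : EuclideanSpace ℝ (Fin 2)} (h0 : a 0 = b 0) (h1 : a 1 = b 1) : a = b := by
  ext i
  fin_cases i
  · exact h0
  · exact h1

theorem gp_of_not_collinear (A : Finset (EuclideanSpace ℝ (Fin 2)))
    (h : ∀ x ∈ A, ∀ y ∈ A, ∀ z ∈ A, x ≠ y → y ≠ z → x ≠ z →
      ¬ Collinear ℝ ({x, y, z} : Set (EuclideanSpace ℝ (Fin 2)))) :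
    GP A (fun p => p 0) (fun p => p 1) := by
  refine ⟨fun a _ b _ h0 h1 => conv_ext h0 h1, fun a ha b hb c hc hab hbc hac hdet => ?_⟩
  refine h a ha b hb c hc hab hbc hac ?_
  have hdet' : (b 0 - a 0) * (c 1 - a 1) - (b 1 - a 1) * (c 0 - a 0) = 0 := hdet
  rw [collinear_iff_of_mem (p₀ := a) (by simp)]
  refine ⟨b - a, fun p hp => ?_⟩
  simp only [Set.mem_insert_iff, Set.mem_singleton_iff] at hp
  rcases hp with rfl | rfl | rfl
  · exact ⟨0, by simp⟩
  · exact ⟨1, by simp⟩
  · by_cases h0 : b 0 - a 0 = 0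
    · have h1 : b 1 - a 1 ≠ 0 := fun h1 => hab (conv_ext (by linarith) (by linarith))
      refine ⟨(p 1 - a 1) / (b 1 - a 1), conv_ext ?_ ?_⟩
      · simp only [vadd_eq_add, PiLp.add_apply, PiLp.smul_apply, PiLp.sub_apply, smul_eq_mul]
        field_simp
        linear_combination -hdet'
      · simp only [vadd_eq_add, PiLp.add_apply, PiLp.smul_apply, PiLp.sub_apply, smul_eq_mul]
        field_simp
        ring
    · refine ⟨(p 0 - a 0) / (b 0 - a 0), conv_ext ?_ ?_⟩
      · simp only [vadd_eq_add, PiLp.add_apply, PiLp.smul_apply, PiLp.sub_apply, smul_eq_mul]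
        field_simp
        ring
      · simp only [vadd_eq_add, PiLp.add_apply, PiLp.smul_apply, PiLp.sub_apply, smul_eq_mul]
        field_simp
        linear_combination hdet'

theorem inH_of_mem_convexHull (S : Finset (EuclideanSpace ℝ (Fin 2)))
    (p : EuclideanSpace ℝ (Fin 2)) (h : p ∈ convexHull ℝ (S : Set (EuclideanSpace ℝ (Fin 2)))) :
    InH (fun q : EuclideanSpace ℝ (Fin 2) => q 0) (fun q => q 1) S (p 0) (p 1) := by
  obtain ⟨w, hw0, hw1, hw2⟩ := Finset.mem_convexHull'.1 h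
  refine ⟨w, hw0, hw1, ?_, ?_⟩
  · rw [← hw2]
    simp [WithLp.ofLp_sum, Finset.sum_apply]
  · rw [← hw2]
    simp [WithLp.ofLp_sum, Finset.sum_apply]

theorem span_inter_hull_of_avoid (K L : Finset (EuclideanSpace ℝ (Fin 2)))
    (h : Avoid (fun q : EuclideanSpace ℝ (Fin 2) => q 0) (fun q => q 1) K L) :
    ∀ a ∈ K, ∀ b ∈ K, a ≠ b →
      ((affineSpan ℝ ({a, b} : Set (EuclideanSpace ℝ (Fin 2))) :
          Set (EuclideanSpace ℝ (Fin 2))) ∩
        convexHull ℝ (L : Set (EuclideanSpace ℝ (Fin 2)))) = ∅ := by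
  intro a ha b hb hab
  refine Set.eq_empty_of_forall_notMem fun p hp => ?_
  obtain ⟨hp1, hp2⟩ := hp
  have hin := inH_of_mem_convexHull L p hp2
  obtain ⟨r, hr⟩ := (mem_affineSpan_pair_iff_exists_lineMap_eq (k := ℝ)).1 hp1
  have e0 : p 0 = a 0 + r * (b 0 - a 0) := by
    rw [← hr, AffineMap.lineMap_apply]
    simp only [vadd_eq_add, vsub_eq_sub, PiLp.add_apply, PiLp.smul_apply, PiLp.sub_apply,
      smul_eq_mul]
    ring
  have e1 : p 1 = a 1 + r * (b 1 - a 1) := by
    rw [← hr, AffineMap.lineMap_apply]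
    simp only [vadd_eq_add, vsub_eq_sub, PiLp.add_apply, PiLp.smul_apply, PiLp.sub_apply,
      smul_eq_mul]
    ring
  rcases h a ha b hb hab with hs | hs
  · have := (cvx_pos (-(b 1 - a 1)) (b 0 - a 0)
      ((b 1 - a 1) * a 0 - (b 0 - a 0) * a 1)).of_inH (fun c hc => by
        have := hs c hc
        unfold det3 at this
        linarith) hin
    rw [e0, e1] at this
    linarith
  · have := (cvx_pos (b 1 - a 1) (-(b 0 - a 0))
      (-((b 1 - a 1) * a 0 - (b 0 - a 0) * a 1))).of_inH (fun c hc => by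
        have := hs c hc
        unfold det3 at this
        linarith) hin
    rw [e0, e1] at this
    linarith

end

end Pool.Agent.Lib.MP_86319c_co
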