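import Mathlib

set_option autoImplicit false

namespace Pool.Agent.Lib.MP_86319c_co

open Finset

noncomputable section

section Count

variable {ι : Type}

open Classical in
/-- The elements of `A` with property `Φ`. -/
def fl (A : Finset ι) (Φ : ι → Prop) : Finset ι := A.filter Φ

/-- The number of elements of `A` with property `Φ`. -/
def np (A : Finset ι) (Φ : ι → Prop) : ℕ := (fl A Φ).card

open Classical in
/-- The set of values of `f` on the elements of `A` with property `Φ`. -/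
def vals {γ : Type} (A : Finset ι) (Φ : ι → Prop) (f : ι → γ) : Finset γ := (fl A Φ).image f

/-- The number of distinct values of `f` on the elements of `A` with property `Φ`. -/
def nv {γ : Type} (A : Finset ι) (Φ : ι → Prop) (f : ι → γ) : ℕ := (vals A Φ f).card

@[simp] theorem mem_fl {A : Finset ι} {Φ : ι → Prop} {i : ι} : i ∈ fl A Φ ↔ i ∈ A ∧ Φ i := by
  classical
  unfold fl; simp

@[simp] theorem mem_vals {γ : Type} {A : Finset ι} {Φ : ι → Prop} {f : ι → γ} {v : γ} :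
    v ∈ vals A Φ f ↔ ∃ i ∈ A, Φ i ∧ f i = v := by
  classical
  unfold vals; simp [and_assoc]

theorem fl_subset (A : Finset ι) (Φ : ι → Prop) : fl A Φ ⊆ A := fun _ h => (mem_fl.1 h).1

theorem np_le_card (A : Finset ι) (Φ : ι → Prop) : np A Φ ≤ A.card :=
  card_le_card (fl_subset A Φ)

theorem np_mono {A A' : Finset ι} {Φ Ψ : ι → Prop} (h : ∀ i ∈ A, Φ i → i ∈ A' ∧ Ψ i) :
    np A Φ ≤ np A' Ψ :=
  card_le_card fun i hi => mem_fl.2 (h i (mem_fl.1 hi).1 (mem_fl.1 hi).2)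

theorem np_le_np {A : Finset ι} {Φ Ψ : ι → Prop} (h : ∀ i ∈ A, Φ i → Ψ i) :
    np A Φ ≤ np A Ψ := np_mono fun i hi hp => ⟨hi, h i hi hp⟩

theorem card_le_np {A S : Finset ι} {Φ : ι → Prop} (h : ∀ i ∈ S, i ∈ A ∧ Φ i) :
    S.card ≤ np A Φ := card_le_card fun i hi => mem_fl.2 (h i hi)

theorem np_le_of_subset {A S : Finset ι} {Φ : ι → Prop} (h : ∀ i ∈ A, Φ i → i ∈ S) :
    np A Φ ≤ S.card := card_le_card fun i hi => h i (mem_fl.1 hi).1 (mem_fl.1 hi).2

theorem np_le_add {A : Finset ι} {Θ Φ Ψ : ι → Prop} (h : ∀ i ∈ A, Θ i → Φ i ∨ Ψ i) :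
    np A Θ ≤ np A Φ + np A Ψ := by
  classical
  refine le_trans (card_le_card (t := fl A Φ ∪ fl A Ψ) fun i hi => ?_) (card_union_le _ _)
  rcases h i (mem_fl.1 hi).1 (mem_fl.1 hi).2 with h1 | h1
  · exact mem_union_left _ (mem_fl.2 ⟨(mem_fl.1 hi).1, h1⟩)
  · exact mem_union_right _ (mem_fl.2 ⟨(mem_fl.1 hi).1, h1⟩)

theorem add_le_np {A : Finset ι} {Θ Φ Ψ : ι → Prop} (h1 : ∀ i ∈ A, Φ i → Θ i)
    (h2 : ∀ i ∈ A, Ψ i → Θ i) (hd : ∀ i ∈ A, Φ i → Ψ i → False) :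
    np A Φ + np A Ψ ≤ np A Θ := by
  classical
  unfold np
  rw [← card_union_of_disjoint]
  · refine card_le_card fun i hi => ?_
    rcases mem_union.1 hi with h | h
    · exact mem_fl.2 ⟨(mem_fl.1 h).1, h1 i (mem_fl.1 h).1 (mem_fl.1 h).2⟩
    · exact mem_fl.2 ⟨(mem_fl.1 h).1, h2 i (mem_fl.1 h).1 (mem_fl.1 h).2⟩
  · exact disjoint_left.2 fun i ha hb => hd i (mem_fl.1 ha).1 (mem_fl.1 ha).2 (mem_fl.1 hb).2

theorem np_eq_zero {A : Finset ι} {Φ : ι → Prop} (h : ∀ i ∈ A, ¬ Φ i) : np A Φ = 0 := by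
  unfold np
  rw [card_eq_zero]
  exact eq_empty_of_forall_notMem fun i hi => h i (mem_fl.1 hi).1 (mem_fl.1 hi).2

theorem exists_of_np_pos {A : Finset ι} {Φ : ι → Prop} (h : 0 < np A Φ) : ∃ i ∈ A, Φ i := by
  obtain ⟨i, hi⟩ := card_pos.1 h
  exact ⟨i, (mem_fl.1 hi).1, (mem_fl.1 hi).2⟩

theorem np_true (A : Finset ι) : np A (fun _ => True) = A.card := by
  unfold np; congr 1; ext i; simp

theorem exists_of_le_np {A : Finset ι} {Φ : ι → Prop} {n : ℕ} (h : n ≤ np A Φ) :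
    ∃ S : Finset ι, S ⊆ A ∧ S.card = n ∧ ∀ i ∈ S, Φ i := by
  obtain ⟨S, hS, hc⟩ := exists_subset_card_eq h
  exact ⟨S, fun i hi => (mem_fl.1 (hS hi)).1, hc, fun i hi => (mem_fl.1 (hS hi)).2⟩

variable {γ : Type}

theorem nv_le_np (A : Finset ι) (Φ : ι → Prop) (f : ι → γ) : nv A Φ f ≤ np A Φ := by
  classical
  unfold nv vals np
  convert card_image_le

theorem nv_le_of_subset {A : Finset ι} {Φ : ι → Prop} {f : ι → γ} {V : Finset γ}
    (h : ∀ i ∈ A, Φ i → f i ∈ V) : nv A Φ f ≤ V.card :=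
  card_le_card fun v hv => by
    obtain ⟨i, hi, hp, rfl⟩ := mem_vals.1 hv
    exact h i hi hp

theorem card_le_nv_of_vals {A : Finset ι} {Φ : ι → Prop} {f : ι → γ} {V : Finset γ}
    (h : ∀ v ∈ V, ∃ i ∈ A, Φ i ∧ f i = v) : V.card ≤ nv A Φ f :=
  card_le_card fun v hv => mem_vals.2 (h v hv)

theorem nv_mono {A A' : Finset ι} {Φ Ψ : ι → Prop} {f g : ι → γ}
    (h : ∀ i ∈ A, Φ i → ∃ j ∈ A', Ψ j ∧ g j = f i) : nv A Φ f ≤ nv A' Ψ g :=
  nv_le_of_subset fun i hi hp => mem_vals.2 (h i hi hp)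

theorem nv_le_nv {A : Finset ι} {Φ Ψ : ι → Prop} {f : ι → γ} (h : ∀ i ∈ A, Φ i → Ψ i) :
    nv A Φ f ≤ nv A Ψ f := nv_mono fun i hi hp => ⟨i, hi, h i hi hp, rfl⟩

theorem nv_le_add {A : Finset ι} {Θ Φ Ψ : ι → Prop} {f : ι → γ}
    (h : ∀ i ∈ A, Θ i → Φ i ∨ Ψ i) : nv A Θ f ≤ nv A Φ f + nv A Ψ f := by
  classical
  refine le_trans (nv_le_of_subset (V := vals A Φ f ∪ vals A Ψ f) fun i hi hp => ?_)
    (card_union_le _ _)
  rcases h i hi hp with h1 | h1
  · exact mem_union_left _ (mem_vals.2 ⟨i, hi, h1, rfl⟩)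
  · exact mem_union_right _ (mem_vals.2 ⟨i, hi, h1, rfl⟩)

theorem card_le_nv {A S : Finset ι} {Φ : ι → Prop} {f : ι → γ} (h : ∀ i ∈ S, i ∈ A ∧ Φ i)
    (hinj : Set.InjOn f (S : Set ι)) : S.card ≤ nv A Φ f := by
  classical
  rw [← card_image_of_injOn hinj]
  refine card_le_nv_of_vals fun v hv => ?_
  obtain ⟨i, hi, rfl⟩ := mem_image.1 hv
  exact ⟨i, (h i hi).1, (h i hi).2, rfl⟩

theorem exists_of_le_nv {A : Finset ι} {Φ : ι → Prop} {f : ι → γ} {n : ℕ} (h : n ≤ nv A Φ f) :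
    ∃ S : Finset ι, S ⊆ A ∧ S.card = n ∧ (∀ i ∈ S, Φ i) ∧ Set.InjOn f (S : Set ι) := by
  classical
  obtain ⟨V, hV, hc⟩ := exists_subset_card_eq h
  have : ∀ v : V, ∃ i ∈ A, Φ i ∧ f i = v := fun v => mem_vals.1 (hV v.2)
  choose g hgA hgΦ hgf using this
  have hg : Function.Injective g := fun v w hvw => by
    apply Subtype.ext; rw [← hgf v, ← hgf w, hvw]
  refine ⟨univ.image g, ?_, ?_, ?_, ?_⟩
  · intro i hi; obtain ⟨v, -, rfl⟩ := mem_image.1 hi; exact hgA v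
  · rw [card_image_of_injective _ hg]; simpa using hc
  · intro i hi; obtain ⟨v, -, rfl⟩ := mem_image.1 hi; exact hgΦ v
  · intro i hi j hj hij
    obtain ⟨v, -, rfl⟩ := mem_image.1 (mem_coe.1 hi)
    obtain ⟨w, -, rfl⟩ := mem_image.1 (mem_coe.1 hj)
    rw [hgf v, hgf w] at hij
    rw [Subtype.ext hij]

/-- Values related by an injective change of value. -/
theorem nv_le_of_determined {δ : Type} {A : Finset ι} {Φ : ι → Prop} {f : ι → γ} {g : ι → δ}
    (h : ∀ i ∈ A, ∀ j ∈ A, Φ i → Φ j → g i = g j → f i = f j) : nv A Φ f ≤ nv A Φ g := by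
  obtain ⟨S, hS, hc, hΦ, hinj⟩ := exists_of_le_nv (le_refl (nv A Φ f))
  rw [← hc]
  exact card_le_nv (fun i hi => ⟨hS hi, hΦ i hi⟩) fun i hi j hj hij =>
    hinj hi hj (h i (hS hi) j (hS hj) (hΦ i hi) (hΦ j hj) hij)

/-- Pigeonhole for points: at most `B` colours, so one colour class is large. -/
theorem exists_big_class {A S : Finset ι} {Φ : ι → Prop} {cl : ι → γ} {B : ℕ}
    (hB : nv A Φ cl ≤ B) (hS : ∀ i ∈ S, i ∈ A ∧ Φ i) (hne : S.Nonempty) :
    ∃ j ∈ S, S.card ≤ B * np S (fun i => cl i = cl j) := by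
  classical
  obtain ⟨j, hj, hmax⟩ := exists_max_image S (fun j => np S (fun i => cl i = cl j)) hne
  refine ⟨j, hj, ?_⟩
  have h1 : S.card ≤ np S (fun i => cl i = cl j) * (S.image cl).card := by
    refine card_le_mul_card_image S _ fun v hv => ?_
    obtain ⟨i, hi, rfl⟩ := mem_image.1 hv
    refine le_trans (card_le_np fun a ha => ?_) (hmax i hi)
    exact ⟨(mem_filter.1 ha).1, (mem_filter.1 ha).2⟩
  have h2 : (S.image cl).card ≤ B := le_trans (card_le_nv_of_vals fun v hv => by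
    obtain ⟨i, hi, rfl⟩ := mem_image.1 hv
    exact ⟨i, (hS i hi).1, (hS i hi).2, rfl⟩) hB
  calc S.card ≤ np S (fun i => cl i = cl j) * (S.image cl).card := h1
    _ ≤ np S (fun i => cl i = cl j) * B := Nat.mul_le_mul_left _ h2
    _ = B * np S (fun i => cl i = cl j) := Nat.mul_comm _ _

end Count

section Geo

variable {F : Type} [Field F] [LinearOrder F] [IsStrictOrderedRing F] {ι : Type} [DecidableEq ι]

/-- The point `(a, b)` lies in the convex hull of the points `(x i, y i)`, `i ∈ S`. -/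
def InH (x y : ι → F) (S : Finset ι) (a b : F) : Prop :=
  ∃ w : ι → F, (∀ i ∈ S, 0 ≤ w i) ∧ ∑ i ∈ S, w i = 1 ∧ ∑ i ∈ S, w i * x i = a ∧
    ∑ i ∈ S, w i * y i = b

/-- `K` describes a convex subset of the plane. -/
def Cvx (K : F → F → Prop) : Prop :=
  ∀ a b a' b' μ : F, K a b → K a' b' → 0 ≤ μ → μ ≤ 1 →
    K ((1 - μ) * a + μ * a') ((1 - μ) * b + μ * b')

/-- `Q` is a subset of `A` whose convex hull contains no other point of `A`. -/
def Island (A : Finset ι) (x y : ι → F) (Q : Finset ι) : Prop :=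
  Q ⊆ A ∧ ∀ u ∈ A, InH x y Q (x u) (y u) → u ∈ Q

/-- Every island of size `k` has at most `B` one-point extensions to an island. -/
def Star (k B : ℕ) (A : Finset ι) (x y : ι → F) : Prop :=
  ∀ Q G : Finset ι, Island A x y Q → Q.card = k →
    (∀ g ∈ G, g ∉ Q ∧ Island A x y (insert g Q)) → G.card ≤ B

/-- Orientation determinant. -/
def det3 (x y : ι → F) (a b c : ι) : F :=
  (x b - x a) * (y c - y a) - (y b - y a) * (x c - x a)

/-- Distinct indices give distinct points, no three of them collinear. -/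
def GP (A : Finset ι) (x y : ι → F) : Prop :=
  (∀ a ∈ A, ∀ b ∈ A, x a = x b → y a = y b → a = b) ∧
    ∀ a ∈ A, ∀ b ∈ A, ∀ c ∈ A, a ≠ b → b ≠ c → a ≠ c → det3 x y a b c ≠ 0

def Good (k B : ℕ) (A : Finset ι) (x y : ι → F) : Prop := GP A x y ∧ Star k B A x y

def Tri (k B : ℕ) (A : Finset ι) (x y : ι → F) : Prop :=
  Good k B A x y ∧ ∀ i ∈ A, 0 < x i ∧ 0 < y i

/-- No line through two points of `K` meets the hull of `L`. -/
def Avoid (x y : ι → F) (K L : Finset ι) : Prop :=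
  ∀ a ∈ K, ∀ b ∈ K, a ≠ b → (∀ c ∈ L, 0 < det3 x y a b c) ∨ (∀ c ∈ L, det3 x y a b c < 0)

/-- `A` has a `(k,l)`-set. -/
def KL (k l : ℕ) (A : Finset ι) (x y : ι → F) : Prop :=
  ∃ K L : Finset ι, Disjoint K L ∧ K.card = k ∧ L.card = l ∧ Island A x y (K ∪ L) ∧
    Avoid x y K L ∧ Avoid x y L K

/-- `f` is an affine function of the coordinates. -/
def IsAff (x y f : ι → F) : Prop := ∃ a b c : F, ∀ i, f i = a * x i + b * y i + c

end Geo

section Valn

variable {F : Type} [Field F] [LinearOrder F] [IsStrictOrderedRing F]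
variable {Γ : Type} [Field Γ] [LinearOrder Γ] [IsStrictOrderedRing Γ]
variable {ι : Type} [DecidableEq ι]

/-- `lv` is an order of magnitude function on the positive elements. -/
def IsVal (lv : F → Γ) : Prop :=
  (∀ a b : F, 0 < a → 0 < b → lv (a * b) = lv a + lv b) ∧
    ∀ a b : F, 0 < a → 0 < b → lv (a + b) = max (lv a) (lv b)

/-- `v` has order of magnitude at most `r`. -/
def SmLe (lv : F → Γ) (r : Γ) (v : F) : Prop := v = 0 ∨ lv |v| ≤ r

/-- `v` has order of magnitude less than `r`. -/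
def SmLt (lv : F → Γ) (r : Γ) (v : F) : Prop := v = 0 ∨ lv |v| < r

/-- Good configurations with at most `n` points and `x > 0` have fewer than `T` time classes. -/
def Hyp (lv : F → Γ) (ι : Type) [DecidableEq ι] (k B n T : ℕ) : Prop :=
  ∀ (A : Finset ι) (x y : ι → F), Good k B A x y → A.card ≤ n → (∀ i ∈ A, 0 < x i) →
    nv A (fun _ => True) (fun i => lv (x i)) < T

/-- No configuration with `S` early high levels and a low core meeting `M` later times. -/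
def ZFree (lv : F → Γ) (ι : Type) [DecidableEq ι] (k B n S M : ℕ) : Prop :=
  ∀ (A : Finset ι) (x y : ι → F), Tri k B A x y → A.card ≤ n → ∀ E t0 : Γ,
    S ≤ nv A (fun i => E < lv (y i) ∧ lv (x i) ≤ t0) (fun i => lv (y i)) →
    M ≤ nv A (fun i => lv (y i) ≤ E ∧ t0 < lv (x i)) (fun i => lv (x i)) → False

/-- `W` is a set of early witnesses at distinct levels above the thin set `I`, seen from any
line through two points of `I` at different times. -/
def RowInv (lv : F → Γ) (x y : ι → F) (W I : Finset ι) : Prop :=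
  (∀ f ∈ W, ∀ u ∈ I, lv (x f) ≤ lv (x u)) ∧
    ∀ a b : F, ∀ P1 ∈ I, ∀ P2 ∈ I, lv (x P1) < lv (x P2) →
      y P1 = a + b * x P1 → y P2 = a + b * x P2 →
      (∀ f ∈ W, y f - a - b * x f ≠ 0 ∧ ∀ u ∈ I, lv (x u) ≤ lv (x P2) →
        SmLt lv (lv |y f - a - b * x f|) (y u - a - b * x u)) ∧
      Set.InjOn (fun f => lv |y f - a - b * x f|) (W : Set ι)

/-- `W` is a set of witnesses at distinct levels above the thin set `L`, seen from any line
through a point of `L` and a point of `U`. -/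
def FInv (lv : F → Γ) (x y : ι → F) (W L U : Finset ι) : Prop :=
  ∀ a b : F, ∀ P1 ∈ L, ∀ P2 ∈ U, y P1 = a + b * x P1 → y P2 = a + b * x P2 →
    (∀ f ∈ W, y f - a - b * x f ≠ 0 ∧ ∀ u ∈ L,
      SmLt lv (lv |y f - a - b * x f|) (y u - a - b * x u)) ∧
    Set.InjOn (fun f => lv |y f - a - b * x f|) (W : Set ι)

end Valn

section Real

variable {ι : Type} [DecidableEq ι]

/-- No island is split by an affine function into two parts of size `N` with a moat of ratio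
`z` between them that holds at most `b` points. -/
def NFb (z : ℝ) (b N : ℕ) (A : Finset ι) (x y : ι → ℝ) : Prop :=
  ∀ I : Finset ι, Island A x y I → ∀ f : ι → ℝ, IsAff x y f → (∀ i ∈ I, 0 < f i) → ∀ X : ℝ,
    N ≤ np I (fun i => f i ≤ X) → N ≤ np I (fun i => X ≤ z * f i) →
    np I (fun i => X < f i ∧ z * f i < X) ≤ b → False

def NFall (z : ℝ) (Nf : ℕ → ℕ) (A : Finset ι) (x y : ι → ℝ) : Prop :=
  ∀ b, NFb z b (Nf b) A x y

/-- Number of points in a closed rectangle. -/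
def cnt (A : Finset ι) (X Y : ι → ℝ) (x1 x2 y1 y2 : ℝ) : ℕ :=
  np A (fun i => x1 ≤ X i ∧ X i ≤ x2 ∧ y1 ≤ Y i ∧ Y i ≤ y2)

/-- At least `N` points lie far above the box of radius `R`, within slope `τ` of vertical. -/
def Tg (A : Finset ι) (X Y : ι → ℝ) (R τ : ℝ) (N : ℕ) : Prop :=
  N ≤ np A (fun i => |X i| + R ≤ τ * (Y i - R))

/-- Every square of side `e` with corner in the box of radius `ρ` holds a point. -/
def DenseR (A : Finset ι) (X Y : ι → ℝ) (ρ e : ℝ) : Prop :=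
  ∀ c1 c2 : ℝ, |c1| ≤ ρ → |c2| ≤ ρ →
    ∃ i ∈ A, c1 ≤ X i ∧ X i ≤ c1 + e ∧ c2 ≤ Y i ∧ Y i ≤ c2 + e

/-- The matrix with rows `(p, q)`, `(r, s)` has distortion at most `Λ`. -/
def Dist (p q r s Λ : ℝ) : Prop :=
  ∃ m : ℝ, 0 < m ∧ |p| ≤ m ∧ |q| ≤ m ∧ |r| ≤ m ∧ |s| ≤ m ∧ m ^ 2 ≤ Λ * |p * s - q * r|

end Real

end

end Pool.Agent.Lib.MP_86319c_co
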