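import Pool.Agent.Lib.MP_86319c_co.PropA

set_option autoImplicit false

namespace Pool.Agent.Lib.MP_86319c_co

open Finset

noncomputable section

variable {ι : Type} [DecidableEq ι]

theorem prop_two {z : ℝ} (hz0 : 0 < z) (hz1 : z < 1) (Nf : ℕ → ℕ) {η R : ℝ} (hη : 0 < η)
    (hη1 : η ≤ 1) (hR : 1 ≤ R) (m : ℕ) : ∃ (τ : ℝ) (N Fb : ℕ), 0 < τ ∧
    ∀ (A : Finset ι) (x y X Y : ι → ℝ), NFall z Nf A x y → IsAff x y X → IsAff x y Y →
      Tg A X Y (3 * R + 3) τ N → Tg A Y X (3 * R + 3) τ N →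
      ∀ c1 c2 : ℝ, |c1| ≤ R → |c2| ≤ R → cnt A X Y c1 (c1 + η) c2 (c2 + η) ≤ m →
      cnt A X Y (-R) (c1 + η / 2) (-R) (c2 + η / 2) ≤ Fb := by
  obtain ⟨τ1, N1, F1, hτ1, H1⟩ := prop_one (ι := ι) hz0 hz1 Nf (η := η) (D := 2 * R + 1)
    (ε := η / 4) hη (by linarith) (by linarith) m
  obtain ⟨τ2, N2, F2, hτ2, H2⟩ := prop_one (ι := ι) hz0 hz1 Nf (η := η / 2) (D := 2 * R + 1)
    (ε := η / 2) (by linarith) (by linarith) (by linarith) F1
  refine ⟨min τ1 τ2, max N1 N2, F2, lt_min hτ1 hτ2, ?_⟩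
  intro A x y X Y hA hX hY T1 T2 c1 c2 h1 h2 hm
  have hR' : 0 < 3 * R + 3 := by linarith
  obtain ⟨h1a, h1b⟩ := abs_le.1 h1
  obtain ⟨h2a, h2b⟩ := abs_le.1 h2
  have s1 := H1 A x y X Y hA hX hY (3 * R + 3) c1 (c1 + η) c2 (c2 + η) hR' (by linarith)
    (by linarith) (by linarith) (by linarith) le_rfl
    (T1.mono hR' (lt_min hτ1 hτ2) (min_le_left _ _) (le_max_left _ _)) hm
  have s2 := H2 A x y Y X hA hY hX (3 * R + 3) (c2 - (2 * R + 1)) (c2 + η) (c1 + η / 4)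
    (c1 + η - η / 4) hR' (by linarith) (by linarith) (by linarith) (by linarith) (by linarith)
    (T2.mono hR' (lt_min hτ1 hτ2) (min_le_right _ _) (le_max_right _ _))
    (le_trans (np_le_np fun i _ h => ⟨h.2.2.1, h.2.2.2, h.1, h.2.1⟩) s1)
  refine le_trans (np_le_np fun i _ h => ?_) s2
  obtain ⟨a1, a2, a3, a4⟩ := h
  exact ⟨by linarith, by linarith, by linarith, by linarith⟩

omit [DecidableEq ι] in
theorem propag_neg {x y f : ι → ℝ} (h : IsAff x y f) : IsAff x y (fun i => - f i) := by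
  obtain ⟨a, b, c, h⟩ := h
  exact ⟨-a, -b, -c, fun i => by simp only [h i]; ring⟩

omit [DecidableEq ι] in
theorem propag_tg {A : Finset ι} {X Y : ι → ℝ} {R τ : ℝ} {N : ℕ} (h : Tg A X Y R τ N) :
    Tg A (fun i => - X i) Y R τ N :=
  le_trans h (np_le_np fun i _ hi => by rwa [abs_neg])

theorem prop_four {z : ℝ} (hz0 : 0 < z) (hz1 : z < 1) (Nf : ℕ → ℕ) {R : ℝ} (hR : 1 ≤ R) (m : ℕ) :
    ∃ (τ : ℝ) (N Fb : ℕ), 0 < τ ∧
    ∀ (A : Finset ι) (x y X Y : ι → ℝ), NFall z Nf A x y → IsAff x y X → IsAff x y Y →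
      Tg A X Y (3 * R + 3) τ N → Tg A X (fun i => - Y i) (3 * R + 3) τ N →
      Tg A Y X (3 * R + 3) τ N → Tg A Y (fun i => - X i) (3 * R + 3) τ N →
      np A (fun i => |X i| ≤ 1 / 3 ∧ |Y i| ≤ 1 / 3) ≤ m →
      np A (fun i => |X i| ≤ R ∧ |Y i| ≤ R) ≤ Fb := by
  obtain ⟨τ, N, Fb, hτ, H⟩ := prop_two (ι := ι) hz0 hz1 Nf (η := 2 / 3) (by norm_num)
    (by norm_num) hR m
  refine ⟨τ, N, Fb + Fb + (Fb + Fb), hτ, ?_⟩
  intro A x y X Y hA hX hY T1 T2 T3 T4 hm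
  have hc : |(-1 / 3 : ℝ)| ≤ R := by
    rw [abs_le]
    constructor <;> linarith
  have key : ∀ X' Y' : ι → ℝ, IsAff x y X' → IsAff x y Y' → Tg A X' Y' (3 * R + 3) τ N →
      Tg A Y' X' (3 * R + 3) τ N → (∀ i, |X' i| = |X i|) → (∀ i, |Y' i| = |Y i|) →
      np A (fun i => (|X i| ≤ R ∧ |Y i| ≤ R) ∧ X' i ≤ 0 ∧ Y' i ≤ 0) ≤ Fb := by
    intro X' Y' hX' hY' S1 S2 e1 e2
    refine le_trans (np_le_np fun i _ h => ?_)
      (H A x y X' Y' hA hX' hY' S1 S2 (-1 / 3) (-1 / 3) hc hc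
        (le_trans (np_le_np fun i _ h => ?_) hm))
    · obtain ⟨⟨a1, a2⟩, a3, a4⟩ := h
      rw [← e1] at a1
      rw [← e2] at a2
      exact ⟨(abs_le.1 a1).1, by linarith, (abs_le.1 a2).1, by linarith⟩
    · obtain ⟨a1, a2, a3, a4⟩ := h
      rw [← e1, ← e2, abs_le, abs_le]
      exact ⟨⟨by linarith, by linarith⟩, by linarith, by linarith⟩
  have k1 := key X Y hX hY T1 T3 (fun _ => rfl) fun _ => rfl
  have k2 := key X (fun i => - Y i) hX (propag_neg hY) T2 (propag_tg T3) (fun _ => rfl)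
    fun _ => abs_neg _
  have k3 := key (fun i => - X i) Y (propag_neg hX) hY (propag_tg T1) T4 (fun _ => abs_neg _)
    fun _ => rfl
  have k4 := key (fun i => - X i) (fun i => - Y i) (propag_neg hX) (propag_neg hY) (propag_tg T2)
    (propag_tg T4) (fun _ => abs_neg _) fun _ => abs_neg _
  refine le_trans (np_le_add (Φ := fun i => (|X i| ≤ R ∧ |Y i| ≤ R) ∧ X i ≤ 0)
    (Ψ := fun i => (|X i| ≤ R ∧ |Y i| ≤ R) ∧ - X i ≤ 0) fun i _ h => ?_) (add_le_add ?_ ?_)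
  · rcases le_total (X i) 0 with a | a
    · exact Or.inl ⟨h, a⟩
    · exact Or.inr ⟨h, by linarith⟩
  · refine le_trans (np_le_add fun i _ h => ?_) (add_le_add k1 k2)
    rcases le_total (Y i) 0 with a | a
    · exact Or.inl ⟨h.1, h.2, a⟩
    · exact Or.inr ⟨h.1, h.2, by linarith⟩
  · refine le_trans (np_le_add fun i _ h => ?_) (add_le_add k3 k4)
    rcases le_total (Y i) 0 with a | a
    · exact Or.inl ⟨h.1, h.2, a⟩
    · exact Or.inr ⟨h.1, h.2, by linarith⟩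

end

end Pool.Agent.Lib.MP_86319c_co
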