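import Pool.Agent.Lib.MP_86319c_co.DenseA
import Pool.Agent.Lib.MP_86319c_co.Propag

set_option autoImplicit false

namespace Pool.Agent.Lib.MP_86319c_co

open Finset

noncomputable section

variable {ι : Type} [DecidableEq ι]

omit [DecidableEq ι] in
/-- A ratio gap among the values of a function on few points. -/
theorem dense_gap (A : Finset ι) (Φ : ι → Prop) (f : ι → ℝ) {n : ℕ} (hn : np A Φ ≤ n) {a U : ℝ}
    (ha : 0 < a) (hU : 1 < U) : ∃ μ : ℝ, a ≤ μ ∧ μ * U ≤ a * U ^ (n + 1) ∧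
      ∀ i ∈ A, Φ i → f i < μ * U → f i ≤ μ := by
  obtain ⟨μ, h1, h2, h3⟩ := ratio_gap (vals A Φ f) n ((nv_le_np A Φ f).trans hn) ha hU
  refine ⟨μ, h1, h2, fun i hi hp hlt => ?_⟩
  by_contra hc
  exact absurd (h3 _ (mem_vals.2 ⟨i, hi, hp, rfl⟩) (not_le.1 hc)) (not_le.2 hlt)

/-- The two gaps in a normalised frame. -/
theorem dense_core {z : ℝ} (hz0 : 0 < z) (hz1 : z < 1) {M Fb : ℕ} {U lam T : ℝ}
    (hU : 1 + 4 / z ≤ U) (hlam : lam = 2 * U ^ (M + 1)) (hT : T = 2 * U ^ (Fb + 1))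
    {A : Finset ι} {x y G H : ι → ℝ} (h : NFb z 0 M A x y) (hG : IsAff x y G) (hH : IsAff x y H)
    (hTg : Tg A G H (3 * lam + 3) 1 M) (hFb : np A (fun i => |G i| ≤ lam ∧ |H i| ≤ lam) ≤ Fb) :
    ∃ μ η : ℝ, 1 ≤ μ ∧ μ ≤ lam ∧ 2 / T ≤ η ∧ η ≤ 1 ∧ np A (fun i => |G i| ≤ μ ∧ |H i| ≤ η) < M ∧
      ∀ i ∈ A, |G i| < μ * U → |H i| < η * U → |G i| ≤ μ ∧ |H i| ≤ η := by
  have h4 : 0 < 4 / z := by positivity
  have hU1 : 1 < U := by linarith
  have hU0 : 0 < U := by linarith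
  have hpM : 1 ≤ U ^ (M + 1) := one_le_pow₀ hU1.le
  have hpF : 0 < U ^ (Fb + 1) := pow_pos hU0 _
  have hT0 : 0 < T := by rw [hT]; positivity
  have hl2 : 2 ≤ lam := by linarith
  obtain ⟨η, e1, e2, e3⟩ := dense_gap A _ (fun i => |H i|) hFb (a := 2 / T) (by positivity) hU1
  have e2' : η * U ≤ 1 := by
    refine e2.trans (le_of_eq ?_)
    rw [hT]
    field_simp
  have hη : 0 < η := lt_of_lt_of_le (by positivity) e1
  have hη1 : η ≤ 1 := by nlinarith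
  have hz4 : 4 ≤ z * (U - 1) := by
    have : 4 / z ≤ U - 1 := by linarith
    rw [div_le_iff₀ hz0] at this
    linarith
  have hc := prop_step hz0 hz1 h hG hH (3 * lam + 3) 1 (η * (U - 1)) (2 * η) (-lam) lam η
    (by linarith) one_pos (by linarith) (by nlinarith) (by linarith) (by linarith) (by linarith)
    (by nlinarith) hTg (le_of_eq (np_eq_zero fun i hi hp => by
      obtain ⟨p1, p2, p3, p4⟩ := hp
      have a1 : |H i| = H i := abs_of_pos (hη.trans p3)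
      have a2 := e3 i hi ⟨abs_le.2 ⟨p1, p2⟩, by rw [a1]; nlinarith⟩ (by rw [a1]; nlinarith)
      rw [a1] at a2
      linarith))
  have hc2 : np A (fun i => |G i| ≤ lam / 2 ∧ |H i| ≤ η) < M := by
    refine lt_of_le_of_lt (np_le_np fun i _ hp => ?_) hc
    have a1 := abs_le.1 hp.1
    have a2 := abs_le.1 hp.2
    exact ⟨by nlinarith, by nlinarith, by linarith, a2.2⟩
  obtain ⟨μ, f1, f2, f3⟩ := dense_gap A _ (fun i => |G i|) hc2.le one_pos hU1
  have f2' : μ * U ≤ lam / 2 := by linarith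
  have hμ : μ ≤ lam / 2 := by nlinarith
  refine ⟨μ, η, f1, by linarith, e1, hη1,
    lt_of_le_of_lt (np_le_np fun i _ hp => ⟨hp.1.trans hμ, hp.2⟩) hc2, fun i hi g1 g2 => ?_⟩
  have a1 : |H i| ≤ η := e3 i hi ⟨by linarith, by linarith⟩ g2
  exact ⟨f3 i hi ⟨by linarith, a1⟩ g1, a1⟩

theorem dense_abs_div {p q a b μ : ℝ} (hμ : 0 < μ) :
    |p / μ * a + q / μ * b| = |p * a + q * b| / μ := by
  rw [← abs_of_pos hμ, ← abs_div, abs_of_pos hμ]
  congr 1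
  ring

theorem cluster_succ {z : ℝ} (hz0 : 0 < z) (hz1 : z < 1) (Nf : ℕ → ℕ) {T' : ℝ} (hT' : 1 ≤ T') :
    ∃ T : ℝ, 1 ≤ T ∧ ∀ Λ : ℝ, 0 < Λ → ∃ Λ' e : ℝ, 0 < Λ' ∧ 0 < e ∧
      ∀ (A : Finset ι) (x y X Y : ι → ℝ), NFall z Nf A x y → IsAff x y X → IsAff x y Y →
        DenseR A X Y (1 / 2) e → ∀ j, Cluster A X Y (Nf 0) j T Λ →
        Cluster A X Y (Nf 0) (j + 1) T' Λ' := by
  obtain ⟨U, hU1, hU2⟩ : ∃ U : ℝ, T' ≤ U ∧ 1 + 4 / z ≤ U :=
    ⟨max T' (1 + 4 / z), le_max_left _ _, le_max_right _ _⟩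
  have hU : 1 ≤ U := hT'.trans hU1
  obtain ⟨lam, hlam⟩ : ∃ lam : ℝ, lam = 2 * U ^ (Nf 0 + 1) := ⟨_, rfl⟩
  have hl1 : 1 ≤ lam := by
    have := one_le_pow₀ (n := Nf 0 + 1) hU
    linarith
  obtain ⟨τ, N, Fb, hτ, h4⟩ := prop_four (ι := ι) hz0 hz1 Nf hl1 (Nf 0)
  obtain ⟨T, hT⟩ : ∃ T : ℝ, T = 2 * U ^ (Fb + 1) := ⟨_, rfl⟩
  have hT1 : 1 ≤ T := by
    have := one_le_pow₀ (n := Fb + 1) hU
    linarith
  have hT0 : 0 < T := by linarith
  have hR : 0 < 3 * lam + 3 := by linarith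
  have hτ1 : 0 < min τ 1 := lt_min hτ one_pos
  refine ⟨T, hT1, fun Λ hΛ => ?_⟩
  obtain ⟨e, he, hr⟩ := rich (ι := ι) (Λ := 4 * Λ) (by linarith) hR hτ1 (max N (Nf 0)) (Nf 0)
  have hM0 : (0 : ℝ) < 8 * ((Nf 0 : ℝ) + 1) := by positivity
  refine ⟨lam * T * (4 * Λ), min e (1 / (8 * ((Nf 0 : ℝ) + 1))), by positivity,
    lt_min he (by positivity), fun A x y X Y hNF hX hY hD j hC => ?_⟩
  have hcard : Nf 0 ≤ A.card := by
    refine (dense_count (hD.mono le_rfl (min_le_right _ _)) (by positivity) (Nf 0) (r := 1 / 4) ?_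
      le_rfl 0 0 (by norm_num) (by norm_num)).trans (np_le_card _ _)
    rw [mul_one_div, div_le_iff₀ hM0]
    linarith
  have hD' : DenseR A X Y (1 / 2) e := hD.mono le_rfl (min_le_left _ _)
  obtain ⟨p, q, r, s, hd, hm, hj⟩ := cluster_normal hT1 hC hcard
  have hneg : ∀ a b : ℝ, (fun i => -a * X i + -b * Y i) = fun i => -(a * X i + b * Y i) :=
    fun a b => funext fun i => by ring
  have hneg' : ∀ (a b : ℝ) i, |-a * X i + -b * Y i| = |a * X i + b * Y i| := fun a b i => by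
    rw [← abs_neg]
    congr 1
    ring
  have t1 := hr A X Y hD' p q r s hd hm
  have t2 := hr A X Y hD' p q (-r) (-s) hd.neg_snd (by simpa only [hneg'] using hm)
  have t3 := hr A X Y hD' r s p q hd.swap (by simpa only [and_comm] using hm)
  have t4 := hr A X Y hD' r s (-p) (-q) hd.swap.neg_snd
    (by simpa only [hneg', and_comm] using hm)
  rw [hneg] at t2 t4
  have hG : IsAff x y fun i => p * X i + q * Y i := hX.comb hY p q 0 fun i => by ring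
  have hH : IsAff x y fun i => r * X i + s * Y i := hX.comb hY r s 0 fun i => by ring
  have hFb := h4 A x y _ _ hNF hG hH (t1.mono hR hτ1 (min_le_left _ _) (le_max_left _ _))
    (t2.mono hR hτ1 (min_le_left _ _) (le_max_left _ _))
    (t3.mono hR hτ1 (min_le_left _ _) (le_max_left _ _))
    (t4.mono hR hτ1 (min_le_left _ _) (le_max_left _ _)) hm
  obtain ⟨μ, η, g1, g2, g3, g4, g5, g6⟩ := dense_core hz0 hz1 hU2 hlam hT (hNF 0) hG hH
    (t1.mono hR hτ1 (min_le_right _ _) (le_max_right _ _)) hFb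
  have hμ : 0 < μ := by linarith
  have hη : 0 < η := lt_of_lt_of_le (by positivity) g3
  have hK : μ ≤ lam * T * η := by
    rw [div_le_iff₀ hT0] at g3
    nlinarith
  refine ⟨p / μ, q / μ, r / η, s / η, hd.diag hη (g4.trans g1) hK, ?_, ?_, fun i hi a1 a2 => ?_⟩
  · simp only [dense_abs_div hμ, dense_abs_div hη, div_le_one hμ, div_le_one hη]
    exact hj.trans (np_le_np fun i _ hp => ⟨hp.1.trans g1, hp.2.trans g3⟩)
  · simp only [dense_abs_div hμ, dense_abs_div hη, div_le_one hμ, div_le_one hη]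
    exact g5
  · rw [dense_abs_div hμ, div_lt_iff₀ hμ] at a1
    rw [dense_abs_div hη, div_lt_iff₀ hη] at a2
    rw [dense_abs_div hμ, dense_abs_div hη, div_le_one hμ, div_le_one hη]
    exact g6 i hi (by nlinarith) (by nlinarith)

theorem dense_cluster {z : ℝ} (hz0 : 0 < z) (hz1 : z < 1) (Nf : ℕ → ℕ) (j : ℕ) :
    ∀ T : ℝ, 1 ≤ T → ∃ Λ e : ℝ, 0 < Λ ∧ 0 < e ∧
      ∀ (A : Finset ι) (x y X Y : ι → ℝ), NFall z Nf A x y → IsAff x y X → IsAff x y Y →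
        DenseR A X Y (1 / 2) e → (∀ i ∈ A, X i ≠ 0) → Cluster A X Y (Nf 0) j T Λ := by
  induction j with
  | zero =>
    intro T _
    exact ⟨1, 1, one_pos, one_pos, fun A x y X Y hNF _ _ _ h0 =>
      cluster_zero h0 (nf_pos (hNF 0)) T⟩
  | succ j ih =>
    intro T' hT'
    obtain ⟨T, hT, hs⟩ := cluster_succ (ι := ι) hz0 hz1 Nf hT'
    obtain ⟨Λ, e, hΛ, he, h1⟩ := ih T hT
    obtain ⟨Λ', e', hΛ', he', h2⟩ := hs Λ hΛ
    exact ⟨Λ', min e e', hΛ', lt_min he he', fun A x y X Y hNF hX hY hD h0 =>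
      h2 A x y X Y hNF hX hY (hD.mono le_rfl (min_le_right _ _)) j
        (h1 A x y X Y hNF hX hY (hD.mono le_rfl (min_le_left _ _)) h0)⟩

theorem dense_false {z : ℝ} (hz0 : 0 < z) (hz1 : z < 1) (Nf : ℕ → ℕ) : ∃ e : ℝ, 0 < e ∧ e ≤ 1 ∧
    ∀ (A : Finset ι) (x y X Y : ι → ℝ), NFall z Nf A x y → IsAff x y X → IsAff x y Y →
      DenseR A X Y 1 e → False := by
  obtain ⟨Λ, e, -, he, h⟩ := dense_cluster (ι := ι) hz0 hz1 Nf (Nf 0) 1 le_rfl
  refine ⟨min e 1, lt_min he one_pos, min_le_right _ _, fun A x y X Y hNF hX hY hD => ?_⟩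
  obtain ⟨o, ho, hoA⟩ := (Set.Icc_infinite (by norm_num : (0 : ℝ) < 1 / 2)).exists_notMem_finset
    (A.image X)
  have hD' : DenseR A (fun i => X i - o) Y (1 / 2) e := by
    intro c1 c2 h1 h2
    have a1 := abs_le.1 h1
    obtain ⟨i, hi, b1, b2, b3, b4⟩ := hD.mono le_rfl (min_le_left e 1) (c1 + o) c2
      (abs_le.2 ⟨by linarith [ho.1], by linarith [ho.2]⟩) (h2.trans (by norm_num))
    exact ⟨i, hi, by linarith, by linarith, b3, b4⟩
  obtain ⟨p, q, r, s, -, c1, c2, -⟩ := h A x y (fun i => X i - o) Y hNF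
    (hX.comb hY 1 0 (-o) fun i => by ring) hY hD' fun i hi e0 =>
      hoA (mem_image.2 ⟨i, hi, sub_eq_zero.1 e0⟩)
  exact absurd c1 (not_le.2 c2)

end

end Pool.Agent.Lib.MP_86319c_co
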