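import Pool.Agent.Lib.MP_86319c_co.Rich

set_option autoImplicit false

namespace Pool.Agent.Lib.MP_86319c_co

open Finset

noncomputable section

variable {ι : Type} [DecidableEq ι]

/-- Among `n + 1` consecutive ratio intervals one avoids `n` given values. -/
theorem ratio_gap (V : Finset ℝ) (n : ℕ) (hV : V.card ≤ n) {a T : ℝ} (ha : 0 < a) (hT : 1 < T) :
    ∃ μ : ℝ, a ≤ μ ∧ μ * T ≤ a * T ^ (n + 1) ∧ ∀ v ∈ V, μ < v → μ * T ≤ v := by
  by_contra hcon
  push Not at hcon
  have hT0 : 0 < T := by linarith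
  have h : ∀ i : Fin (n + 1), ∃ v ∈ V, a * T ^ (i : ℕ) < v ∧ v < a * T ^ (i : ℕ) * T := by
    intro i
    refine hcon _ ?_ ?_
    · have := one_le_pow₀ (n := (i : ℕ)) hT.le
      nlinarith
    · rw [mul_assoc, ← pow_succ]
      exact mul_le_mul_of_nonneg_left (pow_le_pow_right₀ hT.le (by omega)) ha.le
  choose v hv h1 h2 using h
  have hlt : ∀ i j : Fin (n + 1), i < j → v i < v j := by
    intro i j hij
    have h3 : a * T ^ (i : ℕ) * T ≤ a * T ^ (j : ℕ) := by
      rw [mul_assoc, ← pow_succ]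
      exact mul_le_mul_of_nonneg_left (pow_le_pow_right₀ hT.le (by omega)) ha.le
    linarith [h1 j, h2 i]
  have hinj : Function.Injective v := (show StrictMono v from hlt).injective
  have := card_le_card_of_injOn (s := (univ : Finset (Fin (n + 1)))) (t := V) v
    (fun i _ => hv i) hinj.injOn
  simp at this
  omega

/-- The cluster statement with `j` points and gap `T`. -/
def Cluster (A : Finset ι) (X Y : ι → ℝ) (M j : ℕ) (T Λ : ℝ) : Prop :=
  ∃ p q r s : ℝ, Dist p q r s Λ ∧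
    j ≤ np A (fun i => |p * X i + q * Y i| ≤ 1 ∧ |r * X i + s * Y i| ≤ 1) ∧
    np A (fun i => |p * X i + q * Y i| ≤ 1 ∧ |r * X i + s * Y i| ≤ 1) < M ∧
    ∀ i ∈ A, |p * X i + q * Y i| < T → |r * X i + s * Y i| < T →
      |p * X i + q * Y i| ≤ 1 ∧ |r * X i + s * Y i| ≤ 1

theorem cluster_zero {A : Finset ι} {X Y : ι → ℝ} (hX : ∀ i ∈ A, X i ≠ 0) {M : ℕ} (hM : 1 ≤ M)
    (T : ℝ) : Cluster A X Y M 0 T 1 := by
  have hs : ∀ i ∈ A, 0 ≤ (|T| + 2) / |X i| := fun i _ => by positivity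
  set m : ℝ := ∑ i ∈ A, (|T| + 2) / |X i| + 1 with hm
  have hm0 : 0 < m := by
    have := sum_nonneg hs
    linarith
  have hbig : ∀ i ∈ A, |T| + 2 ≤ |m * X i + 0 * Y i| := by
    intro i hi
    have h1 : (|T| + 2) / |X i| ≤ m := by
      have := single_le_sum hs hi
      linarith
    have h2 : 0 < |X i| := abs_pos.2 (hX i hi)
    rw [div_le_iff₀ h2] at h1
    rw [zero_mul, add_zero, abs_mul, abs_of_pos hm0]
    exact h1
  refine ⟨m, 0, 0, m, ⟨m, hm0, ?_, ?_, ?_, ?_, ?_⟩, Nat.zero_le _, ?_, ?_⟩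
  · rw [abs_of_pos hm0]
  · simpa using hm0.le
  · simpa using hm0.le
  · rw [abs_of_pos hm0]
  · rw [mul_zero, sub_zero, one_mul, abs_of_pos (by positivity), sq]
  · rw [np_eq_zero]
    · omega
    · intro i hi h
      have := hbig i hi
      have := abs_nonneg T
      linarith [h.1]
  · intro i hi h
    have := hbig i hi
    have := le_abs_self T
    linarith

theorem DenseA_aux {A : Finset ι} {X Y : ι → ℝ} {M j : ℕ} {T Λ p q r s : ℝ} (hT : 1 ≤ T)
    (hd : Dist p q r s Λ)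
    (hj : j ≤ np A (fun i => |p * X i + q * Y i| ≤ 1 ∧ |r * X i + s * Y i| ≤ 1))
    (hM : np A (fun i => |p * X i + q * Y i| ≤ 1 ∧ |r * X i + s * Y i| ≤ 1) < M)
    {P : ι} (hP : P ∈ A) (hPT : T ≤ |p * X P + q * Y P|) (hP1 : 1 < |p * X P + q * Y P|)
    (hP2 : |r * X P + s * Y P| ≤ |p * X P + q * Y P|)
    (hmin : ∀ i ∈ A, |p * X i + q * Y i| < |p * X P + q * Y P| →
      |r * X i + s * Y i| < |p * X P + q * Y P| →
      |p * X i + q * Y i| ≤ 1 ∧ |r * X i + s * Y i| ≤ 1) :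
    ∃ p q r s : ℝ, Dist p q r s (4 * Λ) ∧
      np A (fun i => |p * X i + q * Y i| ≤ 1 / 3 ∧ |r * X i + s * Y i| ≤ 1 / 3) ≤ M ∧
      j + 1 ≤ np A (fun i => |p * X i + q * Y i| ≤ 1 ∧ |r * X i + s * Y i| ≤ 2 / T) := by
  classical
  set g : ℝ := p * X P + q * Y P with hg
  set c : ℝ := (r * X P + s * Y P) / g with hc
  have ht0 : 0 < |g| := by linarith
  have hg0 : g ≠ 0 := abs_pos.1 ht0
  have hT0 : 0 < T := by linarith
  have hc1 : |c| ≤ 1 := by
    rw [hc, abs_div, div_le_one ht0]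
    exact hP2
  have e1 : ∀ i, p / g * X i + q / g * Y i = (p * X i + q * Y i) / g := fun i => by ring
  have e2 : ∀ i, (r - c * p) / g * X i + (s - c * q) / g * Y i =
      ((r * X i + s * Y i) - c * (p * X i + q * Y i)) / g := fun i => by ring
  obtain ⟨m, hm, h1, h2, h3, h4, h5⟩ := hd
  have hb : ∀ u v : ℝ, |u| ≤ m → |v| ≤ m → |(u - c * v) / g| ≤ 2 * m / |g| := by
    intro u v hu hv
    rw [abs_div]
    refine div_le_div_of_nonneg_right ?_ ht0.le
    have := abs_sub u (c * v)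
    rw [abs_mul] at this
    nlinarith [abs_nonneg c, abs_nonneg v]
  have hb' : ∀ u : ℝ, |u| ≤ m → |u / g| ≤ 2 * m / |g| := by
    intro u hu
    rw [abs_div]
    exact div_le_div_of_nonneg_right (by linarith) ht0.le
  refine ⟨p / g, q / g, (r - c * p) / g, (s - c * q) / g,
    ⟨2 * m / |g|, by positivity, hb' _ h1, hb' _ h2, hb _ _ h3 h1, hb _ _ h4 h2, ?_⟩, ?_, ?_⟩
  · have e : p / g * ((s - c * q) / g) - q / g * ((r - c * p) / g) = (p * s - q * r) / g ^ 2 := by
      field_simp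
      ring
    rw [e, abs_div, abs_pow, div_pow, ← mul_div_assoc]
    refine div_le_div_of_nonneg_right ?_ (by positivity)
    nlinarith
  · refine le_trans (np_le_np fun i hi h => ?_) hM.le
    rw [e1, e2, abs_div, abs_div, div_le_iff₀ ht0, div_le_iff₀ ht0] at h
    obtain ⟨k1, k2⟩ := h
    refine hmin i hi (by linarith) ?_
    have k3 := abs_add_le ((r * X i + s * Y i) - c * (p * X i + q * Y i)) (c * (p * X i + q * Y i))
    rw [sub_add_cancel, abs_mul] at k3
    nlinarith [abs_nonneg c, abs_nonneg (p * X i + q * Y i)]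
  · have hnot : P ∉ fl A (fun i => |p * X i + q * Y i| ≤ 1 ∧ |r * X i + s * Y i| ≤ 1) := by
      intro h
      have := (mem_fl.1 h).2.1
      linarith
    have hcard := card_insert_of_notMem hnot
    refine le_trans (Nat.succ_le_succ hj) (le_trans (le_of_eq hcard.symm) (card_le_np ?_))
    intro i hi
    rw [e1, e2]
    rcases mem_insert.1 hi with rfl | hi
    · refine ⟨hP, ?_, ?_⟩
      · rw [← hg, div_self hg0, abs_one]
      · rw [← hg, hc, div_mul_cancel₀ _ hg0, sub_self, zero_div, abs_zero]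
        positivity
    · obtain ⟨hiA, k1, k2⟩ := mem_fl.1 hi
      refine ⟨hiA, ?_, ?_⟩
      · rw [abs_div, div_le_one ht0]
        linarith
      · rw [abs_div]
        have k3 := abs_sub (r * X i + s * Y i) (c * (p * X i + q * Y i))
        rw [abs_mul] at k3
        have k4 : |r * X i + s * Y i - c * (p * X i + q * Y i)| ≤ 2 := by
          nlinarith [abs_nonneg c, abs_nonneg (p * X i + q * Y i)]
        exact div_le_div₀ (by norm_num) k4 hT0 hPT

/-- Normalisation at the nearest point outside the cluster. -/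
theorem cluster_normal {A : Finset ι} {X Y : ι → ℝ} {M j : ℕ} {T Λ : ℝ} (hT : 1 ≤ T)
    (h : Cluster A X Y M j T Λ) (hA : M ≤ A.card) :
    ∃ p q r s : ℝ, Dist p q r s (4 * Λ) ∧
      np A (fun i => |p * X i + q * Y i| ≤ 1 / 3 ∧ |r * X i + s * Y i| ≤ 1 / 3) ≤ M ∧
      j + 1 ≤ np A (fun i => |p * X i + q * Y i| ≤ 1 ∧ |r * X i + s * Y i| ≤ 2 / T) := by
  classical
  obtain ⟨p, q, r, s, hd, hj, hM, hgap⟩ := h
  have hne : (fl A (fun i => ¬ (|p * X i + q * Y i| ≤ 1 ∧ |r * X i + s * Y i| ≤ 1))).Nonempty := by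
    by_contra hn
    rw [not_nonempty_iff_eq_empty] at hn
    have : A.card ≤ np A (fun i => |p * X i + q * Y i| ≤ 1 ∧ |r * X i + s * Y i| ≤ 1) := by
      refine card_le_np fun i hi => ⟨hi, ?_⟩
      by_contra hc
      have : i ∈ fl A (fun i => ¬ (|p * X i + q * Y i| ≤ 1 ∧ |r * X i + s * Y i| ≤ 1)) :=
        mem_fl.2 ⟨hi, hc⟩
      rw [hn] at this
      simp at this
    omega
  obtain ⟨P, hP, hmin⟩ := exists_min_image _
    (fun i => max |p * X i + q * Y i| |r * X i + s * Y i|) hne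
  obtain ⟨hPA, hPn⟩ := mem_fl.1 hP
  have hmin' : ∀ i ∈ A, |p * X i + q * Y i| < max |p * X P + q * Y P| |r * X P + s * Y P| →
      |r * X i + s * Y i| < max |p * X P + q * Y P| |r * X P + s * Y P| →
      |p * X i + q * Y i| ≤ 1 ∧ |r * X i + s * Y i| ≤ 1 := by
    intro i hi k1 k2
    by_contra hc
    have := hmin i (mem_fl.2 ⟨hi, hc⟩)
    exact absurd this (not_le.2 (max_lt k1 k2))
  have hT' : T ≤ max |p * X P + q * Y P| |r * X P + s * Y P| := by
    by_contra hc
    rw [not_le, max_lt_iff] at hc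
    exact hPn (hgap P hPA hc.1 hc.2)
  have h1' : 1 < max |p * X P + q * Y P| |r * X P + s * Y P| := by
    by_contra hc
    rw [not_lt, max_le_iff] at hc
    exact hPn hc
  rcases le_total |r * X P + s * Y P| |p * X P + q * Y P| with hle | hle
  · rw [max_eq_left hle] at hmin' hT' h1'
    exact DenseA_aux hT hd hj hM hPA hT' h1' hle hmin'
  · rw [max_eq_right hle] at hmin' hT' h1'
    obtain ⟨m, hm, h1, h2, h3, h4, h5⟩ := hd
    have hd' : Dist r s p q Λ := ⟨m, hm, h3, h4, h1, h2, by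
      rw [show r * q - s * p = -(p * s - q * r) by ring, abs_neg]
      exact h5⟩
    have e : np A (fun i => |r * X i + s * Y i| ≤ 1 ∧ |p * X i + q * Y i| ≤ 1) =
        np A (fun i => |p * X i + q * Y i| ≤ 1 ∧ |r * X i + s * Y i| ≤ 1) := by
      simp only [and_comm]
    exact DenseA_aux hT hd' (e ▸ hj) (e ▸ hM) hPA hT' h1' hle
      fun i hi k1 k2 => (hmin' i hi k2 k1).symm

end

end Pool.Agent.Lib.MP_86319c_co
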