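import Pool.Agent.Lib.MP_86319c_co.Shrink

set_option autoImplicit false

namespace Pool.Agent.Lib.MP_86319c_co

open Finset

noncomputable section

variable {F : Type} [Field F] [LinearOrder F] [IsStrictOrderedRing F] {ι : Type} [DecidableEq ι]
variable {Γ : Type} [Field Γ] [LinearOrder Γ] [IsStrictOrderedRing Γ]
variable {lv : F → Γ}

theorem FInv.mono {x y : ι → F} {W L U L' U' : Finset ι} (h : FInv lv x y W L U) (hL : L' ⊆ L)
    (hU : U' ⊆ U) : FInv lv x y W L' U' := by
  intro a b P1 hP1 P2 hP2 e1 e2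
  obtain ⟨h1, h2⟩ := h a b P1 (hL hP1) P2 (hU hP2) e1 e2
  exact ⟨fun f hf => ⟨(h1 f hf).1, fun u hu => (h1 f hf).2 u (hL hu)⟩, h2⟩

theorem FInv.insert {x y : ι → F} {W L U L' : Finset ι} {f : ι} (h : FInv lv x y W L U)
    (hf : f ∈ L) (hL : L' ⊆ L) (h' : FInv lv x y {f} L' U) (hne : L'.Nonempty) (hU : U.Nonempty)
    (hsep : ∀ p ∈ L, ∀ q ∈ U, x p ≠ x q) :
    f ∉ W ∧ FInv lv x y (Insert.insert f W) L' U := by
  constructor
  · intro hfW
    obtain ⟨P1, hP1⟩ := hne
    obtain ⟨P2, hP2⟩ := hU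
    obtain ⟨a, b, e1, e2⟩ := exists_line (x := x) (y := y) (hsep P1 (hL hP1) P2 hP2)
    obtain ⟨h1, -⟩ := h a b P1 (hL hP1) P2 hP2 e1 e2
    rcases (h1 f hfW).2 f hf with h0 | h0
    · exact (h1 f hfW).1 h0
    · exact lt_irrefl _ h0
  · intro a b P1 hP1 P2 hP2 e1 e2
    obtain ⟨h1, h2⟩ := h a b P1 (hL hP1) P2 hP2 e1 e2
    obtain ⟨h3, -⟩ := h' a b P1 hP1 P2 hP2 e1 e2
    have h4 := h3 f (mem_singleton_self f)
    have h5 : ∀ g ∈ W, lv |y f - a - b * x f| < lv |y g - a - b * x g| := by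
      intro g hg
      rcases (h1 g hg).2 f hf with h0 | h0
      · exact absurd h0 h4.1
      · exact h0
    constructor
    · intro g hg
      rcases mem_insert.1 hg with rfl | hg
      · exact h4
      · exact ⟨(h1 g hg).1, fun u hu => (h1 g hg).2 u (hL hu)⟩
    · intro g hg g' hg' hgg
      rcases mem_insert.1 (mem_coe.1 hg) with e | hg1
      · rcases mem_insert.1 (mem_coe.1 hg') with e' | hg2
        · rw [e, e']
        · exfalso
          have := h5 g' hg2
          rw [e] at hgg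
          exact absurd hgg (ne_of_lt this)
      · rcases mem_insert.1 (mem_coe.1 hg') with e' | hg2
        · exfalso
          have := h5 g hg1
          rw [e'] at hgg
          exact absurd hgg.symm (ne_of_lt this)
        · exact h2 (mem_coe.2 hg1) (mem_coe.2 hg2) hgg

theorem facing_exists_off {L U : Finset ι} {x y : ι → F} (hG : GP (L ∪ U) x y) (a b : F)
    {P2 : ι} (hP2 : P2 ∈ U) (hP2L : P2 ∉ L) (e2 : y P2 = a + b * x P2) (hL : 2 ≤ L.card) :
    ∃ u ∈ L, y u - a - b * x u ≠ 0 := by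
  by_contra hcon
  push Not at hcon
  have h1 := hG.np_line (-b) 1 (-a) (Or.inr one_ne_zero)
  have h2 : (insert P2 L).card ≤ np (L ∪ U) (fun i => -b * x i + 1 * y i + -a = 0) := by
    refine card_le_np fun i hi => ?_
    rcases mem_insert.1 hi with rfl | hi
    · exact ⟨mem_union_right _ hP2, by rw [e2]; ring⟩
    · exact ⟨mem_union_left _ hi, by linear_combination hcon i hi⟩
  rw [card_insert_of_notMem hP2L] at h2
  omega

/-- One step: either side can be shrunk. -/
theorem facing_step (hv : IsVal lv) {k B : ℕ} (hk : 1 ≤ k) {L U : Finset ι} {x y : ι → F}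
    (hG : Good k B (L ∪ U) x y) (hx : ∀ i ∈ L ∪ U, 0 < x i)
    (hsep : ∀ p ∈ L, ∀ q ∈ U, lv (x p) < lv (x q)) (hL : k + 1 ≤ L.card) (hU : k + 1 ≤ U.card) :
    (∃ L' : Finset ι, L' ⊆ L ∧ Good k B (L' ∪ U) x y ∧ L.card ≤ B * L'.card ∧
      ∃ f ∈ L, FInv lv x y {f} L' U) ∨
    (∃ U' : Finset ι, U' ⊆ U ∧ Good k B (L ∪ U') x y ∧ U.card ≤ B * U'.card ∧
      ∃ f ∈ U, FInv lv (fun i => 1 / x i) (fun i => y i / x i) {f} U' L) := by
  have hLne : L.Nonempty := card_pos.1 (by omega)
  have hUne : U.Nonempty := card_pos.1 (by omega)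
  have hxL : ∀ i ∈ L, 0 < x i := fun i hi => hx i (mem_union_left _ hi)
  have hxU : ∀ i ∈ U, 0 < x i := fun i hi => hx i (mem_union_right _ hi)
  obtain ⟨P1, hP1⟩ := hLne
  obtain ⟨P2, hP2⟩ := hUne
  have hne : x P1 ≠ x P2 := fun e => by
    have := hsep P1 hP1 P2 hP2
    rw [e] at this
    exact lt_irrefl _ this
  obtain ⟨a, b, e1, e2⟩ := exists_line (x := x) (y := y) hne
  have hP2L : P2 ∉ L := fun h => lt_irrefl _ (hsep P2 h P2 hP2)
  have hP1U : P1 ∉ U := fun h => lt_irrefl _ (hsep P1 hP1 P1 h)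
  obtain ⟨P, hP, hPmax⟩ := exists_max_image L (fun i => |y i - a - b * x i|) ⟨P1, hP1⟩
  obtain ⟨Q, hQ, hQmax⟩ := exists_max_image U (fun i => |(y i - a - b * x i) / x i|) ⟨P2, hP2⟩
  obtain ⟨ph, hph, hphmax⟩ := exists_max_image L x ⟨P1, hP1⟩
  obtain ⟨qh, hqh, hqhmin⟩ := exists_min_image U x ⟨P2, hP2⟩
  have hP0 : y P - a - b * x P ≠ 0 := by
    obtain ⟨u, hu, hu0⟩ := facing_exists_off hG.1 a b hP2 hP2L e2 (by omega)
    intro h0
    have := hPmax u hu
    rw [h0, abs_zero] at this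
    exact hu0 (abs_nonpos_iff.1 this)
  have hQ0 : (y Q - a - b * x Q) / x Q ≠ 0 := by
    have hG' : GP (U ∪ L) x y := by rw [union_comm]; exact hG.1
    obtain ⟨u, hu, hu0⟩ := facing_exists_off hG' a b hP1 hP1U e1 (by omega)
    intro h0
    have := hQmax u hu
    rw [h0, abs_zero] at this
    exact (div_ne_zero hu0 (hxU u hu).ne') (abs_nonpos_iff.1 this)
  have hmaxL : ∀ u ∈ L, SmLe lv (lv |y P - a - b * x P|) (y u - a - b * x u) :=
    fun u hu => (smLe_self _).of_abs_le hv (hPmax u hu)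
  have hmaxU : ∀ u ∈ U, SmLe lv (lv |(y Q - a - b * x Q) / x Q|) ((y u - a - b * x u) / x u) :=
    fun u hu => (smLe_self _).of_abs_le hv (hQmax u hu)
  by_cases hc : lv (x ph) + lv |(y Q - a - b * x Q) / x Q| < lv |y P - a - b * x P|
  · left
    refine shrink hv hk hG hx hsep (by omega) a b hP1 e1 hP hP0 hmaxL fun p hp q hq => ?_
    have h1 : SmLe lv (lv (x ph)) (x p) :=
      smLe_of_pos (hxL p hp) (lv_mono hv (hxL p hp) (hphmax p hp))
    exact (h1.mul hv (hmaxU q hq)).smLt hc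
  · right
    push Not at hc
    have hlt := hsep ph hph qh hqh
    have hG' : Good k B (U ∪ L) (fun i => 1 / x i) (fun i => y i / x i) := by
      rw [union_comm]; exact hG.inv hx
    have heta : ∀ i ∈ L ∪ U, y i / x i - b - a * (1 / x i) = (y i - a - b * x i) / x i := by
      intro i hi
      have := (hx i hi).ne'
      field_simp
      ring
    have hQ' := heta Q (mem_union_right _ hQ)
    obtain ⟨U', hU'U, hGU', hcard, f, hf, hI⟩ := shrink hv hk hG'
      (fun i hi => one_div_pos.2 (hx i (by rw [union_comm]; exact hi)))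
      (fun p hp q hq => by
        show lv (1 / x p) < lv (1 / x q)
        rw [lv_one_div hv (hxU p hp), lv_one_div hv (hxL q hq)]
        have := hsep q hq p hp
        linarith)
      (by omega) b a hP2
      (by
        show y P2 / x P2 = b + a * (1 / x P2)
        have := (hxU P2 hP2).ne'
        rw [e2]; field_simp; ring)
      hQ (by show y Q / x Q - b - a * (1 / x Q) ≠ 0; rw [hQ']; exact hQ0)
      (fun u hu => by
        show SmLe lv (lv |y Q / x Q - b - a * (1 / x Q)|) (y u / x u - b - a * (1 / x u))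
        rw [hQ', heta u (mem_union_right _ hu)]
        exact hmaxU u hu)
      (fun p hp q hq => by
        show SmLt lv (lv |y Q / x Q - b - a * (1 / x Q)|)
          (1 / x p * ((y q / x q - b - a * (1 / x q)) / (1 / x q)))
        rw [hQ', heta q (mem_union_left _ hq)]
        have hq0 := (hxL q hq).ne'
        have e3 : (y q - a - b * x q) / x q / (1 / x q) = y q - a - b * x q := by
          field_simp
        rw [e3]
        have h1 : SmLe lv (- lv (x qh)) (1 / x p) := by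
          refine smLe_of_pos (one_div_pos.2 (hxU p hp)) ?_
          rw [lv_one_div hv (hxU p hp)]
          have := lv_mono hv (hxU qh hqh) (hqhmin p hp)
          linarith
        exact (h1.mul hv (hmaxL q hq)).smLt (by linarith))
    refine ⟨U', hU'U, ?_, hcard, f, hf, hI⟩
    rw [union_comm] at hGU'
    refine hGU'.of_inv fun i hi => ?_
    rcases mem_union.1 hi with hi | hi
    · exact hxL i hi
    · exact hxU i (hU'U hi)

theorem facing_final_aux {k B T : ℕ} (hH : ∀ n, Hyp lv ι k B n T) {A W : Finset ι}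
    {x y : ι → F} (hG : Good k B A x y) (hW : W ⊆ A) (a b e : F) (he : |e| = 1)
    (hinj : Set.InjOn (fun f => lv |y f - a - b * x f|) (W : Set ι))
    (hc : T ≤ np W (fun i => 0 < e * (y i - a - b * x i) + 0)) : False := by
  have he0 : e ≠ 0 := by
    intro h; rw [h, abs_zero] at he; exact zero_ne_one he
  have h1 := hG.shear e a b 0 he0
  have h2 := (island_self A x (fun i => e * (y i - a - b * x i) + 0)).fl_pos (isAff_snd _ _)
  have h3 := (h1.restrict h2).swap
  have h4 := hH _ _ _ _ h3 le_rfl (fun i hi => (mem_fl.1 hi).2)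
  have habs : ∀ i, 0 < e * (y i - a - b * x i) + 0 →
      e * (y i - a - b * x i) + 0 = |y i - a - b * x i| := by
    intro i hi
    rw [← abs_of_pos hi, add_zero, abs_mul, he, one_mul]
  have h5 : (fl W (fun i => 0 < e * (y i - a - b * x i) + 0)).card ≤
      nv (fl A (fun i => 0 < e * (y i - a - b * x i) + 0)) (fun _ => True)
        (fun i => lv (e * (y i - a - b * x i) + 0)) := by
    refine card_le_nv (fun i hi => ⟨mem_fl.2 ⟨hW (mem_fl.1 hi).1, (mem_fl.1 hi).2⟩, trivial⟩) ?_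
    intro i hi j hj hij
    have hi' := mem_fl.1 (mem_coe.1 hi)
    have hj' := mem_fl.1 (mem_coe.1 hj)
    refine hinj (mem_coe.2 hi'.1) (mem_coe.2 hj'.1) ?_
    have hij' : lv (e * (y i - a - b * x i) + 0) = lv (e * (y j - a - b * x j) + 0) := hij
    rw [habs i hi'.2, habs j hj'.2] at hij'
    exact hij'
  unfold np at hc
  omega

theorem facing_final (hv : IsVal lv) {k B T : ℕ} (hH : ∀ n, Hyp lv ι k B n T) {A W L U : Finset ι}
    {x y : ι → F} (hG : Good k B A x y) (hW : W ⊆ A) (hI : FInv lv x y W L U)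
    (hL : L.Nonempty) (hU : U.Nonempty) (hsep : ∀ p ∈ L, ∀ q ∈ U, x p ≠ x q)
    (hc : 2 * T ≤ W.card) : False := by
  obtain ⟨P1, hP1⟩ := hL
  obtain ⟨P2, hP2⟩ := hU
  obtain ⟨a, b, e1, e2⟩ := exists_line (x := x) (y := y) (hsep P1 hP1 P2 hP2)
  obtain ⟨h1, h2⟩ := hI a b P1 hP1 P2 hP2 e1 e2
  have h3 : np W (fun _ => True) ≤ np W (fun i => 0 < 1 * (y i - a - b * x i) + 0) +
      np W (fun i => 0 < -1 * (y i - a - b * x i) + 0) := by
    refine np_le_add fun i hi _ => ?_
    rcases lt_or_gt_of_ne (h1 i hi).1 with h | h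
    · right; linarith
    · left; linarith
  rw [np_true] at h3
  by_cases h4 : T ≤ np W (fun i => 0 < 1 * (y i - a - b * x i) + 0)
  · exact facing_final_aux hH hG hW a b 1 abs_one h2 h4
  · exact facing_final_aux hH hG hW a b (-1) (by simp) h2 (by omega)

theorem facing_card_step {B m c d : ℕ} (h1 : (B + 1) * m ≤ d) (h2 : d ≤ B * c) : m ≤ c := by
  have h3 : (B + 1) * m ≤ (B + 1) * c := le_trans h1 (le_trans h2 (by nlinarith))
  exact Nat.le_of_mul_le_mul_left h3 (by omega)

theorem facing_ind (hv : IsVal lv) {k B T : ℕ} (hk : 1 ≤ k) (hH : ∀ n, Hyp lv ι k B n T)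
    {A : Finset ι} {x y : ι → F} (hG : Good k B A x y) (hx : ∀ i ∈ A, 0 < x i) (j : ℕ) :
    ∀ (L U WL WU : Finset ι), L ⊆ A → U ⊆ A → WL ⊆ A → WU ⊆ A → Good k B (L ∪ U) x y →
      (∀ p ∈ L, ∀ q ∈ U, lv (x p) < lv (x q)) → FInv lv x y WL L U →
      FInv lv (fun i => 1 / x i) (fun i => y i / x i) WU U L →
      4 * T ≤ WL.card + WU.card + j → (B + 1) ^ j * (k + 1) ≤ L.card →
      (B + 1) ^ j * (k + 1) ≤ U.card → False := by
  have hne1 : ∀ L U : Finset ι, (∀ p ∈ L, ∀ q ∈ U, lv (x p) < lv (x q)) →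
      ∀ p ∈ L, ∀ q ∈ U, x p ≠ x q := by
    intro L U h p hp q hq e
    have := h p hp q hq
    rw [e] at this
    exact lt_irrefl _ this
  have hne2 : ∀ L U : Finset ι, (∀ p ∈ L, ∀ q ∈ U, lv (x p) < lv (x q)) →
      ∀ p ∈ U, ∀ q ∈ L, (fun i => 1 / x i) p ≠ (fun i => 1 / x i) q := by
    intro L U h p hp q hq e
    have e' : 1 / x p = 1 / x q := e
    rw [one_div, one_div, inv_inj] at e'
    exact hne1 L U h q hq p hp e'.symm
  induction j with
  | zero =>
    intro L U WL WU hL hU hWL hWU hGLU hsep hI1 hI2 hc hcL hcU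
    have hLne : L.Nonempty := card_pos.1 (by simp at hcL; omega)
    have hUne : U.Nonempty := card_pos.1 (by simp at hcU; omega)
    by_cases h : 2 * T ≤ WL.card
    · exact facing_final hv hH hG hWL hI1 hLne hUne (hne1 L U hsep) h
    · exact facing_final hv hH (hG.inv hx) hWU hI2 hUne hLne (hne2 L U hsep) (by omega)
  | succ j ih =>
    intro L U WL WU hL hU hWL hWU hGLU hsep hI1 hI2 hc hcL hcU
    have hpos : 1 ≤ (B + 1) ^ j := Nat.one_le_pow _ _ (by omega)
    have hm : k + 1 ≤ (B + 1) ^ j * (k + 1) := Nat.le_mul_of_pos_left _ hpos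
    have hstep : (B + 1) ^ (j + 1) * (k + 1) = (B + 1) * ((B + 1) ^ j * (k + 1)) := by ring
    rw [hstep] at hcL hcU
    have hmono : (B + 1) ^ j * (k + 1) ≤ (B + 1) * ((B + 1) ^ j * (k + 1)) :=
      Nat.le_mul_of_pos_left _ (by omega)
    have hxLU : ∀ i ∈ L ∪ U, 0 < x i := fun i hi => by
      rcases mem_union.1 hi with hi | hi
      · exact hx i (hL hi)
      · exact hx i (hU hi)
    have hLne : L.Nonempty := card_pos.1 (by omega)
    have hUne : U.Nonempty := card_pos.1 (by omega)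
    rcases facing_step hv hk hGLU hxLU hsep (by omega) (by omega) with
      ⟨L', hL', hG', hcard, f, hf, hI⟩ | ⟨U', hU', hG', hcard, f, hf, hI⟩
    · have hc' := facing_card_step hcL hcard
      have hL'ne : L'.Nonempty := card_pos.1 (by omega)
      obtain ⟨hfW, hI'⟩ := hI1.insert hf hL' hI hL'ne hUne (hne1 L U hsep)
      refine ih L' U (insert f WL) WU (hL'.trans hL) hU (insert_subset (hL hf) hWL) hWU hG'
        (fun p hp q hq => hsep p (hL' hp) q hq) hI' (hI2.mono Subset.rfl hL') ?_ hc' (by omega)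
      rw [card_insert_of_notMem hfW]; omega
    · have hc' := facing_card_step hcU hcard
      have hU'ne : U'.Nonempty := card_pos.1 (by omega)
      obtain ⟨hfW, hI'⟩ := hI2.insert hf hU' hI hU'ne hLne (hne2 L U hsep)
      refine ih L U' WL (insert f WU) hL (hU'.trans hU) hWL (insert_subset (hU hf) hWU) hG'
        (fun p hp q hq => hsep p hp q (hU' hq)) (hI1.mono Subset.rfl hU') hI' ?_ (by omega) hc'
      rw [card_insert_of_notMem hfW]; omega

theorem facing (hv : IsVal lv) {k B T : ℕ} (hk : 1 ≤ k) (hH : ∀ n, Hyp lv ι k B n T) :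
    ∃ M : ℕ, ∀ (L U : Finset ι) (x y : ι → F), Good k B (L ∪ U) x y → (∀ i ∈ L ∪ U, 0 < x i) →
      (∀ p ∈ L, ∀ q ∈ U, lv (x p) < lv (x q)) → M ≤ L.card → M ≤ U.card → False := by
  refine ⟨(B + 1) ^ (4 * T) * (k + 1), fun L U x y hG hx hsep hL hU => ?_⟩
  refine facing_ind hv hk hH hG hx (4 * T) L U ∅ ∅ subset_union_left subset_union_right
    (empty_subset _) (empty_subset _) hG hsep ?_ ?_ (by simp) hL hU
  · intro a b P1 _ P2 _ _ _
    exact ⟨fun f hf => absurd hf (notMem_empty f), by simp⟩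
  · intro a b P1 _ P2 _ _ _
    exact ⟨fun f hf => absurd hf (notMem_empty f), by simp⟩

end

end Pool.Agent.Lib.MP_86319c_co
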