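import Pool.Agent.Lib.MP_86319c_co.Hull

set_option autoImplicit false

namespace Pool.Agent.Lib.MP_86319c_co

open Finset

noncomputable section

variable {F : Type} [Field F] [LinearOrder F] [IsStrictOrderedRing F] {ι : Type} [DecidableEq ι]

/-- Front exposure lemma. -/
theorem fel {k B : ℕ} {A : Finset ι} {x y : ι → F} (hk : 1 ≤ k) (hG : Good k B A x y)
    (K : F → F → Prop) (hK : Cvx K) (hcard : k ≤ np A (fun i => K (x i) (y i))) (α β : F)
    (Φ : ι → Prop)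
    (hsep : ∀ p ∈ A, Φ p → ∀ q ∈ A, K (x q) (y q) → α * x p + β * y p < α * x q + β * y q)
    {γ : Type} (cl : ι → γ)
    (hcl : ∀ p ∈ A, Φ p → ∀ u ∈ A, ¬ K (x u) (y u) → ∀ a b μ : F, K a b → 0 < μ → μ ≤ 1 →
      x u = (1 - μ) * a + μ * x p → y u = (1 - μ) * b + μ * y p → cl u = cl p) :
    nv A Φ cl ≤ B := by
  classical
  set S := fl A (fun i => K (x i) (y i)) with hS
  have hSI : Island A x y S := (island_self A x y).fl hK
  have hne : S.Nonempty := card_pos.1 (lt_of_lt_of_le hk hcard)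
  obtain ⟨q0, hq0, hmin⟩ := exists_min_image
    (fl S fun q => k ≤ np S (fun i => α * x i + β * y i ≤ α * x q + β * y q))
    (fun q => α * x q + β * y q) (by
      obtain ⟨q, hq, hmax⟩ := exists_max_image S (fun q => α * x q + β * y q) hne
      exact ⟨q, mem_fl.2 ⟨hq, hcard.trans (card_le_np fun i hi => ⟨hi, hmax i hi⟩)⟩⟩)
  obtain ⟨hq1, hq2⟩ := mem_fl.1 hq0
  set c := α * x q0 + β * y q0 with hc
  have h1 := hSI.fl (cvx_pos (-α) (-β) c)
  have h2 := hSI.fl (cvx_nonneg (-α) (-β) c)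
  obtain ⟨Q, hQ, hQ1, hQ2, hQk⟩ := interpolate hG.1 h1 h2
    (fun i hi => mem_fl.2 ⟨(mem_fl.1 hi).1, (mem_fl.1 hi).2.le⟩) (m := k) (by
      by_contra h
      obtain ⟨q, hq, hmax⟩ := exists_max_image _ (fun q => α * x q + β * y q)
        (card_pos.1 (lt_of_le_of_lt (Nat.zero_le _) (not_le.1 h)))
      have h3 := hmin q (mem_fl.2 ⟨(mem_fl.1 hq).1, (not_le.1 h).le.trans
        (card_le_np fun i hi => ⟨(mem_fl.1 hi).1, hmax i hi⟩)⟩)
      have h4 := (mem_fl.1 hq).2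
      linarith)
    (hq2.trans (np_le_np fun i _ h => by linarith))
  have hQne : Q.Nonempty := card_pos.1 (by omega)
  have hQK : ∀ i ∈ Q, K (x i) (y i) := fun i hi => (mem_fl.1 (mem_fl.1 (hQ2 hi)).1).2
  set G := fl A (fun g => g ∉ Q ∧ Island A x y (insert g Q)) with hGd
  refine le_trans (nv_le_of_subset (V := G.image cl) fun p hp hΦ => ?_)
    (card_image_le.trans (hG.2 Q G hQ hQk fun g hg => (mem_fl.1 hg).2))
  have hpc := hsep p hp hΦ q0 (mem_fl.1 hq1).1 (mem_fl.1 hq1).2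
  have hpQ : p ∉ Q := fun h => lt_irrefl _ (hsep p hp hΦ p hp (hQK p h))
  have hW : insert p Q ⊆ fl A (fun i => InH x y (insert p Q) (x i) (y i)) := fun i hi =>
    mem_fl.2 ⟨insert_subset hp hQ.1 hi, inH_self hi⟩
  obtain ⟨g, hg, hgQ, hgI⟩ := exists_extension hG.1 hQ (island_hull x y)
    ((subset_insert _ _).trans hW) (lt_of_lt_of_le (card_lt_card (ssubset_insert hpQ))
      (card_le_card hW))
  obtain ⟨hgA, hgH⟩ := mem_fl.1 hg
  obtain ⟨a, b, μ, h3, h4, h5, h6, h7⟩ := inH_insert hQne hgH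
  have hμ : 0 < μ := by
    refine h4.lt_of_ne fun e => hgQ (hQ.2 g hgA ?_)
    rw [h6, h7, ← e]
    simpa using h3
  have h8 := (cvx_nonneg (-α) (-β) c).of_inH (fun i hi => (mem_fl.1 (hQ2 hi)).2) h3
  refine mem_image.2 ⟨g, mem_fl.2 ⟨hgA, hgQ, hgI⟩, hcl p hp hΦ g hgA (fun hKg => hgQ (hQ1 ?_))
    a b μ (hK.of_inH hQK h3) hμ h5 h6 h7⟩
  refine mem_fl.2 ⟨mem_fl.2 ⟨hgA, hKg⟩, ?_⟩
  rw [h6, h7]
  have h9 := mul_nonneg (sub_nonneg.2 h5) h8
  have h10 := mul_pos hμ (sub_pos.2 hpc)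
  linarith

end

end Pool.Agent.Lib.MP_86319c_co
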