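import Pool.Agent.Lib.MP_86319c_co.Defs

set_option autoImplicit false

namespace Pool.Agent.Lib.MP_86319c_co

open Finset

noncomputable section

open Hyperreal

/-- the logarithm of a hyperreal number -/
def HVal_lg (a : ℝ*) : ℝ* := Filter.Germ.map Real.log a

theorem HVal_lg_ofSeq (f : ℕ → ℝ) : HVal_lg (ofSeq f) = ofSeq fun n => Real.log (f n) := rfl

theorem HVal_lg_coe (r : ℝ) : HVal_lg (r : ℝ*) = ((Real.log r : ℝ) : ℝ*) := rfl

theorem HVal_pos {f : ℕ → ℝ} (h : 0 < ofSeq f) : ∀ᶠ n in Filter.hyperfilter ℕ, 0 < f n :=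
  (ofSeq_lt_ofSeq (f := fun _ => 0)).1 h

theorem HVal_lg_mul {a b : ℝ*} (ha : 0 < a) (hb : 0 < b) :
    HVal_lg (a * b) = HVal_lg a + HVal_lg b := by
  obtain ⟨f, rfl⟩ := ofSeq_surjective a
  obtain ⟨g, rfl⟩ := ofSeq_surjective b
  have e1 : ofSeq f * ofSeq g = ofSeq fun n => f n * g n := rfl
  have e2 : HVal_lg (ofSeq f) + HVal_lg (ofSeq g) =
      ofSeq fun n => Real.log (f n) + Real.log (g n) := rfl
  rw [e1, e2, HVal_lg_ofSeq]
  have k := ((HVal_pos ha).and (HVal_pos hb)).mono fun n hn => Real.log_mul hn.1.ne' hn.2.ne'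
  exact le_antisymm (ofSeq_le_ofSeq.2 (k.mono fun n hn => hn.le))
    (ofSeq_le_ofSeq.2 (k.mono fun n hn => hn.ge))

theorem HVal_lg_mono {a b : ℝ*} (ha : 0 < a) (hab : a ≤ b) : HVal_lg a ≤ HVal_lg b := by
  obtain ⟨f, rfl⟩ := ofSeq_surjective a
  obtain ⟨g, rfl⟩ := ofSeq_surjective b
  rw [HVal_lg_ofSeq, HVal_lg_ofSeq]
  exact ofSeq_le_ofSeq.2 (((HVal_pos ha).and (ofSeq_le_ofSeq.1 hab)).mono
    fun n hn => Real.log_le_log hn.1 hn.2)

/-- the finite hyperreal numbers -/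
def HVal_fin : Submodule ℚ ℝ* where
  carrier := {t | ∃ r : ℝ, |t| ≤ (r : ℝ*)}
  add_mem' := by
    rintro a b ⟨r, hr⟩ ⟨s, hs⟩
    exact ⟨r + s, by rw [coe_add]; exact (abs_add_le a b).trans (add_le_add hr hs)⟩
  zero_mem' := ⟨0, by simp⟩
  smul_mem' := by
    rintro c a ⟨r, hr⟩
    refine ⟨|(c : ℝ)| * r, ?_⟩
    have e : ((c : ℝ) : ℝ*) = (c : ℝ*) := map_ratCast coeRingHom c
    rw [Rat.smul_def, abs_mul, coe_mul, coe_abs, e]
    exact mul_le_mul_of_nonneg_left hr (abs_nonneg _)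

theorem HVal_proj : ∃ π : ℝ* → ℝ*, (∀ s t, π (s + t) = π s + π t) ∧ Monotone π ∧
    (∀ r : ℝ, π r = 0) ∧ ∀ t, π t = 0 → ∃ r : ℝ, |t| ≤ (r : ℝ*) := by
  obtain ⟨q, hq⟩ := LinearMap.exists_extend (p := HVal_fin) (LinearMap.id)
  have q1 : ∀ t ∈ HVal_fin, (q t : ℝ*) = t := by
    intro t ht
    have := LinearMap.congr_fun hq ⟨t, ht⟩
    simp only [LinearMap.comp_apply, Submodule.subtype_apply, LinearMap.id_apply] at this
    rw [this]
  have nn : ∀ t : ℝ*, 0 ≤ t → 0 ≤ t - q t := by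
    intro t ht
    by_contra hc
    push Not at hc
    obtain ⟨r, hr⟩ := (q t).2
    have : t ∈ HVal_fin := ⟨r, by
      rw [abs_of_nonneg ht]
      exact le_trans (by linarith [le_abs_self (q t : ℝ*)]) hr⟩
    rw [q1 t this, sub_self] at hc
    exact lt_irrefl _ hc
  refine ⟨fun t => t - q t, fun s t => ?_, fun s t hst => ?_, fun r => ?_, fun t ht => ?_⟩
  · show s + t - q (s + t) = s - q s + (t - q t)
    rw [map_add, Submodule.coe_add]; ring
  · have := nn (t - s) (sub_nonneg.2 hst)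
    rw [map_sub, Submodule.coe_sub] at this
    show s - q s ≤ t - q t
    linarith
  · show (r : ℝ*) - q r = 0
    rw [q1 _ ⟨|r|, by rw [coe_abs]⟩, sub_self]
  · obtain ⟨r, hr⟩ := (q t).2
    exact ⟨r, by rw [sub_eq_zero.1 ht]; exact hr⟩

theorem exists_val : ∃ lv : ℝ* → ℝ*, IsVal lv ∧
    ∀ z : ℝ*, 0 < z → (∀ n : ℕ, (n : ℝ*) * z < 1) → lv z < 0 := by
  obtain ⟨π, p1, p2, p3, p4⟩ := HVal_proj
  have mul : ∀ a b : ℝ*, 0 < a → 0 < b →
      π (HVal_lg (a * b)) = π (HVal_lg a) + π (HVal_lg b) := fun a b ha hb => by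
    rw [HVal_lg_mul ha hb, p1]
  have mono : ∀ a b : ℝ*, 0 < a → a ≤ b → π (HVal_lg a) ≤ π (HVal_lg b) := fun a b ha hab =>
    p2 (HVal_lg_mono ha hab)
  have cst : ∀ r : ℝ, π (HVal_lg r) = 0 := fun r => by rw [HVal_lg_coe, p3]
  have two : π (HVal_lg 2) = 0 := cst 2
  have key : ∀ a b : ℝ*, 0 < a → a ≤ b →
      π (HVal_lg (a + b)) = max (π (HVal_lg a)) (π (HVal_lg b)) := by
    intro a b ha hab
    have hb := ha.trans_le hab
    rw [max_eq_right (mono a b ha hab)]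
    refine le_antisymm ?_ (mono _ _ hb (by linarith))
    have := mono (a + b) (2 * b) (by linarith) (by linarith)
    rwa [mul 2 b two_pos hb, two, zero_add] at this
  refine ⟨fun a => π (HVal_lg a), ⟨mul, fun a b ha hb => ?_⟩, fun z hz h => ?_⟩
  · rcases le_total a b with e | e
    · exact key a b ha e
    · rw [add_comm, max_comm]; exact key b a hb e
  · have z1 : z ≤ ((1 : ℝ) : ℝ*) := by
      have := h 1
      rw [Nat.cast_one, one_mul] at this
      exact this.le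
    have l1 := mono z _ hz z1
    rw [cst] at l1
    refine lt_of_le_of_ne l1 (fun e => ?_)
    obtain ⟨r, hr⟩ := p4 _ e
    obtain ⟨m, hm⟩ := exists_nat_gt (Real.exp r)
    have m0 : (0 : ℝ) < m := (Real.exp_pos r).trans hm
    have em : ((m : ℝ) : ℝ*) = (m : ℝ*) := map_natCast coeRingHom m
    have m1 : (0 : ℝ*) < ((m : ℝ) : ℝ*) := coe_pos.2 m0
    have k1 := HVal_lg_mono (mul_pos m1 hz) (show ((m : ℝ) : ℝ*) * z ≤ ((1 : ℝ) : ℝ*) by
      rw [em]; exact (h m).le)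
    rw [HVal_lg_mul m1 hz, HVal_lg_coe, HVal_lg_coe, Real.log_one, coe_zero] at k1
    have k2 : (r : ℝ*) < ((Real.log m : ℝ) : ℝ*) := coe_lt_coe.2 ((Real.lt_log_iff_exp_lt m0).2 hm)
    have k3 := neg_abs_le (HVal_lg z)
    linarith

end

end Pool.Agent.Lib.MP_86319c_co
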