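import Pool.Agent.Lib.MP_86319c_co.HeavyA

set_option autoImplicit false

namespace Pool.Agent.Lib.MP_86319c_co

open Finset

noncomputable section

variable {ι : Type} [DecidableEq ι]

/-- A subset of given size whose largest triangle is as small as possible. -/
theorem heavy_min {A : Finset ι} {x y : ι → ℝ} (hG : GP A x y) {ν : ℕ} (h3 : 3 ≤ ν)
    (hν : ν ≤ A.card) :
    ∃ S : Finset ι, S ⊆ A ∧ S.card = ν ∧ ∃ a b c : ι, det3 x y a b c ≠ 0 ∧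
      (∀ u ∈ S, |det3 x y a u c| ≤ |det3 x y a b c| ∧ |det3 x y a b u| ≤ |det3 x y a b c|) ∧
      ∀ T : Finset ι, T ⊆ A → T.card = ν →
        ∃ u ∈ T, ∃ v ∈ T, ∃ w ∈ T, |det3 x y a b c| ≤ |det3 x y u v w| := by
  have hmax : ∀ S : Finset ι, ∃ t : ι × ι × ι → Prop, (S.Nonempty → ∃ p, t p) ∧ ∀ p, t p ↔
      (p.1 ∈ S ∧ p.2.1 ∈ S ∧ p.2.2 ∈ S) ∧ ∀ u ∈ S, ∀ v ∈ S, ∀ w ∈ S,
        |det3 x y u v w| ≤ |det3 x y p.1 p.2.1 p.2.2| := by
    intro S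
    refine ⟨_, fun hS => ?_, fun p => Iff.rfl⟩
    obtain ⟨p, hp, hm⟩ := exists_max_image (S ×ˢ S ×ˢ S)
      (fun p => |det3 x y p.1 p.2.1 p.2.2|) (hS.product (hS.product hS))
    refine ⟨p, by simpa using hp, fun u hu v hv w hw => hm (u, v, w) (by simp [hu, hv, hw])⟩
  choose t ht1 ht2 using hmax
  obtain ⟨S0, hS0, hc0⟩ := exists_subset_card_eq hν
  have hne : ∀ S ∈ powersetCard ν A, S.Nonempty := fun S hS =>
    card_pos.1 (by rw [(mem_powersetCard.1 hS).2]; omega)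
  have hch : ∀ S : Finset ι, ∃ p : ι × ι × ι, S ∈ powersetCard ν A → t S p := by
    intro S
    by_cases hS : S ∈ powersetCard ν A
    · obtain ⟨p, hp⟩ := ht1 S (hne S hS)
      exact ⟨p, fun _ => hp⟩
    · obtain ⟨p, _⟩ := ht1 S0 (hne S0 (mem_powersetCard.2 ⟨hS0, hc0⟩))
      exact ⟨p, fun h => absurd h hS⟩
  choose q hq using hch
  obtain ⟨S, hS, hmin⟩ := exists_min_image (powersetCard ν A)
    (fun S => |det3 x y (q S).1 (q S).2.1 (q S).2.2|) ⟨S0, mem_powersetCard.2 ⟨hS0, hc0⟩⟩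
  obtain ⟨⟨ha, hb, hc⟩, hm⟩ := (ht2 S _).1 (hq S hS)
  obtain ⟨hSA, hSc⟩ := mem_powersetCard.1 hS
  refine ⟨S, hSA, hSc, (q S).1, (q S).2.1, (q S).2.2, ?_,
    fun u hu => ⟨hm _ ha u hu _ hc, hm _ ha _ hb u hu⟩, fun T hT hTc => ?_⟩
  · obtain ⟨u, hu, v, hv, w, hw, huv, huw, hvw⟩ := two_lt_card.1 (show 2 < S.card by omega)
    have h1 := hG.2 u (hSA hu) v (hSA hv) w (hSA hw) huv hvw huw
    exact abs_pos.1 (lt_of_lt_of_le (abs_pos.2 h1) (hm u hu v hv w hw))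
  · have hT' := mem_powersetCard.2 ⟨hT, hTc⟩
    obtain ⟨⟨h1, h2, h3⟩, _⟩ := (ht2 T _).1 (hq T hT')
    exact ⟨_, h1, _, h2, _, h3, hmin T hT'⟩

omit [DecidableEq ι] in
theorem heavy_affX (x y : ι → ℝ) (a c : ι) (d : ℝ) :
    IsAff x y fun u => det3 x y a u c / d :=
  ⟨(y c - y a) / d, -(x c - x a) / d, (y a * (x c - x a) - x a * (y c - y a)) / d,
    fun u => by unfold det3; ring⟩

omit [DecidableEq ι] in
theorem heavy_affY (x y : ι → ℝ) (a b : ι) (d : ℝ) :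
    IsAff x y fun u => det3 x y a b u / d :=
  ⟨-(y b - y a) / d, (x b - x a) / d, (x a * (y b - y a) - y a * (x b - x a)) / d,
    fun u => by unfold det3; ring⟩

theorem heavy_comp {x y X Y Z : ι → ℝ} (hX : IsAff x y X) (hY : IsAff x y Y) (hZ : IsAff X Y Z) :
    IsAff x y Z := by
  obtain ⟨a, b, c, h⟩ := hZ
  exact hX.comb hY a b c h

omit [DecidableEq ι] in
theorem heavy_det (x y : ι → ℝ) {a b c : ι} (hd : det3 x y a b c ≠ 0) (u v w : ι) :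
    det3 x y u v w = det3 x y a b c * det3 (fun u => det3 x y a u c / det3 x y a b c)
      (fun u => det3 x y a b u / det3 x y a b c) u v w := by
  obtain ⟨d, hd'⟩ : ∃ d, d = det3 x y a b c := ⟨_, rfl⟩
  rw [← hd'] at hd ⊢
  have h : d * det3 x y u v w = det3 (fun u => det3 x y a u c) (fun u => det3 x y a b u) u v w := by
    rw [hd']
    unfold det3
    ring
  have h2 : det3 (fun u => det3 x y a u c / d) (fun u => det3 x y a b u / d) u v w =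
      det3 (fun u => det3 x y a u c) (fun u => det3 x y a b u) u v w / d ^ 2 := by
    have h3 : ∀ P Q : ι → ℝ, det3 (fun u => P u / d) (fun u => Q u / d) u v w =
        det3 P Q u v w / d ^ 2 := by
      intro P Q
      unfold det3
      field_simp
    exact h3 _ _
  rw [h2, ← h]
  field_simp

theorem heavy_abs {p q r s P Q : ℝ} (hp : |p| ≤ P) (hq : |q| ≤ Q) (hr : |r| ≤ P) (hs : |s| ≤ Q) :
    |p * q - r * s| ≤ 2 * (P * Q) := by
  have hP : 0 ≤ P := (abs_nonneg _).trans hp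
  have h1 : |p * q| ≤ P * Q := by
    rw [abs_mul]; exact mul_le_mul hp hq (abs_nonneg _) hP
  have h2 : |r * s| ≤ P * Q := by
    rw [abs_mul]; exact mul_le_mul hr hs (abs_nonneg _) hP
  exact (abs_sub _ _).trans (by linarith)

theorem heavy_sub {p q R : ℝ} (hp : |p| ≤ R) (hq : |q| ≤ R) : |p - q| ≤ 2 * R :=
  (abs_sub _ _).trans (by linarith)

omit [DecidableEq ι] in
theorem heavy_box {X Y : ι → ℝ} {R : ℝ} {u v w : ι} (hu : |X u| ≤ R ∧ |Y u| ≤ R)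
    (hv : |X v| ≤ R ∧ |Y v| ≤ R) (hw : |X w| ≤ R ∧ |Y w| ≤ R) :
    |det3 X Y u v w| ≤ 8 * R ^ 2 := by
  have := heavy_abs (heavy_sub hv.1 hu.1) (heavy_sub hw.2 hu.2) (heavy_sub hv.2 hu.2)
    (heavy_sub hw.1 hu.1)
  unfold det3
  linarith

omit [DecidableEq ι] in
theorem heavy_move {X Y : ι → ℝ} {h1 h2 h3 : ι} {K r δ : ℝ}
    (b1 : |X h1| ≤ 1 ∧ |Y h1| ≤ 1) (b2 : |X h2| ≤ 1 ∧ |Y h2| ≤ 1) (b3 : |X h3| ≤ 1 ∧ |Y h3| ≤ 1)
    (he : 1 ≤ K * |det3 X Y h1 h2 h3|) (hr : 4 * K * r ≤ δ) {u h : ι}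
    (hu : |X u - X h| ≤ r ∧ |Y u - Y h| ≤ r) :
    |det3 X Y h1 u h3 / det3 X Y h1 h2 h3 - det3 X Y h1 h h3 / det3 X Y h1 h2 h3| ≤ δ ∧
    |det3 X Y h1 h2 u / det3 X Y h1 h2 h3 - det3 X Y h1 h2 h / det3 X Y h1 h2 h3| ≤ δ := by
  have hr0 : 0 ≤ r := (abs_nonneg _).trans hu.1
  have he0 : 0 < |det3 X Y h1 h2 h3| := by
    rcases (abs_nonneg (det3 X Y h1 h2 h3)).lt_or_eq with h | h
    · exact h
    · rw [← h] at he; linarith
  have key : ∀ t : ℝ, |t| ≤ 2 * (r * (2 * 1)) → |t / det3 X Y h1 h2 h3| ≤ δ := by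
    intro t ht
    rw [abs_div, div_le_iff₀ he0]
    have h4 : 4 * r * 1 ≤ 4 * r * (K * |det3 X Y h1 h2 h3|) :=
      mul_le_mul_of_nonneg_left he (by linarith)
    have h5 := mul_le_mul_of_nonneg_right hr he0.le
    linarith
  constructor
  · rw [← sub_div]
    refine key _ ?_
    have := heavy_abs hu.1 (heavy_sub b3.2 b1.2) hu.2 (heavy_sub b3.1 b1.1)
    rwa [show det3 X Y h1 u h3 - det3 X Y h1 h h3 =
      (X u - X h) * (Y h3 - Y h1) - (Y u - Y h) * (X h3 - X h1) by unfold det3; ring]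
  · rw [← sub_div]
    refine key _ ?_
    have := heavy_abs hu.2 (heavy_sub b2.1 b1.1) hu.1 (heavy_sub b2.2 b1.2)
    rwa [show det3 X Y h1 h2 u - det3 X Y h1 h2 h =
      (Y u - Y h) * (X h2 - X h1) - (X u - X h) * (Y h2 - Y h1) by unfold det3; ring]

theorem heavy {z : ℝ} (hz0 : 0 < z) (hz1 : z < 1) (Nf : ℕ → ℕ) {δ : ℝ} (hδ : 0 < δ) (N1 : ℕ) :
    ∃ n0 : ℕ, ∀ (A : Finset ι) (x y : ι → ℝ), GP A x y → NFall z Nf A x y → n0 ≤ A.card →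
      ∃ X Y : ι → ℝ, IsAff x y X ∧ IsAff x y Y ∧
        N1 ≤ np A (fun i => |X i| ≤ δ ∧ |Y i| ≤ δ) ∧
        N1 ≤ np A (fun i => |X i - 1| ≤ δ ∧ |Y i| ≤ δ) ∧
        N1 ≤ np A (fun i => |X i| ≤ δ ∧ |Y i - 1| ≤ δ) := by
  obtain ⟨K, hK⟩ : ∃ K : ℝ, K = 8 * (4 / z) ^ 2 := ⟨_, rfl⟩
  have hK0 : 0 < K := by rw [hK]; positivity
  obtain ⟨m, hm⟩ := exists_nat_gt (4 * K / δ)
  have hm0 : (0 : ℝ) < m := lt_trans (by positivity) hm
  have hm1 : 1 ≤ m := Nat.cast_pos.1 hm0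
  have hr : 4 * K * (1 / (m : ℝ)) ≤ δ := by
    rw [div_lt_iff₀ hδ] at hm
    rw [mul_one_div, div_le_iff₀ hm0]
    linarith
  obtain ⟨b, hb⟩ : ∃ b, b = N1 * (2 * m + 1) ^ 2 := ⟨_, rfl⟩
  obtain ⟨ν, hν⟩ : ∃ ν, ν = max (Nf b) 3 := ⟨_, rfl⟩
  have hν1 : Nf b ≤ ν := hν ▸ le_max_left _ _
  have hν3 : 3 ≤ ν := hν ▸ le_max_right _ _
  refine ⟨ν + b + 4 * Nf b, fun A x y hG hN hA => ?_⟩
  obtain ⟨S', hS'A, hS'c, a', b', c', hd', hbd', hmin'⟩ := heavy_min hG hν3 (by omega)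
  obtain ⟨S, hSA, hSc, a0, b0, c0, hd, hbd, hmin⟩ :=
    heavy_min hG (ν := ν + b) (by omega) (by omega)
  have hunit : ∀ {p d : ℝ}, d ≠ 0 → |p| ≤ |d| → |p / d| ≤ 1 := by
    intro p d h0 h
    rw [abs_div, div_le_one (abs_pos.2 h0)]
    exact h
  have h1 : |det3 x y a0 b0 c0| ≤ |det3 x y a' b' c'| * K := by
    have hg := box_growth hz0 hz1 (hN b) (heavy_affX x y a' c' (det3 x y a' b' c'))
      (heavy_affY x y a' b' (det3 x y a' b' c')) hν1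
      (hS'c ▸ card_le_np fun i hi => ⟨hS'A hi, hunit hd' (hbd' i hi).1, hunit hd' (hbd' i hi).2⟩) hA
    obtain ⟨T, hTA, hTc, hT⟩ := exists_of_le_np hg
    obtain ⟨u, hu, v, hv, w, hw, h⟩ := hmin T hTA hTc
    rw [heavy_det x y hd' u v w, abs_mul] at h
    refine h.trans (mul_le_mul_of_nonneg_left ?_ (abs_nonneg _))
    rw [hK]
    exact heavy_box (hT u hu) (hT v hv) (hT w hw)
  obtain ⟨X, hX⟩ : ∃ X : ι → ℝ, X = fun u => det3 x y a0 u c0 / det3 x y a0 b0 c0 := ⟨_, rfl⟩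
  obtain ⟨Y, hY⟩ : ∃ Y : ι → ℝ, Y = fun u => det3 x y a0 b0 u / det3 x y a0 b0 c0 := ⟨_, rfl⟩
  have hXa : IsAff x y X := hX ▸ heavy_affX x y a0 c0 _
  have hYa : IsAff x y Y := hY ▸ heavy_affY x y a0 b0 _
  have hbox : ∀ i ∈ S, |X i| ≤ 1 ∧ |Y i| ≤ 1 := by
    intro i hi
    rw [hX, hY]
    exact ⟨hunit hd (hbd i hi).1, hunit hd (hbd i hi).2⟩
  have hl := light_count A S hSA X Y m N1 hm1 hbox
  have hsplit := np_le_add (A := S) (Θ := fun _ => True)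
    (Φ := fun i => np A (fun j => |X j - X i| ≤ 1 / (m : ℝ) ∧ |Y j - Y i| ≤ 1 / (m : ℝ)) < N1)
    (Ψ := fun i => N1 ≤ np A (fun j => |X j - X i| ≤ 1 / (m : ℝ) ∧ |Y j - Y i| ≤ 1 / (m : ℝ)))
    fun i _ _ => lt_or_ge _ _
  rw [np_true, hSc] at hsplit
  obtain ⟨T, hTS, hTc, hT⟩ := exists_of_le_np (A := S) (n := ν)
    (Φ := fun i => N1 ≤ np A (fun j => |X j - X i| ≤ 1 / (m : ℝ) ∧ |Y j - Y i| ≤ 1 / (m : ℝ)))
    (by omega)
  obtain ⟨h1', hh1, h2', hh2, h3', hh3, h⟩ := hmin' T (hTS.trans hSA) hTc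
  rw [heavy_det x y hd h1' h2' h3', ← hX, ← hY, abs_mul] at h
  have he : 1 ≤ K * |det3 X Y h1' h2' h3'| := by
    have h2 := mul_le_mul_of_nonneg_right h1 (abs_nonneg (det3 X Y h1' h2' h3'))
    have h3 : |det3 x y a' b' c'| * 1 ≤ |det3 x y a' b' c'| * (K * |det3 X Y h1' h2' h3'|) := by
      linarith
    exact le_of_mul_le_mul_left h3 (abs_pos.2 hd')
  have he0 : det3 X Y h1' h2' h3' ≠ 0 := by
    intro h0
    rw [h0, abs_zero] at he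
    linarith
  have hmv := fun (u h : ι) (hu : |X u - X h| ≤ 1 / (m : ℝ) ∧ |Y u - Y h| ≤ 1 / (m : ℝ)) =>
    heavy_move (hbox _ (hTS hh1)) (hbox _ (hTS hh2)) (hbox _ (hTS hh3)) he hr hu
  have z1 : det3 X Y h1' h1' h3' = 0 := by unfold det3; ring
  have z2 : det3 X Y h1' h2' h1' = 0 := by unfold det3; ring
  have z3 : det3 X Y h1' h2' h2' = 0 := by unfold det3; ring
  have z4 : det3 X Y h1' h3' h3' = 0 := by unfold det3; ring
  refine ⟨_, _, heavy_comp hXa hYa (heavy_affX X Y h1' h3' (det3 X Y h1' h2' h3')),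
    heavy_comp hXa hYa (heavy_affY X Y h1' h2' (det3 X Y h1' h2' h3')),
    (hT _ hh1).trans (np_le_np fun u _ hu => ?_), (hT _ hh2).trans (np_le_np fun u _ hu => ?_),
    (hT _ hh3).trans (np_le_np fun u _ hu => ?_)⟩
  · have := hmv u _ hu
    rwa [z1, z2, zero_div, sub_zero, sub_zero] at this
  · have := hmv u _ hu
    rwa [z3, zero_div, sub_zero, div_self he0] at this
  · have := hmv u _ hu
    rwa [z4, zero_div, sub_zero, div_self he0] at this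

end

end Pool.Agent.Lib.MP_86319c_co
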