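import Pool.Agent.Lib.MP_86319c_co.NF3

set_option autoImplicit false

namespace Pool.Agent.Lib.MP_86319c_co

open Finset

noncomputable section

variable {ι : Type} [DecidableEq ι]

theorem heavyA_cone {z : ℝ} (hz0 : 0 < z) (hz1 : z < 1) {b N ν : ℕ} {A : Finset ι} {x y : ι → ℝ}
    (h : NFb z b N A x y) {X Y : ι → ℝ} (hX : IsAff x y X) (hY : IsAff x y Y) (hν : N ≤ ν)
    (hS : ν ≤ np A (fun i => |X i| ≤ 1 ∧ |Y i| ≤ 1))
    (hB : np A (fun i => |X i| ≤ 4 / z ∧ |Y i| ≤ 4 / z) < ν + b) :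
    np A (fun i => 4 / z < X i ∧ |Y i| ≤ X i) < N := by
  by_contra hN
  have hR : 4 < 4 / z := by
    rw [lt_div_iff₀ hz0]
    linarith
  refine nf3 h (fun i => X i + 2 - Y i) (fun i => X i + 2 + Y i) (fun _ => 1) (fun i => X i + 3)
    (hX.comb hY 1 (-1) 2 fun i => by ring) (hX.comb hY 1 1 2 fun i => by ring) (isAff_const x y 1)
    (hX.comb hY 1 0 3 fun i => by ring) (fun i _ h1 h2 _ => by linarith) 4
    (hν.trans (hS.trans (np_le_np fun i _ hi => ?_)))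
    ((not_lt.1 hN).trans (np_le_np fun i _ hi => ?_)) ?_
  · have h1 := abs_le.1 hi.1
    have h2 := abs_le.1 hi.2
    exact ⟨⟨by linarith, by linarith, zero_le_one⟩, by linarith⟩
  · have h1 := (div_lt_iff₀ hz0).1 hi.1
    have h2 := abs_le.1 hi.2
    exact ⟨⟨by linarith, by linarith, zero_le_one⟩, by linarith⟩
  · have := add_le_np (A := A) (Θ := fun i => |X i| ≤ 4 / z ∧ |Y i| ≤ 4 / z)
      (Φ := fun i => |X i| ≤ 1 ∧ |Y i| ≤ 1)
      (Ψ := fun i => (0 ≤ X i + 2 - Y i ∧ 0 ≤ X i + 2 + Y i ∧ (0 : ℝ) ≤ 1) ∧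
        4 < X i + 3 ∧ z * (X i + 3) < 4)
      (fun i _ hi => ⟨by linarith [hi.1], by linarith [hi.2]⟩) (fun i _ hi => ?_)
      (fun i _ h1 h2 => by linarith [(abs_le.1 h1.1).2, h2.2.1])
    · omega
    · obtain ⟨⟨h1, h2, -⟩, h3, h4⟩ := hi
      have h5 : X i + 3 < 4 / z := by
        rw [lt_div_iff₀ hz0]
        linarith
      exact ⟨abs_le.2 ⟨by linarith, by linarith⟩, abs_le.2 ⟨by linarith, by linarith⟩⟩

/-- A set of `ν` points in the unit box forces `b` more points in the box of radius `4 / z`. -/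
theorem box_growth {z : ℝ} (hz0 : 0 < z) (hz1 : z < 1) {b N ν : ℕ} {A : Finset ι} {x y : ι → ℝ}
    (h : NFb z b N A x y) {X Y : ι → ℝ} (hX : IsAff x y X) (hY : IsAff x y Y) (hν : N ≤ ν)
    (hS : ν ≤ np A (fun i => |X i| ≤ 1 ∧ |Y i| ≤ 1)) (hA : ν + b + 4 * N ≤ A.card) :
    ν + b ≤ np A (fun i => |X i| ≤ 4 / z ∧ |Y i| ≤ 4 / z) := by
  by_contra hB
  rw [not_le] at hB
  have hX' : IsAff x y fun i => -X i := hX.comb hY (-1) 0 0 fun i => by ring
  have hY' : IsAff x y fun i => -Y i := hX.comb hY 0 (-1) 0 fun i => by ring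
  have c1 := heavyA_cone hz0 hz1 h hX hY hν hS hB
  have c2 := heavyA_cone hz0 hz1 h hX' hY hν (by simpa only [abs_neg] using hS)
    (by simpa only [abs_neg] using hB)
  have c3 := heavyA_cone hz0 hz1 h hY hX hν (by simpa only [and_comm] using hS)
    (by simpa only [and_comm] using hB)
  have c4 := heavyA_cone hz0 hz1 h hY' hX hν (by simpa only [abs_neg, and_comm] using hS)
    (by simpa only [abs_neg, and_comm] using hB)
  have d0 := np_le_add (A := A) (Θ := fun _ => True)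
    (Φ := fun i => |X i| ≤ 4 / z ∧ |Y i| ≤ 4 / z)
    (Ψ := fun i => ¬ (|X i| ≤ 4 / z ∧ |Y i| ≤ 4 / z)) fun i _ _ => em _
  have d1 := np_le_add (A := A) (Θ := fun i => ¬ (|X i| ≤ 4 / z ∧ |Y i| ≤ 4 / z))
    (Φ := fun i => 4 / z < |X i| ∧ |Y i| ≤ |X i|) (Ψ := fun i => 4 / z < |Y i| ∧ |X i| ≤ |Y i|)
    fun i _ hi => by
      rw [not_and_or, not_le, not_le] at hi
      rcases le_total |Y i| |X i| with h1 | h1
      · exact Or.inl ⟨hi.elim id fun h2 => h2.trans_le h1, h1⟩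
      · exact Or.inr ⟨hi.elim (fun h2 => h2.trans_le h1) id, h1⟩
  have key : ∀ u v : ℝ, 4 / z < |u| ∧ |v| ≤ |u| →
      (4 / z < u ∧ |v| ≤ u) ∨ (4 / z < -u ∧ |v| ≤ -u) := fun u v hi => by
    rcases abs_choice u with e | e <;> rw [e] at hi
    exacts [Or.inl hi, Or.inr hi]
  have d2 := np_le_add (A := A) (Θ := fun i => 4 / z < |X i| ∧ |Y i| ≤ |X i|)
    fun i _ hi => key _ _ hi
  have d3 := np_le_add (A := A) (Θ := fun i => 4 / z < |Y i| ∧ |X i| ≤ |Y i|)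
    fun i _ hi => key _ _ hi
  rw [np_true] at d0
  omega

theorem heavyA_cell {m : ℕ} (hm : 1 ≤ m) {u v : ℝ} (h : ⌊(m : ℝ) * u⌋ = ⌊(m : ℝ) * v⌋) :
    |u - v| ≤ 1 / (m : ℝ) := by
  have hm0 : (0 : ℝ) < m := by exact_mod_cast hm
  have := Int.abs_sub_lt_one_of_floor_eq_floor h
  rw [← mul_sub, abs_mul, abs_of_pos hm0] at this
  rw [le_div_iff₀ hm0]
  linarith

theorem heavyA_mem (m : ℕ) {u : ℝ} (h : |u| ≤ 1) : ⌊(m : ℝ) * u⌋ ∈ Icc (-(m : ℤ)) m := by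
  have hm0 : (0 : ℝ) ≤ m := Nat.cast_nonneg m
  have h1 := abs_le.1 h
  rw [mem_Icc, Int.le_floor, Int.floor_le_iff]
  push_cast
  constructor <;> nlinarith

/-- Few points of the unit box have few close neighbours. -/
theorem light_count (A S : Finset ι) (hS : S ⊆ A) (X Y : ι → ℝ) (m N1 : ℕ) (hm : 1 ≤ m)
    (hbox : ∀ i ∈ S, |X i| ≤ 1 ∧ |Y i| ≤ 1) :
    np S (fun i => np A (fun j => |X j - X i| ≤ 1 / (m : ℝ) ∧ |Y j - Y i| ≤ 1 / (m : ℝ)) < N1) ≤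
      N1 * (2 * m + 1) ^ 2 := by
  have hc : (Icc (-(m : ℤ)) m ×ˢ Icc (-(m : ℤ)) m).card = (2 * m + 1) ^ 2 := by
    have : (Icc (-(m : ℤ)) m).card = 2 * m + 1 := by
      rw [Int.card_Icc]
      omega
    rw [card_product, this, sq]
  rw [← hc]
  refine card_le_mul_card_image_of_maps_to (f := fun i => (⌊(m : ℝ) * X i⌋, ⌊(m : ℝ) * Y i⌋))
    (fun i hi => ?_) _ fun c _ => ?_
  · have := hbox i (mem_fl.1 hi).1
    exact mem_product.2 ⟨heavyA_mem m this.1, heavyA_mem m this.2⟩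
  · refine le_of_not_gt fun hlt => ?_
    obtain ⟨i, hi⟩ := card_pos.1 (lt_of_le_of_lt (Nat.zero_le _) hlt)
    obtain ⟨hi1, hi2⟩ := mem_filter.1 hi
    refine lt_asymm hlt (lt_of_le_of_lt (card_le_np fun j hj => ?_) (mem_fl.1 hi1).2)
    obtain ⟨hj1, hj2⟩ := mem_filter.1 hj
    have e := Prod.ext_iff.1 (hj2.trans hi2.symm)
    exact ⟨hS (mem_fl.1 hj1).1, heavyA_cell hm e.1, heavyA_cell hm e.2⟩

end

end Pool.Agent.Lib.MP_86319c_co
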