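import Pool.Agent.Lib.MP_86319c_co.Defs

set_option autoImplicit false
set_option linter.unusedSectionVars false

namespace Pool.Agent.Lib.MP_86319c_co

open Finset

noncomputable section

variable {F : Type} [Field F] [LinearOrder F] [IsStrictOrderedRing F] {ι : Type} [DecidableEq ι]

theorem inH_self {x y : ι → F} {S : Finset ι} {i : ι} (hi : i ∈ S) : InH x y S (x i) (y i) := by
  refine ⟨fun j => if j = i then 1 else 0, fun j _ => ?_, ?_, ?_, ?_⟩
  · dsimp only; split_ifs <;> norm_num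
  · simp [hi]
  · simp [hi]
  · simp [hi]

theorem inH_mono {x y : ι → F} {S T : Finset ι} (h : S ⊆ T) {a b : F} (hS : InH x y S a b) :
    InH x y T a b := by
  obtain ⟨w, h0, h1, h2, h3⟩ := hS
  refine ⟨fun j => if j ∈ S then w j else 0, fun j _ => ?_, ?_, ?_, ?_⟩
  · dsimp only; split_ifs with hj
    · exact h0 j hj
    · exact le_rfl
  · rw [← h1, ← sum_subset h (fun j _ hj => by simp [hj])]
    exact sum_congr rfl fun j hj => by simp [hj]
  · rw [← h2, ← sum_subset h (fun j _ hj => by simp [hj])]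
    exact sum_congr rfl fun j hj => by simp [hj]
  · rw [← h3, ← sum_subset h (fun j _ hj => by simp [hj])]
    exact sum_congr rfl fun j hj => by simp [hj]

theorem not_inH_empty {x y : ι → F} {a b : F} : ¬ InH x y ∅ a b := by
  rintro ⟨w, -, h1, -⟩
  simp at h1

theorem cvx_inH (x y : ι → F) (S : Finset ι) : Cvx (InH x y S) := by
  rintro a b a' b' μ ⟨w, h0, h1, h2, h3⟩ ⟨w', h0', h1', h2', h3'⟩ hμ0 hμ1
  refine ⟨fun i => (1 - μ) * w i + μ * w' i, fun i hi => ?_, ?_, ?_, ?_⟩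
  · exact add_nonneg (mul_nonneg (sub_nonneg.2 hμ1) (h0 i hi)) (mul_nonneg hμ0 (h0' i hi))
  · rw [sum_add_distrib, ← mul_sum, ← mul_sum, h1, h1']; ring
  · rw [← h2, ← h2', mul_sum, mul_sum, ← sum_add_distrib]
    exact sum_congr rfl fun i _ => by ring
  · rw [← h3, ← h3', mul_sum, mul_sum, ← sum_add_distrib]
    exact sum_congr rfl fun i _ => by ring

theorem Cvx.of_inH {K : F → F → Prop} (hK : Cvx K) {x y : ι → F} {S : Finset ι}
    (hS : ∀ i ∈ S, K (x i) (y i)) {a b : F} (h : InH x y S a b) : K a b := by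
  obtain ⟨w, h0, h1, h2, h3⟩ := h
  have hc : Convex F {p : F × F | K p.1 p.2} := by
    intro p hp q hq s t hs ht hst
    have := hK p.1 p.2 q.1 q.2 t hp hq ht (by linarith)
    have e : 1 - t = s := by linarith
    rw [e] at this
    simpa using this
  have := hc.sum_mem (t := S) (w := w) (z := fun i => (x i, y i)) h0 h1 hS
  have e : ∑ i ∈ S, w i • (x i, y i) = (a, b) := by
    ext
    · simp [Prod.fst_sum, h2]
    · simp [Prod.snd_sum, h3]
  rw [e] at this
  exact this

theorem inH_trans {x y : ι → F} {S T : Finset ι} (h : ∀ i ∈ T, InH x y S (x i) (y i)) {a b : F}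
    (hT : InH x y T a b) : InH x y S a b :=
  (cvx_inH x y S).of_inH h hT

theorem inH_insert {x y : ι → F} {S : Finset ι} (hS : S.Nonempty) {g : ι} {a b : F}
    (h : InH x y (insert g S) a b) :
    ∃ a' b' μ : F, InH x y S a' b' ∧ 0 ≤ μ ∧ μ ≤ 1 ∧ a = (1 - μ) * a' + μ * x g ∧
      b = (1 - μ) * b' + μ * y g := by
  by_cases hg : g ∈ S
  · rw [insert_eq_of_mem hg] at h
    exact ⟨a, b, 0, h, le_rfl, zero_le_one, by ring, by ring⟩
  obtain ⟨w, h0, h1, h2, h3⟩ := h
  rw [sum_insert hg] at h1 h2 h3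
  have hw : ∀ i ∈ S, 0 ≤ w i := fun i hi => h0 i (mem_insert_of_mem hi)
  have hs : 0 ≤ ∑ i ∈ S, w i := sum_nonneg hw
  have hg0 : 0 ≤ w g := h0 g (mem_insert_self _ _)
  rcases eq_or_lt_of_le hs with hz | hpos
  · obtain ⟨j, hj⟩ := hS
    have hz' : ∀ i ∈ S, w i = 0 := (sum_eq_zero_iff_of_nonneg hw).1 hz.symm
    have e1 : ∑ i ∈ S, w i * x i = 0 := sum_eq_zero fun i hi => by rw [hz' i hi, zero_mul]
    have e2 : ∑ i ∈ S, w i * y i = 0 := sum_eq_zero fun i hi => by rw [hz' i hi, zero_mul]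
    have e3 : w g = 1 := by linarith
    refine ⟨x j, y j, 1, inH_self hj, zero_le_one, le_rfl, ?_, ?_⟩
    · rw [← h2, e1, e3]; ring
    · rw [← h3, e2, e3]; ring
  · set s := ∑ i ∈ S, w i with hsdef
    have hs0 : s ≠ 0 := hpos.ne'
    have e : 1 - w g = s := by linarith
    refine ⟨(∑ i ∈ S, w i * x i) / s, (∑ i ∈ S, w i * y i) / s, w g,
      ⟨fun i => w i / s, fun i hi => div_nonneg (hw i hi) hpos.le, ?_, ?_, ?_⟩, hg0, by linarith,
      ?_, ?_⟩
    · rw [← sum_div, ← hsdef, div_self hs0]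
    · rw [sum_div]; exact sum_congr rfl fun i _ => by ring
    · rw [sum_div]; exact sum_congr rfl fun i _ => by ring
    · rw [e, ← h2]; field_simp; ring
    · rw [e, ← h3]; field_simp; ring

theorem inH_congr {x y x' y' : ι → F} {S : Finset ι} (hx : ∀ i ∈ S, x i = x' i)
    (hy : ∀ i ∈ S, y i = y' i) {a b : F} (h : InH x y S a b) : InH x' y' S a b := by
  obtain ⟨w, h0, h1, h2, h3⟩ := h
  refine ⟨w, h0, h1, ?_, ?_⟩
  · rw [← h2]; exact sum_congr rfl fun i hi => by rw [hx i hi]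
  · rw [← h3]; exact sum_congr rfl fun i hi => by rw [hy i hi]

theorem Cvx.and {K K' : F → F → Prop} (h : Cvx K) (h' : Cvx K') :
    Cvx (fun a b => K a b ∧ K' a b) :=
  fun a b a' b' μ h1 h2 h3 h4 => ⟨h a b a' b' μ h1.1 h2.1 h3 h4, h' a b a' b' μ h1.2 h2.2 h3 h4⟩

theorem cvx_true : Cvx (fun (_ _ : F) => True) := fun _ _ _ _ _ _ _ _ _ => trivial

theorem cvx_nonneg (α β γ : F) : Cvx (fun a b => 0 ≤ α * a + β * b + γ) := by
  intro a b a' b' μ h1 h2 h3 h4
  have e : α * ((1 - μ) * a + μ * a') + β * ((1 - μ) * b + μ * b') + γ =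
      (1 - μ) * (α * a + β * b + γ) + μ * (α * a' + β * b' + γ) := by ring
  rw [e]
  exact add_nonneg (mul_nonneg (sub_nonneg.2 h4) h1) (mul_nonneg h3 h2)

theorem cvx_pos (α β γ : F) : Cvx (fun a b => 0 < α * a + β * b + γ) := by
  intro a b a' b' μ h1 h2 h3 h4
  have e : α * ((1 - μ) * a + μ * a') + β * ((1 - μ) * b + μ * b') + γ =
      (1 - μ) * (α * a + β * b + γ) + μ * (α * a' + β * b' + γ) := by ring
  rw [e]
  rcases eq_or_lt_of_le h3 with h | h
  · rw [← h]; simpa using h1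
  · exact add_pos_of_nonneg_of_pos (mul_nonneg (sub_nonneg.2 h4) h1.le) (mul_pos h h2)

theorem island_self (A : Finset ι) (x y : ι → F) : Island A x y A :=
  ⟨Subset.rfl, fun _ hu _ => hu⟩

theorem island_empty (A : Finset ι) (x y : ι → F) : Island A x y ∅ :=
  ⟨empty_subset _, fun _ _ h => absurd h not_inH_empty⟩

theorem Island.trans {A I Q : Finset ι} {x y : ι → F} (hI : Island A x y I)
    (hQ : Island I x y Q) : Island A x y Q :=
  ⟨hQ.1.trans hI.1, fun u hu h => hQ.2 u (hI.2 u hu (inH_mono hQ.1 h)) h⟩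

theorem Island.of_subset {A I Q : Finset ι} {x y : ι → F} (hQ : Island A x y Q) (hQI : Q ⊆ I)
    (hI : I ⊆ A) : Island I x y Q :=
  ⟨hQI, fun u hu h => hQ.2 u (hI hu) h⟩

theorem Island.fl {A I : Finset ι} {x y : ι → F} (hI : Island A x y I) {K : F → F → Prop}
    (hK : Cvx K) : Island A x y (fl I (fun i => K (x i) (y i))) :=
  ⟨(fl_subset _ _).trans hI.1, fun u hu h => mem_fl.2
    ⟨hI.2 u hu (inH_mono (fl_subset _ _) h), hK.of_inH (fun _ hi => (mem_fl.1 hi).2) h⟩⟩

theorem island_hull {A S : Finset ι} (x y : ι → F) :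
    Island A x y (fl A (fun i => InH x y S (x i) (y i))) :=
  (island_self A x y).fl (cvx_inH x y S)

theorem Island.fl_nonneg {A I : Finset ι} {x y f : ι → F} (hI : Island A x y I)
    (hf : IsAff x y f) : Island A x y (MP_86319c_co.fl I (fun i => 0 ≤ f i)) := by
  obtain ⟨a, b, c, e⟩ := hf
  have : f = fun i => a * x i + b * y i + c := funext e
  subst this
  exact hI.fl (cvx_nonneg a b c)

theorem Island.fl_pos {A I : Finset ι} {x y f : ι → F} (hI : Island A x y I)
    (hf : IsAff x y f) : Island A x y (MP_86319c_co.fl I (fun i => 0 < f i)) := by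
  obtain ⟨a, b, c, e⟩ := hf
  have : f = fun i => a * x i + b * y i + c := funext e
  subst this
  exact hI.fl (cvx_pos a b c)

/-- Anti-exchange. -/
theorem hull_anti_exchange {A Q : Finset ι} {x y : ι → F} (hGP : GP A x y)
    (hQ : Island A x y Q) {g u : ι} (hg : g ∈ A) (hu : u ∈ A) (hgQ : g ∉ Q) (hne : u ≠ g)
    (h1 : InH x y (insert g Q) (x u) (y u)) (h2 : InH x y (insert u Q) (x g) (y g)) : False := by
  rcases Q.eq_empty_or_nonempty with rfl | hQne
  · obtain ⟨w, -, e1, e2, e3⟩ := h1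
    simp only [insert_empty_eq, sum_singleton] at e1 e2 e3
    rw [e1, one_mul] at e2 e3
    exact hne (hGP.1 u hu g hg e2.symm e3.symm)
  obtain ⟨a, b, m, hab, hm0, hm1, ea, eb⟩ := inH_insert hQne h1
  obtain ⟨a', b', n, hab', hn0, hn1, ea', eb'⟩ := inH_insert hQne h2
  have hmn : n * m ≤ 1 := mul_le_one₀ hn1 hm0 hm1
  rcases eq_or_lt_of_le hmn with h | h
  · have hm : m = 1 := by
      by_contra hm
      have : m < 1 := lt_of_le_of_ne hm1 hm
      have : n * m < 1 := lt_of_le_of_lt (mul_le_of_le_one_left hm0 hn1) this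
      exact absurd h this.ne
    rw [hm] at ea eb
    exact hne (hGP.1 u hu g hg (by rw [ea]; ring) (by rw [eb]; ring))
  · have hd : 0 < 1 - n * m := sub_pos.2 h
    have hμ0 : 0 ≤ n * (1 - m) / (1 - n * m) :=
      div_nonneg (mul_nonneg hn0 (sub_nonneg.2 hm1)) hd.le
    have hμ1 : n * (1 - m) / (1 - n * m) ≤ 1 := by
      rw [div_le_one hd]; nlinarith
    have := cvx_inH x y Q a' b' a b _ hab' hab hμ0 hμ1
    apply hgQ
    apply hQ.2 g hg
    convert this using 1
    · field_simp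
      rw [ea] at ea'
      linear_combination ea'
    · field_simp
      rw [eb] at eb'
      linear_combination eb'

/-- One more point can be added to an island inside a larger island. -/
theorem exists_extension {A Q W : Finset ι} {x y : ι → F} (hGP : GP A x y)
    (hQ : Island A x y Q) (hW : Island A x y W) (hQW : Q ⊆ W) (hne : Q.card < W.card) :
    ∃ g ∈ W, g ∉ Q ∧ Island A x y (insert g Q) := by
  have hne' : (W \ Q).Nonempty := by
    rw [← card_pos, card_sdiff_of_subset hQW]; omega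
  obtain ⟨g, hg, hmin⟩ := exists_min_image (W \ Q)
    (fun g => np A (fun i => InH x y (insert g Q) (x i) (y i))) hne'
  have hgW := (mem_sdiff.1 hg).1
  have hgQ := (mem_sdiff.1 hg).2
  refine ⟨g, hgW, hgQ, insert_subset (hW.1 hgW) hQ.1, fun u hu h => ?_⟩
  by_contra hun
  have huQ : u ∉ Q := fun h' => hun (mem_insert_of_mem h')
  have hug : u ≠ g := fun h' => hun (h' ▸ mem_insert_self _ _)
  have huW : u ∈ W := hW.2 u hu (inH_mono (insert_subset hgW hQW) h)
  have hle := hmin u (mem_sdiff.2 ⟨huW, huQ⟩)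
  refine absurd hle (not_le.2 (card_lt_card ⟨fun i hi => ?_, fun hsub => ?_⟩))
  · refine mem_fl.2 ⟨(mem_fl.1 hi).1, inH_trans (fun j hj => ?_) (mem_fl.1 hi).2⟩
    rcases mem_insert.1 hj with rfl | hj
    · exact h
    · exact inH_self (mem_insert_of_mem hj)
  · have := hsub (mem_fl.2 ⟨hW.1 hgW, inH_self (mem_insert_self g Q)⟩)
    exact hull_anti_exchange hGP hQ (hW.1 hgW) hu hgQ hug h (mem_fl.1 this).2

theorem interpolate {A Q W : Finset ι} {x y : ι → F} (hGP : GP A x y)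
    (hQ : Island A x y Q) (hW : Island A x y W) (hQW : Q ⊆ W) {m : ℕ} (h1 : Q.card ≤ m)
    (h2 : m ≤ W.card) : ∃ V : Finset ι, Island A x y V ∧ Q ⊆ V ∧ V ⊆ W ∧ V.card = m := by
  induction m, h1 using Nat.le_induction with
  | base => exact ⟨Q, hQ, Subset.rfl, hQW, rfl⟩
  | succ m _ ih =>
    obtain ⟨V, hV, hQV, hVW, hc⟩ := ih (by omega)
    obtain ⟨g, hgW, hgV, hI⟩ := exists_extension hGP hV hW hVW (by omega)
    exact ⟨insert g V, hI, hQV.trans (subset_insert _ _), insert_subset hgW hVW,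
      by rw [card_insert_of_notMem hgV, hc]⟩

theorem GP.subset {A I : Finset ι} {x y : ι → F} (h : GP A x y) (hI : I ⊆ A) : GP I x y :=
  ⟨fun a ha b hb => h.1 a (hI ha) b (hI hb),
    fun a ha b hb c hc => h.2 a (hI ha) b (hI hb) c (hI hc)⟩

theorem Good.restrict {k B : ℕ} {A I : Finset ι} {x y : ι → F} (h : Good k B A x y)
    (hI : Island A x y I) : Good k B I x y :=
  ⟨h.1.subset hI.1, fun Q G hQ hk hG =>
    h.2 Q G (hI.trans hQ) hk fun g hg => ⟨(hG g hg).1, hI.trans (hG g hg).2⟩⟩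

theorem Island.congr {A Q : Finset ι} {x y x' y' : ι → F} (h : Island A x y Q)
    (hx : ∀ i ∈ A, x i = x' i) (hy : ∀ i ∈ A, y i = y' i) : Island A x' y' Q :=
  ⟨h.1, fun u hu hin => h.2 u hu (by
    rw [hx u hu, hy u hu]
    exact inH_congr (fun i hi => (hx i (h.1 hi)).symm) (fun i hi => (hy i (h.1 hi)).symm) hin)⟩

theorem Good.congr {k B : ℕ} {A : Finset ι} {x y x' y' : ι → F} (h : Good k B A x y)
    (hx : ∀ i ∈ A, x i = x' i) (hy : ∀ i ∈ A, y i = y' i) : Good k B A x' y' := by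
  have hx' : ∀ i ∈ A, x' i = x i := fun i hi => (hx i hi).symm
  have hy' : ∀ i ∈ A, y' i = y i := fun i hi => (hy i hi).symm
  refine ⟨⟨fun a ha b hb e1 e2 => h.1.1 a ha b hb ?_ ?_, fun a ha b hb c hc h1 h2 h3 => ?_⟩,
    fun Q G hQ hk hG => h.2 Q G (hQ.congr hx' hy') hk fun g hg =>
      ⟨(hG g hg).1, (hG g hg).2.congr hx' hy'⟩⟩
  · rw [hx a ha, hx b hb, e1]
  · rw [hy a ha, hy b hb, e2]
  · have := h.1.2 a ha b hb c hc h1 h2 h3
    unfold det3 at this ⊢
    rwa [← hx a ha, ← hx b hb, ← hx c hc, ← hy a ha, ← hy b hb, ← hy c hc]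

/-- At most two points lie on a line. -/
theorem GP.np_line {A : Finset ι} {x y : ι → F} (h : GP A x y) (α β γ : F)
    (hne : α ≠ 0 ∨ β ≠ 0) : np A (fun i => α * x i + β * y i + γ = 0) ≤ 2 := by
  by_contra hlt
  obtain ⟨a, b, c, ha, hb, hc, hab, hac, hbc⟩ := two_lt_card_iff.1 (not_le.1 hlt)
  have hd := h.2 a (mem_fl.1 ha).1 b (mem_fl.1 hb).1 c (mem_fl.1 hc).1 hab hbc hac
  have ea := (mem_fl.1 ha).2
  have eb := (mem_fl.1 hb).2
  have ec := (mem_fl.1 hc).2
  unfold det3 at hd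
  rcases hne with h0 | h0
  · apply hd
    apply mul_left_cancel₀ h0
    linear_combination (y c - y a) * eb - (y c - y a) * ea - (y b - y a) * ec + (y b - y a) * ea
  · apply hd
    apply mul_left_cancel₀ h0
    linear_combination (x b - x a) * ec - (x b - x a) * ea - (x c - x a) * eb + (x c - x a) * ea

theorem isAff_const (x y : ι → F) (c : F) : IsAff x y (fun _ => c) := ⟨0, 0, c, fun _ => by ring⟩

theorem isAff_fst (x y : ι → F) : IsAff x y x := ⟨1, 0, 0, fun _ => by ring⟩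

theorem isAff_snd (x y : ι → F) : IsAff x y y := ⟨0, 1, 0, fun _ => by ring⟩

/-- An affine combination of two affine functions is affine. -/
theorem IsAff.comb {x y f g : ι → F} (hf : IsAff x y f) (hg : IsAff x y g) (α β γ : F)
    {h : ι → F} (hh : ∀ i, h i = α * f i + β * g i + γ) : IsAff x y h := by
  obtain ⟨a, b, c, e⟩ := hf
  obtain ⟨a', b', c', e'⟩ := hg
  exact ⟨α * a + β * a', α * b + β * b', α * c + β * c' + γ, fun i => by
    rw [hh, e, e']; ring⟩

/-- Two points with different abscissae span a line that is a graph. -/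
theorem exists_line {x y : ι → F} {P1 P2 : ι} (h : x P1 ≠ x P2) :
    ∃ a b : F, y P1 = a + b * x P1 ∧ y P2 = a + b * x P2 := by
  have hd : x P2 - x P1 ≠ 0 := sub_ne_zero.2 h.symm
  refine ⟨y P1 - (y P2 - y P1) / (x P2 - x P1) * x P1, (y P2 - y P1) / (x P2 - x P1), by ring, ?_⟩
  field_simp
  ring

end

end Pool.Agent.Lib.MP_86319c_co
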