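import Pool.Agent.Lib.MP_86319c_co.LS
import Pool.Agent.Lib.MP_86319c_co.Facing
import Pool.Agent.Lib.MP_86319c_co.HVal

set_option autoImplicit false

namespace Pool.Agent.Lib.MP_86319c_co

open Finset

noncomputable section

open Hyperreal

/-- The passage from sequences to hyperreals as a ring map. -/
def hyS : (ℕ → ℝ) →+* ℝ* where
  toFun := ofSeq
  map_one' := rfl
  map_mul' _ _ := rfl
  map_zero' := rfl
  map_add' _ _ := rfl

theorem hyS_apply (f : ℕ → ℝ) : hyS f = ofSeq f := rfl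

theorem hy_eq {f g : ℕ → ℝ} : hyS f = hyS g ↔ ∀ᶠ n in Filter.hyperfilter ℕ, f n = g n :=
  Filter.Germ.coe_eq

theorem hy_le {f g : ℕ → ℝ} : hyS f ≤ hyS g ↔ ∀ᶠ n in Filter.hyperfilter ℕ, f n ≤ g n :=
  ofSeq_le_ofSeq

theorem hy_lt {f g : ℕ → ℝ} : hyS f < hyS g ↔ ∀ᶠ n in Filter.hyperfilter ℕ, f n < g n :=
  ofSeq_lt_ofSeq

theorem hy_inH (x y : ℕ → ℕ → ℝ) (S : Finset ℕ) (u : ℕ)
    (h : ∀ᶠ j in Filter.hyperfilter ℕ, InH (x j) (y j) S (x j u) (y j u)) :
    InH (fun i => hyS (fun j => x j i)) (fun i => hyS (fun j => y j i)) S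
      (hyS (fun j => x j u)) (hyS (fun j => y j u)) := by
  have h1 : ∀ j, ∃ w : ℕ → ℝ, InH (x j) (y j) S (x j u) (y j u) →
      (∀ i ∈ S, 0 ≤ w i) ∧ ∑ i ∈ S, w i = 1 ∧ ∑ i ∈ S, w i * x j i = x j u ∧
        ∑ i ∈ S, w i * y j i = y j u := by
    intro j
    by_cases hj : InH (x j) (y j) S (x j u) (y j u)
    · obtain ⟨w, hw⟩ := hj
      exact ⟨w, fun _ => hw⟩
    · exact ⟨0, fun h' => absurd h' hj⟩
  choose w hw using h1
  refine ⟨fun i => hyS (fun j => w j i), fun i hi => ?_, ?_, ?_, ?_⟩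
  · rw [← map_zero hyS, hy_le]
    filter_upwards [h] with j hj
    exact (hw j hj).1 i hi
  · rw [← map_sum, ← map_one hyS, hy_eq]
    filter_upwards [h] with j hj
    rw [Finset.sum_apply]
    exact (hw j hj).2.1
  · simp only [← map_mul]
    rw [← map_sum, hy_eq]
    filter_upwards [h] with j hj
    rw [Finset.sum_apply]
    exact (hw j hj).2.2.1
  · simp only [← map_mul]
    rw [← map_sum, hy_eq]
    filter_upwards [h] with j hj
    rw [Finset.sum_apply]
    exact (hw j hj).2.2.2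

theorem hy_island (A : Finset ℕ) (x y : ℕ → ℕ → ℝ) {Q : Finset ℕ}
    (h : Island A (fun i => hyS (fun j => x j i)) (fun i => hyS (fun j => y j i)) Q) :
    ∀ᶠ j in Filter.hyperfilter ℕ, Island A (x j) (y j) Q := by
  have h1 : ∀ᶠ j in Filter.hyperfilter ℕ, ∀ u ∈ A,
      InH (x j) (y j) Q (x j u) (y j u) → u ∈ Q := by
    rw [Filter.eventually_all_finset]
    intro u hu
    by_cases hQ : u ∈ Q
    · exact Filter.Eventually.of_forall fun _ _ => hQ
    · have h2 : ¬ ∀ᶠ j in Filter.hyperfilter ℕ, InH (x j) (y j) Q (x j u) (y j u) :=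
        fun h3 => hQ (h.2 u hu (hy_inH x y Q u h3))
      filter_upwards [Ultrafilter.eventually_not.mpr h2] with j hj h3
      exact absurd h3 hj
  filter_upwards [h1] with j hj
  exact ⟨h.1, hj⟩

/-- Transfer of good configurations to the ultrapower. -/
theorem good_ofSeq {k B : ℕ} (A : Finset ℕ) (x y : ℕ → ℕ → ℝ)
    (h : ∀ j, Good k B A (x j) (y j)) :
    Good k B A (fun i => ofSeq (fun j => x j i)) (fun i => ofSeq (fun j => y j i)) := by
  show Good k B A (fun i => hyS (fun j => x j i)) (fun i => hyS (fun j => y j i))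
  refine ⟨⟨fun a ha b hb hx hy => ?_, fun a ha b hb c hc hab hbc hac h0 => ?_⟩,
    fun Q G hQ hk hG => ?_⟩
  · obtain ⟨j, h1, h2⟩ := ((hy_eq.mp hx).and (hy_eq.mp hy)).exists
    exact (h j).1.1 a ha b hb h1 h2
  · unfold det3 at h0
    simp only [← map_sub, ← map_mul] at h0
    rw [← map_zero hyS, hy_eq] at h0
    obtain ⟨j, hj⟩ := h0.exists
    exact (h j).1.2 a ha b hb c hc hab hbc hac hj
  · have h1 : ∀ᶠ j in Filter.hyperfilter ℕ, ∀ g ∈ G, Island A (x j) (y j) (insert g Q) := by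
      rw [Filter.eventually_all_finset]
      exact fun g hg => hy_island A x y (hG g hg).2
    obtain ⟨j, h2, h3⟩ := ((hy_island A x y hQ).and h1).exists
    exact (h j).2 Q G h2 hk fun g hg => ⟨(hG g hg).1, h3 g hg⟩

theorem real_facing (k B : ℕ) (hk : 1 ≤ k) : ∃ (M : ℕ) (z : ℝ), 0 < z ∧ z < 1 ∧
    ∀ (x y : ℕ → ℝ), Good k B (range (M + M)) x y → (∀ i < M + M, 0 < x i) →
      (∀ p < M, ∀ q, M ≤ q → q < M + M → x p ≤ z * x q) → False := by
  obtain ⟨lv, hv, hz⟩ := exists_val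
  obtain ⟨T, hT⟩ := ls_bound (ι := ℕ) hv k B hk
  obtain ⟨M, hM⟩ := facing hv hk hT
  by_contra hn
  have h1 : ∀ j : ℕ, ∃ x y : ℕ → ℝ, Good k B (range (M + M)) x y ∧ (∀ i < M + M, 0 < x i) ∧
      ∀ p < M, ∀ q, M ≤ q → q < M + M → x p ≤ 1 / ((j : ℝ) + 2) * x q := by
    intro j
    by_contra h2
    have h3 : (0 : ℝ) < (j : ℝ) + 2 := by positivity
    refine hn ⟨M, 1 / ((j : ℝ) + 2), by positivity, ?_, fun x y a b c => h2 ⟨x, y, a, b, c⟩⟩
    rw [div_lt_one h3]
    have : (0 : ℝ) ≤ j := Nat.cast_nonneg j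
    linarith
  choose x y hG hx hs using h1
  have hU : range M ∪ Ico M (M + M) = range (M + M) := by
    ext i
    simp only [mem_union, mem_range, mem_Ico]
    omega
  have hpos : ∀ i < M + M, 0 < hyS (fun j => x j i) := by
    intro i hi
    rw [← map_zero hyS, hy_lt]
    exact Filter.Eventually.of_forall fun j => hx j i hi
  have he0 : 0 < hyS (fun j => 1 / ((j : ℝ) + 2)) := by
    rw [← map_zero hyS, hy_lt]
    exact Filter.Eventually.of_forall fun j => by
      show (0 : ℝ) < 1 / ((j : ℝ) + 2)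
      positivity
  have he1 : lv (hyS (fun j => 1 / ((j : ℝ) + 2))) < 0 := by
    refine hz _ he0 fun n => ?_
    rw [← map_natCast hyS, ← map_mul, ← map_one hyS, hy_lt]
    refine Filter.Eventually.filter_mono Nat.hyperfilter_le_atTop ?_
    filter_upwards [Filter.eventually_ge_atTop n] with j hj
    show (n : ℝ) * (1 / ((j : ℝ) + 2)) < 1
    have h3 : (0 : ℝ) < (j : ℝ) + 2 := by positivity
    have h4 : (n : ℝ) ≤ j := Nat.cast_le.mpr hj
    rw [mul_one_div, div_lt_one h3]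
    linarith
  refine hM (range M) (Ico M (M + M)) (fun i => hyS (fun j => x j i))
    (fun i => hyS (fun j => y j i)) ?_ ?_ ?_ ?_ ?_
  · rw [hU]
    exact good_ofSeq _ x y hG
  · rw [hU]
    exact fun i hi => hpos i (mem_range.mp hi)
  · intro p hp q hq
    have hp' := mem_range.mp hp
    obtain ⟨hq1, hq2⟩ := mem_Ico.mp hq
    have h2 : hyS (fun j => x j p)
        ≤ hyS (fun j => 1 / ((j : ℝ) + 2)) * hyS (fun j => x j q) := by
      rw [← map_mul, hy_le]
      exact Filter.Eventually.of_forall fun j => hs j p hp' q hq1 hq2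
    have h3 := lv_mono hv (hpos p (by omega)) h2
    rw [lv_mul hv he0 (hpos q hq2)] at h3
    show lv (hyS (fun j => x j p)) < lv (hyS (fun j => x j q))
    linarith
  · rw [card_range]
  · rw [Nat.card_Ico]
    omega

end

end Pool.Agent.Lib.MP_86319c_co
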