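import Pool.Agent.Lib.MP_86319c_co.Fel
import Pool.Agent.Lib.MP_86319c_co.ValApi

set_option autoImplicit false

namespace Pool.Agent.Lib.MP_86319c_co

open Finset

noncomputable section

variable {F : Type} [Field F] [LinearOrder F] [IsStrictOrderedRing F] {ι : Type} [DecidableEq ι]
variable {Γ : Type} [Field Γ] [LinearOrder Γ] [IsStrictOrderedRing Γ]
variable {lv : F → Γ} {k B : ℕ} {A : Finset ι} {x y : ι → F}

theorem L1 (hv : IsVal lv) (hk : 1 ≤ k) (hT : Tri k B A x y) (b b' t0 t1 : Γ)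
    (hearly : k ≤ np A (fun i => b < lv (y i) ∧ lv (y i) ≤ b' ∧ lv (x i) ≤ t0))
    (hfree : ∀ i ∈ A, b < lv (y i) → lv (y i) ≤ b' → t0 < lv (x i) → t1 < lv (x i)) :
    nv A (fun i => lv (y i) ≤ b ∧ t0 < lv (x i) ∧ lv (x i) ≤ t1) (fun i => lv (x i)) ≤ B := by
  refine fel hk hT.1
    (fun a c => (0 < a ∧ lv a ≤ t0) ∧ (0 < c ∧ b < lv c) ∧ (0 < c ∧ lv c ≤ b'))
    ((itv_pos_le hv t0).cvx_fst.and ((itv_pos_gt hv b).and (itv_pos_le hv b')).cvx_snd)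
    (hearly.trans (np_le_np fun i hi h =>
      ⟨⟨(hT.2 i hi).1, h.2.2⟩, ⟨(hT.2 i hi).2, h.1⟩, (hT.2 i hi).2, h.2.1⟩)) 0 1 _ ?_ _ ?_
  · intro p hp hΦ q _ hK
    have := lt_of_lv_lt hv hK.2.1.1 (hΦ.1.trans_lt hK.2.1.2) (hT.2 p hp).2
    linarith
  · rintro p hp ⟨p1, p2, p3⟩ u hu hnK a c μ ⟨⟨a0, a1⟩, ⟨c0, c1⟩, -, c2⟩ h0 h1 hx hy
    obtain ⟨α, e0, e1, e2, -⟩ := tseg hv a0 c0 (hT.2 p hp).1 (hT.2 p hp).2 h0 h1
    rw [← hx] at e1
    rw [← hy] at e2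
    have hα : α ≤ 0 := e0 ▸ le_max_left _ _
    have hm : lv μ ≤ 0 := e0 ▸ le_max_right _ _
    show lv (x u) = lv (x p)
    rcases hm.eq_or_lt with hm0 | hm0
    · rw [e1, hm0, zero_add]
      exact max_eq_right (by linarith)
    · exfalso
      have hα0 : α = 0 := by
        rcases max_cases α (lv μ) with h | h <;> linarith [h.1, h.2]
      rw [hα0, zero_add] at e1 e2
      have h2 : lv (y u) = lv c := by rw [e2]; exact max_eq_left (by linarith)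
      have h3 : lv (x u) ≤ t1 := by rw [e1]; exact max_le (by linarith) (by linarith)
      have h4 : t0 < lv (x u) := by
        by_contra h5
        exact hnK ⟨⟨(hT.2 u hu).1, not_lt.1 h5⟩, ⟨(hT.2 u hu).2, h2 ▸ c1⟩, (hT.2 u hu).2, h2 ▸ c2⟩
      have := hfree u hu (h2 ▸ c1) (h2 ▸ c2) h4
      linarith

theorem L2 (hv : IsVal lv) (hk : 1 ≤ k) (hT : Tri k B A x y) (E t0 t1 : Γ)
    (hearly : k ≤ np A (fun i => lv (y i) ≤ E ∧ lv (x i) ≤ t0))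
    (hfree : ∀ i ∈ A, lv (y i) ≤ E → t0 < lv (x i) → t1 < lv (x i)) :
    nv A (fun i => E < lv (y i) ∧ t0 < lv (x i) - lv (y i) + E ∧ lv (x i) - lv (y i) + E ≤ t1)
      (fun i => lv (x i) - lv (y i) + E) ≤ B := by
  refine fel hk hT.1 (fun a c => (0 < a ∧ lv a ≤ t0) ∧ (0 < c ∧ lv c ≤ E))
    ((itv_pos_le hv t0).cvx_fst.and (itv_pos_le hv E).cvx_snd)
    (hearly.trans (np_le_np fun i hi h =>
      ⟨⟨(hT.2 i hi).1, h.2⟩, (hT.2 i hi).2, h.1⟩)) 0 (-1) _ ?_ _ ?_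
  · intro p hp hΦ q _ hK
    have := lt_of_lv_lt hv (hT.2 p hp).2 (hK.2.2.trans_lt hΦ.1) hK.2.1
    linarith
  · rintro p hp ⟨p1, p2, p3⟩ u hu hnK a c μ ⟨⟨a0, a1⟩, c0, c1⟩ h0 h1 hx hy
    obtain ⟨α, e0, e1, e2, -⟩ := tseg hv a0 c0 (hT.2 p hp).1 (hT.2 p hp).2 h0 h1
    rw [← hx] at e1
    rw [← hy] at e2
    have hα : α ≤ 0 := e0 ▸ le_max_left _ _
    show lv (x u) - lv (y u) + E = lv (x p) - lv (y p) + E
    rcases lt_or_ge E (lv (y u)) with hE | hE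
    · have h2 : lv (y u) = lv μ + lv (y p) := by
        rcases max_cases (α + lv c) (lv μ + lv (y p)) with h | h <;> linarith [h.1, h.2]
      have h3 : lv (x u) = lv μ + lv (x p) := by
        rw [e1]; exact max_eq_right (by linarith)
      linarith
    · exfalso
      have h2 : lv μ + lv (y p) ≤ lv (y u) := e2 ▸ le_max_right _ _
      have h3 : lv (x u) ≤ t1 := by rw [e1]; exact max_le (by linarith) (by linarith)
      have h4 : t0 < lv (x u) := by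
        by_contra h5
        exact hnK ⟨⟨(hT.2 u hu).1, not_lt.1 h5⟩, (hT.2 u hu).2, hE⟩
      have := hfree u hu hE h4
      linarith

theorem L3 (hv : IsVal lv) (hk : 1 ≤ k) (hT : Tri k B A x y) (t0 t1 b g : Γ) (hg : t1 - t0 ≤ g)
    (hup : k ≤ np A (fun i => t0 < lv (x i) ∧ lv (x i) ≤ t1 ∧ b + g ≤ lv (y i)))
    (hfree : ∀ i ∈ A, t0 < lv (x i) → lv (x i) ≤ t1 → b < lv (y i) → b + g ≤ lv (y i)) :
    nv A (fun i => t0 < lv (x i) ∧ lv (x i) ≤ t1 ∧ lv (y i) ≤ b) (fun i => lv (x i)) ≤ B := by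
  refine fel hk hT.1
    (fun a c => ((0 < a ∧ t0 < lv a) ∧ (0 < a ∧ lv a ≤ t1)) ∧ (0 < c ∧ b + g ≤ lv c))
    (((itv_pos_gt hv t0).and (itv_pos_le hv t1)).cvx_fst.and (itv_pos_ge hv (b + g)).cvx_snd)
    (hup.trans (np_le_np fun i hi h =>
      ⟨⟨⟨(hT.2 i hi).1, h.1⟩, (hT.2 i hi).1, h.2.1⟩, (hT.2 i hi).2, h.2.2⟩)) 0 1 _ ?_ _ ?_
  · intro p hp hΦ q _ hK
    have := lt_of_lv_lt hv hK.2.1 (by linarith [hΦ.1, hΦ.2.1, hΦ.2.2, hK.2.2]) (hT.2 p hp).2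
    linarith
  · rintro p hp ⟨p1, p2, p3⟩ u hu hnK a c μ ⟨⟨⟨a0, a1⟩, -, a2⟩, c0, c1⟩ h0 h1 hx hy
    obtain ⟨α, e0, e1, e2, -⟩ := tseg hv a0 c0 (hT.2 p hp).1 (hT.2 p hp).2 h0 h1
    rw [← hx] at e1
    rw [← hy] at e2
    have hα : α ≤ 0 := e0 ▸ le_max_left _ _
    have hm : lv μ ≤ 0 := e0 ▸ le_max_right _ _
    show lv (x u) = lv (x p)
    have h2 : α + lv a ≤ lv (x u) := e1 ▸ le_max_left _ _
    have h2' : lv μ + lv (x p) ≤ lv (x u) := e1 ▸ le_max_right _ _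
    have h3 : t0 < lv (x u) := by
      rcases max_cases α (lv μ) with h | h <;> linarith [h.1, h.2]
    have h4 : lv (x u) ≤ t1 := by rw [e1]; exact max_le (by linarith) (by linarith)
    have h5 : lv (y u) ≤ b := by
      by_contra h6
      exact hnK ⟨⟨⟨(hT.2 u hu).1, h3⟩, (hT.2 u hu).1, h4⟩, (hT.2 u hu).2,
        hfree u hu h3 h4 (not_le.1 h6)⟩
    have h6 : α + lv c ≤ lv (y u) := e2 ▸ le_max_left _ _
    have hm0 : lv μ = 0 := by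
      rcases max_cases α (lv μ) with h | h <;> linarith [h.1, h.2]
    rw [e1, hm0, zero_add]
    exact max_eq_right (by linarith)

end

end Pool.Agent.Lib.MP_86319c_co
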