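import Pool.Agent.Lib.MP_86319c_co.Fel
import Pool.Agent.Lib.MP_86319c_co.ValApi

set_option autoImplicit false

namespace Pool.Agent.Lib.MP_86319c_co

open Finset

noncomputable section

variable {F : Type} [Field F] [LinearOrder F] [IsStrictOrderedRing F] {ι : Type} [DecidableEq ι]
variable {Γ : Type} [Field Γ] [LinearOrder Γ] [IsStrictOrderedRing Γ]
variable {lv : F → Γ} {k B : ℕ} {A : Finset ι} {x y : ι → F}

theorem L4 (hv : IsVal lv) (hk : 1 ≤ k) (hT : Tri k B A x y) (t b b' : Γ) (ξ : F)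
    (hK : k ≤ np A (fun i => lv (x i) = t ∧ lv (y i) ≤ b ∧ x i ≤ ξ))
    (hw : B + 1 ≤ nv A (fun i => lv (x i) < t ∧ b < lv (y i) ∧ lv (y i) ≤ b')
      (fun i => lv (y i))) :
    ∃ u ∈ A, lv (x u) = t ∧ b < lv (y u) ∧ lv (y u) ≤ b' ∧ x u < ξ ∧
      t + lv (y u) - b' ≤ lv (ξ - x u) := by
  by_contra hcon
  have key := fel hk hT.1 (fun a c => ((0 < a ∧ lv a = t) ∧ a ≤ ξ) ∧ (0 < c ∧ lv c ≤ b))
    (((itv_pos_eq hv t).and (itv_le ξ)).cvx_fst.and (itv_pos_le hv b).cvx_snd)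
    (hK.trans (np_le_np fun i hi h => ⟨⟨⟨(hT.2 i hi).1, h.1⟩, h.2.2⟩, (hT.2 i hi).2, h.2.1⟩)) 1 0
    (fun i => lv (x i) < t ∧ b < lv (y i) ∧ lv (y i) ≤ b')
    (fun p hp hΦ q hq hKq => by
      have := lt_of_lv_lt hv hKq.1.1.1 (a := x p) (by rw [hKq.1.1.2]; exact hΦ.1) (hT.2 p hp).1
      linarith)
    (fun i => lv (y i)) ?_
  · omega
  intro p hp hΦ u hu hKu a c μ hKa h0 h1 hx hy
  obtain ⟨⟨⟨ha, hat⟩, haξ⟩, hc, hcb⟩ := hKa
  obtain ⟨hs, hb1, hb2⟩ := hΦ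
  obtain ⟨α, e0, e1, e2, -⟩ := tseg hv ha hc (hT.2 p hp).1 (hT.2 p hp).2 h0 h1
  rw [← hx, hat] at e1
  rw [← hy] at e2
  have hα : α ≤ 0 := e0 ▸ le_max_left _ _
  have hμ : lv μ ≤ 0 := e0 ▸ le_max_right _ _
  rcases hα.lt_or_eq with hα' | hα'
  · have hμ0 : lv μ = 0 := by
      rcases max_cases α (lv μ) with h | h <;> linarith [h.1, h.2]
    rw [e2, hμ0, zero_add]
    exact max_eq_right (by linarith)
  · exfalso
    have hsu : lv (x u) = t := by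
      rw [e1, hα', zero_add]
      exact max_eq_left (by linarith)
    obtain ⟨hd, hdl⟩ := lv_sub hv (hT.2 p hp).1 ha (by rw [hat]; exact hs)
    have hpos : 0 < μ * (a - x p) := mul_pos h0 hd
    have hxu : x u = a - μ * (a - x p) := by rw [hx]; ring
    have hbu : b < lv (y u) := by
      by_contra h
      exact hKu ⟨⟨⟨(hT.2 u hu).1, hsu⟩, by linarith⟩, (hT.2 u hu).2, not_lt.1 h⟩
    have hhu : lv (y u) = lv μ + lv (y p) := by
      rcases max_cases (α + lv c) (lv μ + lv (y p)) with h | h <;> linarith [h.1, h.2]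
    have hm := lv_mono hv hpos (b := ξ - x u) (by linarith)
    rw [lv_mul hv h0 hd, hdl, hat] at hm
    exact hcon ⟨u, hu, hsu, hbu, by linarith, by linarith, by linarith⟩

omit [Field F] [IsStrictOrderedRing F] [DecidableEq ι] in
theorem lb_exists_max (hk : 1 ≤ k) {Q : ι → Prop} (h : k ≤ np A Q) (f : ι → F) :
    ∃ i ∈ A, Q i ∧ ∀ j ∈ A, Q j → f j ≤ f i := by
  obtain ⟨i, hi, hQ⟩ := exists_of_np_pos (A := A) (Φ := Q) (by omega)
  obtain ⟨j, hj, hmax⟩ := exists_max_image (fl A Q) f ⟨i, mem_fl.2 ⟨hi, hQ⟩⟩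
  exact ⟨j, (mem_fl.1 hj).1, (mem_fl.1 hj).2, fun l hl hq => hmax l (mem_fl.2 ⟨hl, hq⟩)⟩

/-- `L4` for the `k`-th smallest abscissa, stated for every admissible threshold at once. -/
theorem L4' (hv : IsVal lv) (hk : 1 ≤ k) (hT : Tri k B A x y) (t b b' : Γ)
    (hK : k ≤ np A (fun i => lv (x i) = t ∧ lv (y i) ≤ b))
    (hw : B + 1 ≤ nv A (fun i => lv (x i) < t ∧ b < lv (y i) ∧ lv (y i) ≤ b')
      (fun i => lv (y i))) :
    ∃ u ∈ A, lv (x u) = t ∧ b < lv (y u) ∧ lv (y u) ≤ b' ∧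
      ∀ ξ : F, k ≤ np A (fun i => lv (x i) = t ∧ lv (y i) ≤ b ∧ x i ≤ ξ) →
        x u < ξ ∧ t + lv (y u) - b' ≤ lv (ξ - x u) := by
  obtain ⟨i1, hi1, -, hmax1⟩ := lb_exists_max hk hK x
  obtain ⟨i0, hi0, hmin⟩ := exists_min_image
    (fl A (fun i => k ≤ np A (fun j => lv (x j) = t ∧ lv (y j) ≤ b ∧ x j ≤ x i))) x
    ⟨i1, mem_fl.2 ⟨hi1, hK.trans (np_le_np fun j hj h => ⟨h.1, h.2, hmax1 j hj h⟩)⟩⟩
  obtain ⟨u, hu, h1, h2, h3, h4, h5⟩ := L4 hv hk hT t b b' (x i0) (mem_fl.1 hi0).2 hw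
  refine ⟨u, hu, h1, h2, h3, fun ξ hξ => ?_⟩
  obtain ⟨i2, hi2, hQ, hmax2⟩ := lb_exists_max hk hξ x
  have h6 := hmin i2 (mem_fl.2 ⟨hi2, hξ.trans
    (np_le_np fun j hj h => ⟨h.1, h.2.1, hmax2 j hj h⟩)⟩)
  have h7 := hQ.2.2
  have h8 := lv_mono hv (a := x i0 - x u) (b := ξ - x u) (by linarith) (by linarith)
  exact ⟨by linarith, by linarith⟩

theorem L5 (hv : IsVal lv) (hk : 1 ≤ k) (hT : Tri k B A x y) (t b g r : Γ) (c : F) (hg : 0 < g)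
    (hup : k ≤ np A (fun i => lv (x i) = t ∧ SmLe lv r (x i - c) ∧ b + g ≤ lv (y i)))
    (hfree : ∀ i ∈ A, lv (x i) = t → b < lv (y i) → b + g ≤ lv (y i))
    (S : Finset ι) (hS : ∀ i ∈ S, i ∈ A ∧ lv (x i) = t ∧ SmLe lv r (x i - c) ∧ lv (y i) ≤ b) :
    ∃ c' : F, S.card ≤ B * np S (fun i => SmLe lv (r - g) (x i - c')) := by
  rcases S.eq_empty_or_nonempty with rfl | hne
  · exact ⟨0, by simp⟩
  have key := fel hk hT.1
    (fun a e => ((0 < a ∧ lv a = t) ∧ SmLe lv r (a - c)) ∧ (0 < e ∧ b + g ≤ lv e))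
    (((itv_pos_eq hv t).and (itv_smLe hv r c)).cvx_fst.and (itv_pos_ge hv (b + g)).cvx_snd)
    (hup.trans (np_le_np fun i hi h => ⟨⟨⟨(hT.2 i hi).1, h.1⟩, h.2.1⟩, (hT.2 i hi).2, h.2.2⟩)) 0 1
    (fun i => lv (x i) = t ∧ SmLe lv r (x i - c) ∧ lv (y i) ≤ b)
    (fun p hp hΦ q hq hKq => by
      have := lt_of_lv_lt hv hKq.2.1 (a := y p) (by linarith [hΦ.2.2, hKq.2.2]) (hT.2 p hp).2
      linarith)
    (fun i => fl A (fun j => SmLe lv (r - g) (x j - x i))) ?_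
  · obtain ⟨j, hj, hle⟩ := exists_big_class key hS hne
    refine ⟨x j, hle.trans (Nat.mul_le_mul_left _ (np_le_np fun i hi h => ?_))⟩
    have h1 : i ∈ fl A (fun l => SmLe lv (r - g) (x l - x i)) :=
      mem_fl.2 ⟨(hS i hi).1, Or.inl (sub_self _)⟩
    rw [h] at h1
    exact (mem_fl.1 h1).2
  intro p hp hΦ u hu hKu a e μ hKa h0 h1 hx hy
  obtain ⟨⟨⟨ha, hat⟩, hac⟩, he, heb⟩ := hKa
  obtain ⟨hs, hpc, hb1⟩ := hΦ
  obtain ⟨α, e0, e1, e2, e3⟩ := tseg hv ha he (hT.2 p hp).1 (hT.2 p hp).2 h0 h1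
  rw [← hx, hat, hs] at e1
  rw [← hy] at e2
  have hsu : lv (x u) = t := by
    rw [e1, max_add_add_right, e0, zero_add]
  have huc : SmLe lv r (x u - c) := by
    rw [hx]
    exact (itv_smLe hv r c).cvx_fst a e (x p) (y p) μ hac hpc h0.le h1
  have hbu : lv (y u) ≤ b := by
    by_contra h
    exact hKu ⟨⟨⟨(hT.2 u hu).1, hsu⟩, huc⟩, (hT.2 u hu).2, hfree u hu hsu (not_le.1 h)⟩
  have hα : α + lv e ≤ lv (y u) := e2 ▸ le_max_left _ _
  have hap : SmLe lv r (a - x p) := by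
    have := hac.sub hv hpc
    rwa [sub_sub_sub_cancel_right] at this
  have hup' : SmLe lv (r - g) (x u - x p) := by
    have := (e3.mul hv hap).mono (r' := r - g) (by linarith)
    rwa [show (1 - μ) * (a - x p) = x u - x p by rw [hx]; ring] at this
  ext j
  simp only [mem_fl]
  refine and_congr_right fun _ => ⟨fun h => ?_, fun h => ?_⟩
  · have := h.add hv hup'
    rwa [sub_add_sub_cancel] at this
  · have := h.sub hv hup'
    rwa [sub_sub_sub_cancel_right] at this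

theorem L6 (hv : IsVal lv) (hk : 1 ≤ k) (hT : Tri k B A x y) (t b g r : Γ) (x0 : F)
    (hK : k ≤ np A (fun i => lv (x i) = t ∧ SmLe lv r (x i - x0) ∧ lv (y i) ≤ b))
    (hfree : ∀ i ∈ A, lv (x i) = t → b < lv (y i) → b + g ≤ lv (y i)) :
    nv A (fun i => lv (x i) = t ∧ b < lv (y i) ∧ x i < x0 ∧
        r - b - g < lv (x0 - x i) - lv (y i) ∧ lv (x0 - x i) - lv (y i) ≤ r - b)
      (fun i => lv |x0 - x i| - lv (y i)) ≤ B := by
  refine fel hk hT.1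
    (fun a e => ((0 < a ∧ lv a = t) ∧ SmLe lv r (a - x0)) ∧ (0 < e ∧ lv e ≤ b))
    (((itv_pos_eq hv t).and (itv_smLe hv r x0)).cvx_fst.and (itv_pos_le hv b).cvx_snd)
    (hK.trans (np_le_np fun i hi h => ⟨⟨⟨(hT.2 i hi).1, h.1⟩, h.2.1⟩, (hT.2 i hi).2, h.2.2⟩))
    0 (-1) _
    (fun p hp hΦ q hq hKq => by
      have := lt_of_lv_lt hv (hT.2 p hp).2 (a := y q) (by linarith [hΦ.2.1, hKq.2.2]) hKq.2.1
      linarith)
    _ ?_
  intro p hp hΦ u hu hKu a e μ hKa h0 h1 hx hy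
  obtain ⟨⟨⟨ha, hat⟩, hac⟩, he, heb⟩ := hKa
  obtain ⟨hs, hb1, hlt, hθ1, hθ2⟩ := hΦ
  obtain ⟨α, e0, e1, e2, e3⟩ := tseg hv ha he (hT.2 p hp).1 (hT.2 p hp).2 h0 h1
  rw [← hx, hat, hs] at e1
  rw [← hy] at e2
  have hα : α ≤ 0 := e0 ▸ le_max_left _ _
  have hsu : lv (x u) = t := by
    rw [e1, max_add_add_right, e0, zero_add]
  have hd : 0 < x0 - x p := sub_pos.2 hlt
  have hpos : 0 < μ * (x0 - x p) := mul_pos h0 hd
  have hl := lv_mul hv h0 hd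
  have hfst : SmLe lv r ((1 - μ) * -(a - x0)) := (e3.mul hv hac.neg).mono (by linarith)
  have hsum : μ * (x0 - x p) + (1 - μ) * -(a - x0) = x0 - x u := by rw [hx]; ring
  have hm : lv μ + lv (y p) ≤ lv (y u) := e2 ▸ le_max_right _ _
  have hbu : b < lv (y u) := by
    by_contra h
    have h2 := not_lt.1 h
    have h3 := ((smLe_of_pos (lv := lv) (r := r) hpos (by linarith)).add hv hfst).neg
    rw [hsum, neg_sub] at h3
    exact hKu ⟨⟨⟨(hT.2 u hu).1, hsu⟩, h3⟩, (hT.2 u hu).2, h2⟩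
  have hg := hfree u hu hsu hbu
  have hhu : lv (y u) = lv μ + lv (y p) := by
    rcases max_cases (α + lv e) (lv μ + lv (y p)) with h | h <;> linarith [h.1, h.2]
  obtain ⟨h4, h5⟩ := lv_add_small hv hpos (hfst.smLt (by linarith))
  rw [hsum] at h4 h5
  simp only [abs_of_pos h4, abs_of_pos hd]
  linarith

end

end Pool.Agent.Lib.MP_86319c_co
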