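import Pool.Agent.Lib.MP_86319c_co.Wide
import Pool.Agent.Lib.MP_86319c_co.CaseL

set_option autoImplicit false

namespace Pool.Agent.Lib.MP_86319c_co

open Finset

noncomputable section

variable {F : Type} [Field F] [LinearOrder F] [IsStrictOrderedRing F] {ι : Type} [DecidableEq ι]
variable {Γ : Type} [Field Γ] [LinearOrder Γ] [IsStrictOrderedRing Γ]
variable {lv : F → Γ}

theorem toolz_lt_iff {b : ℕ → Γ} {J : ℕ} (hb : ∀ j < J, b j < b (j + 1)) {i j : ℕ} (hi : i ≤ J)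
    (h : b i < b j) : i < j := by
  by_contra hc
  exact absurd h (not_lt.2 (le_of_step hb (not_lt.1 hc) hi))

theorem toolz_le_iff {b : ℕ → Γ} {J : ℕ} (hb : ∀ j < J, b j < b (j + 1)) {i j : ℕ} (hi : i ≤ J)
    (h : b i ≤ b j) : i ≤ j := by
  by_contra hc
  exact absurd h (not_le.2 (lt_of_step hb (not_le.1 hc) hi))

theorem stretch (hv : IsVal lv) (k B : ℕ) (hk : 1 ≤ k) : ∃ S M1 : ℕ, 1 ≤ S ∧
    ∀ (A : Finset ι) (x y : ι → F), Tri k B A x y → ∀ (β : ℕ → Γ) (t0 t1 : Γ),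
    (∀ j < S, β j < β (j + 1)) →
    (∀ j, 1 ≤ j → j ≤ S → ∃ i ∈ A, lv (y i) = β j ∧ lv (x i) ≤ t0) →
    M1 ≤ nv A (fun i => lv (y i) ≤ β 0 ∧ t0 < lv (x i) ∧ lv (x i) ≤ t1) (fun i => lv (x i)) →
    (∀ i ∈ A, lv (x i) ≤ t1 → β 0 < lv (y i) → lv (y i) ≤ β S →
      ∃ j, 1 ≤ j ∧ j ≤ S ∧ lv (y i) = β j) → False := by
  classical
  obtain ⟨SL, M1, hL⟩ := caseL (ι := ι) hv k B hk
  obtain ⟨J, hW⟩ := wide (ι := ι) hv k B (B + 1) hk
  refine ⟨SL + k * k + (B + 1) * J + 1, M1, by omega, ?_⟩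
  intro A x y hT β t0 t1 hβ hearly hM hold
  refine hL A x y hT _ β t0 t1 (by omega) hβ hearly hM hold fun s hs0 hs1 => ?_
  by_contra hcon
  have hhi : ∀ j < J, SL + (j + 1) * (B + 1) ≤ SL + k * k + (B + 1) * J + 1 := by
    intro j hj
    have h1 : (j + 1) * (B + 1) ≤ J * (B + 1) := Nat.mul_le_mul_right _ hj
    rw [mul_comm J] at h1
    omega
  have hstep : ∀ j : ℕ, SL + (j + 1) * (B + 1) = SL + j * (B + 1) + (B + 1) := fun j => by ring
  refine hW A x y hT s (fun j => β (SL + j * (B + 1))) ?_ ?_ ?_ ?_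
  · intro j hj
    have h1 := hhi j hj
    have h2 := hstep j
    exact lt_of_step hβ (by omega) h1
  · simpa using (not_le.1 hcon).le
  · intro j hj
    have h1 := hhi j hj
    have h2 := hstep j
    have hcard : ((Ioc (SL + j * (B + 1)) (SL + (j + 1) * (B + 1))).image β).card = B + 1 := by
      rw [card_image_of_injOn, Nat.card_Ioc]
      · omega
      · intro a ha b hb hab
        have ha' := mem_Ioc.1 (mem_coe.1 ha)
        have hb' := mem_Ioc.1 (mem_coe.1 hb)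
        exact le_antisymm (toolz_le_iff hβ (by omega) hab.le) (toolz_le_iff hβ (by omega) hab.ge)
    refine le_trans hcard.ge (card_le_nv_of_vals fun v hv' => ?_)
    obtain ⟨m, hm, rfl⟩ := mem_image.1 hv'
    have hm' := mem_Ioc.1 hm
    obtain ⟨i, hi, hy, hx⟩ := hearly m (by omega) (by omega)
    refine ⟨i, hi, ⟨lt_of_le_of_lt hx hs0, ?_, ?_⟩, hy⟩
    · rw [hy]
      exact lt_of_step hβ hm'.1 (by omega)
    · rw [hy]
      exact le_of_step hβ hm'.2 h1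
  · intro j hj
    have h1 := hhi j hj
    have h2 := hstep j
    refine le_trans (nv_le_of_subset
      (V := (Ioc (SL + j * (B + 1)) (SL + (j + 1) * (B + 1))).image β) ?_) ?_
    · rintro i hi ⟨hx, hlo, hup⟩
      obtain ⟨m, -, hm2, hm⟩ := hold i hi (hx ▸ hs1)
        (lt_of_le_of_lt (le_of_step hβ (Nat.zero_le _) (by omega)) hlo)
        (hup.trans (le_of_step hβ h1 le_rfl))
      rw [hm] at hlo hup
      exact mem_image.2 ⟨m, mem_Ioc.2 ⟨toolz_lt_iff hβ (by omega) hlo, toolz_le_iff hβ hm2 hup⟩,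
        hm.symm⟩
    · refine card_image_le.trans ?_
      rw [Nat.card_Ioc]
      omega

omit [Field F] [LinearOrder F] [IsStrictOrderedRing F] [DecidableEq ι] in
theorem toolz_round {S M1 : ℕ} {A : Finset ι} {x y : ι → F}
    (hst : ∀ (β : ℕ → Γ) (t0 t1 : Γ), (∀ j < S, β j < β (j + 1)) →
      (∀ j, 1 ≤ j → j ≤ S → ∃ i ∈ A, lv (y i) = β j ∧ lv (x i) ≤ t0) →
      M1 ≤ nv A (fun i => lv (y i) ≤ β 0 ∧ t0 < lv (x i) ∧ lv (x i) ≤ t1) (fun i => lv (x i)) →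
      (∀ i ∈ A, lv (x i) ≤ t1 → β 0 < lv (y i) → lv (y i) ≤ β S →
        ∃ j, 1 ≤ j ∧ j ≤ S ∧ lv (y i) = β j) → False)
    (E t0 : Γ) (a M : ℕ)
    (hN : S * a ≤ nv A (fun i => E < lv (y i) ∧ lv (x i) ≤ t0) (fun i => lv (y i)))
    (hC : M + M1 ≤ nv A (fun i => lv (y i) ≤ E ∧ t0 < lv (x i)) (fun i => lv (x i))) :
    ∃ t1 : Γ, nv A (fun i => E < lv (y i) ∧ lv (x i) ≤ t0) (fun i => lv (y i)) + a ≤
        nv A (fun i => E < lv (y i) ∧ lv (x i) ≤ t1) (fun i => lv (y i)) ∧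
      M ≤ nv A (fun i => lv (y i) ≤ E ∧ t1 < lv (x i)) (fun i => lv (x i)) := by
  classical
  obtain ⟨θ, hθ0, hθ1, -, -, hθ4, hθ5⟩ := exists_enum
    (vals A (fun i => lv (y i) ≤ E ∧ t0 < lv (x i)) (fun i => lv (x i))) t0
    (fun v hv => by
      obtain ⟨i, -, hi, rfl⟩ := mem_vals.1 hv
      exact hi.2) M1 (le_trans (Nat.le_add_left _ _) hC)
  obtain ⟨lam, hl0, hl1, hl2, hl3, -, -⟩ := exists_enum
    (vals A (fun i => E < lv (y i) ∧ lv (x i) ≤ t0) (fun i => lv (y i))) E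
    (fun v hv => by
      obtain ⟨i, -, hi, rfl⟩ := mem_vals.1 hv
      exact hi.1) (S * a) hN
  have h01 : t0 ≤ θ M1 := hθ0 ▸ le_of_step hθ1 (Nat.zero_le _) le_rfl
  have hM1 : M1 ≤ nv A (fun i => lv (y i) ≤ E ∧ t0 < lv (x i) ∧ lv (x i) ≤ θ M1)
      (fun i => lv (x i)) := by
    have h1 := hθ4 0 M1 (Nat.zero_le _) le_rfl
    rw [add_zero] at h1
    refine le_trans h1.ge (card_le_nv_of_vals fun v hv => ?_)
    obtain ⟨hv1, -, hv3⟩ := mem_fl.1 hv
    obtain ⟨i, hi, hp, rfl⟩ := mem_vals.1 hv1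
    exact ⟨i, hi, ⟨hp.1, hp.2, hv3⟩, rfl⟩
  have hbd : ∀ r < a, S * r + S ≤ S * a := fun r hr => Nat.mul_le_mul_left S hr
  have hnew : ∀ r : ℕ, ∃ w : Γ, r < a → lam (S * r) < w ∧ w ≤ lam (S * r + S) ∧
      w ∈ vals A (fun i => E < lv (y i) ∧ lv (x i) ≤ θ M1) (fun i => lv (y i)) ∧
      w ∉ vals A (fun i => E < lv (y i) ∧ lv (x i) ≤ t0) (fun i => lv (y i)) := by
    intro r
    by_cases hr : r < a
    swap
    · exact ⟨0, fun h => absurd h hr⟩
    have h1 := hbd r hr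
    have hE : E ≤ lam (S * r) := hl0 ▸ le_of_step hl1 (Nat.zero_le _) (by omega)
    by_contra hcon
    refine hst (fun j => lam (S * r + j)) t0 (θ M1) (fun j hj => hl1 _ (by omega)) ?_ ?_ ?_
    · intro j hj1 hj2
      obtain ⟨i, hi, hp, he⟩ := mem_vals.1 (hl2 (S * r + j) (by omega) (by omega))
      exact ⟨i, hi, he, hp.2⟩
    · exact le_trans hM1 (nv_le_nv fun i _ hp => ⟨hp.1.trans hE, hp.2⟩)
    · intro i hi hx hlo hup
      have hmem : lv (y i) ∈ vals A (fun i => E < lv (y i) ∧ lv (x i) ≤ t0) (fun i => lv (y i)) := by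
        by_contra hn
        exact hcon ⟨lv (y i), fun _ => ⟨hlo, hup,
          mem_vals.2 ⟨i, hi, ⟨lt_of_le_of_lt hE hlo, hx⟩, rfl⟩, hn⟩⟩
      obtain ⟨m, -, hm2, hm⟩ := hl3 _ hmem (hup.trans (le_of_step hl1 h1 le_rfl))
      have hlo' : lam (S * r) < lam m := hm ▸ hlo
      have hup' : lam m ≤ lam (S * r + S) := hm ▸ hup
      have h2 := toolz_lt_iff hl1 (by omega) hlo'
      have h3 := toolz_le_iff hl1 hm2 hup'
      refine ⟨m - S * r, by omega, by omega, ?_⟩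
      rw [hm, show S * r + (m - S * r) = m by omega]
  choose w hw using hnew
  have hwlt : ∀ r r', r < r' → r' < a → w r < w r' := by
    intro r r' h1 h2
    have h3 : S * r + S ≤ S * r' := Nat.mul_le_mul_left S h1
    have h4 := hbd r' h2
    exact lt_of_le_of_lt ((hw r (h1.trans h2)).2.1.trans (le_of_step hl1 h3 (by omega)))
      (hw r' h2).1
  refine ⟨θ M1, ?_, ?_⟩
  · have hc : ((range a).image w).card = a := by
      rw [card_image_of_injOn, card_range]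
      intro r hr r' hr' he
      rcases lt_trichotomy r r' with h | h | h
      · exact absurd he (hwlt r r' h (mem_range.1 (mem_coe.1 hr'))).ne
      · exact h
      · exact absurd he (hwlt r' r h (mem_range.1 (mem_coe.1 hr))).ne'
    have hdis : Disjoint (vals A (fun i => E < lv (y i) ∧ lv (x i) ≤ t0) (fun i => lv (y i)))
        ((range a).image w) := by
      refine disjoint_right.2 fun v hv => ?_
      obtain ⟨r, hr, rfl⟩ := mem_image.1 hv
      exact (hw r (mem_range.1 hr)).2.2.2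
    have h5 := card_union_of_disjoint hdis
    rw [hc] at h5
    refine le_trans h5.ge (card_le_card fun v hv => ?_)
    rcases mem_union.1 hv with h | h
    · obtain ⟨i, hi, hp, rfl⟩ := mem_vals.1 h
      exact mem_vals.2 ⟨i, hi, ⟨hp.1, hp.2.trans h01⟩, rfl⟩
    · obtain ⟨r, hr, rfl⟩ := mem_image.1 h
      exact (hw r (mem_range.1 hr)).2.2.1
  · have h6 : np (vals A (fun i => lv (y i) ≤ E ∧ t0 < lv (x i)) (fun i => lv (x i)))
        (fun v => θ M1 < v) ≤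
        nv A (fun i => lv (y i) ≤ E ∧ θ M1 < lv (x i)) (fun i => lv (x i)) := by
      refine card_le_nv_of_vals fun v hv => ?_
      obtain ⟨hv1, hv2⟩ := mem_fl.1 hv
      obtain ⟨i, hi, hp, rfl⟩ := mem_vals.1 hv1
      exact ⟨i, hi, ⟨hp.1, hv2⟩, rfl⟩
    unfold nv at hC
    omega

theorem toolz_iter {T : Type} {N C : T → ℕ} {S M1 : ℕ}
    (h : ∀ t0 a M, S * a ≤ N t0 → M + M1 ≤ C t0 → ∃ t1, N t0 + a ≤ N t1 ∧ M ≤ C t1)
    (τ : ℕ) (t0 : T) (M : ℕ) (hN : S ≤ N t0) (hC : M + τ * S * M1 ≤ C t0) :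
    ∃ t1, S * 2 ^ τ ≤ N t1 ∧ M ≤ C t1 := by
  have h1 : ∀ (r : ℕ) (t : T) (a M : ℕ), S * a ≤ N t → M + r * M1 ≤ C t →
      ∃ t1, N t + r * a ≤ N t1 ∧ M ≤ C t1 := by
    intro r t a
    induction r with
    | zero => exact fun M _ h2 => ⟨t, by omega, by omega⟩
    | succ r ih =>
      intro M h2 h3
      obtain ⟨t1, h4, h5⟩ := ih (M + M1) h2 (by rw [add_one_mul] at h3; omega)
      obtain ⟨t2, h6, h7⟩ := h t1 a M (by omega) h5
      exact ⟨t2, by rw [add_one_mul]; omega, h7⟩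
  induction τ generalizing M with
  | zero => exact ⟨t0, by omega, by omega⟩
  | succ τ ih =>
    obtain ⟨t1, h2, h3⟩ := ih (M + S * M1) (by rw [add_one_mul, add_mul] at hC; omega)
    obtain ⟨t2, h4, h5⟩ := h1 S t1 (2 ^ τ) M h2 h3
    exact ⟨t2, by rw [pow_succ, ← mul_assoc]; omega, h5⟩

theorem toolZ (hv : IsVal lv) (k B : ℕ) (hk : 1 ≤ k) : ∃ S M1 : ℕ, 1 ≤ S ∧
    ∀ (τ : ℕ) (A : Finset ι) (x y : ι → F), Tri k B A x y →
    nv A (fun _ => True) (fun i => lv (y i)) < 2 ^ τ → ∀ E t0 : Γ,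
    S ≤ nv A (fun i => E < lv (y i) ∧ lv (x i) ≤ t0) (fun i => lv (y i)) →
    τ * S * M1 ≤ nv A (fun i => lv (y i) ≤ E ∧ t0 < lv (x i)) (fun i => lv (x i)) → False := by
  obtain ⟨S, M1, hS, hst⟩ := stretch (ι := ι) hv k B hk
  refine ⟨S, M1, hS, fun τ A x y hT hlt E t0 hN hC => ?_⟩
  obtain ⟨t1, h1, -⟩ := toolz_iter
    (N := fun t => nv A (fun i => E < lv (y i) ∧ lv (x i) ≤ t) (fun i => lv (y i)))
    (C := fun t => nv A (fun i => lv (y i) ≤ E ∧ t < lv (x i)) (fun i => lv (x i)))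
    (fun t a M h2 h3 => toolz_round (hst A x y hT) E t a M h2 h3) τ t0 0 hN (by omega)
  have h2 : nv A (fun i => E < lv (y i) ∧ lv (x i) ≤ t1) (fun i => lv (y i)) ≤
      nv A (fun _ => True) (fun i => lv (y i)) := nv_le_nv fun _ _ _ => trivial
  have h3 : 2 ^ τ ≤ S * 2 ^ τ := Nat.le_mul_of_pos_left _ hS
  omega

end

end Pool.Agent.Lib.MP_86319c_co
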