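import Pool.Agent.Lib.MP_86319c_co.Step
import Pool.Agent.Lib.MP_86319c_co.ToolZ
import Pool.Agent.Lib.MP_86319c_co.CombA

set_option autoImplicit false

namespace Pool.Agent.Lib.MP_86319c_co

open Finset

noncomputable section

variable {F : Type} [Field F] [LinearOrder F] [IsStrictOrderedRing F] {ι : Type} [DecidableEq ι]
variable {Γ : Type} [Field Γ] [LinearOrder Γ] [IsStrictOrderedRing Γ]
variable {lv : F → Γ}

theorem ls_two_le_need (k B Λ M j : ℕ) : 2 ≤ need k B Λ M j := by
  cases j with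
  | zero => simp only [need]; omega
  | succ j => simp only [need]; omega

theorem hyp_of_zfree (hv : IsVal lv) {k B n S M : ℕ} (hk : 1 ≤ k) (hS : 1 ≤ S) (hM : 1 ≤ M)
    (hZ : ZFree lv ι k B n S M) : Hyp lv ι k B n (need k B (S + M) M (4 * S + 1)) := by
  intro A0 x y hG hn hx
  have key : ∀ (j : ℕ) (I Wr Wd : Finset ι), I ⊆ A0 → Wr ⊆ A0 → Wd ⊆ A0 → Good k B I x y →
      RowInv lv x y Wr I → RowInv lv (fun i => 1 / x i) (fun i => y i / x i) Wd I →
      4 * S + 1 ≤ Wr.card + Wd.card + j →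
      need k B (S + M) M j ≤ nv I (fun _ => True) (fun i => lv (x i)) → False := by
    intro j
    induction j with
    | zero =>
      intro I Wr Wd hI hWr hWd _ hRr hRd hc hN
      have hN' : M + 2 ≤ nv I (fun _ => True) (fun i => lv (x i)) := hN
      by_cases h : 2 * S + 1 ≤ Wr.card
      · exact final_step hv hZ hG hx hn hWr hI hRr h hN'
      · have h' : 2 * S + 1 ≤ Wd.card := by omega
        refine final_step hv hZ (hG.inv hx) (fun i hi => one_div_pos.2 (hx i hi)) hn hWd hI hRd h' ?_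
        have e := nv_inv (A := I) hv (fun i hi => hx i (hI hi)) (fun _ => True)
        exact le_of_le_of_eq hN' e.symm
    | succ j ih =>
      intro I Wr Wd hI hWr hWd hGI hRr hRd hc hN
      have hxI : ∀ i ∈ I, 0 < x i := fun i hi => hx i (hI hi)
      have hnI : I.card ≤ n := le_trans (card_le_card hI) hn
      have h2 : 2 ≤ nv I (fun _ => True) (fun i => lv (x i)) :=
        le_trans (ls_two_le_need _ _ _ _ _) hN
      obtain ⟨I', hI', hG', hR', hb⟩ := step hv hk hS hM hZ hGI hxI hnI h2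
      have hN' : need k B (S + M) M j ≤ nv I' (fun _ => True) (fun i => lv (x i)) := by
        by_contra hlt
        have hle : nv I' (fun _ => True) (fun i => lv (x i)) ≤ need k B (S + M) M j := by omega
        have h3 : 2 * (S + M) ^ 3 * (B * nv I' (fun _ => True) (fun i => lv (x i)) + k) ≤
            2 * (S + M) ^ 3 * (B * need k B (S + M) M j + k) :=
          Nat.mul_le_mul_left _ (Nat.add_le_add_right (Nat.mul_le_mul_left _ hle) _)
        have h4 : need k B (S + M) M (j + 1) =
            2 * (S + M) ^ 3 * (B * need k B (S + M) M j + k) + 3 := rfl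
        omega
      have h2' : 2 ≤ nv I' (fun _ => True) (fun i => lv (x i)) :=
        le_trans (ls_two_le_need _ _ _ _ _) hN'
      rcases hR' with ⟨f, hf, hRf⟩ | ⟨f, hf, hRf⟩
      · obtain ⟨hnot, hins⟩ := RowInv.insert hRr hf hI' hRf h2'
        refine ih I' (Insert.insert f Wr) Wd (hI'.trans hI) (insert_subset (hI hf) hWr) hWd hG' hins
          (hRd.mono hI') ?_ hN'
        rw [card_insert_of_notMem hnot]
        omega
      · have e := nv_inv (A := I') hv (fun i hi => hxI i (hI' hi)) (fun _ => True)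
        obtain ⟨hnot, hins⟩ := RowInv.insert hRd hf hI' hRf (le_of_le_of_eq h2' e.symm)
        refine ih I' Wr (Insert.insert f Wd) (hI'.trans hI) hWr (insert_subset (hI hf) hWd) hG'
          (hRr.mono hI') hins ?_ hN'
        rw [card_insert_of_notMem hnot]
        omega
  by_contra h
  exact key (4 * S + 1) A0 ∅ ∅ (Subset.refl _) (empty_subset _) (empty_subset _) hG
    (rowInv_empty _) (rowInv_empty _) (by omega) (not_lt.1 h)

theorem ls_bound (hv : IsVal lv) (k B : ℕ) (hk : 1 ≤ k) : ∃ T : ℕ, ∀ n, Hyp lv ι k B n T := by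
  obtain ⟨S, M1, hS, hT⟩ := toolZ (ι := ι) hv k B hk
  obtain ⟨τ0, hτ⟩ := need_le_pow k B S (M1 + 1) (4 * S + 1)
  refine ⟨2 ^ τ0, fun n => ?_⟩
  have down : ∀ τ, τ0 ≤ τ → Hyp lv ι k B n (2 ^ (τ + 1)) → Hyp lv ι k B n (2 ^ τ) := by
    intro τ hle hH
    have hZ : ZFree lv ι k B n S ((τ + 1) * S * (M1 + 1)) := by
      intro A x y hTri hn E t0 h1 h2
      exact hT (τ + 1) A x y hTri (hH A y x hTri.1.swap hn (fun i hi => (hTri.2 i hi).2)) E t0 h1
        (le_trans (Nat.mul_le_mul_left _ (Nat.le_succ M1)) h2)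
    have hM : 1 ≤ (τ + 1) * S * (M1 + 1) :=
      Nat.mul_pos (Nat.mul_pos (Nat.succ_pos τ) hS) (Nat.succ_pos M1)
    intro A x y hG hn hx
    exact lt_of_lt_of_le (hyp_of_zfree hv hk hS hM hZ A x y hG hn hx) (hτ τ hle)
  have iter : ∀ m, Hyp lv ι k B n (2 ^ (τ0 + m)) → Hyp lv ι k B n (2 ^ τ0) := by
    intro m
    induction m with
    | zero => exact fun h => h
    | succ m ih => exact fun h => ih (down (τ0 + m) (Nat.le_add_right _ _) h)
  refine iter n fun A x y _ hn _ => ?_
  have h1 : nv A (fun _ => True) (fun i => lv (x i)) ≤ A.card :=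
    le_trans (nv_le_np _ _ _) (np_le_card _ _)
  have h2 : n < 2 ^ n := Nat.lt_two_pow_self
  have h3 : 2 ^ n ≤ 2 ^ (τ0 + n) := Nat.pow_le_pow_right (by norm_num) (Nat.le_add_left _ _)
  omega

end

end Pool.Agent.Lib.MP_86319c_co
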