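import Pool.Agent.Lib.MP_86319c_co.Heavy
import Pool.Agent.Lib.MP_86319c_co.Dense

set_option autoImplicit false

namespace Pool.Agent.Lib.MP_86319c_co

open Finset

noncomputable section

variable {ι : Type} [DecidableEq ι]

omit [DecidableEq ι] in
theorem large_tg {A : Finset ι} {X Y : ι → ℝ} {τ s : ℝ} (hτ : 0 < τ) (hs : s = 16 + 16 / τ)
    {N : ℕ} (h : N ≤ np A (fun i => |X i| ≤ 1 / s ∧ |Y i - 1| ≤ 1 / s)) :
    Tg A (fun i => s * X i) (fun i => s * Y i) (3 * 4 + 3) τ N := by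
  have hs0 : 0 < s := by rw [hs]; positivity
  refine le_trans h (np_le_np fun i _ hi => ?_)
  obtain ⟨h1, h2⟩ := hi
  have a1 : |s * X i| ≤ 1 := by
    rw [abs_mul, abs_of_pos hs0]
    calc s * |X i| ≤ s * (1 / s) := mul_le_mul_of_nonneg_left h1 hs0.le
      _ = 1 := by field_simp
  have a2 : s - 1 ≤ s * Y i := by
    have h3 : 1 - 1 / s ≤ Y i := by have := (abs_le.1 h2).1; linarith
    calc s - 1 = s * (1 - 1 / s) := by field_simp
      _ ≤ s * Y i := mul_le_mul_of_nonneg_left h3 hs0.le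
  have a3 : 16 / τ ≤ s * Y i - (3 * 4 + 3) := by linarith
  have a4 : τ * (16 / τ) = 16 := by field_simp
  have a5 := mul_le_mul_of_nonneg_left a3 hτ.le
  show |s * X i| + (3 * 4 + 3) ≤ τ * (s * Y i - (3 * 4 + 3))
  linarith

theorem large_false {z : ℝ} (hz0 : 0 < z) (hz1 : z < 1) (Nf : ℕ → ℕ) : ∃ n0 : ℕ,
    ∀ (A : Finset ι) (x y : ι → ℝ), GP A x y → NFall z Nf A x y → n0 ≤ A.card → False := by
  obtain ⟨e, he0, he1, hdense⟩ := dense_false (ι := ι) hz0 hz1 Nf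
  obtain ⟨τ, N, Fb, hτ, hprop⟩ := prop_two (ι := ι) hz0 hz1 Nf (η := e) (R := 4) he0 he1
    (by norm_num) 0
  obtain ⟨s, hs⟩ : ∃ s : ℝ, s = 16 + 16 / τ := ⟨_, rfl⟩
  have hs0 : 0 < s := by rw [hs]; positivity
  obtain ⟨n0, hn0⟩ := heavy (ι := ι) hz0 hz1 Nf (δ := 1 / s) (by positivity) (max N (Fb + 1))
  refine ⟨n0, fun A x y hGP hNF hA => ?_⟩
  obtain ⟨X, Y, hX, hY, h0, h1, h2⟩ := hn0 A x y hGP hNF hA
  have hX' : IsAff x y (fun i => s * X i) := hX.comb hY s 0 0 fun i => by ring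
  have hY' : IsAff x y (fun i => s * Y i) := hX.comb hY 0 s 0 fun i => by ring
  have hX3 : IsAff x y (fun i => s * X i - 3) := hX.comb hY s 0 (-3) fun i => by ring
  have hY3 : IsAff x y (fun i => s * Y i - 3) := hX.comb hY 0 s (-3) fun i => by ring
  have T1 : Tg A (fun i => s * X i) (fun i => s * Y i) (3 * 4 + 3) τ N :=
    large_tg hτ hs (le_trans (le_max_left _ _) h2)
  have T2 : Tg A (fun i => s * Y i) (fun i => s * X i) (3 * 4 + 3) τ N :=
    large_tg hτ hs (le_trans (le_max_left _ _) (le_trans h1 (np_le_np fun i _ hi => ⟨hi.2, hi.1⟩)))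
  refine hdense A x y _ _ hNF hX3 hY3 fun c1 c2 hc1 hc2 => ?_
  by_contra hno
  have hc1' := abs_le.1 hc1
  have hc2' := abs_le.1 hc2
  have hz : cnt A (fun i => s * X i) (fun i => s * Y i) (c1 + 3) (c1 + 3 + e) (c2 + 3)
      (c2 + 3 + e) ≤ 0 := by
    unfold cnt
    rw [np_eq_zero]
    intro i hi hp
    obtain ⟨p1, p2, p3, p4⟩ := hp
    exact hno ⟨i, hi, by linarith, by linarith, by linarith, by linarith⟩
  have hF := hprop A x y _ _ hNF hX' hY' T1 T2 (c1 + 3) (c2 + 3)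
    (abs_le.2 ⟨by linarith, by linarith⟩) (abs_le.2 ⟨by linarith, by linarith⟩) hz
  have hb : ∀ t : ℝ, |t| ≤ 1 / s → |s * t| ≤ 1 := fun t ht => by
    rw [abs_mul, abs_of_pos hs0]
    calc s * |t| ≤ s * (1 / s) := mul_le_mul_of_nonneg_left ht hs0.le
      _ = 1 := by field_simp
  have hle : np A (fun i => |X i| ≤ 1 / s ∧ |Y i| ≤ 1 / s) ≤
      cnt A (fun i => s * X i) (fun i => s * Y i) (-4) (c1 + 3 + e / 2) (-4) (c2 + 3 + e / 2) := by
    refine np_le_np fun i _ hi => ?_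
    have b1 := abs_le.1 (hb _ hi.1)
    have b2 := abs_le.1 (hb _ hi.2)
    exact ⟨by linarith, by linarith, by linarith, by linarith⟩
  have := le_trans (le_max_right N (Fb + 1)) (le_trans h0 (le_trans hle hF))
  omega

end

end Pool.Agent.Lib.MP_86319c_co
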