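import Pool.Agent.Lib.MP_86319c_co.Transp

set_option autoImplicit false

namespace Pool.Agent.Lib.MP_86319c_co

open Finset

noncomputable section

variable {ι : Type} [DecidableEq ι]

theorem nfp_enum (S : Finset ι) (M : ℕ) (h : S.card = M) (p0 : ι) :
    ∃ e : ℕ → ι, (∀ i < M, ∀ j < M, e i = e j → i = j) ∧ (∀ i < M, e i ∈ S) ∧
      ∀ s ∈ S, ∃ i < M, e i = s := by
  let φ : S ≃ Fin M := S.equivFinOfCardEq h
  refine ⟨fun j => if hj : j < M then (φ.symm ⟨j, hj⟩ : ι) else p0, ?_, ?_, ?_⟩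
  · intro i hi j hj hij
    simp only [dif_pos hi, dif_pos hj] at hij
    have := φ.symm.injective (Subtype.ext hij)
    exact congrArg Fin.val this
  · intro i hi
    simp only [dif_pos hi]
    exact (φ.symm ⟨i, hi⟩).2
  · intro s hs
    refine ⟨(φ ⟨s, hs⟩).1, (φ ⟨s, hs⟩).2, ?_⟩
    simp only [dif_pos (φ ⟨s, hs⟩).2]
    simp

theorem nfp_good_empty {k B : ℕ} (x y : ℕ → ℝ) : Good k B (range (0 + 0)) x y := by
  refine ⟨⟨fun a ha => by simp at ha, fun a ha => by simp at ha⟩, ?_⟩
  intro Q G _ _ hG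
  have : G = ∅ := by
    refine eq_empty_of_forall_notMem fun g hg => ?_
    have := (hG g hg).2.1 (mem_insert_self g Q)
    simp at this
  simp [this]

theorem nfp_final {k B M : ℕ} {z : ℝ}
    (h : ∀ (x y : ℕ → ℝ), Good k B (range (M + M)) x y → (∀ i < M + M, 0 < x i) →
      (∀ p < M, ∀ q, M ≤ q → q < M + M → x p ≤ z * x q) → False)
    {L U : Finset ι} {f g : ι → ℝ} (hd : Disjoint L U) (hL : L.card = M) (hU : U.card = M)
    (hG : Good k B (L ∪ U) f g) (hpos : ∀ i ∈ L ∪ U, 0 < f i)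
    (hLU : ∀ p ∈ L, ∀ q ∈ U, f p ≤ z * f q) (p0 : ι) : False := by
  obtain ⟨eL, hL1, hL2, hL3⟩ := nfp_enum L M hL p0
  obtain ⟨eU, hU1, hU2, hU3⟩ := nfp_enum U M hU p0
  let e : ℕ → ι := fun j => if j < M then eL j else eU (j - M)
  have he1 : ∀ j < M, e j = eL j := fun j hj => if_pos hj
  have he2 : ∀ j, M ≤ j → e j = eU (j - M) := fun j hj => if_neg (not_lt.2 hj)
  have heL : ∀ j < M, e j ∈ L := fun j hj => by rw [he1 j hj]; exact hL2 j hj
  have heU : ∀ j, M ≤ j → j < M + M → e j ∈ U := fun j hj hj2 => by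
    rw [he2 j hj]; exact hU2 _ (by omega)
  have hmem : ∀ j < M + M, e j ∈ L ∪ U := fun j hj => by
    rcases lt_or_ge j M with h1 | h1
    · exact mem_union_left _ (heL j h1)
    · exact mem_union_right _ (heU j h1 hj)
  have hinj : Set.InjOn e (range (M + M) : Set ℕ) := by
    intro i hi j hj hij
    have hi' : i < M + M := by simpa using hi
    have hj' : j < M + M := by simpa using hj
    rcases lt_or_ge i M with h1 | h1 <;> rcases lt_or_ge j M with h2 | h2
    · rw [he1 i h1, he1 j h2] at hij; exact hL1 i h1 j h2 hij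
    · exact absurd (heU j h2 hj') (disjoint_left.1 hd (hij ▸ heL i h1))
    · exact absurd (heU i h1 hi') (disjoint_left.1 hd (hij ▸ heL j h2))
    · rw [he2 i h1, he2 j h2] at hij
      have := hU1 _ (by omega) _ (by omega) hij
      omega
  have himg : (range (M + M)).image e = L ∪ U := by
    ext s
    constructor
    · intro hs
      obtain ⟨j, hj, rfl⟩ := mem_image.1 hs
      exact hmem j (mem_range.1 hj)
    · intro hs
      rcases mem_union.1 hs with h1 | h1
      · obtain ⟨i, hi, rfl⟩ := hL3 s h1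
        exact mem_image.2 ⟨i, mem_range.2 (by omega), he1 i hi⟩
      · obtain ⟨i, hi, rfl⟩ := hU3 s h1
        refine mem_image.2 ⟨i + M, mem_range.2 (by omega), ?_⟩
        rw [he2 _ (by omega), Nat.add_sub_cancel]
  exact h _ _ (hG.reindex e (range (M + M)) hinj himg) (fun i hi => hpos _ (hmem i hi))
    (fun p hp q hq hq2 => hLU _ (heL p hp) _ (heU q hq hq2))

theorem nf_zero {k B M : ℕ} {z : ℝ} (hz0 : 0 < z) (hz1 : z < 1)
    (h : ∀ (x y : ℕ → ℝ), Good k B (range (M + M)) x y → (∀ i < M + M, 0 < x i) →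
      (∀ p < M, ∀ q, M ≤ q → q < M + M → x p ≤ z * x q) → False)
    {A : Finset ι} {x y : ι → ℝ} (hG : Good k B A x y) : NFb z 0 M A x y := by
  intro I hI f hf hpos X hL hU hmoat
  rcases Nat.eq_zero_or_pos M with rfl | hM
  · exact h (fun _ => 1) (fun _ => 1) (nfp_good_empty _ _) (fun _ _ => one_pos)
      (fun p hp => absurd hp (Nat.not_lt_zero p))
  have hcov : ∀ i ∈ I, f i ≤ X ∨ X ≤ z * f i := by
    intro i hi
    by_contra hc
    rw [not_or, not_le, not_le] at hc
    have : ({i} : Finset ι).card ≤ np I (fun i => X < f i ∧ z * f i < X) :=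
      card_le_np fun j hj => by rw [mem_singleton.1 hj]; exact ⟨hi, hc⟩
    rw [card_singleton] at this
    omega
  have hdis : ∀ i ∈ I, f i ≤ X → X ≤ z * f i → False := by
    intro i hi h1 h2
    have := hpos i hi
    nlinarith
  have haU : IsAff x y (fun i => z * f i - X) :=
    hf.comb hf z 0 (-X) (fun i => by ring)
  have haL : IsAff x y (fun i => X - f i) :=
    hf.comb hf (-1) 0 X (fun i => by ring)
  have hU0 := hI.fl_nonneg haU
  set U0 := fl I (fun i => 0 ≤ z * f i - X) with hU0d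
  have hU0c : U0.card = np I (fun i => X ≤ z * f i) := by
    unfold np; congr 1; ext i; simp [hU0d]
  have hsum : np I (fun i => f i ≤ X) + np I (fun i => X ≤ z * f i) ≤ I.card := by
    rw [← np_true I]
    exact add_le_np (fun _ _ _ => trivial) (fun _ _ _ => trivial) hdis
  obtain ⟨V, hV, hUV, hVI, hVc⟩ := interpolate hG.1 hU0 hI (fl_subset _ _)
    (m := U0.card + M) (by omega) (by omega)
  have hL' := hV.fl_nonneg haL
  set L := fl V (fun i => 0 ≤ X - f i) with hLd
  have hLm : ∀ i, i ∈ L ↔ i ∈ V ∧ f i ≤ X := fun i => by simp [hLd]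
  have hUm : ∀ i, i ∈ U0 ↔ i ∈ I ∧ X ≤ z * f i := fun i => by simp [hU0d]
  have hLc : L.card = M := by
    have h1 : L = V \ U0 := by
      ext i
      rw [hLm, mem_sdiff, hUm]
      constructor
      · rintro ⟨h1, h2⟩
        exact ⟨h1, fun h3 => hdis i h3.1 h2 h3.2⟩
      · rintro ⟨h1, h2⟩
        refine ⟨h1, ?_⟩
        rcases hcov i (hVI h1) with h3 | h3
        · exact h3
        · exact absurd ⟨hVI h1, h3⟩ h2
    rw [h1, card_sdiff_of_subset hUV]
    omega
  obtain ⟨W, hW, hLW, hWV, hWc⟩ := interpolate hG.1 hL' hV (fl_subset _ _)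
    (m := M + M) (by omega) (by omega)
  have hWU : L ∪ (W \ L) = W := union_sdiff_of_subset hLW
  have hUc : (W \ L).card = M := by rw [card_sdiff_of_subset hLW]; omega
  have hLU : ∀ p ∈ L, ∀ q ∈ W \ L, f p ≤ z * f q := by
    intro p hp q hq
    obtain ⟨hq1, hq2⟩ := mem_sdiff.1 hq
    rcases hcov q (hVI (hWV hq1)) with h3 | h3
    · exact absurd ((hLm q).2 ⟨hWV hq1, h3⟩) hq2
    · exact le_trans ((hLm p).1 hp).2 h3
  have hposW : ∀ i ∈ L ∪ (W \ L), 0 < f i := fun i hi => by
    rw [hWU] at hi; exact hpos i (hVI (hWV hi))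
  obtain ⟨p, hp⟩ : L.Nonempty := card_pos.1 (by omega)
  obtain ⟨q, hq⟩ : (W \ L).Nonempty := card_pos.1 (by omega)
  have hpq : f p < f q := by
    have h1 := hLU p hp q hq
    have h2 := hposW q (mem_union_right _ hq)
    nlinarith
  obtain ⟨a, b, c, hf'⟩ := hf
  have hGW : Good k B W x y := hG.restrict hW
  by_cases ha : a = 0
  · have hb : b ≠ 0 := by
      intro hb
      rw [hf' p, hf' q, ha, hb] at hpq
      simp at hpq
    have hG2 : Good k B W f x := hGW.proj 0 0 1 a b c 1 0 0 (by simpa using hb)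
      (fun i _ => by simp) f x (fun i _ => by rw [hf' i]; simp) (fun i _ => by simp)
    rw [← hWU] at hG2
    exact nfp_final h disjoint_sdiff hLc hUc hG2 hposW hLU p
  · have hG2 : Good k B W f y := hGW.proj 0 0 1 a b c 0 1 0 (by simpa using ha)
      (fun i _ => by simp) f y (fun i _ => by rw [hf' i]; simp) (fun i _ => by simp)
    rw [← hWU] at hG2
    exact nfp_final h disjoint_sdiff hLc hUc hG2 hposW hLU p

theorem nfp_median {r : ι → ℝ} : ∀ (N : ℕ) (L : Finset ι), Set.InjOn r (L : Set ι) →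
    2 * N + 1 ≤ L.card →
    ∃ q ∈ L, N ≤ np L (fun j => r j < r q) ∧ N ≤ np L (fun j => r q < r j) := by
  intro N
  induction N with
  | zero =>
    intro L _ hc
    obtain ⟨q, hq⟩ : L.Nonempty := card_pos.1 (by omega)
    exact ⟨q, hq, Nat.zero_le _, Nat.zero_le _⟩
  | succ N ih =>
    intro L hinj hc
    obtain ⟨mx, hmx, hmax⟩ := exists_max_image L r (card_pos.1 (by omega))
    have hc1 : (L.erase mx).card = L.card - 1 := card_erase_of_mem hmx
    obtain ⟨mn, hmn, hmin⟩ := exists_min_image (L.erase mx) r (card_pos.1 (by omega))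
    have hc2 : ((L.erase mx).erase mn).card = (L.erase mx).card - 1 := card_erase_of_mem hmn
    have hsub : (L.erase mx).erase mn ⊆ L := (erase_subset _ _).trans (erase_subset _ _)
    obtain ⟨q, hq, h1, h2⟩ := ih ((L.erase mx).erase mn)
      (hinj.mono (coe_subset.2 hsub)) (by omega)
    have hqL : q ∈ L := hsub hq
    have hq1 : q ≠ mn := (mem_erase.1 hq).1
    have hq2 : q ≠ mx := (mem_erase.1 (mem_erase.1 hq).2).1
    have hmnL : mn ∈ L := (mem_erase.1 hmn).2
    have hlt1 : r mn < r q := lt_of_le_of_ne (hmin q (mem_erase.1 hq).2)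
      (fun he => hq1 (hinj hqL hmnL he.symm))
    have hlt2 : r q < r mx := lt_of_le_of_ne (hmax q hqL)
      (fun he => hq2 (hinj hqL hmx he))
    refine ⟨q, hqL, ?_, ?_⟩
    · have : (insert mn (fl ((L.erase mx).erase mn) (fun j => r j < r q))).card ≤
          np L (fun j => r j < r q) := by
        refine card_le_np fun i hi => ?_
        rcases mem_insert.1 hi with rfl | hi
        · exact ⟨hmnL, hlt1⟩
        · exact ⟨hsub (mem_fl.1 hi).1, (mem_fl.1 hi).2⟩
      rw [card_insert_of_notMem (by simp)] at this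
      unfold np at h1 this ⊢
      omega
    · have : (insert mx (fl ((L.erase mx).erase mn) (fun j => r q < r j))).card ≤
          np L (fun j => r q < r j) := by
        refine card_le_np fun i hi => ?_
        rcases mem_insert.1 hi with rfl | hi
        · exact ⟨hmx, hlt2⟩
        · exact ⟨hsub (mem_fl.1 hi).1, (mem_fl.1 hi).2⟩
      rw [card_insert_of_notMem (by simp)] at this
      unfold np at h2 this ⊢
      omega

theorem nfp_side {z : ℝ} {b N : ℕ} {A I : Finset ι} {x y f G : ι → ℝ} {X : ℝ} {p : ι}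
    (h : NFb z b N A x y) (hI : Island A x y I) (hf : IsAff x y f) (hpos : ∀ i ∈ I, 0 < f i)
    (hG : IsAff x y G) (hp : p ∈ I) (hp1 : X < f p ∧ z * f p < X) (hGp : G p = 0)
    (hL : N ≤ np I (fun i => f i ≤ X ∧ 0 < G i)) (hU : N ≤ np I (fun i => X ≤ z * f i ∧ 0 < G i))
    (hm : np I (fun i => X < f i ∧ z * f i < X) ≤ b + 1) : False := by
  refine h _ (hI.fl_pos hG) f hf (fun i hi => hpos i (mem_fl.1 hi).1) X
    (hL.trans (np_mono fun i hi hh => ⟨mem_fl.2 ⟨hi, hh.2⟩, hh.1⟩))
    (hU.trans (np_mono fun i hi hh => ⟨mem_fl.2 ⟨hi, hh.2⟩, hh.1⟩)) ?_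
  have h1 : np (fl I (fun i => 0 < G i)) (fun i => X < f i ∧ z * f i < X) ≤
      ((fl I (fun i => X < f i ∧ z * f i < X)).erase p).card := by
    refine np_le_of_subset fun i hi hh => mem_erase.2 ⟨?_, mem_fl.2 ⟨(mem_fl.1 hi).1, hh⟩⟩
    rintro rfl
    have := (mem_fl.1 hi).2
    rw [hGp] at this
    exact lt_irrefl _ this
  rw [card_erase_of_mem (mem_fl.2 ⟨hp, hp1⟩)] at h1
  unfold np at hm h1 ⊢
  omega

theorem nf_succ {z : ℝ} (hz0 : 0 < z) (hz1 : z < 1) {b N : ℕ} {A : Finset ι} {x y : ι → ℝ}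
    (hGP : GP A x y) (h : NFb z b N A x y) : NFb z (b + 1) (2 * N + 2) A x y := by
  intro I hI f hf hpos X hL hU hmoat
  by_cases hb : np I (fun i => X < f i ∧ z * f i < X) ≤ b
  · exact h I hI f hf hpos X (by omega) (by omega) hb
  obtain ⟨p, hp, hp1⟩ := exists_of_np_pos (A := I)
    (Φ := fun i => X < f i ∧ z * f i < X) (by omega)
  obtain ⟨a, b', c, hf'⟩ := id hf
  obtain ⟨i0, hi0, hi0X⟩ := exists_of_np_pos (A := I) (Φ := fun i => f i ≤ X) (by omega)
  have hab : a ≠ 0 ∨ b' ≠ 0 := by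
    by_contra hc
    rw [not_or, not_not, not_not] at hc
    have h1 := hp1.1
    rw [hf' p, hc.1, hc.2] at h1
    rw [hf' i0, hc.1, hc.2] at hi0X
    linarith
  let ph : ι → ℝ := fun i => -b' * (x i - x p) + a * (y i - y p)
  let g : ℝ → ι → ℝ := fun t i => ph i - t * (f p - f i)
  have hg : ∀ t i, g t i = (-b' + t * a) * x i + (a + t * b') * y i +
      (b' * x p - a * y p - t * (a * x p + b' * y p)) := by
    intro t i
    simp only [g, ph]
    rw [hf' p, hf' i]; ring
  have hgp : ∀ t, g t p = 0 := fun t => by simp [g, ph]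
  have hline : ∀ t, np I (fun i => g t i = 0) ≤ 2 := by
    intro t
    have hne : -b' + t * a ≠ 0 ∨ a + t * b' ≠ 0 := by
      by_contra hc
      rw [not_or, not_not, not_not] at hc
      obtain ⟨h1, h2⟩ := hc
      have hb' : b' = t * a := by linarith
      have ha : a * (1 + t ^ 2) = 0 := by rw [hb'] at h2; linarith
      have ha0 : a = 0 := by
        rcases mul_eq_zero.1 ha with h3 | h3
        · exact h3
        · have : (0 : ℝ) < 1 + t ^ 2 := by positivity
          linarith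
      rcases hab with h3 | h3
      · exact h3 ha0
      · exact h3 (by rw [hb', ha0, mul_zero])
    refine le_trans (np_mono fun i hi hh => ⟨hI.1 hi, ?_⟩) (hGP.np_line _ _
      (b' * x p - a * y p - t * (a * x p + b' * y p)) hne)
    rw [← hg]; exact hh
  let r : ι → ℝ := fun i => ph i / (f p - f i)
  set L := fl I (fun i => f i ≤ X) with hLd
  have hψ : ∀ i ∈ L, 0 < f p - f i := fun i hi => by
    have := (mem_fl.1 hi).2
    linarith [hp1.1]
  have hr : ∀ t, ∀ i ∈ L, g t i = (r i - t) * (f p - f i) := by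
    intro t i hi
    have := (hψ i hi).ne'
    simp only [g, r]
    field_simp
  have hinj : Set.InjOn r (L : Set ι) := by
    intro i hi j hj hij
    by_contra hne
    have hi' : i ∈ L := hi
    have hj' : j ∈ L := hj
    have hip : p ≠ i := by rintro rfl; have := hψ _ hi'; simp at this
    have hjp : p ≠ j := by rintro rfl; have := hψ _ hj'; simp at this
    have h3 : ({p, i, j} : Finset ι).card ≤ np I (fun u => g (r i) u = 0) := by
      refine card_le_np fun u hu => ?_
      simp only [mem_insert, mem_singleton] at hu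
      rcases hu with rfl | rfl | rfl
      · exact ⟨hp, hgp _⟩
      · exact ⟨(mem_fl.1 hi').1, by rw [hr _ _ hi']; simp⟩
      · exact ⟨(mem_fl.1 hj').1, by rw [hr _ _ hj', hij]; simp⟩
    rw [card_eq_three.2 ⟨p, i, j, hip, hjp, hne, rfl⟩] at h3
    have := hline (r i)
    omega
  obtain ⟨q, -, h1, h2⟩ := nfp_median N L hinj (le_trans (Nat.le_succ _) hL)
  have haff : IsAff x y (g (r q)) := ⟨_, _, _, hg (r q)⟩
  have haff' : IsAff x y (fun i => - g (r q) i) := haff.comb haff (-1) 0 0 (fun i => by ring)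
  have hLp : N ≤ np I (fun i => f i ≤ X ∧ 0 < g (r q) i) := by
    refine h2.trans (np_mono fun i hi hh => ⟨(mem_fl.1 hi).1, (mem_fl.1 hi).2, ?_⟩)
    rw [hr _ _ hi]
    exact mul_pos (sub_pos.2 hh) (hψ i hi)
  have hLn : N ≤ np I (fun i => f i ≤ X ∧ 0 < - g (r q) i) := by
    refine h1.trans (np_mono fun i hi hh => ⟨(mem_fl.1 hi).1, (mem_fl.1 hi).2, ?_⟩)
    rw [hr _ _ hi]
    have := mul_pos (sub_pos.2 hh) (hψ i hi)
    linarith
  have hs1 : np I (fun i => X ≤ z * f i) ≤ np I (fun i => X ≤ z * f i ∧ g (r q) i ≠ 0) +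
      np I (fun i => g (r q) i = 0) := by
    refine np_le_add fun i _ hh => ?_
    by_cases h0 : g (r q) i = 0
    · exact Or.inr h0
    · exact Or.inl ⟨hh, h0⟩
  have hs2 : np I (fun i => X ≤ z * f i ∧ g (r q) i ≠ 0) ≤
      np I (fun i => X ≤ z * f i ∧ 0 < g (r q) i) +
      np I (fun i => X ≤ z * f i ∧ 0 < - g (r q) i) := by
    refine np_le_add fun i _ hh => ?_
    rcases lt_or_gt_of_ne hh.2 with h0 | h0
    · exact Or.inr ⟨hh.1, by linarith⟩
    · exact Or.inl ⟨hh.1, h0⟩
  have hl := hline (r q)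
  by_cases hUp : N ≤ np I (fun i => X ≤ z * f i ∧ 0 < g (r q) i)
  · exact nfp_side h hI hf hpos haff hp hp1 (hgp _) hLp hUp hmoat
  · have hUn : N ≤ np I (fun i => X ≤ z * f i ∧ 0 < - g (r q) i) := by omega
    exact nfp_side h hI hf hpos haff' hp hp1 (by simp [hgp]) hLn hUn hmoat

theorem nf_all {z : ℝ} (hz0 : 0 < z) (hz1 : z < 1) (M : ℕ) : ∃ Nf : ℕ → ℕ,
    ∀ (A : Finset ι) (x y : ι → ℝ), GP A x y → NFb z 0 M A x y → NFall z Nf A x y := by
  refine ⟨fun b => Nat.rec M (fun _ n => 2 * n + 2) b, fun A x y hGP h0 b => ?_⟩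
  induction b with
  | zero => exact h0
  | succ b ih => exact nf_succ hz0 hz1 hGP ih

end

end Pool.Agent.Lib.MP_86319c_co
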