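import Pool.Agent.Lib.MP_86319c_co.Hull

set_option autoImplicit false

namespace Pool.Agent.Lib.MP_86319c_co

open Finset

noncomputable section

variable {F : Type} [Field F] [LinearOrder F] [IsStrictOrderedRing F] {ι : Type} [DecidableEq ι]

theorem wlem_rel (a b : Fin 3 → F) : ∃ c : Fin 3 → F, (∃ i, c i ≠ 0) ∧
    c 0 * a 0 + c 1 * a 1 + c 2 * a 2 = 0 ∧ c 0 * b 0 + c 1 * b 1 + c 2 * b 2 = 0 := by
  by_cases h : a 0 * b 1 - a 1 * b 0 = 0
  · by_cases h1 : a 0 = 0
    · by_cases h2 : b 0 = 0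
      · exact ⟨![1, 0, 0], ⟨0, by simp⟩, by simp [h1], by simp [h2]⟩
      · refine ⟨![b 1, -b 0, 0], ⟨1, by simpa using h2⟩, ?_, ?_⟩
        · simp only [Matrix.cons_val_zero, Matrix.cons_val_one, Matrix.cons_val]
          linear_combination h
        · simp only [Matrix.cons_val_zero, Matrix.cons_val_one, Matrix.cons_val]
          ring
    · refine ⟨![a 1, -a 0, 0], ⟨1, by simpa using h1⟩, ?_, ?_⟩
      · simp only [Matrix.cons_val_zero, Matrix.cons_val_one, Matrix.cons_val]
        ring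
      · simp only [Matrix.cons_val_zero, Matrix.cons_val_one, Matrix.cons_val]
        linear_combination -h
  · refine ⟨![a 1 * b 2 - a 2 * b 1, a 2 * b 0 - a 0 * b 2, a 0 * b 1 - a 1 * b 0],
      ⟨2, by simpa using h⟩, ?_, ?_⟩
    · simp only [Matrix.cons_val_zero, Matrix.cons_val_one, Matrix.cons_val]
      ring
    · simp only [Matrix.cons_val_zero, Matrix.cons_val_one, Matrix.cons_val]
      ring

theorem wlem_rel' (a b : Fin 3 → F) : ∃ c : Fin 3 → F, (∃ i, 0 < c i) ∧ 0 ≤ c 0 + c 1 + c 2 ∧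
    c 0 * a 0 + c 1 * a 1 + c 2 * a 2 = 0 ∧ c 0 * b 0 + c 1 * b 1 + c 2 * b 2 = 0 := by
  have key : ∀ c : Fin 3 → F, (∃ i, c i ≠ 0) → 0 ≤ c 0 + c 1 + c 2 → ∃ i, 0 < c i := by
    intro c ⟨i, hi⟩ hs
    by_contra hc
    push Not at hc
    have h0 := hc 0
    have h1 := hc 1
    have h2 := hc 2
    apply hi
    fin_cases i
    · show c 0 = 0
      linarith
    · show c 1 = 0
      linarith
    · show c 2 = 0
      linarith
  obtain ⟨c, hc, h1, h2⟩ := wlem_rel a b
  rcases le_total 0 (c 0 + c 1 + c 2) with h | h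
  · exact ⟨c, key c hc h, h, h1, h2⟩
  · have h' : 0 ≤ (-c) 0 + (-c) 1 + (-c) 2 := by
      simp only [Pi.neg_apply]
      linarith
    refine ⟨-c, key (-c) ?_ h', h', ?_, ?_⟩
    · obtain ⟨i, hi⟩ := hc
      exact ⟨i, by simpa using hi⟩
    · simp only [Pi.neg_apply]
      linear_combination -h1
    · simp only [Pi.neg_apply]
      linear_combination -h2

theorem wlem_four (a b w : Fin 3 → F) (hw : ∀ i, 0 ≤ w i) (hs : w 0 + w 1 + w 2 ≤ 1) :
    ∃ v : Fin 3 → F, (∀ i, 0 ≤ v i) ∧ v 0 + v 1 + v 2 ≤ 1 ∧ (∃ i, v i = 0) ∧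
      v 0 * a 0 + v 1 * a 1 + v 2 * a 2 = w 0 * a 0 + w 1 * a 1 + w 2 * a 2 ∧
      v 0 * b 0 + v 1 * b 1 + v 2 * b 2 = w 0 * b 0 + w 1 * b 1 + w 2 * b 2 := by
  obtain ⟨c, ⟨i0, hi0⟩, hc, h1, h2⟩ := wlem_rel' a b
  obtain ⟨j, hj, hmin⟩ := exists_min_image (univ.filter fun i => 0 < c i) (fun i => w i / c i)
    ⟨i0, mem_filter.2 ⟨mem_univ _, hi0⟩⟩
  have hcj : 0 < c j := (mem_filter.1 hj).2
  have hth : 0 ≤ w j / c j := div_nonneg (hw j) hcj.le
  refine ⟨fun i => w i - w j / c j * c i, fun i => ?_, ?_, ⟨j, ?_⟩, ?_, ?_⟩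
  · rcases lt_or_ge 0 (c i) with h | h
    · have := hmin i (mem_filter.2 ⟨mem_univ _, h⟩)
      rw [le_div_iff₀ h] at this
      linarith
    · have := mul_nonneg hth (neg_nonneg.2 h)
      have := hw i
      linarith
  · have := mul_nonneg hth hc
    show w 0 - w j / c j * c 0 + (w 1 - w j / c j * c 1) + (w 2 - w j / c j * c 2) ≤ 1
    linarith
  · show w j - w j / c j * c j = 0
    rw [div_mul_cancel₀ _ hcj.ne', sub_self]
  · show (w 0 - w j / c j * c 0) * a 0 + (w 1 - w j / c j * c 1) * a 1 +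
      (w 2 - w j / c j * c 2) * a 2 = _
    linear_combination (-(w j / c j)) * h1
  · show (w 0 - w j / c j * c 0) * b 0 + (w 1 - w j / c j * c 1) * b 1 +
      (w 2 - w j / c j * c 2) * b 2 = _
    linear_combination (-(w j / c j)) * h2

/-- barycentric form of the triangle with a distinguished vertex -/
def wlemP (x y : ι → F) (a s t : ι) (p q : F) : Prop :=
  ∃ u v : F, 0 ≤ u ∧ 0 ≤ v ∧ u + v ≤ 1 ∧ p = x a + u * (x s - x a) + v * (x t - x a) ∧
    q = y a + u * (y s - y a) + v * (y t - y a)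

theorem wlem_inH {x y : ι → F} {a s t : ι} {p q : F} (h : wlemP x y a s t p q) :
    InH x y {a, s, t} p q := by
  obtain ⟨u, v, hu, hv, huv, hp, hq⟩ := h
  have ha : InH x y {a, s, t} (x a) (y a) := inH_self (by simp)
  have hs : InH x y {a, s, t} (x s) (y s) := inH_self (by simp)
  have ht : InH x y {a, s, t} (x t) (y t) := inH_self (by simp)
  rcases (add_nonneg hu hv).lt_or_eq with hm | hm
  · have h1 := cvx_inH x y {a, s, t} _ _ _ _ (v / (u + v)) hs ht (div_nonneg hv hm.le)
      ((div_le_one hm).2 (by linarith))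
    have h2 := cvx_inH x y {a, s, t} _ _ _ _ (u + v) ha h1 hm.le huv
    have e1 : p = (1 - (u + v)) * x a + (u + v) * ((1 - v / (u + v)) * x s + v / (u + v) * x t) := by
      rw [hp]
      field_simp
      ring
    have e2 : q = (1 - (u + v)) * y a + (u + v) * ((1 - v / (u + v)) * y s + v / (u + v) * y t) := by
      rw [hq]
      field_simp
      ring
    rw [e1, e2]
    exact h2
  · have hu0 : u = 0 := by linarith
    have hv0 : v = 0 := by linarith
    rw [hp, hq, hu0, hv0]
    simpa using ha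

theorem wlem_ind {x y : ι → F} (a : ι) (T : Finset ι) : ∀ p q : F, InH x y (insert a T) p q →
    ∃ s ∈ insert a T, ∃ t ∈ insert a T, wlemP x y a s t p q := by
  induction T using Finset.induction_on with
  | empty =>
    intro p q ⟨w, _, h1, h2, h3⟩
    simp only [insert_empty_eq, sum_singleton] at h1 h2 h3
    refine ⟨a, by simp, a, by simp, 0, 0, le_rfl, le_rfl, by norm_num, ?_, ?_⟩
    · rw [← h2, h1]
      ring
    · rw [← h3, h1]
      ring
  | insert z T _ ih =>
    intro p q h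
    rw [insert_comm] at h ⊢
    obtain ⟨p', q', μ, h1, hμ0, hμ1, hp, hq⟩ := inH_insert (insert_nonempty a T) h
    obtain ⟨s, hs, t, ht, u, v, hu, hv, huv, hp', hq'⟩ := ih p' q' h1
    have hμ : 0 ≤ 1 - μ := by linarith
    obtain ⟨r, r0, r1, ⟨i, ri⟩, r2, r3⟩ := wlem_four ![x s - x a, x t - x a, x z - x a]
      ![y s - y a, y t - y a, y z - y a] ![(1 - μ) * u, (1 - μ) * v, μ]
      (by
        intro i
        fin_cases i
        · exact mul_nonneg hμ hu
        · exact mul_nonneg hμ hv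
        · exact hμ0)
      (by
        simp only [Matrix.cons_val_zero, Matrix.cons_val_one, Matrix.cons_val]
        have := mul_le_mul_of_nonneg_left huv hμ
        linarith)
    simp only [Matrix.cons_val_zero, Matrix.cons_val_one, Matrix.cons_val] at r2 r3
    have ms : s ∈ insert z (insert a T) := mem_insert_of_mem hs
    have mt : t ∈ insert z (insert a T) := mem_insert_of_mem ht
    have mz : z ∈ insert z (insert a T) := mem_insert_self _ _
    rw [hp'] at hp
    rw [hq'] at hq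
    fin_cases i
    · have e : r 0 = 0 := ri
      rw [e] at r1 r2 r3
      exact ⟨t, mt, z, mz, r 1, r 2, r0 1, r0 2, by linarith, by linear_combination hp - r2,
        by linear_combination hq - r3⟩
    · have e : r 1 = 0 := ri
      rw [e] at r1 r2 r3
      exact ⟨s, ms, z, mz, r 0, r 2, r0 0, r0 2, by linarith, by linear_combination hp - r2,
        by linear_combination hq - r3⟩
    · have e : r 2 = 0 := ri
      rw [e] at r1 r2 r3
      exact ⟨s, ms, t, mt, r 0, r 1, r0 0, r0 1, by linarith, by linear_combination hp - r2,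
        by linear_combination hq - r3⟩

/-- Anchored form of the planar theorem of Caratheodory. -/
theorem inH_three {x y : ι → F} {S : Finset ι} {a : ι} (ha : a ∈ S) {p q : F}
    (h : InH x y S p q) : ∃ s ∈ S, ∃ t ∈ S, InH x y {a, s, t} p q := by
  rw [← insert_eq_of_mem ha] at h
  obtain ⟨s, hs, t, ht, h1⟩ := wlem_ind a S p q h
  rw [insert_eq_of_mem ha] at hs ht
  exact ⟨s, hs, t, ht, wlem_inH h1⟩

theorem anchor {A C G : Finset ι} {x y : ι → F} (hC : Island A x y C)
    (hG : ∀ g ∈ G, Island A x y (insert g C)) {u : ι} (huA : u ∈ A)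
    (hu : InH x y (C ∪ G) (x u) (y u)) (huC : u ∉ C) {a : ι} (ha : a ∈ C) :
    InH x y (insert a G) (x u) (y u) := by
  obtain ⟨s, hs, t, ht, h⟩ := inH_three (mem_union_left G ha) hu
  have key : ∀ g ∈ G, InH x y (insert g C) (x u) (y u) → InH x y (insert a G) (x u) (y u) := by
    intro g hg h1
    rcases mem_insert.1 ((hG g hg).2 u huA h1) with rfl | h2
    · exact inH_self (mem_insert_of_mem hg)
    · exact absurd h2 huC
  rcases mem_union.1 hs with hs | hs <;> rcases mem_union.1 ht with ht | ht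
  · refine absurd (hC.2 u huA (inH_mono ?_ h)) huC
    simp [insert_subset_iff, ha, hs, ht]
  · refine key t ht (inH_mono ?_ h)
    simp [insert_subset_iff, ha, hs]
  · refine key s hs (inH_mono ?_ h)
    simp [insert_subset_iff, ha, ht]
  · refine inH_mono ?_ h
    simp [insert_subset_iff, hs, ht]

theorem wlem_det (x y : ι → F) (a b c : ι) : det3 x y a b c =
    (y a - y b) * x c + (x b - x a) * y c + (x a * y b - y a * x b) := by
  unfold det3
  ring

theorem wlem_det_neg (x y : ι → F) (a b c : ι) : -det3 x y a b c =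
    (y b - y a) * x c + (x a - x b) * y c + (y a * x b - x a * y b) := by
  unfold det3
  ring

theorem wlem_det_a (x y : ι → F) (a b : ι) : det3 x y a b a = 0 := by
  unfold det3
  ring

theorem wlem_det_b (x y : ι → F) (a b : ι) : det3 x y a b b = 0 := by
  unfold det3
  ring

theorem wlem_det_aa (x y : ι → F) (a c : ι) : det3 x y a a c = 0 := by
  unfold det3
  ring

/-- points with the same colour are avoided by the lines through the base -/
theorem wlem_avoid {A T G : Finset ι} {x y : ι → F} (hGP : GP A x y) (hT : T ⊆ A)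
    {col : Finset (ι × ι)} (hG : ∀ g ∈ G, g ∈ A ∧ g ∉ T ∧
      (T ×ˢ T).filter (fun e => 0 < det3 x y e.1 e.2 g) = col) : Avoid x y T G := by
  intro a ha b hb hab
  by_cases h : (a, b) ∈ col
  · refine Or.inl fun g hg => ?_
    rw [← (hG g hg).2.2] at h
    exact (mem_filter.1 h).2
  · refine Or.inr fun g hg => ?_
    obtain ⟨g1, g2, g3⟩ := hG g hg
    rw [← g3] at h
    have h1 : ¬ 0 < det3 x y a b g := fun h' =>
      h (mem_filter.2 ⟨mem_product.2 ⟨ha, hb⟩, h'⟩)
    exact lt_of_le_of_ne (not_lt.1 h1) (hGP.2 a (hT ha) b (hT hb) g g1 hab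
      (fun e => g2 (e ▸ hb)) (fun e => g2 (e ▸ ha)))

theorem wlem_pos {A G : Finset ι} {x y : ι → F} (hGP : GP A x y) {a b u : ι} (ha : a ∈ A)
    (hb : b ∈ A) (hu : u ∈ A) (hab : a ≠ b) (hbu : b ≠ u) (hau : a ≠ u)
    (h : InH x y (insert a G) (x u) (y u)) (hG : ∀ g ∈ G, 0 < det3 x y a b g) :
    0 < det3 x y a b u := by
  refine lt_of_le_of_ne ?_ (hGP.2 a ha b hb u hu hab hbu hau).symm
  rw [wlem_det]
  refine (cvx_nonneg _ _ _).of_inH (fun i hi => ?_) h
  show 0 ≤ _
  rw [← wlem_det]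
  rcases mem_insert.1 hi with rfl | hi
  · rw [wlem_det_a]
  · exact (hG i hi).le

theorem wlem_neg {A G : Finset ι} {x y : ι → F} (hGP : GP A x y) {a b u : ι} (ha : a ∈ A)
    (hb : b ∈ A) (hu : u ∈ A) (hab : a ≠ b) (hbu : b ≠ u) (hau : a ≠ u)
    (h : InH x y (insert a G) (x u) (y u)) (hG : ∀ g ∈ G, det3 x y a b g < 0) :
    det3 x y a b u < 0 := by
  refine lt_of_le_of_ne ?_ (hGP.2 a ha b hb u hu hab hbu hau)
  rw [← neg_nonneg, wlem_det_neg]
  refine (cvx_nonneg _ _ _).of_inH (fun i hi => ?_) h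
  show 0 ≤ _
  rw [← wlem_det_neg]
  rcases mem_insert.1 hi with rfl | hi
  · rw [wlem_det_a, neg_zero]
  · exact neg_nonneg.2 (hG i hi).le

theorem wlem_cvx (α β γ p q : F) (h0 : α * p + β * q + γ = 0) :
    Cvx (fun a b => 0 < α * a + β * b + γ ∨ (a = p ∧ b = q)) := by
  intro a b a' b' μ h1 h2 m0 m1
  have e : α * ((1 - μ) * a + μ * a') + β * ((1 - μ) * b + μ * b') + γ =
      (1 - μ) * (α * a + β * b + γ) + μ * (α * a' + β * b' + γ) := by ring
  rcases h1 with h1 | ⟨rfl, rfl⟩ <;> rcases h2 with h2 | ⟨rfl, rfl⟩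
  · exact Or.inl (cvx_pos α β γ a b a' b' μ h1 h2 m0 m1)
  · rcases m1.lt_or_eq with h | h
    · left
      rw [e, h0, mul_zero, add_zero]
      exact mul_pos (by linarith) h1
    · right
      rw [h]
      constructor <;> ring
  · rcases m0.lt_or_eq with h | h
    · left
      rw [e, h0, mul_zero, zero_add]
      exact mul_pos h h2
    · right
      rw [← h]
      constructor <;> ring
  · right
    constructor <;> ring

/-- a point of the base in the hull of `insert c L` is `c` -/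
theorem wlem_eq {A Q L : Finset ι} {x y : ι → F} (hGP : GP A x y) (hQ : Q ⊆ A)
    (hav : Avoid x y Q L) {u c : ι} (hu : u ∈ Q) (hc : c ∈ Q)
    (h : InH x y (insert c L) (x u) (y u)) : u = c := by
  by_contra hne
  rcases hav u hu c hc hne with hs | hs
  · have h0 := wlem_det_b x y u c
    rw [wlem_det] at h0
    have := (wlem_cvx _ _ _ _ _ h0).of_inH (S := insert c L) (x := x) (y := y) (fun i hi => by
      rcases mem_insert.1 hi with rfl | hi
      · exact Or.inr ⟨rfl, rfl⟩
      · left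
        rw [← wlem_det]
        exact hs i hi) h
    rcases this with h1 | h1
    · rw [← wlem_det, wlem_det_a] at h1
      exact lt_irrefl _ h1
    · exact hne (hGP.1 u (hQ hu) c (hQ hc) h1.1 h1.2)
  · have h0 : -det3 x y u c c = 0 := by rw [wlem_det_b, neg_zero]
    rw [wlem_det_neg] at h0
    have := (wlem_cvx _ _ _ _ _ h0).of_inH (S := insert c L) (x := x) (y := y) (fun i hi => by
      rcases mem_insert.1 hi with rfl | hi
      · exact Or.inr ⟨rfl, rfl⟩
      · left
        rw [← wlem_det_neg]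
        exact neg_pos.2 (hs i hi)) h
    rcases this with h1 | h1
    · rw [← wlem_det_neg, wlem_det_a, neg_zero] at h1
      exact lt_irrefl _ h1
    · exact hne (hGP.1 u (hQ hu) c (hQ hc) h1.1 h1.2)

theorem star_of_not_KL {k l : ℕ} (hk : 2 ≤ k) {A : Finset ι} {x y : ι → F} (hGP : GP A x y)
    (hn : ¬ KL k l A x y) :
    Star (k * 2 ^ (l * l)) (l * 2 ^ ((k * 2 ^ (l * l)) * (k * 2 ^ (l * l)))) A x y := by
  intro Q G hQ hQc hG
  by_contra hlt
  rw [not_le] at hlt
  apply hn
  have hQ2 : 2 ≤ Q.card := by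
    rw [hQc]
    exact le_trans hk (Nat.le_mul_of_pos_right _ (by positivity))
  obtain ⟨col, -, hcol⟩ := exists_lt_card_fiber_of_mul_lt_card_of_maps_to
    (s := G) (t := (Q ×ˢ Q).powerset) (n := l)
    (f := fun g => (Q ×ˢ Q).filter (fun e => 0 < det3 x y e.1 e.2 g))
    (fun g _ => mem_powerset.2 (filter_subset _ _))
    (by rw [card_powerset, card_product, hQc, mul_comm]; exact hlt)
  set G' := G.filter (fun g => (Q ×ˢ Q).filter (fun e => 0 < det3 x y e.1 e.2 g) = col) with hG'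
  have hG'1 : ∀ g ∈ G', g ∈ A ∧ g ∉ Q ∧
      (Q ×ˢ Q).filter (fun e => 0 < det3 x y e.1 e.2 g) = col := by
    intro g hg
    have h1 := mem_filter.1 hg
    exact ⟨(hG g h1.1).2.1 (mem_insert_self _ _), (hG g h1.1).1, h1.2⟩
  have hG'2 : ∀ g ∈ G', Island A x y (insert g Q) := fun g hg => (hG g (mem_filter.1 hg).1).2
  have av1 : Avoid x y Q G' := wlem_avoid hGP hQ.1 hG'1
  have hW : Island A x y (fl A (fun i => InH x y (Q ∪ G') (x i) (y i))) := island_hull x y
  have hsub : Q ∪ G' ⊆ fl A (fun i => InH x y (Q ∪ G') (x i) (y i)) := by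
    intro i hi
    refine mem_fl.2 ⟨?_, inH_self hi⟩
    rcases mem_union.1 hi with h | h
    · exact hQ.1 h
    · exact (hG'1 i h).1
  have hdis : Disjoint Q G' := disjoint_left.2 fun i h1 h2 => (hG'1 i h2).2.1 h1
  obtain ⟨W, w1, w2, w3, w4⟩ := interpolate hGP hQ hW (subset_union_left.trans hsub)
    (m := Q.card + l) (Nat.le_add_right _ _) (by
      have := card_le_card hsub
      rw [card_union_of_disjoint hdis] at this
      omega)
  set L := W \ Q with hL
  have hLc : L.card = l := by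
    rw [hL, card_sdiff_of_subset w2, w4]
    omega
  have hLW : L ⊆ W := sdiff_subset
  have hLA : L ⊆ A := hLW.trans w1.1
  have hLQ : ∀ u ∈ L, u ∉ Q := fun u hu => (mem_sdiff.1 hu).2
  have av2 : Avoid x y Q L := by
    intro a ha b hb hab
    have hh : ∀ u ∈ L, InH x y (insert a G') (x u) (y u) := fun u hu =>
      anchor hQ hG'2 (hLA hu) (mem_fl.1 (w3 (hLW hu))).2 (hLQ u hu) ha
    rcases av1 a ha b hb hab with h | h
    · exact Or.inl fun u hu => wlem_pos hGP (hQ.1 ha) (hQ.1 hb) (hLA hu) hab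
        (fun e => hLQ u hu (e ▸ hb)) (fun e => hLQ u hu (e ▸ ha)) (hh u hu) h
    · exact Or.inr fun u hu => wlem_neg hGP (hQ.1 ha) (hQ.1 hb) (hLA hu) hab
        (fun e => hLQ u hu (e ▸ hb)) (fun e => hLQ u hu (e ▸ ha)) (hh u hu) h
  have inQ : ∀ S : Finset ι, S ⊆ W → ∀ u ∈ A, InH x y S (x u) (y u) → u ∉ L → u ∈ Q := by
    intro S hS u hu h1 h2
    by_contra h3
    exact h2 (mem_sdiff.2 ⟨w1.2 u hu (inH_mono hS h1), h3⟩)
  have isL : Island A x y L := by
    refine ⟨hLA, fun u hu h1 => ?_⟩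
    by_contra h2
    have h3 := inQ L hLW u hu h1 h2
    obtain ⟨c, hc, hcu⟩ := exists_mem_ne (lt_of_lt_of_le one_lt_two hQ2) u
    exact hcu (wlem_eq hGP hQ.1 av2 h3 hc (inH_mono (subset_insert _ _) h1)).symm
  have isC : ∀ c ∈ Q, Island A x y (insert c L) := by
    intro c hc
    refine ⟨insert_subset (hQ.1 hc) hLA, fun u hu h1 => ?_⟩
    by_cases h2 : u ∈ L
    · exact mem_insert_of_mem h2
    · have h3 := inQ _ (insert_subset (w2 hc) hLW) u hu h1 h2
      rw [wlem_eq hGP hQ.1 av2 h3 hc h1]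
      exact mem_insert_self _ _
  obtain ⟨col', -, hcol'⟩ := exists_le_card_fiber_of_mul_le_card_of_maps_to
    (s := Q) (t := (L ×ˢ L).powerset) (n := k)
    (f := fun g => (L ×ˢ L).filter (fun e => 0 < det3 x y e.1 e.2 g))
    (fun g _ => mem_powerset.2 (filter_subset _ _)) ⟨∅, empty_mem_powerset _⟩
    (by rw [card_powerset, card_product, hLc, hQc, mul_comm])
  set C := Q.filter (fun g => (L ×ˢ L).filter (fun e => 0 < det3 x y e.1 e.2 g) = col') with hC
  have hCQ : C ⊆ Q := filter_subset _ _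
  have hC1 : ∀ g ∈ C, g ∈ A ∧ g ∉ L ∧
      (L ×ˢ L).filter (fun e => 0 < det3 x y e.1 e.2 g) = col' := by
    intro g hg
    have h1 := mem_filter.1 hg
    exact ⟨hQ.1 h1.1, fun h => hLQ g h h1.1, h1.2⟩
  have av3 : Avoid x y L C := wlem_avoid hGP hLA hC1
  obtain ⟨c0, hc0⟩ : C.Nonempty := card_pos.1 (by omega)
  have isLC : Island A x y (L ∪ C) := by
    refine ⟨union_subset hLA (hCQ.trans hQ.1), fun u hu h1 => ?_⟩
    by_cases h2 : u ∈ L
    · exact mem_union_left _ h2
    refine mem_union_right _ (mem_filter.2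
      ⟨inQ _ (union_subset hLW (hCQ.trans w2)) u hu h1 h2, ?_⟩)
    rw [← (hC1 c0 hc0).2.2]
    refine filter_congr fun e he => ?_
    obtain ⟨ha, hb⟩ := mem_product.1 he
    by_cases hab : e.1 = e.2
    · rw [hab, wlem_det_aa, wlem_det_aa]
    have hh := anchor isL (fun c hc => isC c (hCQ hc)) hu h1 h2 ha
    rcases av3 _ ha _ hb hab with h | h
    · exact iff_of_true (wlem_pos hGP (hLA ha) (hLA hb) hu hab (fun e' => h2 (e' ▸ hb))
        (fun e' => h2 (e' ▸ ha)) hh h) (h c0 hc0)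
    · exact iff_of_false (not_lt.2 (wlem_neg hGP (hLA ha) (hLA hb) hu hab
        (fun e' => h2 (e' ▸ hb)) (fun e' => h2 (e' ▸ ha)) hh h).le) (not_lt.2 (h c0 hc0).le)
  have hdis' : Disjoint L C := disjoint_left.2 fun i h1 h2 => (hC1 i h2).2.1 h1
  obtain ⟨V, v1, v2, v3, v4⟩ := interpolate hGP isL isLC subset_union_left
    (m := L.card + k) (Nat.le_add_right _ _) (by
      rw [card_union_of_disjoint hdis']
      omega)
  have hK : V \ L ⊆ C := by
    intro i hi
    rcases mem_union.1 (v3 (mem_sdiff.1 hi).1) with h | h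
    · exact absurd h (mem_sdiff.1 hi).2
    · exact h
  refine ⟨V \ L, L, sdiff_disjoint, ?_, hLc, ?_, ?_, ?_⟩
  · rw [card_sdiff_of_subset v2, v4]
    omega
  · rw [sdiff_union_of_subset v2]
    exact v1
  · intro a ha b hb hab
    exact av2 a (hCQ (hK ha)) b (hCQ (hK hb)) hab
  · intro a ha b hb hab
    exact (av3 a ha b hb hab).imp (fun h c hc => h c (hK hc)) (fun h c hc => h c (hK hc))

end

end Pool.Agent.Lib.MP_86319c_co
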