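import Pool.Agent.Lib.MP_86319c_co.Large
import Pool.Agent.Lib.MP_86319c_co.NFp
import Pool.Agent.Lib.MP_86319c_co.Hyper
import Pool.Agent.Lib.MP_86319c_co.WLem

set_option autoImplicit false

namespace Pool.Agent.Lib.MP_86319c_co

open Finset

noncomputable section

variable {ι : Type} [DecidableEq ι]

theorem exists_KL (k l : ℕ) (hk : 2 ≤ k) : ∃ n0 : ℕ, ∀ (A : Finset ι) (x y : ι → ℝ),
    GP A x y → n0 ≤ A.card → KL k l A x y := by
  have hk' : 1 ≤ k * 2 ^ (l * l) := Nat.mul_pos (by omega) (Nat.pow_pos (by norm_num))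
  obtain ⟨M, z, hz0, hz1, hM⟩ := real_facing (k * 2 ^ (l * l))
    (l * 2 ^ ((k * 2 ^ (l * l)) * (k * 2 ^ (l * l)))) hk'
  obtain ⟨Nf, hNf⟩ := nf_all (ι := ι) hz0 hz1 M
  obtain ⟨n0, hn0⟩ := large_false (ι := ι) hz0 hz1 Nf
  refine ⟨n0, fun A x y hGP hA => ?_⟩
  by_contra hn
  exact hn0 A x y hGP (hNf A x y hGP (nf_zero hz0 hz1 hM ⟨hGP, star_of_not_KL hk hGP hn⟩)) hA

end

end Pool.Agent.Lib.MP_86319c_co
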