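import Pool.Agent.Lib.MP_86319c_co.Hull

set_option autoImplicit false

namespace Pool.Agent.Lib.MP_86319c_co

open Finset

noncomputable section

variable {ι : Type} [DecidableEq ι]

/-- The facing pair property for an island cut out by three affine inequalities. -/
theorem nf3 {z : ℝ} {b N : ℕ} {A : Finset ι} {x y : ι → ℝ} (h : NFb z b N A x y)
    (g1 g2 g3 f : ι → ℝ) (h1 : IsAff x y g1) (h2 : IsAff x y g2) (h3 : IsAff x y g3)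
    (hf : IsAff x y f) (hpos : ∀ i ∈ A, 0 ≤ g1 i → 0 ≤ g2 i → 0 ≤ g3 i → 0 < f i) (X : ℝ)
    (hL : N ≤ np A (fun i => (0 ≤ g1 i ∧ 0 ≤ g2 i ∧ 0 ≤ g3 i) ∧ f i ≤ X))
    (hU : N ≤ np A (fun i => (0 ≤ g1 i ∧ 0 ≤ g2 i ∧ 0 ≤ g3 i) ∧ X ≤ z * f i))
    (hM : np A (fun i => (0 ≤ g1 i ∧ 0 ≤ g2 i ∧ 0 ≤ g3 i) ∧ X < f i ∧ z * f i < X) ≤ b) :
    False := by
  have hI := (((island_self A x y).fl_nonneg h1).fl_nonneg h2).fl_nonneg h3
  refine h _ hI f hf ?_ X (le_trans hL (np_mono ?_)) (le_trans hU (np_mono ?_))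
    (le_trans (np_mono ?_) hM)
  · intro i hi
    simp only [mem_fl] at hi
    exact hpos i hi.1.1.1 hi.1.1.2 hi.1.2 hi.2
  · intro i hi hp
    simp only [mem_fl]
    exact ⟨⟨⟨⟨hi, hp.1.1⟩, hp.1.2.1⟩, hp.1.2.2⟩, hp.2⟩
  · intro i hi hp
    simp only [mem_fl]
    exact ⟨⟨⟨⟨hi, hp.1.1⟩, hp.1.2.1⟩, hp.1.2.2⟩, hp.2⟩
  · intro i hi hp
    simp only [mem_fl] at hi
    exact ⟨hi.1.1.1, ⟨hi.1.1.2, hi.1.2, hi.2⟩, hp⟩

theorem nf_pos {z : ℝ} {b N : ℕ} {A : Finset ι} {x y : ι → ℝ} (h : NFb z b N A x y) : 1 ≤ N := by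
  by_contra hN
  refine h ∅ (island_empty A x y) (fun _ => 1) (isAff_const x y 1) (by simp) 0 (by omega)
    (by omega) ?_
  rw [np_eq_zero (by simp)]
  exact Nat.zero_le _

end

end Pool.Agent.Lib.MP_86319c_co
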