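import Pool.Agent.Lib.MP_86319c_co.NF3

set_option autoImplicit false

namespace Pool.Agent.Lib.MP_86319c_co

open Finset

noncomputable section

variable {ι : Type} [DecidableEq ι]

omit [DecidableEq ι] in
theorem propa_aff {x y X Y : ι → ℝ} (hX : IsAff x y X) (hY : IsAff x y Y) (p q r : ℝ) :
    IsAff x y (fun i => p * X i + q * Y i + r) := by
  obtain ⟨a, b, c, hX⟩ := hX
  obtain ⟨a', b', c', hY⟩ := hY
  exact ⟨p * a + q * a', p * b + q * b', p * c + q * c' + r, fun i => by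
    show p * X i + q * Y i + r = _
    rw [hX, hY]; ring⟩

theorem Tg.mono {A : Finset ι} {X Y : ι → ℝ} {R τ τ' : ℝ} {N N' : ℕ} (h : Tg A X Y R τ N)
    (hR : 0 < R) (hτ0 : 0 < τ) (hτ : τ ≤ τ') (hN : N' ≤ N) : Tg A X Y R τ' N' := by
  refine hN.trans (le_trans h (np_le_np fun i _ hi => hi.trans ?_))
  have h1 : 0 < τ * (Y i - R) := lt_of_lt_of_le (by linarith [abs_nonneg (X i)]) hi
  exact mul_le_mul_of_nonneg_right hτ ((mul_pos_iff_of_pos_left hτ0).1 h1).le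

/-- One propagation step: the layer below an almost empty rectangle holds few points. -/
theorem prop_step {z : ℝ} (hz0 : 0 < z) (hz1 : z < 1) {m N : ℕ} {A : Finset ι} {x y : ι → ℝ}
    (h : NFb z m N A x y) {X Y : ι → ℝ} (hX : IsAff x y X) (hY : IsAff x y Y)
    (R τ η d x1 x2 y1 : ℝ) (hR : 0 < R) (hτ : 0 < τ) (hd : 0 < d) (hdη : 2 * d ≤ z * η)
    (h1 : -R ≤ x1) (h2 : x2 ≤ R) (h3 : -R ≤ y1 - d) (h4 : y1 + η ≤ R) (hT : Tg A X Y R τ N)
    (hm : np A (fun i => x1 ≤ X i ∧ X i ≤ x2 ∧ y1 < Y i ∧ Y i < y1 + η) ≤ m) :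
    cnt A X Y (x1 + τ * η) (x2 - τ * η) (y1 - d) y1 < N := by
  by_contra hc
  have hN : N ≤ cnt A X Y (x1 + τ * η) (x2 - τ * η) (y1 - d) y1 := not_lt.1 hc
  have hη : 0 < η := (mul_pos_iff_of_pos_left hz0).1 (by linarith)
  have hτη : 0 < τ * η := mul_pos hτ hη
  have hτd : 0 < τ * d := mul_pos hτ hd
  obtain ⟨i0, -, hi0⟩ := exists_of_np_pos (lt_of_lt_of_le (nf_pos h) hN)
  have hx : x1 ≤ x2 := by linarith [hi0.1, hi0.2.1]
  refine nf3 h (fun i => 0 * X i + 1 * Y i + (d - y1))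
    (fun i => 1 * X i + τ * Y i + (τ * (d - y1) - (x1 + τ * η)))
    (fun i => (-1) * X i + τ * Y i + (τ * (d - y1) + (x2 - τ * η)))
    (fun i => 0 * X i + 1 * Y i + (2 * d - y1)) (propa_aff hX hY _ _ _) (propa_aff hX hY _ _ _)
    (propa_aff hX hY _ _ _) (propa_aff hX hY _ _ _) (fun i _ a _ _ => by linarith) (2 * d)
    (hN.trans (np_le_np fun i _ hi => ?_)) (le_trans hT (np_le_np fun i _ hi => ?_))
    (le_trans (np_le_np fun i _ hi => ?_) hm)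
  · obtain ⟨a1, a2, a3, a4⟩ := hi
    have a5 : 0 ≤ τ * (Y i - (y1 - d)) := mul_nonneg hτ.le (by linarith)
    refine ⟨⟨by linarith, by linarith, by linarith⟩, by linarith⟩
  · have a1 := le_abs_self (X i)
    have a2 := neg_abs_le (X i)
    have a3 : 0 < τ * (Y i - R) := by linarith [abs_nonneg (X i)]
    have a4 : 0 < Y i - R := (mul_pos_iff_of_pos_left hτ).1 a3
    have a5 : 0 ≤ τ * (R - (y1 + η)) := mul_nonneg hτ.le (by linarith)
    have a6 : z * η ≤ z * (0 * X i + 1 * Y i + (2 * d - y1)) :=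
      mul_le_mul_of_nonneg_left (by linarith) hz0.le
    refine ⟨⟨by linarith, by linarith, by linarith⟩, by linarith⟩
  · obtain ⟨⟨a1, a2, a3⟩, a4, a5⟩ := hi
    have a6 : 0 * X i + 1 * Y i + (2 * d - y1) < η :=
      lt_of_mul_lt_mul_left (lt_of_lt_of_le a5 hdη) hz0.le
    have a7 : 0 ≤ τ * (η - (Y i - y1 + d)) := mul_nonneg hτ.le (by linarith)
    refine ⟨by linarith, by linarith, by linarith, by linarith⟩

theorem prop_one {z : ℝ} (hz0 : 0 < z) (hz1 : z < 1) (Nf : ℕ → ℕ) {η D ε : ℝ} (hη : 0 < η)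
    (hD : 0 < D) (hε : 0 < ε) (m : ℕ) : ∃ (τ : ℝ) (N Fb : ℕ), 0 < τ ∧
    ∀ (A : Finset ι) (x y X Y : ι → ℝ), NFall z Nf A x y → IsAff x y X → IsAff x y Y →
      ∀ R x1 x2 y1 y2 : ℝ, 0 < R → -R ≤ x1 → x2 ≤ R → -R ≤ y1 - D - η → y2 ≤ R → y1 + η ≤ y2 →
      Tg A X Y R τ N → cnt A X Y x1 x2 y1 y2 ≤ m →
      cnt A X Y (x1 + ε) (x2 - ε) (y1 - D) y2 ≤ Fb := by
  obtain ⟨d, hdd⟩ : ∃ d, d = z * η / 2 := ⟨_, rfl⟩
  have hzη : 0 < z * η := mul_pos hz0 hη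
  have hd : 0 < d := by linarith
  have hdη : d ≤ η := by nlinarith
  obtain ⟨n, hn⟩ : ∃ n : ℕ, n = ⌈D / d⌉₊ := ⟨_, rfl⟩
  have hn1 : D ≤ n * d := by
    rw [← div_le_iff₀ hd, hn]
    exact Nat.le_ceil _
  have hn2 : n * d ≤ D + η := by
    have h1 : (n : ℝ) < D / d + 1 := by
      rw [hn]
      exact Nat.ceil_lt_add_one (by positivity)
    have h2 := mul_lt_mul_of_pos_right h1 hd
    rw [add_mul, div_mul_cancel₀ _ hd.ne', one_mul] at h2
    linarith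
  have hn0 : (0 : ℝ) < n := (mul_pos_iff_of_pos_right hd).1 (by linarith)
  obtain ⟨τ, hτ⟩ : ∃ τ, τ = ε / (n * η) := ⟨_, rfl⟩
  have hτ0 : 0 < τ := by rw [hτ]; positivity
  have hτε : n * (τ * η) = ε := by rw [hτ]; field_simp
  have hτη : 0 < τ * η := mul_pos hτ0 hη
  have key : ∀ i : ℕ, i ≤ n → ∃ N Fb : ℕ,
      ∀ (A : Finset ι) (x y X Y : ι → ℝ), NFall z Nf A x y → IsAff x y X → IsAff x y Y →
      ∀ R x1 x2 y1 y2 : ℝ, 0 < R → -R ≤ x1 → x2 ≤ R → -R ≤ y1 - D - η → y2 ≤ R → y1 + η ≤ y2 →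
      Tg A X Y R τ N → cnt A X Y x1 x2 y1 y2 ≤ m →
      cnt A X Y (x1 + i * (τ * η)) (x2 - i * (τ * η)) (y1 - i * d) y2 ≤ Fb := by
    intro i
    induction i with
    | zero =>
      intro _
      refine ⟨0, m, fun A x y X Y _ _ _ R x1 x2 y1 y2 _ _ _ _ _ _ _ hm => ?_⟩
      simpa using hm
    | succ i ih =>
      intro hi
      obtain ⟨N, Fb, hF⟩ := ih (by omega)
      refine ⟨max N (Nf Fb), Nf Fb + Fb,
        fun A x y X Y hA hX hY R x1 x2 y1 y2 hR h1 h2 h3 h4 h5 hT hm => ?_⟩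
      have e1 := hF A x y X Y hA hX hY R x1 x2 y1 y2 hR h1 h2 h3 h4 h5
        (hT.mono hR hτ0 le_rfl (le_max_left _ _)) hm
      have hi0 : (0 : ℝ) ≤ i := Nat.cast_nonneg i
      have hi1 : (i : ℝ) + 1 ≤ n := by exact_mod_cast hi
      have a1 : 0 ≤ i * (τ * η) := mul_nonneg hi0 hτη.le
      have a2 : 0 ≤ i * d := mul_nonneg hi0 hd.le
      have a3 : ((i : ℝ) + 1) * d ≤ n * d := mul_le_mul_of_nonneg_right hi1 hd.le
      have e2 := prop_step hz0 hz1 (hA Fb) hX hY R τ η d (x1 + i * (τ * η)) (x2 - i * (τ * η))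
        (y1 - i * d) hR hτ0 hd (by linarith) (by linarith) (by linarith) (by linarith)
        (by linarith) (hT.mono hR hτ0 le_rfl (le_max_right _ _))
        (le_trans (np_le_np fun j _ hj =>
          ⟨hj.1, hj.2.1, hj.2.2.1.le, by linarith [hj.2.2.2]⟩) e1)
      refine le_trans (np_le_add fun j _ hj => ?_) (add_le_add e2.le e1)
      push_cast at hj
      obtain ⟨b1, b2, b3, b4⟩ := hj
      rcases le_total (Y j) (y1 - i * d) with b5 | b5
      · exact Or.inl ⟨by linarith, by linarith, by linarith, b5⟩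
      · exact Or.inr ⟨by linarith, by linarith, b5, b4⟩
  obtain ⟨N, Fb, hF⟩ := key n le_rfl
  refine ⟨τ, N, Fb, hτ0, fun A x y X Y hA hX hY R x1 x2 y1 y2 hR h1 h2 h3 h4 h5 hT hm => ?_⟩
  refine le_trans (np_le_np fun j _ hj => ?_)
    (hF A x y X Y hA hX hY R x1 x2 y1 y2 hR h1 h2 h3 h4 h5 hT hm)
  rw [hτε]
  exact ⟨hj.1, hj.2.1, by linarith [hj.2.2.1], hj.2.2.2⟩

end

end Pool.Agent.Lib.MP_86319c_co
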