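import Pool.Agent.Lib.MP_86319c_co.Defs

set_option autoImplicit false

namespace Pool.Agent.Lib.MP_86319c_co

open Finset

noncomputable section

variable {ι : Type} [DecidableEq ι]

theorem DenseR.mono {A : Finset ι} {X Y : ι → ℝ} {ρ ρ' e e' : ℝ} (h : DenseR A X Y ρ e)
    (hρ : ρ' ≤ ρ) (he : e ≤ e') : DenseR A X Y ρ' e' := by
  intro c1 c2 h1 h2
  obtain ⟨i, hi, a1, a2, a3, a4⟩ := h c1 c2 (h1.trans hρ) (h2.trans hρ)
  exact ⟨i, hi, a1, by linarith, a3, by linarith⟩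

theorem dense_count {A : Finset ι} {X Y : ι → ℝ} {e r : ℝ} (h : DenseR A X Y (1 / 2) e)
    (he : 0 < e) (N : ℕ) (hr : 2 * N * e ≤ r) (hr4 : r ≤ 1 / 4) (c1 c2 : ℝ) (h1 : |c1| ≤ 1 / 4)
    (h2 : |c2| ≤ 1 / 4) : N ≤ cnt A X Y c1 (c1 + r) c2 (c2 + r) := by
  have key : ∀ j : ℕ, j < N → ∃ i ∈ A, c1 + 2 * j * e ≤ X i ∧ X i ≤ c1 + 2 * j * e + e ∧
      c2 ≤ Y i ∧ Y i ≤ c2 + e := by
    intro j hj
    have hj' : (j : ℝ) + 1 ≤ N := by exact_mod_cast hj
    have h0 : 0 ≤ 2 * (j : ℝ) * e := by positivity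
    have h3 : 2 * (j : ℝ) * e ≤ 1 / 4 := by nlinarith
    refine h _ c2 ?_ (by linarith)
    rw [abs_le] at h1 ⊢
    constructor <;> linarith
  have : Nonempty ι := (h 0 0 (by simp) (by simp)).elim fun i _ => ⟨i⟩
  choose! g hgA hg1 hg2 hg3 hg4 using key
  have hc : (range N).card ≤ cnt A X Y c1 (c1 + r) c2 (c2 + r) := by
    refine card_le_card_of_injOn g (fun j hj => ?_) fun j hj j' hj' hjj => ?_
    · have hj1 : j < N := mem_range.1 (mem_coe.1 hj)
      have hj' : (j : ℝ) + 1 ≤ N := by exact_mod_cast hj1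
      have h0 : 0 ≤ 2 * (j : ℝ) * e := by positivity
      have h3 : 2 * (j : ℝ) * e + 2 * e ≤ r := by nlinarith
      have a1 := hg1 j hj1
      have a2 := hg2 j hj1
      have a4 := hg4 j hj1
      exact mem_coe.2 (mem_fl.2 ⟨hgA j hj1, by linarith, by linarith, hg3 j hj1, by linarith⟩)
    · have hj1 : j < N := mem_range.1 (mem_coe.1 hj)
      have hj2 : j' < N := mem_range.1 (mem_coe.1 hj')
      have a1 := hg1 j hj1
      have a2 := hg2 j hj1
      have b1 := hg1 j' hj2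
      have b2 := hg2 j' hj2
      rw [hjj] at a1 a2
      by_contra hne
      rcases lt_or_gt_of_ne hne with hlt | hlt
      · have : (j : ℝ) + 1 ≤ j' := by exact_mod_cast hlt
        nlinarith
      · have : (j' : ℝ) + 1 ≤ j := by exact_mod_cast hlt
        nlinarith
  rwa [card_range] at hc

theorem Dist.swap {p q r s Λ : ℝ} (h : Dist p q r s Λ) : Dist r s p q Λ := by
  obtain ⟨m, h0, h1, h2, h3, h4, h5⟩ := h
  refine ⟨m, h0, h3, h4, h1, h2, ?_⟩
  rwa [show r * q - s * p = -(p * s - q * r) by ring, abs_neg]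

theorem Dist.neg_fst {p q r s Λ : ℝ} (h : Dist p q r s Λ) : Dist (-p) (-q) r s Λ := by
  obtain ⟨m, h0, h1, h2, h3, h4, h5⟩ := h
  refine ⟨m, h0, by rwa [abs_neg], by rwa [abs_neg], h3, h4, ?_⟩
  rwa [show -p * s - -q * r = -(p * s - q * r) by ring, abs_neg]

theorem Dist.neg_snd {p q r s Λ : ℝ} (h : Dist p q r s Λ) : Dist p q (-r) (-s) Λ := by
  obtain ⟨m, h0, h1, h2, h3, h4, h5⟩ := h
  refine ⟨m, h0, h1, h2, by rwa [abs_neg], by rwa [abs_neg], ?_⟩
  rwa [show p * -s - q * -r = -(p * s - q * r) by ring, abs_neg]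

theorem Dist.scale {p q r s Λ : ℝ} (h : Dist p q r s Λ) {t : ℝ} (ht : 0 < t) :
    Dist (p / t) (q / t) (r / t) (s / t) Λ := by
  obtain ⟨m, h0, h1, h2, h3, h4, h5⟩ := h
  have key : ∀ a : ℝ, |a| ≤ m → |a / t| ≤ m / t := fun a ha => by
    rw [abs_div, abs_of_pos ht]
    exact div_le_div_of_nonneg_right ha ht.le
  refine ⟨m / t, by positivity, key p h1, key q h2, key r h3, key s h4, ?_⟩
  rw [show p / t * (s / t) - q / t * (r / t) = (p * s - q * r) / t ^ 2 by field_simp, abs_div,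
    abs_of_pos (pow_pos ht 2), div_pow, ← mul_div_assoc]
  exact div_le_div_of_nonneg_right h5 (by positivity)

theorem Dist.shear {p q r s Λ : ℝ} (h : Dist p q r s Λ) {c : ℝ} (hc : |c| ≤ 1) :
    Dist p q (r - c * p) (s - c * q) (4 * Λ) := by
  obtain ⟨m, h0, h1, h2, h3, h4, h5⟩ := h
  have key : ∀ a b : ℝ, |a| ≤ m → |b| ≤ m → |a - c * b| ≤ 2 * m := fun a b ha hb => by
    have h6 : |c * b| ≤ m := by
      rw [abs_mul]
      nlinarith [abs_nonneg c, abs_nonneg b]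
    have := abs_sub a (c * b)
    linarith
  refine ⟨2 * m, by positivity, by linarith, by linarith, key r p h3 h1, key s q h4 h2, ?_⟩
  rw [show p * (s - c * q) - q * (r - c * p) = p * s - q * r by ring]
  nlinarith

theorem Dist.diag {p q r s Λ : ℝ} (h : Dist p q r s Λ) {μ η K : ℝ} (hη : 0 < η) (hημ : η ≤ μ)
    (hK : μ ≤ K * η) : Dist (p / μ) (q / μ) (r / η) (s / η) (K * Λ) := by
  obtain ⟨m, h0, h1, h2, h3, h4, h5⟩ := h
  have hμ : 0 < μ := hη.trans_le hημ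
  have key : ∀ a : ℝ, |a| ≤ m → |a / η| ≤ m / η := fun a ha => by
    rw [abs_div, abs_of_pos hη]
    exact div_le_div_of_nonneg_right ha hη.le
  have key' : ∀ a : ℝ, |a| ≤ m → |a / μ| ≤ m / η := fun a ha => by
    rw [abs_div, abs_of_pos hμ]
    exact div_le_div₀ h0.le ha hη hημ
  refine ⟨m / η, by positivity, key' p h1, key' q h2, key r h3, key s h4, ?_⟩
  rw [show p / μ * (s / η) - q / μ * (r / η) = (p * s - q * r) / (μ * η) by field_simp, abs_div,
    abs_of_pos (mul_pos hμ hη), div_pow, ← mul_div_assoc, div_le_div_iff₀ (by positivity)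
    (by positivity)]
  have h6 : 0 ≤ Λ * |p * s - q * r| := le_trans (by positivity) h5
  calc m ^ 2 * (μ * η) ≤ Λ * |p * s - q * r| * (K * η * η) :=
        mul_le_mul h5 (mul_le_mul_of_nonneg_right hK hη.le) (by positivity) h6
    _ = K * Λ * |p * s - q * r| * η ^ 2 := by ring

theorem rich_lin {p q u v m ρ : ℝ} (hp : |p| ≤ m) (hq : |q| ≤ m) (hu0 : 0 ≤ u) (hu : u ≤ ρ)
    (hv0 : 0 ≤ v) (hv : v ≤ ρ) : |p * u + q * v| ≤ 2 * m * ρ := by
  have hm : 0 ≤ m := (abs_nonneg p).trans hp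
  have h1 : |p * u| ≤ m * ρ := by
    rw [abs_mul, abs_of_nonneg hu0]
    exact mul_le_mul hp hu hu0 hm
  have h2 : |q * v| ≤ m * ρ := by
    rw [abs_mul, abs_of_nonneg hv0]
    exact mul_le_mul hq hv hv0 hm
  have := abs_add_le (p * u) (q * v)
  linarith

/-- In a dense set every frame of bounded distortion at the local scale has targets. -/
theorem rich {Λ R τ : ℝ} (hΛ : 0 < Λ) (hR : 0 < R) (hτ : 0 < τ) (N m : ℕ) :
    ∃ e : ℝ, 0 < e ∧ ∀ (A : Finset ι) (X Y : ι → ℝ), DenseR A X Y (1 / 2) e →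
      ∀ p q r s : ℝ, Dist p q r s Λ →
      np A (fun i => |p * X i + q * Y i| ≤ 1 / 3 ∧ |r * X i + s * Y i| ≤ 1 / 3) ≤ m →
      Tg A (fun i => p * X i + q * Y i) (fun i => r * X i + s * Y i) R τ N := by
  obtain ⟨ρ, hρ0, hρ4, hρ⟩ : ∃ ρ : ℝ, 0 < ρ ∧ ρ ≤ 1 / 4 ∧ 16 * Λ * (1 + τ) * ρ ≤ τ := by
    refine ⟨min (1 / 4) (τ / (16 * Λ * (1 + τ))), by positivity, min_le_left _ _, ?_⟩
    have := min_le_right (1 / 4 : ℝ) (τ / (16 * Λ * (1 + τ)))
    rwa [le_div_iff₀' (by positivity)] at this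
  obtain ⟨e, he0, he1, he2, he3⟩ : ∃ e : ℝ, 0 < e ∧ 2 * ((m + 1 : ℕ) : ℝ) * e ≤ 1 / 4 ∧
      2 * (N : ℝ) * e ≤ ρ ∧ 96 * ((m + 1 : ℕ) : ℝ) * Λ * R * (1 + τ) * e ≤ τ := by
    refine ⟨min (1 / 4 / (2 * ((m + 1 : ℕ) : ℝ))) (min (ρ / (2 * (N : ℝ) + 2))
      (τ / (96 * ((m + 1 : ℕ) : ℝ) * Λ * R * (1 + τ)))), by positivity, ?_, ?_, ?_⟩
    · exact (le_div_iff₀' (by positivity)).1 (min_le_left _ _)
    · have h1 := (le_div_iff₀' (by positivity)).1 ((min_le_right (1 / 4 / (2 * ((m + 1 : ℕ) : ℝ)))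
        (min (ρ / (2 * (N : ℝ) + 2))
          (τ / (96 * ((m + 1 : ℕ) : ℝ) * Λ * R * (1 + τ))))).trans (min_le_left _ _))
      refine le_trans (mul_le_mul_of_nonneg_right (by linarith) (by positivity)) h1
    · exact (le_div_iff₀' (by positivity)).1 ((min_le_right _ _).trans (min_le_right _ _))
  refine ⟨e, he0, fun A X Y hD p q r s ⟨m0, h0, h1, h2, h3, h4, h5⟩ hm => ?_⟩
  have hbig : 1 / 3 < 2 * m0 * (2 * ((m + 1 : ℕ) : ℝ) * e) := by
    by_contra hcon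
    push Not at hcon
    have c1 := dense_count hD he0 (m + 1) le_rfl he1 0 0 (by simp) (by simp)
    have c2 : cnt A X Y 0 (0 + 2 * ((m + 1 : ℕ) : ℝ) * e) 0 (0 + 2 * ((m + 1 : ℕ) : ℝ) * e) ≤
        np A (fun i => |p * X i + q * Y i| ≤ 1 / 3 ∧ |r * X i + s * Y i| ≤ 1 / 3) := by
      refine np_le_np fun i _ ⟨a1, a2, a3, a4⟩ => ?_
      rw [zero_add] at a2 a4
      exact ⟨(rich_lin h1 h2 a1 a2 a3 a4).trans hcon, (rich_lin h3 h4 a1 a2 a3 a4).trans hcon⟩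
    omega
  have hm0 : 8 * Λ * R * (1 + τ) ≤ τ * m0 := by
    have c1 : 0 < 8 * Λ * R * (1 + τ) := by positivity
    have c2 : 8 * Λ * R * (1 + τ) * 1 ≤
        8 * Λ * R * (1 + τ) * (3 * (2 * m0 * (2 * ((m + 1 : ℕ) : ℝ) * e))) :=
      mul_le_mul_of_nonneg_left (by linarith) c1.le
    have c3 := mul_le_mul_of_nonneg_right he3 h0.le
    nlinarith
  set D := p * s - q * r with hDdef
  have hD0 : 0 < |D| := by
    by_contra hcon
    have : |D| = 0 := le_antisymm (not_lt.1 hcon) (abs_nonneg _)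
    rw [this, mul_zero] at h5
    have := pow_pos h0 2
    linarith
  have hDne : D ≠ 0 := abs_pos.1 hD0
  set Y0 := m0 / (4 * Λ) with hY0
  have hY0pos : 0 < Y0 := by positivity
  have hw : ∀ a : ℝ, |a| ≤ m0 → |a * Y0 / D| ≤ 1 / 4 := fun a ha => by
    rw [abs_div, abs_mul, abs_of_pos hY0pos, div_le_iff₀ hD0]
    calc |a| * Y0 ≤ m0 * Y0 := mul_le_mul_of_nonneg_right ha hY0pos.le
      _ = m0 ^ 2 / (4 * Λ) := by rw [hY0]; ring
      _ ≤ Λ * |D| / (4 * Λ) := div_le_div_of_nonneg_right h5 (by positivity)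
      _ = 1 / 4 * |D| := by field_simp
  have c1 := dense_count hD he0 N he2 hρ4 (-q * Y0 / D) (p * Y0 / D)
    (hw (-q) (by rwa [abs_neg])) (hw p h1)
  refine c1.trans (np_le_np fun i _ ⟨a1, a2, a3, a4⟩ => ?_)
  have e1 : p * X i + q * Y i = p * (X i - -q * Y0 / D) + q * (Y i - p * Y0 / D) := by ring
  have e2 : r * X i + s * Y i = r * (X i - -q * Y0 / D) + s * (Y i - p * Y0 / D) + Y0 := by
    have e3 : r * (-q * Y0 / D) + s * (p * Y0 / D) = Y0 := by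
      field_simp
      rw [hDdef]
      ring
    linarith
  have b1 := rich_lin (ρ := ρ) h1 h2 (u := X i - -q * Y0 / D) (v := Y i - p * Y0 / D)
    (by linarith) (by linarith) (by linarith) (by linarith)
  have b2 := rich_lin (ρ := ρ) h3 h4 (u := X i - -q * Y0 / D) (v := Y i - p * Y0 / D)
    (by linarith) (by linarith) (by linarith) (by linarith)
  rw [← e1] at b1
  have b3 : Y0 - 2 * m0 * ρ ≤ r * X i + s * Y i := by
    have := (abs_le.1 b2).1
    linarith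
  have b4 : (1 + τ) * (2 * m0 * ρ + R) ≤ τ * Y0 := by
    rw [hY0, ← mul_div_assoc, le_div_iff₀ (by positivity)]
    have := mul_le_mul_of_nonneg_right hρ h0.le
    nlinarith
  have b5 := mul_le_mul_of_nonneg_left b3 hτ.le
  change |p * X i + q * Y i| + R ≤ τ * (r * X i + s * Y i - R)
  nlinarith

end

end Pool.Agent.Lib.MP_86319c_co
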