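import Pool.Agent.Lib.MP_86319c_co.Hull

set_option autoImplicit false

namespace Pool.Agent.Lib.MP_86319c_co

open Finset

noncomputable section

variable {F : Type} [Field F] [LinearOrder F] [IsStrictOrderedRing F] {ι : Type} [DecidableEq ι]

omit [LinearOrder F] [IsStrictOrderedRing F] in
theorem transp_ker {a0 b0 c0 a1 b1 c1 a2 b2 c2 u v w : F}
    (hdet : a0 * (b1 * c2 - b2 * c1) - b0 * (a1 * c2 - a2 * c1) + c0 * (a1 * b2 - a2 * b1) ≠ 0)
    (h0 : a0 * u + b0 * v + c0 * w = 0) (h1 : a1 * u + b1 * v + c1 * w = 0)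
    (h2 : a2 * u + b2 * v + c2 * w = 0) : u = 0 ∧ v = 0 ∧ w = 0 := by
  refine ⟨(mul_eq_zero.1 ?_).resolve_left hdet, (mul_eq_zero.1 ?_).resolve_left hdet,
    (mul_eq_zero.1 ?_).resolve_left hdet⟩
  · linear_combination (b1 * c2 - b2 * c1) * h0 - (b0 * c2 - b2 * c0) * h1 + (b0 * c1 - b1 * c0) * h2
  · linear_combination -(a1 * c2 - a2 * c1) * h0 + (a0 * c2 - a2 * c0) * h1 - (a0 * c1 - a1 * c0) * h2
  · linear_combination (a1 * b2 - a2 * b1) * h0 - (a0 * b2 - a2 * b0) * h1 + (a0 * b1 - a1 * b0) * h2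

omit [LinearOrder F] [IsStrictOrderedRing F] [DecidableEq ι] in
theorem transp_sum {S : Finset ι} {x y w : ι → F} {p q : F} (h1 : ∑ i ∈ S, w i = 1)
    (h2 : ∑ i ∈ S, w i * x i = p) (h3 : ∑ i ∈ S, w i * y i = q) (a b c d : F) :
    ∑ i ∈ S, w i * (a * x i + b * y i + c) / d = (a * p + b * q + c) / d := by
  rw [← Finset.sum_div]
  congr 1
  have : ∀ i ∈ S, w i * (a * x i + b * y i + c) = a * (w i * x i) + b * (w i * y i) + c * w i :=
    fun i _ => by ring
  rw [Finset.sum_congr rfl this, Finset.sum_add_distrib, Finset.sum_add_distrib, ← Finset.mul_sum,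
    ← Finset.mul_sum, ← Finset.mul_sum, h1, h2, h3, mul_one]

/-- Invariance under an invertible projective map. -/
theorem Good.proj {k B : ℕ} {A : Finset ι} {x y : ι → F} (hG : Good k B A x y)
    (a0 b0 c0 a1 b1 c1 a2 b2 c2 : F)
    (hdet : a0 * (b1 * c2 - b2 * c1) - b0 * (a1 * c2 - a2 * c1) + c0 * (a1 * b2 - a2 * b1) ≠ 0)
    (hpos : ∀ i ∈ A, 0 < a0 * x i + b0 * y i + c0) (x' y' : ι → F)
    (hx : ∀ i ∈ A, x' i = (a1 * x i + b1 * y i + c1) / (a0 * x i + b0 * y i + c0))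
    (hy : ∀ i ∈ A, y' i = (a2 * x i + b2 * y i + c2) / (a0 * x i + b0 * y i + c0)) :
    Good k B A x' y' := by
  have hisl : ∀ Q : Finset ι, Island A x' y' Q → Island A x y Q := by
    intro Q hQ
    refine ⟨hQ.1, fun u hu hin => hQ.2 u hu ?_⟩
    obtain ⟨w, hw0, hw1, hw2, hw3⟩ := hin
    have hu0 := hpos u hu
    refine ⟨fun i => w i * (a0 * x i + b0 * y i + c0) / (a0 * x u + b0 * y u + c0),
      fun i hi => div_nonneg (mul_nonneg (hw0 i hi) (hpos i (hQ.1 hi)).le) hu0.le, ?_, ?_, ?_⟩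
    · rw [transp_sum hw1 hw2 hw3, div_self hu0.ne']
    · rw [hx u hu, ← transp_sum hw1 hw2 hw3]
      refine Finset.sum_congr rfl fun i hi => ?_
      have := (hpos i (hQ.1 hi)).ne'
      rw [hx i (hQ.1 hi)]
      field_simp
    · rw [hy u hu, ← transp_sum hw1 hw2 hw3]
      refine Finset.sum_congr rfl fun i hi => ?_
      have := (hpos i (hQ.1 hi)).ne'
      rw [hy i (hQ.1 hi)]
      field_simp
  refine ⟨⟨fun a ha b hb h1 h2 => ?_, fun a ha b hb c hc hab hbc hac h => ?_⟩,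
    fun Q G hQ hk hg => hG.2 Q G (hisl Q hQ) hk fun g hgG => ⟨(hg g hgG).1, hisl _ (hg g hgG).2⟩⟩
  · have pa := (hpos a ha).ne'
    have pb := (hpos b hb).ne'
    rw [hx a ha, hx b hb, div_eq_div_iff pa pb] at h1
    rw [hy a ha, hy b hb, div_eq_div_iff pa pb] at h2
    obtain ⟨e1, e2, e3⟩ := transp_ker
      (u := (a0 * x b + b0 * y b + c0) * x a - (a0 * x a + b0 * y a + c0) * x b)
      (v := (a0 * x b + b0 * y b + c0) * y a - (a0 * x a + b0 * y a + c0) * y b)
      (w := (a0 * x b + b0 * y b + c0) - (a0 * x a + b0 * y a + c0)) hdet (by ring)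
      (by linear_combination h1) (by linear_combination h2)
    refine hG.1.1 a ha b hb (mul_left_cancel₀ pb ?_) (mul_left_cancel₀ pb ?_)
    · linear_combination e1 - x b * e3
    · linear_combination e2 - y b * e3
  · have pa := (hpos a ha).ne'
    have pb := (hpos b hb).ne'
    have pc := (hpos c hc).ne'
    have key : det3 x' y' a b c * ((a0 * x a + b0 * y a + c0) * (a0 * x b + b0 * y b + c0) *
        (a0 * x c + b0 * y c + c0)) = (a0 * (b1 * c2 - b2 * c1) - b0 * (a1 * c2 - a2 * c1) +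
        c0 * (a1 * b2 - a2 * b1)) * det3 x y a b c := by
      have xa := (eq_div_iff pa).1 (hx a ha)
      have xb := (eq_div_iff pb).1 (hx b hb)
      have xc := (eq_div_iff pc).1 (hx c hc)
      have ya := (eq_div_iff pa).1 (hy a ha)
      have yb := (eq_div_iff pb).1 (hy b hb)
      have yc := (eq_div_iff pc).1 (hy c hc)
      have e : ∀ p q r : F, det3 x' y' a b c * (p * q * r) =
          p * ((x' b * q) * (y' c * r) - (y' b * q) * (x' c * r)) -
          q * ((x' a * p) * (y' c * r) - (y' a * p) * (x' c * r)) +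
          r * ((x' a * p) * (y' b * q) - (y' a * p) * (x' b * q)) := fun p q r => by
        unfold det3
        ring
      rw [e, xa, xb, xc, ya, yb, yc]
      unfold det3
      ring
    rw [h, zero_mul] at key
    exact hG.1.2 a ha b hb c hc hab hbc hac ((mul_eq_zero.1 key.symm).resolve_left hdet)

theorem Good.swap {k B : ℕ} {A : Finset ι} {x y : ι → F} (hG : Good k B A x y) :
    Good k B A y x :=
  hG.proj 0 0 1 0 1 0 1 0 0 (by norm_num) (fun i _ => by norm_num) _ _ (fun i _ => by simp)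
    (fun i _ => by simp)

theorem Good.inv {k B : ℕ} {A : Finset ι} {x y : ι → F} (hG : Good k B A x y)
    (hx : ∀ i ∈ A, 0 < x i) : Good k B A (fun i => 1 / x i) (fun i => y i / x i) :=
  hG.proj 1 0 0 0 0 1 0 1 0 (by norm_num) (fun i hi => by simpa using hx i hi) _ _
    (fun i _ => by simp) (fun i _ => by simp)

theorem Good.of_inv {k B : ℕ} {A : Finset ι} {x y : ι → F}
    (hG : Good k B A (fun i => 1 / x i) (fun i => y i / x i)) (hx : ∀ i ∈ A, 0 < x i) :
    Good k B A x y := by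
  refine (hG.inv fun i hi => one_div_pos.2 (hx i hi)).congr (fun i _ => by simp) fun i hi => ?_
  have := (hx i hi).ne'
  field_simp

theorem Good.shear {k B : ℕ} {A : Finset ι} {x y : ι → F} (hG : Good k B A x y)
    (e a b c : F) (he : e ≠ 0) : Good k B A x (fun i => e * (y i - a - b * x i) + c) :=
  hG.proj 0 0 1 1 0 0 (-(e * b)) e (c - e * a) (by simpa using he) (fun i _ => by norm_num) _ _
    (fun i _ => by simp) (fun i _ => by ring)

theorem Good.of_shear {k B : ℕ} {A : Finset ι} {x y : ι → F} (e a b c : F) (he : e ≠ 0)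
    (hG : Good k B A x (fun i => e * (y i - a - b * x i) + c)) : Good k B A x y := by
  refine (hG.shear e⁻¹ c (-(e * b)) a (inv_ne_zero he)).congr (fun i _ => rfl) fun i _ => ?_
  field_simp
  ring

theorem Tri.swap {k B : ℕ} {A : Finset ι} {x y : ι → F} (hT : Tri k B A x y) :
    Tri k B A y x :=
  ⟨hT.1.swap, fun i hi => (hT.2 i hi).symm⟩

theorem Tri.inv {k B : ℕ} {A : Finset ι} {x y : ι → F} (hT : Tri k B A x y) :
    Tri k B A (fun i => 1 / x i) (fun i => y i / x i) :=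
  ⟨hT.1.inv fun i hi => (hT.2 i hi).1,
    fun i hi => ⟨one_div_pos.2 (hT.2 i hi).1, div_pos (hT.2 i hi).2 (hT.2 i hi).1⟩⟩

theorem Good.reindex {κ : Type} [DecidableEq κ] {k B : ℕ} {A : Finset ι} {x y : ι → F}
    (hG : Good k B A x y) (e : κ → ι) (A' : Finset κ) (hinj : Set.InjOn e (A' : Set κ))
    (himg : A'.image e = A) : Good k B A' (fun j => x (e j)) (fun j => y (e j)) := by
  have hmem : ∀ j ∈ A', e j ∈ A := fun j hj => himg ▸ mem_image_of_mem e hj
  have hisl : ∀ Q : Finset κ, Island A' (fun j => x (e j)) (fun j => y (e j)) Q →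
      Island A x y (Q.image e) := by
    intro Q hQ
    have hi : Set.InjOn e (Q : Set κ) := hinj.mono (coe_subset.2 hQ.1)
    refine ⟨himg ▸ image_subset_image hQ.1, fun u hu hin => ?_⟩
    rw [← himg] at hu
    obtain ⟨j, hj, rfl⟩ := mem_image.1 hu
    refine mem_image_of_mem e (hQ.2 j hj ?_)
    obtain ⟨w, hw0, hw1, hw2, hw3⟩ := hin
    rw [sum_image hi] at hw1 hw2 hw3
    exact ⟨fun i => w (e i), fun i hi => hw0 _ (mem_image_of_mem e hi), hw1, hw2, hw3⟩
  refine ⟨⟨fun a ha b hb h1 h2 => hinj ha hb (hG.1.1 _ (hmem a ha) _ (hmem b hb) h1 h2),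
    fun a ha b hb c hc hab hbc hac => hG.1.2 _ (hmem a ha) _ (hmem b hb) _ (hmem c hc)
      (fun h => hab (hinj ha hb h)) (fun h => hbc (hinj hb hc h)) (fun h => hac (hinj ha hc h))⟩,
    fun Q G hQ hk hg => ?_⟩
  have hGA : G ⊆ A' := fun g hgG => (hg g hgG).2.1 (mem_insert_self _ _)
  rw [← card_image_of_injOn (hinj.mono (coe_subset.2 hGA))]
  refine hG.2 (Q.image e) _ (hisl Q hQ)
    (by rw [card_image_of_injOn (hinj.mono (coe_subset.2 hQ.1)), hk]) fun g hgG => ?_
  obtain ⟨j, hj, rfl⟩ := mem_image.1 hgG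
  refine ⟨fun h => ?_, ?_⟩
  · obtain ⟨i, hi, hij⟩ := mem_image.1 h
    exact (hg j hj).1 (hinj (hQ.1 hi) (hGA hj) hij ▸ hi)
  · rw [← image_insert]
    exact hisl _ (hg j hj).2

end

end Pool.Agent.Lib.MP_86319c_co
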