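import Pool.Agent.Lib.MP_86319c_co.Fel
import Pool.Agent.Lib.MP_86319c_co.Transp
import Pool.Agent.Lib.MP_86319c_co.ValApi

set_option autoImplicit false

namespace Pool.Agent.Lib.MP_86319c_co

open Finset

noncomputable section

variable {F : Type} [Field F] [LinearOrder F] [IsStrictOrderedRing F] {ι : Type} [DecidableEq ι]
variable {Γ : Type} [Field Γ] [LinearOrder Γ] [IsStrictOrderedRing Γ]
variable {lv : F → Γ}

/-- Shrinking the side of a facing pair that is wider. -/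
theorem shrink (hv : IsVal lv) {k B : ℕ} (hk : 1 ≤ k) {L U : Finset ι} {x y : ι → F}
    (hG : Good k B (L ∪ U) x y) (hx : ∀ i ∈ L ∪ U, 0 < x i)
    (hsep : ∀ p ∈ L, ∀ q ∈ U, lv (x p) < lv (x q)) (hU : k ≤ U.card) (a b : F) {P1 P : ι}
    (hP1 : P1 ∈ L) (hline : y P1 = a + b * x P1) (hP : P ∈ L) (hP0 : y P - a - b * x P ≠ 0)
    (hmax : ∀ u ∈ L, SmLe lv (lv |y P - a - b * x P|) (y u - a - b * x u))
    (hnar : ∀ p ∈ L, ∀ q ∈ U,
      SmLt lv (lv |y P - a - b * x P|) (x p * ((y q - a - b * x q) / x q))) :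
    ∃ L' : Finset ι, L' ⊆ L ∧ Good k B (L' ∪ U) x y ∧ L.card ≤ B * L'.card ∧
      ∃ f ∈ L, FInv lv x y {f} L' U := by
  obtain ⟨η, hη⟩ : ∃ η : ι → F, ∀ i, η i = y i - a - b * x i := ⟨_, fun _ => rfl⟩
  simp only [← hη] at hP0 hmax hnar
  obtain ⟨a0, ha0⟩ : ∃ a0, a0 = lv |η P| := ⟨_, rfl⟩
  rw [← ha0] at hmax hnar
  have hxL : ∀ i ∈ L, 0 < x i := fun i hi => hx i (mem_union_left _ hi)
  have hxU : ∀ i ∈ U, 0 < x i := fun i hi => hx i (mem_union_right _ hi)
  obtain ⟨ph, hph, hphm⟩ := exists_max_image L x ⟨P, hP⟩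
  obtain ⟨sp, hsp⟩ : ∃ sp, sp = lv (x ph) := ⟨_, rfl⟩
  have hLs : ∀ p ∈ L, lv (x p) ≤ sp := fun p hp => hsp ▸ lv_mono hv (hxL p hp) (hphm p hp)
  have hUs : ∀ q ∈ U, sp < lv (x q) := fun q hq => hsp ▸ hsep ph hph q hq
  have hUη : ∀ q ∈ U, SmLt lv (a0 - sp) (η q / x q) := fun q hq => by
    have h1 := (hnar ph hph q hq).div hv (hxL ph hph)
    rwa [mul_div_cancel_left₀ _ (hxL ph hph).ne', ← hsp] at h1
  have hK : Cvx fun a' b' : F => (0 < a' ∧ sp < lv a') ∧
      (0 < a' ∧ SmLt lv (a0 - sp) ((-b * a' + 1 * b' + -a) / a' - 0)) :=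
    (itv_pos_gt hv sp).cvx_fst.and ((itv_smLt hv (a0 - sp) 0).cvx_ratio (-b) 1 (-a))
  have hKU : ∀ q ∈ U, (0 < x q ∧ sp < lv (x q)) ∧
      (0 < x q ∧ SmLt lv (a0 - sp) ((-b * x q + 1 * y q + -a) / x q - 0)) := fun q hq => by
    refine ⟨⟨hxU q hq, hUs q hq⟩, hxU q hq, ?_⟩
    have e : -b * x q + 1 * y q + -a = η q := by
      rw [hη]
      ring
    rw [e, sub_zero]
    exact hUη q hq
  have hfel := fel hk hG _ hK
    (hU.trans (card_le_np fun q hq => ⟨mem_union_right _ hq, hKU q hq⟩)) 1 0 (fun i => i ∈ L)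
    (fun p _ hp q _ hq => by
      have h1 := lt_of_lv_lt hv hq.1.1 ((hLs p hp).trans_lt hq.1.2) (hxL p hp)
      linarith)
    (fun i => fl L fun j => SmLt lv a0 (η j - η i))
    (fun p _ hp u hu hKu a' b' μ hK' hμ0 hμ1 ex ey => by
      have huL : u ∈ L := (mem_union.1 hu).resolve_right fun h => hKu (hKU u h)
      obtain ⟨⟨ha', hs'⟩, -, hr⟩ := hK'
      rw [sub_zero] at hr
      have h0 : 0 ≤ (1 - μ) * a' := mul_nonneg (by linarith) ha'.le
      have h1 : SmLe lv sp ((1 - μ) * a') := by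
        refine (smLe_of_pos (hxL u huL) (hLs u huL)).of_abs_le hv ?_
        rw [abs_of_nonneg h0, abs_of_pos (hxL u huL), ex]
        linarith [mul_pos hμ0 (hxL p hp)]
      have h2 := (hr.mul_le hv h1).mono (le_of_eq (sub_add_cancel a0 sp))
      have h3 := ((h1.div hv ha').mul hv (hmax p hp)).smLt
        (show sp - lv a' + a0 < a0 by linarith)
      have h4 : SmLt lv a0 (η u - η p) := by
        have e : η u - η p = (-b * a' + 1 * b' + -a) / a' * ((1 - μ) * a')
            - (1 - μ) * a' / a' * η p := by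
          rw [hη u, hη p, ex, ey]
          field_simp
          ring
        rw [e]
        exact h2.sub hv h3
      ext j
      simp only [mem_fl]
      refine and_congr_right fun _ => ⟨fun h => ?_, fun h => ?_⟩
      · have h5 := h.add hv h4
        rwa [sub_add_sub_cancel] at h5
      · have h5 := h.sub hv h4
        rwa [sub_sub_sub_cancel_right] at h5)
  obtain ⟨j0, hj0, hbig⟩ := exists_big_class (S := L) hfel
    (fun i hi => ⟨mem_union_left _ hi, hi⟩) ⟨P, hP⟩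
  have hself : ∀ i, SmLt lv a0 (η i - η i) := fun i => by
    rw [sub_self]
    exact smLt_zero _
  have hUne : U.Nonempty := card_pos.1 (by omega)
  refine ⟨fl L fun j => SmLt lv a0 (η j - η j0), fl_subset _ _, hG.restrict ⟨?_, ?_⟩, ?_, ?_⟩
  · exact union_subset_union (fl_subset _ _) subset_rfl
  · intro u hu hin
    obtain ⟨i1, hi1, hm1⟩ := exists_max_image (fl L fun j => SmLt lv a0 (η j - η j0))
      (fun i => |η i - η j0|) ⟨j0, mem_fl.2 ⟨hj0, hself j0⟩⟩
    obtain ⟨i2, hi2, hm2⟩ := exists_max_image U (fun i => |η i - η j0| / x i) hUne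
    have hc1 : 0 ≤ |η i1 - η j0| := abs_nonneg _
    have hc2 : 0 ≤ |η i2 - η j0| / x i2 := div_nonneg (abs_nonneg _) (hxU i2 hi2).le
    have s1 : SmLt lv a0 |η i1 - η j0| := (mem_fl.1 hi1).2.of_abs_le hv (abs_abs _).le
    have s2 : SmLt lv (a0 - sp) (|η i2 - η j0| / x i2) := by
      have h1 := ((hmax j0 hj0).div hv (hxU i2 hi2)).smLt
        (show a0 - lv (x i2) < a0 - sp by linarith [hUs i2 hi2])
      refine ((hUη i2 hi2).sub hv h1).of_abs_le hv (le_of_eq ?_)
      rw [← sub_div, abs_div, abs_div, abs_abs]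
    generalize |η i1 - η j0| = c1 at *
    generalize |η i2 - η j0| / x i2 = c2 at *
    have hall : ∀ i ∈ (fl L fun j => SmLt lv a0 (η j - η j0)) ∪ U,
        |η i - η j0| ≤ c1 + c2 * x i := by
      intro i hi
      rcases mem_union.1 hi with h | h
      · have h1 := hm1 i h
        have h2 := mul_nonneg hc2 (hxL i (mem_fl.1 h).1).le
        linarith
      · have h1 := hm2 i h
        rw [div_le_iff₀ (hxU i h)] at h1
        linarith
    have hK2 := ((cvx_nonneg (c2 + b) (-1) (c1 + a + η j0)).and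
      (cvx_nonneg (c2 - b) 1 (c1 - a - η j0))).of_inH (fun i hi => by
        have h1 := abs_le.1 (hall i hi)
        rw [hη i] at h1
        constructor <;> linarith [h1.1, h1.2]) hin
    rcases mem_union.1 hu with h | h
    · refine mem_union_left _ (mem_fl.2 ⟨h, ?_⟩)
      have h1 := (s2.mul_le hv (smLe_of_pos (hxL u h) (hLs u h))).mono
        (le_of_eq (sub_add_cancel a0 sp))
      refine (s1.add hv h1).of_abs_le hv (le_trans (abs_le.2 ?_) (le_abs_self _))
      rw [hη u]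
      constructor <;> linarith [hK2.1, hK2.2]
    · exact mem_union_right _ h
  · refine hbig.trans (Nat.mul_le_mul_left _ (np_le_of_subset fun i hi h => ?_))
    rw [← h]
    exact mem_fl.2 ⟨hi, hself i⟩
  · obtain ⟨f, hf, hf0, hfl⟩ : ∃ f ∈ L, η f - η j0 ≠ 0 ∧ lv |η f - η j0| = a0 := by
      by_cases h : SmLt lv a0 (η j0)
      · refine ⟨P, hP, ?_⟩
        rw [sub_eq_add_neg, ha0]
        exact lv_abs_add hv hP0 (ha0 ▸ h.neg)
      · have h0 : η P1 = 0 := by
          rw [hη, hline]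
          ring
        have h1 : η j0 ≠ 0 := fun e => h (Or.inl e)
        refine ⟨P1, hP1, ?_, ?_⟩
        · rw [h0, zero_sub]
          exact neg_ne_zero.2 h1
        · rw [h0, zero_sub, abs_neg]
          exact le_antisymm ((hmax j0 hj0).resolve_left h1) (not_lt.1 fun e => h (Or.inr e))
    refine ⟨f, hf, fun a' b' Q1 hQ1 Q2 hQ2 e1 e2 => ⟨?_, ?_⟩⟩
    · obtain ⟨hQ1L, hQ1s⟩ := mem_fl.1 hQ1
      obtain ⟨hd0, hdl⟩ := lv_sub hv (hxL Q1 hQ1L) (hxU Q2 hQ2) (hsep Q1 hQ1L Q2 hQ2)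
      have t2 : SmLt lv (a0 - sp + lv (x Q2)) (η Q2) := by
        have h1 := (hUη Q2 hQ2).mul_le hv (smLe_of_pos (hxU Q2 hQ2) le_rfl)
        rwa [div_mul_cancel₀ _ (hxU Q2 hQ2).ne'] at h1
      have t1 : SmLt lv (a0 - sp + lv (x Q2)) (η Q1) :=
        (hmax Q1 hQ1L).smLt (by linarith [hUs Q2 hQ2])
      have tB : SmLt lv (a0 - sp) (b' - b) := by
        have h1 := (t2.sub hv t1).div hv hd0
        have e : (η Q2 - η Q1) / (x Q2 - x Q1) = b' - b := by
          rw [div_eq_iff hd0.ne', hη, hη, e1, e2]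
          ring
        rwa [e, hdl, add_sub_cancel_right] at h1
      have tD : ∀ u ∈ L, SmLt lv a0 (-(η Q1 - η j0) - (b' - b) * (x u - x Q1)) := fun u hu =>
        hQ1s.neg.sub hv ((tB.mul_le hv (smLe_sub_of_pos hv (hxL u hu) (hxL Q1 hQ1L) (hLs u hu)
          (hLs Q1 hQ1L))).mono (le_of_eq (sub_add_cancel a0 sp)))
      have eD : ∀ u, y u - a' - b' * x u
          = (η u - η j0) + (-(η Q1 - η j0) - (b' - b) * (x u - x Q1)) := fun u => by
        rw [hη u, hη Q1, e1]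
        ring
      intro f' hf'
      rw [mem_singleton.1 hf', eD f]
      obtain ⟨h1, h2⟩ := lv_abs_add hv hf0 (hfl ▸ tD f hf)
      refine ⟨h1, fun u hu => ?_⟩
      rw [h2, hfl, eD u]
      exact (mem_fl.1 hu).2.add hv (tD u (mem_fl.1 hu).1)
    · rw [coe_singleton]
      exact Set.injOn_singleton _ _

end

end Pool.Agent.Lib.MP_86319c_co
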