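import Pool.Agent.Lib.MP_86319c_co.Fel
import Pool.Agent.Lib.MP_86319c_co.Transp
import Pool.Agent.Lib.MP_86319c_co.ValApi
import Pool.Agent.Lib.MP_86319c_co.CombB

set_option autoImplicit false

namespace Pool.Agent.Lib.MP_86319c_co

open Finset

noncomputable section

variable {F : Type} [Field F] [LinearOrder F] [IsStrictOrderedRing F] {ι : Type} [DecidableEq ι]
variable {Γ : Type} [Field Γ] [LinearOrder Γ] [IsStrictOrderedRing Γ]
variable {lv : F → Γ}
variable {k B : ℕ} {A : Finset ι} {x y : ι → F}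

theorem RowInv.mono {W I I' : Finset ι} (h : RowInv lv x y W I) (hI : I' ⊆ I) :
    RowInv lv x y W I' := by
  refine ⟨fun f hf u hu => h.1 f hf u (hI hu), fun a b P1 h1 P2 h2 hlt e1 e2 => ?_⟩
  obtain ⟨c1, c2⟩ := h.2 a b P1 (hI h1) P2 (hI h2) hlt e1 e2
  exact ⟨fun f hf => ⟨(c1 f hf).1, fun u hu => (c1 f hf).2 u (hI hu)⟩, c2⟩

theorem rowInv_empty (I : Finset ι) : RowInv lv x y ∅ I :=
  ⟨fun f hf => absurd hf (notMem_empty f), fun _ _ _ _ _ _ _ _ _ =>
    ⟨fun f hf => absurd hf (notMem_empty f), fun f hf => absurd (mem_coe.1 hf) (notMem_empty f)⟩⟩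

theorem RowInv.insert {W I I' : Finset ι} {f : ι} (h : RowInv lv x y W I) (hf : f ∈ I)
    (hI : I' ⊆ I) (h' : RowInv lv x y {f} I')
    (h2 : 2 ≤ nv I' (fun _ => True) (fun i => lv (x i))) :
    f ∉ W ∧ RowInv lv x y (Insert.insert f W) I' := by
  have hs : f ∈ ({f} : Finset ι) := mem_singleton_self f
  constructor
  · intro hfW
    obtain ⟨P1, h1, P2, h2, hlt⟩ : ∃ P1 ∈ I', ∃ P2 ∈ I', lv (x P1) < lv (x P2) := by
      obtain ⟨v, hv, w, hw, hne⟩ := one_lt_card.1 (lt_of_lt_of_le one_lt_two h2)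
      obtain ⟨i, hi, -, rfl⟩ := mem_vals.1 hv
      obtain ⟨j, hj, -, rfl⟩ := mem_vals.1 hw
      rcases lt_or_gt_of_ne hne with c | c
      · exact ⟨i, hi, j, hj, c⟩
      · exact ⟨j, hj, i, hi, c⟩
    obtain ⟨a, b, e1, e2⟩ := exists_line (x := x) (y := y) (P1 := P1) (P2 := P2)
      fun c => hlt.ne (by rw [c])
    obtain ⟨c1, c2⟩ := (h.2 a b P1 (hI h1) P2 (hI h2) hlt e1 e2).1 f hfW
    rcases c2 f hf (h'.1 f hs P2 h2) with c | c
    · exact c1 c
    · exact lt_irrefl _ c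
  · refine ⟨fun g hg u hu => ?_, fun a b P1 h1 P2 h2 hlt e1 e2 => ?_⟩
    · rcases mem_insert.1 hg with rfl | hg
      · exact h'.1 g hs u hu
      · exact h.1 g hg u (hI hu)
    · obtain ⟨c1, c2⟩ := h.2 a b P1 (hI h1) P2 (hI h2) hlt e1 e2
      obtain ⟨d1, -⟩ := h'.2 a b P1 h1 P2 h2 hlt e1 e2
      have hlt' : ∀ g ∈ W, lv |y f - a - b * x f| < lv |y g - a - b * x g| := fun g hg =>
        ((c1 g hg).2 f hf (h'.1 f hs P2 h2)).resolve_left (d1 f hs).1
      refine ⟨fun g hg => ?_, fun g hg g' hg' hgg => ?_⟩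
      · rcases mem_insert.1 hg with rfl | hg
        · exact d1 g hs
        · exact ⟨(c1 g hg).1, fun u hu => (c1 g hg).2 u (hI hu)⟩
      · rcases mem_insert.1 (mem_coe.1 hg) with rfl | hg1 <;>
          rcases mem_insert.1 (mem_coe.1 hg') with rfl | hg2
        · rfl
        · exact absurd hgg (hlt' g' hg2).ne
        · exact absurd hgg (hlt' g hg1).ne'
        · exact c2 hg1 hg2 hgg

/-- The early points of a level class lie in at most `B` thin classes. -/
theorem thin_fel (hv : IsVal lv) (hk : 1 ≤ k) {z : ι → F} (hG : Good k B A x z)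
    (hx : ∀ i ∈ A, 0 < x i) (h t : Γ)
    (hcard : k ≤ np A (fun i => (0 < x i ∧ t < lv (x i)) ∧ (0 < z i ∧ lv (z i) = h))) :
    nv A (fun i => (0 < z i ∧ lv (z i) = h) ∧ lv (x i) ≤ t)
      (fun i => fl A (fun j => SmLt lv h (z j - z i))) ≤ B := by
  refine fel hk hG (fun a b => (0 < a ∧ t < lv a) ∧ (0 < b ∧ lv b = h))
    ((itv_pos_gt hv t).cvx_fst.and (itv_pos_eq hv h).cvx_snd) hcard 1 0 _ ?_ _ ?_
  · intro p hp hΦ q _ hK
    have := lt_of_lv_lt hv hK.1.1 (hΦ.2.trans_lt hK.1.2) (hx p hp)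
    linarith
  · intro p hp hΦ u hu hK a b μ hab h0 h1 e1 e2
    obtain ⟨α, c1, c2, c3, c4⟩ := tseg hv hab.1.1 hab.2.1 (hx p hp) hΦ.1.1 h0 h1
    rw [← e1] at c2
    have hzu : 0 < z u ∧ lv (z u) = h := by
      rw [e2]
      exact (itv_pos_eq hv h).cvx_snd a b (x p) (z p) μ hab.2 hΦ.1 h0.le h1
    have hsu : lv (x u) ≤ t := by
      by_contra c
      exact hK ⟨⟨hx u hu, not_le.1 c⟩, hzu⟩
    have hα : α < 0 := by
      have := le_max_left (α + lv a) (lv μ + lv (x p))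
      linarith [hab.1.2]
    have hd : SmLt lv h (z u - z p) := by
      have e3 : z u - z p = (1 - μ) * (b - z p) := by rw [e2]; ring
      rw [e3]
      exact (c4.mul hv (smLe_sub_of_pos hv hab.2.1 hΦ.1.1 hab.2.2.le hΦ.1.2.le)).smLt
        (by linarith)
    ext j
    simp only [mem_fl]
    refine and_congr_right fun _ => ⟨fun c => ?_, fun c => ?_⟩
    · have := c.add hv hd
      rwa [sub_add_sub_cancel] at this
    · have := c.sub hv hd
      rwa [sub_sub_sub_cancel_right] at this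

/-- A thin class seen from a line through two of its points. -/
theorem thin_line (hv : IsVal lv) {z : ι → F} {h : Γ} {c A0 B0 : F} {P1 P2 u : ι}
    (x1 : 0 < x P1) (x2 : 0 < x P2) (xu : 0 < x u) (h1 : SmLt lv h (z P1 - c))
    (h2 : SmLt lv h (z P2 - c)) (hlt : lv (x P1) < lv (x P2)) (e1 : z P1 = A0 + B0 * x P1)
    (e2 : z P2 = A0 + B0 * x P2) (hu : lv (x u) ≤ lv (x P2)) :
    SmLt lv h (c - A0 - B0 * x u) := by
  obtain ⟨d1, d2⟩ := lv_sub hv x1 x2 hlt
  have hB : SmLt lv (h - lv (x P2)) B0 := by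
    have := (h2.sub hv h1).div hv d1
    rw [d2] at this
    have e : (z P2 - c - (z P1 - c)) / (x P2 - x P1) = B0 := by
      rw [div_eq_iff d1.ne', e1, e2]
      ring
    rwa [e] at this
  have h3 := hB.mul_le hv (smLe_sub_of_pos hv xu x2 hu le_rfl)
  rw [sub_add_cancel] at h3
  have h4 := h2.neg.sub hv h3
  have e : -(z P2 - c) - B0 * (x u - x P2) = c - A0 - B0 * x u := by
    rw [e2]
    ring
  rwa [e] at h4

/-- Thinning of a level class over a line through an earliest point `f`. -/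
theorem thin (hv : IsVal lv) (hk : 1 ≤ k) (hG : Good k B A x y) (hx : ∀ i ∈ A, 0 < x i)
    {f : ι} (hfirst : ∀ u ∈ A, lv (x f) ≤ lv (x u)) (hf : f ∈ A) (a b e : F)
    (he : e = 1 ∨ e = -1) (hline : y f = a + b * x f) (h : Γ) :
    ∃ I : Finset ι, I ⊆ A ∧ Good k B I x y ∧ RowInv lv x y {f} I ∧
      nv A (fun i => 0 < e * (y i - a - b * x i) ∧ lv (e * (y i - a - b * x i)) = h)
        (fun i => lv (x i)) ≤ B * nv I (fun _ => True) (fun i => lv (x i)) + k := by
  have he0 : e ≠ 0 := by rcases he with rfl | rfl <;> norm_num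
  have habs : ∀ v : F, |e * v| = |v| := fun v => by
    rcases he with rfl | rfl <;> simp
  obtain ⟨z, hz⟩ : ∃ z : ι → F, z = fun i => e * (y i - a - b * x i) := ⟨_, rfl⟩
  have hz' : ∀ i, e * (y i - a - b * x i) = z i := fun i => by rw [hz]
  simp only [hz']
  have hGz : Good k B A x z := (hG.shear e a b 0 he0).congr (fun _ _ => rfl)
    fun i _ => by rw [add_zero, hz']
  obtain ⟨ρ, hρ⟩ : ∃ ρ, ρ = nv A (fun i => 0 < z i ∧ lv (z i) = h) (fun i => lv (x i)) := ⟨_, rfl⟩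
  rw [← hρ]
  by_cases hρk : ρ ≤ k
  · refine ⟨∅, empty_subset _, hG.restrict (island_empty A x y), ⟨fun _ _ u hu => ?_,
      fun _ _ u hu => ?_⟩, by omega⟩ <;> exact absurd hu (notMem_empty u)
  obtain ⟨t, -, ht1, ht2⟩ := exists_threshold
    (vals A (fun i => 0 < z i ∧ lv (z i) = h) (fun i => lv (x i))) (ρ - k) (by omega)
    (by rw [hρ]; exact Nat.sub_le _ _)
  have hc : (vals A (fun i => 0 < z i ∧ lv (z i) = h) (fun i => lv (x i))).card = ρ := hρ.symm
  have hcard : k ≤ np A (fun i => (0 < x i ∧ t < lv (x i)) ∧ (0 < z i ∧ lv (z i) = h)) := by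
    refine le_trans ?_ (nv_le_np A _ fun i => lv (x i))
    refine le_trans (by omega : k ≤ np (vals A (fun i => 0 < z i ∧ lv (z i) = h)
      (fun i => lv (x i))) (fun v => t < v)) (card_le_nv_of_vals fun v hv' => ?_)
    obtain ⟨c1, c2⟩ := mem_fl.1 hv'
    obtain ⟨i, hi, hp, rfl⟩ := mem_vals.1 c1
    exact ⟨i, hi, ⟨⟨hx i hi, c2⟩, hp⟩, rfl⟩
  have hB := thin_fel hv hk hGz hx h t hcard
  have hS : ρ - k ≤ nv A (fun i => (0 < z i ∧ lv (z i) = h) ∧ lv (x i) ≤ t)
      (fun i => lv (x i)) := by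
    rw [← ht1]
    refine card_le_nv_of_vals fun v hv' => ?_
    obtain ⟨c1, c2⟩ := mem_fl.1 hv'
    obtain ⟨i, hi, hp, rfl⟩ := mem_vals.1 c1
    exact ⟨i, hi, ⟨hp, c2⟩, rfl⟩
  obtain ⟨S, hSA, hSc, hSΦ, hSinj⟩ := exists_of_le_nv hS
  obtain ⟨j0, hj0, hbig⟩ := exists_big_class hB (fun i hi => ⟨hSA hi, hSΦ i hi⟩)
    (card_pos.1 (by omega))
  obtain ⟨⟨hj1, hj2⟩, -⟩ := hSΦ j0 hj0
  have hisl : Island A x z (fl A (fun j => SmLt lv h (z j - z j0))) :=
    (island_self A x z).fl (itv_smLt hv h (z j0)).cvx_snd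
  refine ⟨fl A (fun j => SmLt lv h (z j - z j0)), fl_subset _ _, ?_, ⟨?_, ?_⟩, ?_⟩
  · refine Good.of_shear e a b 0 he0 ((hGz.restrict hisl).congr (fun _ _ => rfl) fun i _ => ?_)
    rw [add_zero, hz']
  · intro g hg u hu
    rw [mem_singleton.1 hg]
    exact hfirst u (mem_fl.1 hu).1
  · intro a' b' P1 h1 P2 h2 hlt e1 e2
    obtain ⟨p1, q1⟩ := mem_fl.1 h1
    obtain ⟨p2, q2⟩ := mem_fl.1 h2
    have key : ∀ u ∈ A, lv (x u) ≤ lv (x P2) →
        SmLt lv h (z j0 - e * (a' - a) - e * (b' - b) * x u) := fun u hu hle =>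
      thin_line hv (hx P1 p1) (hx P2 p2) (hx u hu) q1 q2 hlt (by rw [← hz', e1]; ring)
        (by rw [← hz', e2]; ring) hle
    have hf' : e * (y f - a' - b' * x f) ≠ 0 ∧ lv |e * (y f - a' - b' * x f)| = h := by
      have c1 : lv |(-z j0)| = h := by rw [abs_neg, abs_of_pos hj1, hj2]
      have c2 := lv_abs_add hv (neg_ne_zero.2 hj1.ne') (c1 ▸ key f hf (hfirst P2 p2))
      have e3 : -z j0 + (z j0 - e * (a' - a) - e * (b' - b) * x f) =
          e * (y f - a' - b' * x f) := by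
        rw [hline]
        ring
      rwa [e3, c1] at c2
    refine ⟨fun g hg => ?_, ?_⟩
    · rw [mem_singleton.1 hg]
      refine ⟨right_ne_zero_of_mul hf'.1, fun u hu hle => ?_⟩
      rw [← habs, hf'.2]
      have c := (mem_fl.1 hu).2.add hv (key u (mem_fl.1 hu).1 hle)
      have e3 : z u - z j0 + (z j0 - e * (a' - a) - e * (b' - b) * x u) =
          e * (y u - a' - b' * x u) := by
        rw [← hz' u]
        ring
      rw [e3] at c
      exact c.of_abs_le hv (habs _).ge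
    · rw [coe_singleton]
      exact Set.injOn_singleton _ _
  · have h1 : np S (fun i => fl A (fun j => SmLt lv h (z j - z i)) =
        fl A (fun j => SmLt lv h (z j - z j0))) ≤
        nv (fl A (fun j => SmLt lv h (z j - z j0))) (fun _ => True) (fun i => lv (x i)) := by
      refine card_le_nv (fun i hi => ⟨?_, trivial⟩)
        (hSinj.mono fun i hi => mem_coe.2 (mem_fl.1 (mem_coe.1 hi)).1)
      rw [← (mem_fl.1 hi).2]
      exact mem_fl.2 ⟨hSA (mem_fl.1 hi).1, by rw [sub_self]; exact smLt_zero h⟩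
    have h2 := Nat.mul_le_mul_left B h1
    omega

end

end Pool.Agent.Lib.MP_86319c_co
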