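import Pool.Agent.Lib.MP_86319c_co.Chain
import Pool.Agent.Lib.MP_86319c_co.Thin

set_option autoImplicit false

namespace Pool.Agent.Lib.MP_86319c_co

open Finset

noncomputable section

variable {F : Type} [Field F] [LinearOrder F] [IsStrictOrderedRing F] {ι : Type} [DecidableEq ι]
variable {Γ : Type} [Field Γ] [LinearOrder Γ] [IsStrictOrderedRing Γ]
variable {lv : F → Γ}
variable {k B n S M : ℕ} {A : Finset ι} {x y : ι → F}

theorem nv_inv (hv : IsVal lv) (hx : ∀ i ∈ A, 0 < x i) (Φ : ι → Prop) :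
    nv A Φ (fun i => lv (1 / x i)) = nv A Φ (fun i => lv (x i)) := by
  apply le_antisymm
  · refine nv_le_of_determined fun i hi j hj _ _ h => ?_
    rw [lv_one_div hv (hx i hi), lv_one_div hv (hx j hj)]
    rw [h]
  · refine nv_le_of_determined fun i hi j hj _ _ h => ?_
    rw [lv_one_div hv (hx i hi), lv_one_div hv (hx j hj)] at h
    exact neg_injective h

/-- Extreme abscissae of a set with at least two times have different times. -/
theorem Step_ends (hv : IsVal lv) (hx : ∀ i ∈ A, 0 < x i)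
    (h2 : 2 ≤ nv A (fun _ => True) (fun i => lv (x i))) :
    ∃ f ∈ A, ∃ l ∈ A, (∀ u ∈ A, lv (x f) ≤ lv (x u)) ∧ (∀ u ∈ A, lv (x u) ≤ lv (x l)) ∧
      lv (x f) < lv (x l) := by
  have hne : A.Nonempty := by
    have h1 : 0 < np A (fun _ => True) :=
      lt_of_lt_of_le (by norm_num) (le_trans h2 (nv_le_np _ _ _))
    obtain ⟨i, hi, -⟩ := exists_of_np_pos h1
    exact ⟨i, hi⟩
  obtain ⟨f, hf, hfm⟩ := exists_min_image A x hne
  obtain ⟨l, hl, hlm⟩ := exists_max_image A x hne
  have h1 : ∀ u ∈ A, lv (x f) ≤ lv (x u) := fun u hu => lv_mono hv (hx f hf) (hfm u hu)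
  have h3 : ∀ u ∈ A, lv (x u) ≤ lv (x l) := fun u hu => lv_mono hv (hx u hu) (hlm u hu)
  refine ⟨f, hf, l, hl, h1, h3, ?_⟩
  by_contra hcon
  have hle : lv (x l) ≤ lv (x f) := not_lt.1 hcon
  have : nv A (fun _ => True) (fun i => lv (x i)) ≤ ({lv (x f)} : Finset Γ).card :=
    nv_le_of_subset fun i hi _ => by
      rw [mem_singleton]
      exact le_antisymm (le_trans (h3 i hi) hle) (h1 i hi)
  rw [card_singleton] at this
  omega

/-- The points strictly on one side of a shifted line form a positive configuration. -/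
theorem Step_tri (hG : Good k B A x y) (hx : ∀ i ∈ A, 0 < x i) (a b e c : F)
    (he : e = 1 ∨ e = -1) :
    Tri k B (fl A (fun i => 0 < e * (y i - a - b * x i) + c)) x
      (fun i => e * (y i - a - b * x i) + c) := by
  have he0 : e ≠ 0 := by
    rcases he with h | h <;> rw [h] <;> norm_num
  have haff : IsAff x y (fun i => e * (y i - a - b * x i) + c) :=
    ⟨-(e * b), e, c - e * a, fun i => by ring⟩
  have hI := (island_self A x y).fl_pos haff
  refine ⟨(hG.restrict hI).shear e a b c he0, fun i hi => ?_⟩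
  exact ⟨hx i (mem_fl.1 hi).1, (mem_fl.1 hi).2⟩

theorem step (hv : IsVal lv) (hk : 1 ≤ k) (hS : 1 ≤ S) (hM : 1 ≤ M) (hZ : ZFree lv ι k B n S M)
    (hG : Good k B A x y) (hx : ∀ i ∈ A, 0 < x i) (hn : A.card ≤ n)
    (h2 : 2 ≤ nv A (fun _ => True) (fun i => lv (x i))) :
    ∃ I : Finset ι, I ⊆ A ∧ Good k B I x y ∧
      ((∃ f ∈ A, RowInv lv x y {f} I) ∨
        ∃ f ∈ A, RowInv lv (fun i => 1 / x i) (fun i => y i / x i) {f} I) ∧
      nv A (fun _ => True) (fun i => lv (x i)) ≤
        2 * (S + M) ^ 3 * (B * nv I (fun _ => True) (fun i => lv (x i)) + k) + 2 := by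
  obtain ⟨f, hf, l, hl, hfm, hlm, hfl⟩ := Step_ends hv hx h2
  have hxne : x f ≠ x l := fun h => by rw [h] at hfl; exact lt_irrefl _ hfl
  obtain ⟨a, b, hlf, hll⟩ := exists_line (x := x) (y := y) hxne
  have hline : np A (fun i => (-b) * x i + 1 * y i + (-a) = 0) ≤ 2 :=
    hG.1.np_line (-b) 1 (-a) (Or.inr one_ne_zero)
  have hside : ∃ e : F, (e = 1 ∨ e = -1) ∧ nv A (fun _ => True) (fun i => lv (x i)) ≤
      2 * nv A (fun i => 0 < e * (y i - a - b * x i)) (fun i => lv (x i)) + 2 := by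
    have h1 : nv A (fun _ => True) (fun i => lv (x i)) ≤
        nv A (fun i => 0 < 1 * (y i - a - b * x i) ∨ 0 < (-1) * (y i - a - b * x i))
          (fun i => lv (x i)) +
        nv A (fun i => (-b) * x i + 1 * y i + (-a) = 0) (fun i => lv (x i)) := by
      refine nv_le_add fun i _ _ => ?_
      rcases lt_trichotomy (y i - a - b * x i) 0 with h | h | h
      · left; right; linarith
      · right; linarith
      · left; left; linarith
    have h3 : nv A (fun i => 0 < 1 * (y i - a - b * x i) ∨ 0 < (-1) * (y i - a - b * x i))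
          (fun i => lv (x i)) ≤
        nv A (fun i => 0 < 1 * (y i - a - b * x i)) (fun i => lv (x i)) +
        nv A (fun i => 0 < (-1) * (y i - a - b * x i)) (fun i => lv (x i)) :=
      nv_le_add fun i _ h => h
    have h4 := le_trans (nv_le_np A (fun i => (-b) * x i + 1 * y i + (-a) = 0)
      (fun i => lv (x i))) hline
    rcases le_total (nv A (fun i => 0 < 1 * (y i - a - b * x i)) (fun i => lv (x i)))
      (nv A (fun i => 0 < (-1) * (y i - a - b * x i)) (fun i => lv (x i))) with h | h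
    · exact ⟨-1, Or.inr rfl, by omega⟩
    · exact ⟨1, Or.inl rfl, by omega⟩
  obtain ⟨e, he, hbig⟩ := hside
  have hT := Step_tri hG hx a b e 0 he
  have hn' : (fl A (fun i => 0 < e * (y i - a - b * x i) + 0)).card ≤ n :=
    le_trans (card_le_card (fl_subset _ _)) hn
  have hA' : nv A (fun i => 0 < e * (y i - a - b * x i)) (fun i => lv (x i)) ≤
      nv (fl A (fun i => 0 < e * (y i - a - b * x i) + 0)) (fun _ => True)
        (fun i => lv (x i)) :=
    nv_mono fun i hi h => ⟨i, mem_fl.2 ⟨hi, by rw [add_zero]; exact h⟩, trivial, rfl⟩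
  have hfin : ∀ r t : ℕ, nv (fl A (fun i => 0 < e * (y i - a - b * x i) + 0)) (fun _ => True)
        (fun i => lv (x i)) ≤ (S + M) ^ 3 * r → r ≤ t →
      nv A (fun _ => True) (fun i => lv (x i)) ≤ 2 * (S + M) ^ 3 * t + 2 := by
    intro r t h1 h3
    have h4 : (S + M) ^ 3 * r ≤ (S + M) ^ 3 * t := Nat.mul_le_mul_left _ h3
    rw [mul_assoc]
    omega
  rcases rowray hv hS hM hZ hT hn' with ⟨h, hh⟩ | ⟨h, hh⟩
  · obtain ⟨I, hIA, hIG, hIR, hIc⟩ := thin hv hk hG hx hfm hf a b e he hlf h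
    refine ⟨I, hIA, hIG, Or.inl ⟨f, hf, hIR⟩, hfin _ _ hh (le_trans ?_ hIc)⟩
    refine nv_mono fun i hi hp => ⟨i, (mem_fl.1 hi).1, ⟨?_, ?_⟩, rfl⟩
    · have := (mem_fl.1 hi).2
      rwa [add_zero] at this
    · rwa [add_zero] at hp
  · have hx' : ∀ i ∈ A, 0 < 1 / x i := fun i hi => one_div_pos.2 (hx i hi)
    have hfirst : ∀ u ∈ A, lv (1 / x l) ≤ lv (1 / x u) := fun u hu => by
      rw [lv_one_div hv (hx l hl), lv_one_div hv (hx u hu)]
      exact neg_le_neg (hlm u hu)
    have hl' : y l / x l = b + a * (1 / x l) := by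
      have := (hx l hl).ne'
      rw [hll]
      field_simp
      ring
    obtain ⟨I, hIA, hIG, hIR, hIc⟩ := thin (x := fun i => 1 / x i) (y := fun i => y i / x i)
      hv hk (hG.inv hx) hx' hfirst hl b a e he hl' h
    have hxI : ∀ i ∈ I, 0 < x i := fun i hi => hx i (hIA hi)
    rw [nv_inv hv hx, nv_inv hv hxI] at hIc
    refine ⟨I, hIA, hIG.of_inv hxI, Or.inr ⟨l, hl, hIR⟩, hfin _ _ hh (le_trans ?_ hIc)⟩
    refine nv_mono fun i hi hp => ?_
    have hiA := (mem_fl.1 hi).1
    have hpos := (mem_fl.1 hi).2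
    have hxi := hx i hiA
    have heq : e * (y i / x i - b - a * (1 / x i)) = (e * (y i - a - b * x i) + 0) / x i := by
      have := hxi.ne'
      field_simp
      ring
    refine ⟨i, hiA, ⟨?_, ?_⟩, rfl⟩
    · rw [heq]; exact div_pos hpos hxi
    · rw [heq]; exact hp

theorem final_step (hv : IsVal lv) (hZ : ZFree lv ι k B n S M) (hG : Good k B A x y)
    (hx : ∀ i ∈ A, 0 < x i) (hn : A.card ≤ n) {W I : Finset ι} (hW : W ⊆ A) (hI : I ⊆ A)
    (hR : RowInv lv x y W I) (hWc : 2 * S + 1 ≤ W.card)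
    (hIc : M + 2 ≤ nv I (fun _ => True) (fun i => lv (x i))) : False := by
  have hxI : ∀ i ∈ I, 0 < x i := fun i hi => hx i (hI hi)
  obtain ⟨P1, hP1, P2, hP2, hm1, hm2, hlt⟩ := Step_ends hv hxI (le_trans (by omega) hIc)
  have hxne : x P1 ≠ x P2 := fun h => by rw [h] at hlt; exact lt_irrefl _ hlt
  obtain ⟨a, b, hl1, hl2⟩ := exists_line (x := x) (y := y) hxne
  obtain ⟨hw, hinj⟩ := hR.2 a b P1 hP1 P2 hP2 hlt hl1 hl2
  have hside : ∃ e : F, (e = 1 ∨ e = -1) ∧
      S + 1 ≤ np W (fun i => 0 < e * (y i - a - b * x i)) := by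
    have h1 : np W (fun _ => True) ≤ np W (fun i => 0 < 1 * (y i - a - b * x i)) +
        np W (fun i => 0 < (-1) * (y i - a - b * x i)) := by
      refine np_le_add fun i hi _ => ?_
      rcases lt_trichotomy (y i - a - b * x i) 0 with h | h | h
      · right; linarith
      · exact absurd h (hw i hi).1
      · left; linarith
    rw [np_true] at h1
    rcases le_total (np W (fun i => 0 < 1 * (y i - a - b * x i)))
      (np W (fun i => 0 < (-1) * (y i - a - b * x i))) with h | h
    · exact ⟨-1, Or.inr rfl, by omega⟩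
    · exact ⟨1, Or.inl rfl, by omega⟩
  obtain ⟨e, he, hbig⟩ := hside
  have habs : ∀ v : F, |e * v| = |v| := fun v => by
    rcases he with h | h
    · rw [h, one_mul]
    · rw [h, neg_one_mul, abs_neg]
  obtain ⟨W', hW'W, hW'c, hW'p⟩ := exists_of_le_np hbig
  have hne : W'.Nonempty := card_pos.1 (by omega)
  obtain ⟨f0, hf0, hmin⟩ := exists_min_image W' (fun f => lv |y f - a - b * x f|) hne
  have hlev : ∀ f ∈ W', lv (e * (y f - a - b * x f)) = lv |y f - a - b * x f| := fun f hf => by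
    rw [← habs (y f - a - b * x f), abs_of_pos (hW'p f hf)]
  have hc : 0 < e * (y f0 - a - b * x f0) := hW'p f0 hf0
  have hT := Step_tri hG hx a b e (e * (y f0 - a - b * x f0)) he
  have hn' : (fl A (fun i => 0 < e * (y i - a - b * x i) + e * (y f0 - a - b * x f0))).card ≤ n :=
    le_trans (card_le_card (fl_subset _ _)) hn
  have hcore : ∀ u ∈ I, 0 < e * (y u - a - b * x u) + e * (y f0 - a - b * x f0) ∧
      lv (e * (y u - a - b * x u) + e * (y f0 - a - b * x f0)) =
        lv |y f0 - a - b * x f0| := fun u hu => by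
    have h1 := (hw f0 (hW'W hf0)).2 u hu (hm2 u hu)
    have h3 : SmLt lv (lv (e * (y f0 - a - b * x f0))) (e * (y u - a - b * x u)) := by
      rw [hlev f0 hf0]
      exact h1.of_abs_le hv (le_of_eq (habs _))
    have h4 := lv_add_small hv hc h3
    rw [add_comm] at h4
    exact ⟨h4.1, by rw [h4.2, hlev f0 hf0]⟩
  have hwit : ∀ f ∈ W'.erase f0, 0 < e * (y f - a - b * x f) + e * (y f0 - a - b * x f0) ∧
      lv |y f0 - a - b * x f0| < lv |y f - a - b * x f| ∧
      lv (e * (y f - a - b * x f) + e * (y f0 - a - b * x f0)) =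
        lv |y f - a - b * x f| := fun f hf => by
    have hfW := mem_of_mem_erase hf
    have hne0 := ne_of_mem_erase hf
    have h1 : lv |y f0 - a - b * x f0| < lv |y f - a - b * x f| := by
      refine lt_of_le_of_ne (hmin f hfW) fun h => hne0 ?_
      exact hinj (mem_coe.2 (hW'W hfW)) (mem_coe.2 (hW'W hf0)) h.symm
    refine ⟨add_pos (hW'p f hfW) hc, h1, ?_⟩
    rw [lv_add hv (hW'p f hfW) hc, hlev f hfW, hlev f0 hf0]
    exact max_eq_left h1.le
  refine hZ _ _ _ hT hn' (lv |y f0 - a - b * x f0|) (lv (x P1)) ?_ ?_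
  · have hcard : (W'.erase f0).card = S := by
      rw [card_erase_of_mem hf0, hW'c]; rfl
    rw [← hcard]
    refine card_le_nv (fun f hf => ?_) fun f hf g hg hfg => ?_
    · have hfW := hW'W (mem_of_mem_erase hf)
      obtain ⟨h1, h3, h4⟩ := hwit f hf
      refine ⟨mem_fl.2 ⟨hW hfW, h1⟩, ?_, hR.1 f hfW P1 hP1⟩
      rw [h4]; exact h3
    · have hf' := mem_coe.1 hf
      have hg' := mem_coe.1 hg
      have h5 : lv |y f - a - b * x f| = lv |y g - a - b * x g| := by
        rw [← (hwit f hf').2.2, ← (hwit g hg').2.2]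
        exact hfg
      exact hinj (mem_coe.2 (hW'W (mem_of_mem_erase hf')))
        (mem_coe.2 (hW'W (mem_of_mem_erase hg'))) h5
  · have h1 : nv I (fun _ => True) (fun i => lv (x i)) ≤
        nv I (fun i => lv (x i) = lv (x P1)) (fun i => lv (x i)) +
        nv I (fun i => lv (x P1) < lv (x i)) (fun i => lv (x i)) := by
      refine nv_le_add fun i hi _ => ?_
      rcases (hm1 i hi).eq_or_lt with h | h
      · exact Or.inl h.symm
      · exact Or.inr h
    have h3 : nv I (fun i => lv (x i) = lv (x P1)) (fun i => lv (x i)) ≤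
        ({lv (x P1)} : Finset Γ).card :=
      nv_le_of_subset fun i _ h => mem_singleton.2 h
    rw [card_singleton] at h3
    have h4 : M ≤ nv I (fun i => lv (x P1) < lv (x i)) (fun i => lv (x i)) := by omega
    refine le_trans h4 (nv_mono fun i hi hp => ?_)
    exact ⟨i, mem_fl.2 ⟨hI hi, (hcore i hi).1⟩, ⟨le_of_eq (hcore i hi).2, hp⟩, rfl⟩

end

end Pool.Agent.Lib.MP_86319c_co
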