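import Pool.Agent.Lib.MP_86319c_co.WideA
import Pool.Agent.Lib.MP_86319c_co.CombA

set_option autoImplicit false

namespace Pool.Agent.Lib.MP_86319c_co

open Finset

noncomputable section

variable {F : Type} [Field F] [LinearOrder F] [IsStrictOrderedRing F] {ι : Type} [DecidableEq ι]
variable {Γ : Type} [Field Γ] [LinearOrder Γ] [IsStrictOrderedRing Γ]
variable {lv : F → Γ}

/-- A deep cluster below a gap forbids many short stages close above the gap. -/
theorem wide_bc (hv : IsVal lv) {k B : ℕ} (hk : 1 ≤ k) {A : Finset ι} {x y : ι → F}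
    (hT : Tri k B A x y) (C J : ℕ) (t : Γ) (b β g : ℕ → Γ) (p : ℕ → ι)
    (hb : ∀ j < J, b j < b (j + 1))
    (hgap : ∀ j < J, ((C : Γ) + 1) * g j = b (j + 1) - b j ∧ b j ≤ β j ∧ β j + g j ≤ b (j + 1) ∧
      ∀ i ∈ A, lv (x i) = t → β j < lv (y i) → β j + g j ≤ lv (y i))
    (hp : ∀ j < J, p j ∈ A ∧ lv (x (p j)) = t ∧ b j < lv (y (p j)) ∧ lv (y (p j)) ≤ b (j + 1) ∧
      ∀ ξ : F, k ≤ np A (fun i => lv (x i) = t ∧ lv (y i) ≤ b j ∧ x i ≤ ξ) →
        x (p j) < ξ ∧ t + lv (y (p j)) - b (j + 1) ≤ lv (ξ - x (p j)))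
    (j π i : ℕ) (h0 : B * k + 1 ≤ j) (h1 : j ≤ π) (h2 : π < i) (h3 : j + k < J)
    (h4 : i + (B + 1) ≤ J) (h5 : ((C + 1 : ℕ) : Γ) * (b i - b π) ≤ b (j + 1) - b j) :
    b (π + 1) - b π ≤ ((C + 1 : ℕ) : Γ) * (b (i + (B + 1)) - b i) := by
  by_contra hcon
  push Not at hcon
  have h1' : j ≤ π := h1
  have hC : (0 : Γ) < (C : Γ) + 1 := by positivity
  have hcast : ((C + 1 : ℕ) : Γ) = (C : Γ) + 1 := by push_cast; ring
  rw [hcast] at hcon h5
  have hjJ : j < J := by omega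
  have hπJ : π < J := by omega
  obtain ⟨hgj, hβj, hβgj, hfj⟩ := hgap j hjJ
  obtain ⟨hgπ, hβπ, hβgπ, hfπ⟩ := hgap π hπJ
  have hgj0 : 0 < g j := by
    have h := hb j hjJ
    by_contra hn
    push Not at hn
    have := mul_nonpos_of_nonneg_of_nonpos hC.le hn
    linarith
  have hgπ0 : 0 < g π := by
    have h := hb π hπJ
    by_contra hn
    push Not at hn
    have := mul_nonpos_of_nonneg_of_nonpos hC.le hn
    linarith
  have hshort : b (i + (B + 1)) - b i < g π := by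
    rw [← hgπ] at hcon
    exact lt_of_mul_lt_mul_left hcon hC.le
  have hdeep : b i - b π ≤ g j := by
    rw [← hgj] at h5
    exact le_of_mul_le_mul_left h5 hC
  have hlt : ∀ m m', m < m' → m' < J → lv (y (p m)) < lv (y (p m')) := fun m m' hmm hm' => by
    have h1 := (hp m (by omega)).2.2.2.1
    have h2 := (hp m' hm').2.2.1
    have h3 := le_of_step hb (show m + 1 ≤ m' by omega) hm'.le
    linarith
  have hinj : ∀ m m', m < J → m' < J → p m = p m' → m = m' := fun m m' hm hm' he => by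
    rcases lt_trichotomy m m' with h | h | h
    · have := hlt m m' h hm'
      rw [he] at this
      exact absurd this (lt_irrefl _)
    · exact h
    · have := hlt m' m h hm
      rw [he] at this
      exact absurd this (lt_irrefl _)
  have hsm : ∀ m < J, SmLe lv t (x (p m) - 0) := fun m hm => by
    rw [sub_zero]
    exact smLe_of_pos (hT.2 _ (hp m hm).1).1 (hp m hm).2.1.le
  have hup : k ≤ np A (fun u => lv (x u) = t ∧ SmLe lv t (x u - 0) ∧ β j + g j ≤ lv (y u)) := by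
    have hc : ((Ioc j (j + k)).image p).card = k := by
      rw [card_image_of_injOn]
      · simp
      · intro m hm m' hm' he
        have h1 := mem_Ioc.1 (mem_coe.1 hm)
        have h2 := mem_Ioc.1 (mem_coe.1 hm')
        exact hinj m m' (by omega) (by omega) he
    rw [← hc]
    refine card_le_np fun u hu => ?_
    obtain ⟨m, hm, rfl⟩ := mem_image.1 hu
    have h1 := mem_Ioc.1 hm
    have hmJ : m < J := by omega
    refine ⟨(hp m hmJ).1, (hp m hmJ).2.1, hsm m hmJ, ?_⟩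
    have h2 := (hp m hmJ).2.2.1
    have h3 := le_of_step hb (show j + 1 ≤ m by omega) hmJ.le
    linarith
  have hS : ∀ u ∈ (range j).image p, u ∈ A ∧ lv (x u) = t ∧ SmLe lv t (x u - 0) ∧
      lv (y u) ≤ b j := fun u hu => by
    obtain ⟨m, hm, rfl⟩ := mem_image.1 hu
    have h1 := mem_range.1 hm
    have hmJ : m < J := by omega
    refine ⟨(hp m hmJ).1, (hp m hmJ).2.1, hsm m hmJ, ?_⟩
    have h2 := (hp m hmJ).2.2.2.1
    have h3 := le_of_step hb (show m + 1 ≤ j by omega) hjJ.le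
    linarith
  obtain ⟨c', hc'⟩ := L5 hv hk hT t (β j) (g j) t 0 hgj0 hup hfj ((range j).image p)
    (fun u hu => ⟨(hS u hu).1, (hS u hu).2.1, (hS u hu).2.2.1, le_trans (hS u hu).2.2.2 hβj⟩)
  have hcS : ((range j).image p).card = j := by
    rw [card_image_of_injOn]
    · simp
    · intro m hm m' hm' he
      have h1 := mem_range.1 (mem_coe.1 hm)
      have h2 := mem_range.1 (mem_coe.1 hm')
      exact hinj m m' (by omega) (by omega) he
  rw [hcS] at hc'
  have hkK : k ≤ np ((range j).image p) (fun u => SmLe lv (t - g j) (x u - c')) := by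
    by_contra hn
    push Not at hn
    have := Nat.mul_le_mul_left B hn.le
    omega
  obtain ⟨K, hKS, hKc, hKΦ⟩ := exists_of_le_np hkK
  have hKne : K.Nonempty := card_pos.1 (by omega)
  obtain ⟨q, hqK, hqmax⟩ := exists_max_image K x hKne
  have hq := hS q (hKS hqK)
  have hq0 : 0 < x q := (hT.2 _ hq.1).1
  have hK : k ≤ np A (fun u => lv (x u) = t ∧ SmLe lv (t - (b i - β π)) (x u - x q) ∧
      lv (y u) ≤ β π) := by
    rw [← hKc]
    refine card_le_np fun u hu => ?_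
    have h1 := hS u (hKS hu)
    refine ⟨h1.1, h1.2.1, ?_, ?_⟩
    · have h2 := SmLe.sub hv (hKΦ u hu) (hKΦ q hqK)
      have h3 : x u - c' - (x q - c') = x u - x q := by ring
      rw [h3] at h2
      exact h2.mono (by linarith)
    · have h3 := le_of_step hb (show j ≤ π from h1') hπJ.le
      linarith [h1.2.2.2]
  have hL6 := L6 hv hk hT t (β π) (g π) (t - (b i - β π)) (x q) hK hfπ
  have hth : ∀ m, i ≤ m → m < J → x (p m) < x q ∧
      t - b (m + 1) ≤ lv (x q - x (p m)) - lv (y (p m)) ∧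
      lv (x q - x (p m)) - lv (y (p m)) < t - b m := fun m him hmJ => by
    obtain ⟨hA, ht, hlo, -, hξ⟩ := hp m hmJ
    have hk' : k ≤ np A (fun u => lv (x u) = t ∧ lv (y u) ≤ b m ∧ x u ≤ x q) := by
      rw [← hKc]
      refine card_le_np fun u hu => ?_
      have h1 := hS u (hKS hu)
      have h3 := le_of_step hb (show j ≤ m by omega) hmJ.le
      exact ⟨h1.1, h1.2.1, le_trans h1.2.2.2 h3, hqmax u hu⟩
    obtain ⟨e1, e2⟩ := hξ (x q) hk'
    have e3 : lv (x q - x (p m)) ≤ t :=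
      (smLe_sub_of_pos hv hq0 (hT.2 _ hA).1 hq.2.1.le ht.le).le_of_pos (sub_pos.2 e1)
    exact ⟨e1, by linarith, by linarith⟩
  have hcW : ((Ico i (i + (B + 1))).image p).card = B + 1 := by
    rw [card_image_of_injOn]
    · simp
    · intro m hm m' hm' he
      have h1 := mem_Ico.1 (mem_coe.1 hm)
      have h2 := mem_Ico.1 (mem_coe.1 hm')
      exact hinj m m' (by omega) (by omega) he
  have hfin := card_le_nv (A := A) (S := (Ico i (i + (B + 1))).image p)
    (Φ := fun u => lv (x u) = t ∧ β π < lv (y u) ∧ x u < x q ∧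
        t - (b i - β π) - β π - g π < lv (x q - x u) - lv (y u) ∧
        lv (x q - x u) - lv (y u) ≤ t - (b i - β π) - β π)
    (f := fun u => lv |x q - x u| - lv (y u)) ?_ ?_
  · omega
  · intro u hu
    obtain ⟨m, hm, rfl⟩ := mem_image.1 hu
    have h1 := mem_Ico.1 hm
    have hmJ : m < J := by omega
    obtain ⟨e1, e2, e3⟩ := hth m h1.1 hmJ
    have e4 := le_of_step hb (show π + 1 ≤ m by omega) hmJ.le
    have e5 := le_of_step hb (show i ≤ m by omega) hmJ.le
    have e6 := le_of_step hb (show m + 1 ≤ i + (B + 1) by omega) h4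
    have e7 := (hp m hmJ).2.2.1
    exact ⟨(hp m hmJ).1, (hp m hmJ).2.1, by linarith, e1, by linarith, by linarith⟩
  · intro u hu u' hu' he
    obtain ⟨m, hm, rfl⟩ := mem_image.1 (mem_coe.1 hu)
    obtain ⟨m', hm', rfl⟩ := mem_image.1 (mem_coe.1 hu')
    have h1 := mem_Ico.1 hm
    have h2 := mem_Ico.1 hm'
    obtain ⟨e1, e2, e3⟩ := hth m h1.1 (by omega)
    obtain ⟨f1, f2, f3⟩ := hth m' h2.1 (by omega)
    simp only at he
    rw [abs_of_pos (sub_pos.2 e1), abs_of_pos (sub_pos.2 f1)] at he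
    rcases lt_trichotomy m m' with h | h | h
    · have := le_of_step hb (show m + 1 ≤ m' by omega) (show m' ≤ J by omega)
      exfalso
      linarith
    · rw [h]
    · have := le_of_step hb (show m' + 1 ≤ m by omega) (show m ≤ J by omega)
      exfalso
      linarith

theorem wide (hv : IsVal lv) (k B C : ℕ) (hk : 1 ≤ k) : ∃ J : ℕ,
    ∀ (A : Finset ι) (x y : ι → F), Tri k B A x y → ∀ (t : Γ) (b : ℕ → Γ),
    (∀ j < J, b j < b (j + 1)) →
    k ≤ np A (fun i => lv (x i) = t ∧ lv (y i) ≤ b 0) →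
    (∀ j < J, B + 1 ≤ nv A (fun i => lv (x i) < t ∧ b j < lv (y i) ∧ lv (y i) ≤ b (j + 1))
      (fun i => lv (y i))) →
    (∀ j < J, nv A (fun i => lv (x i) = t ∧ b j < lv (y i) ∧ lv (y i) ≤ b (j + 1))
      (fun i => lv (y i)) ≤ C) → False := by
  obtain ⟨J, hJ⟩ := seq_lemma (Γ := Γ) (nestL k B) (C + 1) (B + 1) (B * k + 1) k (by omega)
  refine ⟨J, fun A x y hT t b hb hk0 hw hC => ?_⟩
  have hg : ∀ j, ∃ β g : Γ, j < J → ((C : Γ) + 1) * g = b (j + 1) - b j ∧ b j ≤ β ∧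
      β + g ≤ b (j + 1) ∧ ∀ i ∈ A, lv (x i) = t → β < lv (y i) → β + g ≤ lv (y i) := fun j => by
    by_cases hj : j < J
    · obtain ⟨β, g, h1, h2, h3, h4⟩ := exists_gap _ C (hC j hj) (b j) (b (j + 1)) (hb j hj)
      refine ⟨β, g, fun _ => ⟨h1, h2, h3, fun i hi ht hβ => ?_⟩⟩
      rcases le_or_gt (lv (y i)) (b (j + 1)) with h | h
      · exact h4 _ (mem_vals.2 ⟨i, hi, ⟨ht, lt_of_le_of_lt h2 hβ, h⟩, rfl⟩) hβ
      · exact le_trans h3 h.le
    · exact ⟨0, 0, fun h => absurd h hj⟩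
  choose β g hgap using hg
  have hne : A.Nonempty := by
    obtain ⟨i, hi, -⟩ := exists_of_np_pos (lt_of_lt_of_le hk hk0)
    exact ⟨i, hi⟩
  obtain ⟨i0, -⟩ := hne
  have hq : ∀ j, ∃ u : ι, j < J → u ∈ A ∧ lv (x u) = t ∧ b j < lv (y u) ∧ lv (y u) ≤ b (j + 1) ∧
      ∀ ξ : F, k ≤ np A (fun i => lv (x i) = t ∧ lv (y i) ≤ b j ∧ x i ≤ ξ) →
        x u < ξ ∧ t + lv (y u) - b (j + 1) ≤ lv (ξ - x u) := fun j => by
    by_cases hj : j < J
    · have h0 := le_of_step hb (Nat.zero_le j) hj.le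
      obtain ⟨u, hu, h⟩ := L4' hv hk hT t (b j) (b (j + 1))
        (le_trans hk0 (np_le_np fun i _ hi => ⟨hi.1, le_trans hi.2 h0⟩)) (hw j hj)
      exact ⟨u, fun _ => ⟨hu, h⟩⟩
    · exact ⟨i0, fun h => absurd h hj⟩
  choose p hp using hq
  exact hJ b hb (fun D S hS hc => wide_a hv hk hT C J t b β g p hb hgap hp D S hS hc)
    (fun j π i h0 h1 h2 h3 h4 h5 =>
      wide_bc hv hk hT C J t b β g p hb hgap hp j π i h0 h1 h2 h3 h4 h5)

end

end Pool.Agent.Lib.MP_86319c_co
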