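import Pool.Agent.Lib.MP_86319c_co.LB
import Pool.Agent.Lib.MP_86319c_co.CombB

set_option autoImplicit false

namespace Pool.Agent.Lib.MP_86319c_co

open Finset

noncomputable section

variable {F : Type} [Field F] [LinearOrder F] [IsStrictOrderedRing F] {ι : Type} [DecidableEq ι]
variable {Γ : Type} [Field Γ] [LinearOrder Γ] [IsStrictOrderedRing Γ]
variable {lv : F → Γ}

/-- Size of an index set that allows `D` nested refinements. -/
def nestL (k B : ℕ) : ℕ → ℕ
  | 0 => k + 1
  | D + 1 => B * nestL k B D + k + 2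

theorem widea_split (k : ℕ) (S : Finset ℕ) (h : k + 1 ≤ S.card) :
    ∃ j ∈ S, ∃ U L : Finset ℕ, U ⊆ S ∧ L ⊆ S ∧ U.card = k ∧ L.card + k + 1 = S.card ∧
      (∀ u ∈ U, j < u) ∧ ∀ l ∈ L, l < j := by
  induction k generalizing S with
  | zero =>
    have hne : S.Nonempty := card_pos.1 (by omega)
    refine ⟨S.max' hne, max'_mem _ _, ∅, S.erase (S.max' hne), empty_subset _, erase_subset _ _,
      rfl, ?_, by simp, fun l hl => ?_⟩
    · rw [card_erase_of_mem (max'_mem _ _)]
      omega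
    · exact lt_of_le_of_ne (le_max' _ _ (mem_of_mem_erase hl)) (ne_of_mem_erase hl)
  | succ k ih =>
    have hne : S.Nonempty := card_pos.1 (by omega)
    have hc := card_erase_of_mem (max'_mem S hne)
    obtain ⟨j, hj, U, L, hU, hL, hUc, hLc, hUj, hLj⟩ := ih (S.erase (S.max' hne)) (by omega)
    refine ⟨j, mem_of_mem_erase hj, insert (S.max' hne) U, L, ?_, hL.trans (erase_subset _ _),
      ?_, by omega, fun u hu => ?_, hLj⟩
    · exact insert_subset (max'_mem _ _) (hU.trans (erase_subset _ _))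
    · rw [card_insert_of_notMem (fun hm => notMem_erase _ _ (hU hm)), hUc]
    · rcases mem_insert.1 hu with rfl | hu
      · exact lt_of_le_of_ne (le_max' _ _ (mem_of_mem_erase hj)) (ne_of_mem_erase hj)
      · exact hUj u hu

/-- Nested refinement of balls along a chain `p` in one batch. -/
theorem wide_a (hv : IsVal lv) {k B : ℕ} (hk : 1 ≤ k) {A : Finset ι} {x y : ι → F}
    (hT : Tri k B A x y) (C J : ℕ) (t : Γ) (b β g : ℕ → Γ) (p : ℕ → ι)
    (hb : ∀ j < J, b j < b (j + 1))
    (hgap : ∀ j < J, ((C : Γ) + 1) * g j = b (j + 1) - b j ∧ b j ≤ β j ∧ β j + g j ≤ b (j + 1) ∧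
      ∀ i ∈ A, lv (x i) = t → β j < lv (y i) → β j + g j ≤ lv (y i))
    (hp : ∀ j < J, p j ∈ A ∧ lv (x (p j)) = t ∧ b j < lv (y (p j)) ∧ lv (y (p j)) ≤ b (j + 1) ∧
      ∀ ξ : F, k ≤ np A (fun i => lv (x i) = t ∧ lv (y i) ≤ b j ∧ x i ≤ ξ) →
        x (p j) < ξ ∧ t + lv (y (p j)) - b (j + 1) ≤ lv (ξ - x (p j)))
    (D : ℕ) (S : Finset ℕ) (hS : S ⊆ range J) (hcard : nestL k B D ≤ S.card) :
    ∃ j' ∈ S, ∃ j ∈ S, j' < j ∧
      (D : Γ) * (b (j + 1) - b j) < ((C + 1 : ℕ) : Γ) * (b (j' + 1) - b j') := by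
  by_contra hcon
  push Not at hcon
  have hSJ : ∀ j ∈ S, j < J := fun j hj => mem_range.1 (hS hj)
  have hC : (0 : Γ) < (C : Γ) + 1 := by positivity
  have hgpos : ∀ j < J, 0 < g j := fun j hj => by
    have h1 := (hgap j hj).1
    have h2 := hb j hj
    by_contra hle
    push Not at hle
    have := mul_nonpos_of_nonneg_of_nonpos hC.le hle
    linarith
  have hwg : ∀ j' ∈ S, ∀ j ∈ S, j' < j → b (j' + 1) - b j' ≤ D * g j := by
    intro j' hj' j hj hlt
    have h1 := hcon j' hj' j hj hlt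
    rw [← (hgap j (hSJ j hj)).1] at h1
    push_cast at h1
    refine le_of_mul_le_mul_left ?_ hC
    linarith
  have hinj : ∀ T : Finset ℕ, T ⊆ S → (T.image p).card = T.card := by
    intro T hTS
    refine card_image_of_injOn fun u hu v hv huv => ?_
    have hu' := hSJ u (hTS hu)
    have hv' := hSJ v (hTS hv)
    obtain ⟨-, -, h1, h2, -⟩ := hp u hu'
    obtain ⟨-, -, h3, h4, -⟩ := hp v hv'
    rw [huv] at h1 h2
    rcases lt_trichotomy u v with hlt | heq | hlt
    · have := le_of_step hb (i := u + 1) (j := v) hlt hv'.le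
      linarith
    · exact heq
    · have := le_of_step hb (i := v + 1) (j := u) hlt hu'.le
      linarith
  rcases Nat.eq_zero_or_pos D with rfl | hD
  · obtain ⟨j, hj, U, L, hU, -, hUc, -, hUj, -⟩ := widea_split k S hcard
    obtain ⟨u, hu⟩ : U.Nonempty := card_pos.1 (by omega)
    have h1 := hwg j hj u (hU hu) (hUj u hu)
    have h2 := hb j (hSJ j hj)
    simp only [Nat.cast_zero, zero_mul] at h1
    linarith
  have key : ∀ i ≤ D, ∃ S' ⊆ S, ∃ (c : F) (ρ : Γ), nestL k B (D - i) ≤ S'.card ∧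
      ∀ j ∈ S', SmLe lv (t - ρ) (x (p j) - c) ∧ (i : Γ) * (b (j + 1) - b j) ≤ D * ρ := by
    intro i
    induction i with
    | zero =>
      intro _
      refine ⟨S, Subset.refl _, 0, 0, hcard, fun j hj => ⟨?_, by simp⟩⟩
      obtain ⟨h1, h2, -⟩ := hp j (hSJ j hj)
      rw [sub_zero, sub_zero]
      exact smLe_of_pos (hT.2 _ h1).1 h2.le
    | succ i ih =>
      intro hi
      obtain ⟨S', hS', c, ρ, hc, hρ⟩ := ih (by omega)
      rw [show D - i = D - (i + 1) + 1 by omega, nestL] at hc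
      obtain ⟨j, hj, U, L, hU, hL, hUc, hLc, hUj, hLj⟩ := widea_split k S' (by omega)
      have hjJ := hSJ j (hS' hj)
      obtain ⟨-, hg1, hg2, hg3⟩ := hgap j hjJ
      obtain ⟨c', hc'⟩ := L5 hv hk hT t (β j) (g j) (t - ρ) c (hgpos j hjJ) (by
          rw [← hUc, ← hinj U (hU.trans hS')]
          refine card_le_np fun q hq => ?_
          obtain ⟨u, hu, rfl⟩ := mem_image.1 hq
          have huJ := hSJ u (hS' (hU hu))
          obtain ⟨h1, h2, h3, -⟩ := hp u huJ
          have := le_of_step hb (i := j + 1) (j := u) (hUj u hu) huJ.le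
          exact ⟨h1, h2, (hρ u (hU hu)).1, by linarith⟩) hg3 (L.image p) (by
          intro q hq
          obtain ⟨l, hl, rfl⟩ := mem_image.1 hq
          have hlJ := hSJ l (hS' (hL hl))
          obtain ⟨h1, h2, -, h4, -⟩ := hp l hlJ
          have := le_of_step hb (i := l + 1) (j := j) (hLj l hl) hjJ.le
          exact ⟨h1, h2, (hρ l (hL hl)).1, by linarith⟩)
      rw [hinj L (hL.trans hS')] at hc'
      refine ⟨fl L (fun l => SmLe lv (t - ρ - g j) (x (p l) - c')),
        (fl_subset _ _).trans (hL.trans hS'), c', ρ + g j, ?_, fun l hl => ?_⟩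
      · have h1 : np (L.image p) (fun q => SmLe lv (t - ρ - g j) (x q - c')) ≤
            (fl L (fun l => SmLe lv (t - ρ - g j) (x (p l) - c'))).card := by
          refine le_trans (np_le_of_subset (S := (fl L (fun l =>
            SmLe lv (t - ρ - g j) (x (p l) - c'))).image p) fun q hq hq' => ?_) card_image_le
          obtain ⟨l, hl, rfl⟩ := mem_image.1 hq
          exact mem_image_of_mem _ (mem_fl.2 ⟨hl, hq'⟩)
        have h2 := Nat.mul_le_mul_left B h1
        have h3 : B * nestL k B (D - (i + 1)) <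
            B * (fl L (fun l => SmLe lv (t - ρ - g j) (x (p l) - c'))).card := by omega
        exact (Nat.lt_of_mul_lt_mul_left h3).le
      · obtain ⟨hl1, hl2⟩ := mem_fl.1 hl
        refine ⟨by rwa [← sub_sub], ?_⟩
        have h1 := (hρ l (hL hl1)).2
        have h2 := hwg l (hS' (hL hl1)) j (hS' hj) (hLj l hl1)
        push_cast
        linarith
  obtain ⟨S', hS', c, ρ, hc, hρ⟩ := key D le_rfl
  rw [Nat.sub_self, nestL] at hc
  obtain ⟨j, hj, U, L, -, hL, -, hLc, -, hLj⟩ := widea_split 0 S' (by omega)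
  have hjJ := hSJ j (hS' hj)
  obtain ⟨l0, hl0, hmax⟩ := exists_max_image L (fun l => x (p l)) (card_pos.1 (by omega))
  obtain ⟨-, -, h3, -, h5⟩ := hp j hjJ
  obtain ⟨h6, h7⟩ := h5 (x (p l0)) (by
    refine le_trans (show k ≤ (L.image p).card by rw [hinj L (hL.trans hS')]; omega) ?_
    refine card_le_np fun q hq => ?_
    obtain ⟨l, hl, rfl⟩ := mem_image.1 hq
    have hlJ := hSJ l (hS' (hL hl))
    obtain ⟨h1, h2, -, h4, -⟩ := hp l hlJ
    have := le_of_step hb (i := l + 1) (j := j) (hLj l hl) hjJ.le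
    exact ⟨h1, h2, by linarith, hmax l hl⟩)
  have h8 := SmLe.sub hv (hρ l0 (hL hl0)).1 (hρ j hj).1
  rw [sub_sub_sub_cancel_right] at h8
  have h9 := h8.le_of_pos (sub_pos.2 h6)
  have h10 := le_of_mul_le_mul_left (hρ j hj).2 (by exact_mod_cast hD)
  linarith

end

end Pool.Agent.Lib.MP_86319c_co
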